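import Pool.Agent.Lib.MP_17a322_nt.VG.Defs
import Pool.Agent.Lib.MP_17a322_nt.VN.Z7a

/-!
Comparison of the gains `gN`.
-/

universe u

namespace Pool.Agent.Lib.MP_17a322_nt.VG

open MvPolynomial Height Filter
open Pool.Agent.Lib.MP_17a322_nt.RO
open Pool.Agent.Lib.MP_17a322_nt.VJ
open Pool.Agent.Lib.MP_17a322_nt.VN

section

variable {K : Type u} [Field K] {n : ℕ} (T : Fin n → CT K)

/-- The sum of the distances to the boundary. -/
noncomputable def ls (s : Fin n → K) (v : AbsoluteValue K ℝ) : ℝ :=
  ∑ t, if (T t).isTor then - Real.log (v (s t)) else 0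

theorem ls_nonneg {s : Fin n → K} {v : AbsoluteValue K ℝ} (h : ∀ t, v (s t) ≤ 1) :
    0 ≤ ls T s v := by
  unfold ls
  refine Finset.sum_nonneg fun t _ => ?_
  split_ifs
  · have := Real.log_nonpos (v.nonneg (s t)) (h t)
    linarith
  · exact le_rfl

/-- The local term of `gN`. -/
noncomputable def gNl (N : ℝ) (s : Fin n → K) (a b : K) (v : AbsoluteValue K ℝ) : ℝ :=
  open Classical in
  if ∀ t, v (s t) ≤ 1 then
    max 0 (- Real.log (min 1 (max (v a) (v b))) - N * ls T s v) else 0

theorem gNl_nonneg (N : ℝ) (s : Fin n → K) (a b : K) (v : AbsoluteValue K ℝ) :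
    0 ≤ gNl T N s a b v := by
  unfold gNl
  split_ifs
  · exact le_max_left _ _
  · exact le_rfl

end

section

variable {K : Type u} [Field K] [AdmissibleAbsValues K] {n : ℕ} (T : Fin n → CT K)

theorem gN_eq (N : ℝ) (s : Fin n → K) (a b : K) : gN T N s a b = gs (gNl T N s a b) := rfl

theorem FS_log' (x : K) : FS (fun v : AbsoluteValue K ℝ => Real.log (v x)) := by
  rcases eq_or_ne x 0 with h | h
  · simp [FS, h]
  · exact FS_log_abv h

theorem FS_ls (s : Fin n → K) : FS (ls T s) := by
  unfold ls
  refine FS_sum Finset.univ fun t _ => ?_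
  by_cases h : (T t).isTor = true
  · simp only [h, if_true]
    have h1 := FS_const_mul (-1 : ℝ) (FS_log' (s t))
    simpa using h1
  · simp only [h]
    simp [FS]

theorem FS_max0 {f : AbsoluteValue K ℝ → ℝ} (hf : FS f) : FS (fun v => max 0 (f v)) := by
  refine hf.subset fun v hv => ?_
  intro h0
  apply hv
  show max 0 (f v.val) = 0
  rw [h0, max_self]

theorem FS_gNl (N : ℝ) (s : Fin n → K) (a b : K) : FS (gNl T N s a b) := by
  classical
  unfold gNl
  exact Z7_FS_ite (FS_max0 (FS_sub (Z7_FS_log_min a b) (FS_const_mul N (FS_ls T s))))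

theorem gN_nonneg (N : ℝ) (s : Fin n → K) (a b : K) : 0 ≤ gN T N s a b := by
  rw [gN_eq]
  exact gs_nonneg fun v _ => gNl_nonneg T N s a b v

/-- Monotonicity. -/
theorem gN_anti {N N' : ℝ} (h : N ≤ N') (s : Fin n → K) (a b : K) :
    gN T N' s a b ≤ gN T N s a b := by
  rw [gN_eq, gN_eq]
  refine gs_le (FS_gNl T N' s a b) (FS_gNl T N s a b) fun v _ => ?_
  unfold gNl
  split_ifs with hv
  · refine max_le_max le_rfl ?_
    have := mul_le_mul_of_nonneg_right h (ls_nonneg T hv)
    linarith
  · exact le_rfl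

theorem gN_one_le (N : ℝ) (hN : 0 ≤ N) (s : Fin n → K) : gN T N s 1 0 = 0 := by
  have h : gN T N s 1 0 = gs (fun _ : AbsoluteValue K ℝ => 0) := by
    rw [gN_eq]
    congr 1
    funext v
    unfold gNl
    split_ifs with hv
    · have h1 := ls_nonneg T hv
      have h2 := mul_nonneg hN h1
      rw [map_one, map_zero, max_eq_left zero_le_one, min_self, Real.log_one]
      exact max_eq_left (by linarith)
    · rfl
  rw [h]
  simp [gs]

theorem prod_tor (s : Fin n → K) (hs : ∀ t, (T t).isTor = true → s t ≠ 0)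
    (v : AbsoluteValue K ℝ) :
    Real.log (v (∏ t ∈ Finset.univ.filter (fun t => (T t).isTor = true), s t)) = - ls T s v := by
  unfold ls
  rw [map_prod, Real.log_prod]
  · rw [Finset.sum_filter, ← Finset.sum_neg_distrib]
    refine Finset.sum_congr rfl fun t _ => ?_
    split_ifs
    · rw [neg_neg]
    · rw [neg_zero]
  · intro t ht
    rw [Finset.mem_filter] at ht
    exact (v.pos (hs t ht.2)).ne'

/-- The local term of `cb`. -/
noncomputable def cbl {ι : Type*} (s : ι → K) (b : K) (v : AbsoluteValue K ℝ) : ℝ :=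
  open Classical in
  if ∀ t, v (s t) ≤ 1 then Real.log (max 1 (v b)) else 0

theorem cb_eq {ι : Type*} (s : ι → K) (b : K) : cb s b = gs (cbl s b) := rfl

theorem FS_cbl {ι : Type*} (s : ι → K) (b : K) : FS (cbl s b) := by
  classical
  unfold cbl
  exact Z7_FS_ite (FS_log_max b)

theorem Z7_gN_comb {s : Fin n → K} (hs : ∀ t, (T t).isTor = true → s t ≠ 0) (N : ℝ) (M : ℕ)
    {a b a' b' A B A' B' : K}
    (ha : (∏ t ∈ Finset.univ.filter (fun t => (T t).isTor = true), s t) ^ M * a' =
      A * a + B * b)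
    (hb : (∏ t ∈ Finset.univ.filter (fun t => (T t).isTor = true), s t) ^ M * b' =
      A' * a + B' * b) (h0 : a' ≠ 0 ∨ b' ≠ 0) :
    gN T (N + M) s a b ≤
      gN T N s a' b' + (cb s A + cb s B + cb s A' + cb s B' + totalWeight K * Real.log 2) := by
  classical
  set q := ∏ t ∈ Finset.univ.filter (fun t => (T t).isTor = true), s t with hq
  have hq0 : q ≠ 0 := by
    rw [hq]
    refine Finset.prod_ne_zero_iff.2 fun t ht => ?_
    rw [Finset.mem_filter] at ht
    exact hs t ht.2
  have h2 : gs (fun v : AbsoluteValue K ℝ => Real.log (cst v 2)) ≤ totalWeight K * Real.log 2 := by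
    have := gs_log_cst (L := K) (n := 2) (by norm_num)
    simpa using this
  refine le_trans ?_ (add_le_add_right (add_le_add_right h2 _) _)
  have hF : ∀ x : K, FS (cbl s x) := fun x => FS_cbl s x
  have hM : ∀ (N : ℝ) (x y : K), FS (gNl T N s x y) := fun N x y => FS_gNl T N s x y
  rw [gN_eq, gN_eq, cb_eq, cb_eq, cb_eq, cb_eq]
  rw [← gs_add (hF A) (hF B), ← gs_add (FS_add (hF A) (hF B)) (hF A'),
    ← gs_add (FS_add (FS_add (hF A) (hF B)) (hF A')) (hF B'),
    ← gs_add (FS_add (FS_add (FS_add (hF A) (hF B)) (hF A')) (hF B')) (FS_log_cst 2),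
    ← gs_add (hM N a' b')
      (FS_add (FS_add (FS_add (FS_add (hF A) (hF B)) (hF A')) (hF B')) (FS_log_cst 2))]
  refine gs_le (hM _ a b) (FS_add (hM N a' b')
      (FS_add (FS_add (FS_add (FS_add (hF A) (hF B)) (hF A')) (hF B')) (FS_log_cst 2)))
    fun v _ => ?_
  have hc := Z7_one_le_cst v
  unfold gNl cbl
  split_ifs with hv
  · have h1 : ∀ x : K, 1 ≤ max 1 (v x) := fun x => le_max_left _ _
    have h1A := h1 A
    have h1B := h1 B
    have h1A' := h1 A'
    have h1B' := h1 B'
    have hC1 : 1 ≤ max 1 (v A) * max 1 (v B) * max 1 (v A') * max 1 (v B') :=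
      one_le_mul_of_one_le_of_one_le (one_le_mul_of_one_le_of_one_le
        (one_le_mul_of_one_le_of_one_le h1A h1B) h1A') h1B'
    have hC : 1 ≤ max 1 (v A) * max 1 (v B) * max 1 (v A') * max 1 (v B') * cst v 2 :=
      one_le_mul_of_one_le_of_one_le hC1 hc
    have hls := ls_nonneg T hv
    have hqv : 0 < v q := v.pos hq0
    have hlq : Real.log (v q) = - ls T s v := by
      rw [hq]
      exact prod_tor T s hs v
    have hq1 : v q ≤ 1 := by
      by_contra hcon
      have := Real.log_pos (not_le.1 hcon)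
      linarith
    have hqM : v q ^ M ≤ 1 := pow_le_one₀ hqv.le hq1
    have hqM0 : 0 < v q ^ M := pow_pos hqv M
    set m := max (v a) (v b) with hmdef
    set m' := max (v a') (v b') with hmdef'
    have hm0 : 0 ≤ m := (v.nonneg a).trans (le_max_left _ _)
    have hm'0 : 0 < m' := by
      rcases h0 with h | h
      · exact (v.pos h).trans_le (le_max_left _ _)
      · exact (v.pos h).trans_le (le_max_right _ _)
    have hle : ∀ x y : K, v (x * a + y * b) ≤ cst v 2 * (max 1 (v x) * max 1 (v y) * m) := by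
      intro x y
      refine (Z7_abv_add_le v _ _).trans (mul_le_mul_of_nonneg_left ?_ (by linarith))
      have hx := h1 x
      have hy := h1 y
      rw [map_mul, map_mul]
      refine max_le ?_ ?_
      · calc v x * v a ≤ max 1 (v x) * m :=
              mul_le_mul (le_max_right _ _) (le_max_left _ _) (v.nonneg _) (by linarith)
          _ ≤ max 1 (v x) * max 1 (v y) * m :=
              mul_le_mul_of_nonneg_right (le_mul_of_one_le_right (by linarith) hy) hm0
      · calc v y * v b ≤ max 1 (v y) * m :=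
              mul_le_mul (le_max_right _ _) (le_max_right _ _) (v.nonneg _) (by linarith)
          _ ≤ max 1 (v x) * max 1 (v y) * m :=
              mul_le_mul_of_nonneg_right (le_mul_of_one_le_left (by linarith) hx) hm0
    have hmm : v q ^ M * m' ≤
        max 1 (v A) * max 1 (v B) * max 1 (v A') * max 1 (v B') * cst v 2 * m := by
      rw [hmdef', mul_max_of_nonneg _ _ hqM0.le]
      refine max_le ?_ ?_
      · rw [← map_pow, ← map_mul, ha]
        refine (hle A B).trans ?_
        calc cst v 2 * (max 1 (v A) * max 1 (v B) * m)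
            = max 1 (v A) * max 1 (v B) * (cst v 2 * m) * 1 * 1 := by ring
          _ ≤ max 1 (v A) * max 1 (v B) * (cst v 2 * m) * max 1 (v A') * max 1 (v B') := by
              gcongr
          _ = _ := by ring
      · rw [← map_pow, ← map_mul, hb]
        refine (hle A' B').trans ?_
        calc cst v 2 * (max 1 (v A') * max 1 (v B') * m)
            = 1 * 1 * max 1 (v A') * max 1 (v B') * (cst v 2 * m) := by ring
          _ ≤ max 1 (v A) * max 1 (v B) * max 1 (v A') * max 1 (v B') * (cst v 2 * m) := by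
              gcongr
          _ = _ := by ring
    set C := max 1 (v A) * max 1 (v B) * max 1 (v A') * max 1 (v B') * cst v 2 with hCdef
    have hmpos : 0 < m := by
      rcases hm0.lt_or_eq with h | h
      · exact h
      · rw [← h, mul_zero] at hmm
        exact absurd hmm (not_le.2 (mul_pos hqM0 hm'0))
    have hlog : Real.log (v q ^ M * min 1 m') ≤ Real.log (C * min 1 m) := by
      refine Real.log_le_log (mul_pos hqM0 (lt_min one_pos hm'0)) ?_
      rcases le_total 1 m with h | h
      · rw [min_eq_left h, mul_one]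
        exact (mul_le_one₀ hqM (lt_min one_pos hm'0).le (min_le_left _ _)).trans hC
      · rw [min_eq_right h]
        exact (mul_le_mul_of_nonneg_left (min_le_right _ _) hqM0.le).trans hmm
    have hlC : 0 ≤ Real.log C := Real.log_nonneg hC
    have hlC' : Real.log C = Real.log (max 1 (v A)) + Real.log (max 1 (v B)) +
        Real.log (max 1 (v A')) + Real.log (max 1 (v B')) + Real.log (cst v 2) := by
      rw [hCdef, Real.log_mul (by linarith) (by linarith), Real.log_mul (by positivity)
        (by linarith), Real.log_mul (by positivity) (by linarith),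
        Real.log_mul (by linarith) (by linarith)]
    rw [Real.log_mul (by linarith) (lt_min one_pos hmpos).ne',
      Real.log_mul hqM0.ne' (lt_min one_pos hm'0).ne', Real.log_pow, hlq] at hlog
    rw [← hlC']
    refine max_le ?_ ?_
    · have := le_max_left 0 (- Real.log (min 1 m') - N * ls T s v)
      linarith
    · have := le_max_right 0 (- Real.log (min 1 m') - N * ls T s v)
      have h7 : (N + M) * ls T s v = N * ls T s v + M * ls T s v := by ring
      have h8 : (M : ℝ) * - ls T s v = - (M * ls T s v) := by ring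
      rw [h7]
      rw [h8] at hlog
      linarith
  · simpa using Real.log_nonneg hc

end

section

variable {K : Type u} [Field K] [NumberField K] {n : ℕ} (T : Fin n → CT K) (H : ℕ → ℝ)
  (hH : Tendsto H (hyperfilter ℕ : Filter ℕ) atTop) (s : ℕ → Fin n → K)

/-- Comparison of gains. -/
theorem gN_comb' (hs : ∀ i t, (T t).isTor = true → s i t ≠ 0) (N : ℝ) (M : ℕ)
    (a b a' b' : ℕ → K) (A B A' B' : MvPolynomial (Fin n) (k0 K H hH))
    (ha : (∏ t ∈ Finset.univ.filter (fun t => (T t).isTor = true), gm fun i => s i t) ^ M *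
      gm a' = aeval (fun t => gm fun i => s i t) A * gm a +
      aeval (fun t => gm fun i => s i t) B * gm b)
    (hb : (∏ t ∈ Finset.univ.filter (fun t => (T t).isTor = true), gm fun i => s i t) ^ M *
      gm b' = aeval (fun t => gm fun i => s i t) A' * gm a +
      aeval (fun t => gm fun i => s i t) B' * gm b)
    (h0 : gm a' ≠ 0 ∨ gm b' ≠ 0) (δ : ℝ) (hδ : 0 < δ) :
    ∀ᶠ i in (hyperfilter ℕ : Filter ℕ),
      gN T (N + M) (s i) (a i) (b i) ≤ gN T N (s i) (a' i) (b' i) + δ * H i := by
  obtain ⟨α, hα, hα'⟩ := cb_rep H hH s A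
  obtain ⟨β, hβ, hβ'⟩ := cb_rep H hH s B
  obtain ⟨γ, hγ, hγ'⟩ := cb_rep H hH s A'
  obtain ⟨ζ, hζ, hζ'⟩ := cb_rep H hH s B'
  rw [← hα, ← hβ, ← gm_mul, ← gm_mul, ← gm_add, ← gm_prod, ← gm_pow, ← gm_mul, gm_eq_iff] at ha
  rw [← hγ, ← hζ, ← gm_mul, ← gm_mul, ← gm_add, ← gm_prod, ← gm_pow, ← gm_mul, gm_eq_iff] at hb
  have h0' : ∀ᶠ i in (hyperfilter ℕ : Filter ℕ), a' i ≠ 0 ∨ b' i ≠ 0 := by
    rcases h0 with h | h
    · rw [gm_ne_zero_iff] at h
      filter_upwards [h] with i hi
      exact Or.inl hi
    · rw [gm_ne_zero_iff] at h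
      filter_upwards [h] with i hi
      exact Or.inr hi
  filter_upwards [hα' (δ / 5) (by linarith), hβ' (δ / 5) (by linarith), hγ' (δ / 5) (by linarith),
    hζ' (δ / 5) (by linarith),
    Z7_eventually_const_le H hH (totalWeight K * Real.log 2) (δ / 5) (by linarith), ha, hb, h0']
    with i h1 h2 h3 h4 h5 h6 h7 h8
  have h9 := Z7_gN_comb T (s := s i) (hs i) N M (A := α i) (B := β i) (A' := γ i) (B' := ζ i)
    (a := a i) (b := b i) h6 h7 h8
  linarith

end

end Pool.Agent.Lib.MP_17a322_nt.VG
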