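import Pool.Agent.Lib.MP_17a322_nt.VG.B0
import Pool.Agent.Lib.MP_17a322_nt.VJ.A5
import Pool.Agent.Lib.MP_17a322_nt.VN.Z7a

/-!
# B1: the local defect and its restriction to the boundary
-/

universe u

namespace Pool.Agent.Lib.MP_17a322_nt.VG

open MvPolynomial Height Filter
open Pool.Agent.Lib.MP_17a322_nt.RO
open Pool.Agent.Lib.MP_17a322_nt.VJ
open Pool.Agent.Lib.MP_17a322_nt.VN

/-- Parts of the sum of the monomials. -/
theorem part_le {K σ : Type*} [Field K] (v : AbsoluteValue K ℝ) (g : MvPolynomial σ K)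
    (F : Finset (σ →₀ ℕ)) (hF : F ⊆ g.support) (w : (σ →₀ ℕ) → K) {B : ℝ} (hB : 0 ≤ B)
    (hw : ∀ e ∈ F, v (w e) ≤ B) : v (∑ e ∈ F, coeff e g * w e) ≤ NV v g * B := by
  have hterm : ∀ e ∈ F, v (coeff e g * w e) ≤ v (coeff e g) * B := by
    intro e he
    rw [map_mul]
    exact mul_le_mul_of_nonneg_left (hw e he) (v.nonneg _)
  by_cases hv : IsNonarchimedean v
  · refine SN.sum_le_max hv (SN_self v) _ _
      (mul_nonneg ((v.nonneg _).trans (coeff_le_NV v g 0)) hB) fun e he => ?_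
    exact (hterm e he).trans (mul_le_mul_of_nonneg_right (coeff_le_NV v g e) hB)
  · refine ((SN_self v).sum_le_sum _ _).trans ?_
    refine (Finset.sum_le_sum hterm).trans ?_
    rw [← Finset.sum_mul]
    refine mul_le_mul_of_nonneg_right ?_ hB
    unfold NV
    rw [if_neg hv]
    exact Finset.sum_le_sum_of_subset_of_nonneg hF fun e _ _ => v.nonneg _

section

variable {K : Type*} [Field K] {n m : ℕ}

/-- The constant of a family. -/
noncomputable def kap (g : Fin m → MvPolynomial (Fin n) K) (v : AbsoluteValue K ℝ) : ℝ :=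
  cst v 2 * ∏ k, max 1 (NV v (g k))

theorem one_le_prod_max (f : Fin m → ℝ) : 1 ≤ ∏ k, max 1 (f k) := by
  have h1 := Finset.prod_le_prod (s := Finset.univ) (f := fun _ : Fin m => (1 : ℝ))
    (g := fun k => max 1 (f k)) (fun _ _ => zero_le_one) (fun k _ => le_max_left _ _)
  rwa [Finset.prod_const_one] at h1

theorem le_prod_max (f : Fin m → ℝ) (k : Fin m) : max 1 (f k) ≤ ∏ k, max 1 (f k) := by
  rw [← Finset.mul_prod_erase Finset.univ _ (Finset.mem_univ k)]
  refine le_mul_of_one_le_right (zero_le_one.trans (le_max_left _ _)) ?_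
  have h1 := Finset.prod_le_prod (s := Finset.univ.erase k) (f := fun _ : Fin m => (1 : ℝ))
    (g := fun k => max 1 (f k)) (fun _ _ => zero_le_one) (fun k _ => le_max_left _ _)
  rwa [Finset.prod_const_one] at h1

theorem one_le_kap (g : Fin m → MvPolynomial (Fin n) K) (v : AbsoluteValue K ℝ) :
    1 ≤ kap g v :=
  one_le_mul_of_one_le_of_one_le (Z7_one_le_cst v) (one_le_prod_max _)

theorem max_NV_le_kap (g : Fin m → MvPolynomial (Fin n) K) (v : AbsoluteValue K ℝ) (k : Fin m) :
    cst v 2 * max 1 (NV v (g k)) ≤ kap g v :=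
  mul_le_mul_of_nonneg_left (le_prod_max (fun k => NV v (g k)) k)
    (zero_le_one.trans (Z7_one_le_cst v))

theorem NV_le_kap (g : Fin m → MvPolynomial (Fin n) K) (v : AbsoluteValue K ℝ) (k : Fin m) :
    NV v (g k) ≤ kap g v := by
  refine (le_max_right 1 _).trans (le_trans ?_ (max_NV_le_kap g v k))
  exact le_mul_of_one_le_left (zero_le_one.trans (le_max_left _ _)) (Z7_one_le_cst v)

/-- The local defect. -/
noncomputable def lam (d : Fin n → ℕ) (g : Fin m → MvPolynomial (Fin n) K) (x : Fin n → K)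
    (v : AbsoluteValue K ℝ) : ℝ :=
  ∑ t, (d t : ℝ) * Real.log (max 1 (v (x t))) - Real.log (⨆ k, v (eval x (g k)))

theorem log_prod_max (v : AbsoluteValue K ℝ) (d : Fin n → ℕ) (x : Fin n → K) :
    Real.log (∏ t, max 1 (v (x t)) ^ d t) = ∑ t, (d t : ℝ) * Real.log (max 1 (v (x t))) := by
  rw [Real.log_prod (fun t _ => (pow_pos (lt_max_of_lt_left one_pos) _).ne')]
  refine Finset.sum_congr rfl fun t _ => ?_
  rw [Real.log_pow]

theorem iSup_pos (v : AbsoluteValue K ℝ) (c : Fin m → K) (h : ∃ k, c k ≠ 0) :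
    0 < ⨆ k, v (c k) := by
  obtain ⟨k, hk⟩ := h
  exact (v.pos hk).trans_le (Finite.le_ciSup_of_le k le_rfl)

/-- The local defect is bounded below. -/
theorem lam_ge (d : Fin n → ℕ) (g : Fin m → MvPolynomial (Fin n) K)
    (hd : ∀ k t, (g k).degreeOf t ≤ d t) (x : Fin n → K) (hg : ∃ k, eval x (g k) ≠ 0)
    (v : AbsoluteValue K ℝ) : 0 ≤ lam d g x v + Real.log (kap g v) := by
  have hne : Nonempty (Fin m) := ⟨hg.choose⟩
  have hQ : 0 < ∏ t, max 1 (v (x t)) ^ d t :=
    Finset.prod_pos fun t _ => pow_pos (lt_max_of_lt_left one_pos) _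
  have hκ : 0 < kap g v := one_pos.trans_le (one_le_kap g v)
  have h1 : ⨆ k, v (eval x (g k)) ≤ kap g v * ∏ t, max 1 (v (x t)) ^ d t := by
    refine ciSup_le fun k => ?_
    have h2 := (SN_self v).aeval_le (g k) d (hd k) x
    rw [aeval_eq_eval] at h2
    exact h2.trans (mul_le_mul_of_nonneg_right (NV_le_kap g v k) hQ.le)
  have h2 := Real.log_le_log (iSup_pos v _ hg) h1
  rw [Real.log_mul hκ.ne' hQ.ne', log_prod_max] at h2
  unfold lam
  linarith

/-- The local defect in the chart of the place. -/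
theorem lam_chart (d : Fin n → ℕ) (g : Fin m → MvPolynomial (Fin n) K)
    (hd : ∀ k t, (g k).degreeOf t ≤ d t) (x : Fin n → K) (hx : ∀ t, x t ≠ 0)
    (hg : ∃ k, eval x (g k) ≠ 0) (v : AbsoluteValue K ℝ) (χ : Fin n → Bool)
    (hχ : ∀ t, χ t = true ↔ 1 < v (x t)) :
    lam d g x v =
      - Real.log (⨆ k, v (eval (fun t => sc (χ t) (x t)) (chp χ d (g k)))) ∧
      (∃ k, eval (fun t => sc (χ t) (x t)) (chp χ d (g k)) ≠ 0) := by
  have hmul : ∀ k, eval (fun t => sc (χ t) (x t)) (chp χ d (g k)) *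
      ∏ t, (if χ t then x t ^ d t else 1) = eval x (g k) := by
    intro k
    have h1 := aeval_chp_mul χ d (g k) (hd k) x (fun t _ => hx t)
    rw [aeval_eq_eval, aeval_eq_eval] at h1
    exact h1
  have hvp : v (∏ t, (if χ t then x t ^ d t else 1)) = ∏ t, max 1 (v (x t)) ^ d t := by
    rw [map_prod]
    refine Finset.prod_congr rfl fun t _ => ?_
    by_cases h1 : 1 < v (x t)
    · rw [if_pos ((hχ t).2 h1), map_pow, max_eq_right h1.le]
    · have h2 : ¬ χ t = true := fun h2 => h1 ((hχ t).1 h2)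
      rw [if_neg h2, map_one, max_eq_left (not_lt.1 h1), one_pow]
  have hQ0 : 0 < ∏ t, max 1 (v (x t)) ^ d t :=
    Finset.prod_pos fun t _ => pow_pos (lt_max_of_lt_left one_pos) _
  have hve : ∀ k, v (eval x (g k)) =
      v (eval (fun t => sc (χ t) (x t)) (chp χ d (g k))) * ∏ t, max 1 (v (x t)) ^ d t := by
    intro k
    rw [← hmul k, map_mul, hvp]
  have hsup : ⨆ k, v (eval x (g k)) =
      (⨆ k, v (eval (fun t => sc (χ t) (x t)) (chp χ d (g k)))) *
        ∏ t, max 1 (v (x t)) ^ d t := by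
    simp only [hve]
    exact (Real.iSup_mul_of_nonneg hQ0.le _).symm
  have hex : ∃ k, eval (fun t => sc (χ t) (x t)) (chp χ d (g k)) ≠ 0 := by
    obtain ⟨k, hk⟩ := hg
    refine ⟨k, fun h => hk ?_⟩
    rw [← hmul k, h, zero_mul]
  refine ⟨?_, hex⟩
  unfold lam
  rw [hsup, Real.log_mul (iSup_pos v _ hex).ne' hQ0.ne', log_prod_max]
  ring

theorem abv_vc_le (v : AbsoluteValue K ℝ) (c : Bool) {s : K} (hs : v s ≤ 1) (j : Fin 2) :
    v (vc c s j) ≤ 1 := by
  unfold vc
  cases c <;> fin_cases j <;> simp [hs]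

/-- The local defect of the restriction to the boundary. -/
theorem lam_min_le (d : Fin (n + 1) → ℕ) (g : Fin m → MvPolynomial (Fin (n + 1)) K)
    (hd : ∀ k t, (g k).degreeOf t ≤ d t) (x : Fin (n + 1) → K) (hx : ∀ t, x t ≠ 0)
    (hg : ∃ k, eval x (g k) ≠ 0) (v : AbsoluteValue K ℝ) (χ : Fin (n + 1) → Bool)
    (hχ : ∀ t, χ t = true ↔ 1 < v (x t)) (t : Fin (n + 1))
    (hg' : ∃ k, eval (fun i => x (t.succAbove i)) (cof t (cd (χ t) (d t)) (g k)) ≠ 0) :
    min (lam d g x v) (- Real.log (v (sc (χ t) (x t)))) ≤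
      lam (fun i => d (t.succAbove i)) (fun k => cof t (cd (χ t) (d t)) (g k))
        (fun i => x (t.succAbove i)) v + Real.log (kap g v) := by
  classical
  have hne : Nonempty (Fin m) := ⟨hg.choose⟩
  have hle : ∀ t, v (sc (χ t) (x t)) ≤ 1 := by
    intro t
    unfold sc
    by_cases h1 : 1 < v (x t)
    · rw [if_pos ((hχ t).2 h1), map_inv₀]
      exact inv_le_one_of_one_le₀ h1.le
    · have h2 : ¬ χ t = true := fun h2 => h1 ((hχ t).1 h2)
      rw [if_neg h2]
      exact not_lt.1 h1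
  obtain ⟨h1, h2⟩ := lam_chart d g hd x hx hg v χ hχ
  obtain ⟨h3, h4⟩ := lam_chart (fun i => d (t.succAbove i))
    (fun k => cof t (cd (χ t) (d t)) (g k)) (fun k i => degreeOf_cof t _ (g k) d (hd k) i)
    (fun i => x (t.succAbove i)) (fun i => hx _) hg' v (fun i => χ (t.succAbove i))
    (fun i => hχ _)
  rw [h1, h3]
  obtain ⟨s, hs⟩ : ∃ s : Fin (n + 1) → K, s = fun t => sc (χ t) (x t) := ⟨_, rfl⟩
  have hst : ∀ t, sc (χ t) (x t) = s t := fun t => by rw [hs]
  simp only [hst] at hle h2 h4 ⊢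
  have hs0 : 0 < v (s t) := by
    rw [← hst]
    exact v.pos (sc_ne_zero _ (hx t))
  obtain ⟨c, hc⟩ : ∃ c : Fin m → K, c = fun k => eval (fun t => s t) (chp χ d (g k)) := ⟨_, rfl⟩
  obtain ⟨b, hb⟩ : ∃ b : Fin m → K, b = fun k => eval (fun i => s (t.succAbove i))
    (chp (fun i => χ (t.succAbove i)) (fun i => d (t.succAbove i))
      (cof t (cd (χ t) (d t)) (g k))) := ⟨_, rfl⟩
  have hcv : ∀ k, eval (fun t => s t) (chp χ d (g k)) = c k := fun k => by rw [hc]
  have hbv : ∀ k, eval (fun i => s (t.succAbove i))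
    (chp (fun i => χ (t.succAbove i)) (fun i => d (t.succAbove i))
      (cof t (cd (χ t) (d t)) (g k))) = b k := fun k => by rw [hb]
  simp only [hcv] at h2 ⊢
  simp only [hbv] at h4 ⊢
  have hM := iSup_pos v _ h2
  have hM' := iSup_pos v _ h4
  have hκ : 0 < kap g v := one_pos.trans_le (one_le_kap g v)
  have hmax : 0 < max (⨆ k, v (c k)) (v (s t)) := lt_max_of_lt_left hM
  have key : ∀ k, v (b k) ≤ kap g v * max (⨆ k, v (c k)) (v (s t)) := by
    intro k
    have hbk : b k = ∑ e ∈ (g k).support.filter (fun e => e t = cd (χ t) (d t)), coeff e (g k) *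
        ∏ i, (vc (χ i) (s i) 0 ^ e i * vc (χ i) (s i) 1 ^ (d i - e i)) := by
      rw [← hbv]
      have h5 := aeval_chp_cof χ d (g k) s t
      rw [aeval_eq_eval] at h5
      exact h5
    have hck : c k = ∑ e ∈ (g k).support, coeff e (g k) *
        ∏ i, (vc (χ i) (s i) 0 ^ e i * vc (χ i) (s i) 1 ^ (d i - e i)) := by
      rw [← hcv]
      have h5 := aeval_chp χ d (g k) s
      rw [aeval_eq_eval] at h5
      exact h5
    have hsplit := Finset.sum_filter_add_sum_filter_not (g k).support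
      (fun e => e t = cd (χ t) (d t)) (fun e => coeff e (g k) *
        ∏ i, (vc (χ i) (s i) 0 ^ e i * vc (χ i) (s i) 1 ^ (d i - e i)))
    rw [← hck, ← hbk] at hsplit
    obtain ⟨r, hr⟩ : ∃ r : K, r = ∑ e ∈ (g k).support.filter
      (fun e => ¬ e t = cd (χ t) (d t)), coeff e (g k) *
        ∏ i, (vc (χ i) (s i) 0 ^ e i * vc (χ i) (s i) 1 ^ (d i - e i)) := ⟨_, rfl⟩
    rw [← hr] at hsplit
    have hrle : v r ≤ NV v (g k) * v (s t) := by
      rw [hr]
      refine part_le v (g k) _ (Finset.filter_subset _ _) _ (v.nonneg _) fun e he => ?_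
      rw [Finset.mem_filter] at he
      rw [map_prod, ← Finset.mul_prod_erase Finset.univ _ (Finset.mem_univ t)]
      have hfac : ∀ i, v (vc (χ i) (s i) 0 ^ e i * vc (χ i) (s i) 1 ^ (d i - e i)) ≤ 1 := by
        intro i
        rw [map_mul, map_pow, map_pow]
        exact mul_le_one₀ (pow_le_one₀ (v.nonneg _) (abv_vc_le v _ (hle i) 0))
          (pow_nonneg (v.nonneg _) _) (pow_le_one₀ (v.nonneg _) (abv_vc_le v _ (hle i) 1))
      have h6 : ∏ i ∈ Finset.univ.erase t,
          v (vc (χ i) (s i) 0 ^ e i * vc (χ i) (s i) 1 ^ (d i - e i)) ≤ 1 :=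
        Finset.prod_le_one (fun i _ => v.nonneg _) fun i _ => hfac i
      have h7 : v (vc (χ t) (s t) 0 ^ e t * vc (χ t) (s t) 1 ^ (d t - e t)) ≤ v (s t) := by
        have h8 : e t ≤ d t := (monomial_le_degreeOf t he.1).trans (hd k t)
        have h9 := he.2
        have h10 := hle t
        unfold vc cd at *
        cases hχt : χ t
        · rw [hχt] at h9
          simp only [Bool.false_eq_true, if_false] at h9
          simp only [Bool.false_eq_true, if_false, Matrix.cons_val_zero, Matrix.cons_val_one,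
            one_pow, mul_one, map_pow]
          exact pow_le_of_le_one (v.nonneg _) h10 h9
        · rw [hχt] at h9
          simp only [if_true] at h9
          simp only [if_true, Matrix.cons_val_zero, Matrix.cons_val_one, one_pow, one_mul, map_pow]
          exact pow_le_of_le_one (v.nonneg _) h10 (by omega)
      calc _ ≤ v (s t) * 1 := mul_le_mul h7 h6 (Finset.prod_nonneg fun i _ => v.nonneg _)
              (v.nonneg _)
        _ = v (s t) := mul_one _
    have hb' : b k = c k + -r := by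
      rw [← hsplit]
      ring
    rw [hb']
    refine (Z7_abv_add_le v _ _).trans ?_
    rw [v.map_neg]
    have hc2 := Z7_one_le_cst v
    have h5 : max (v (c k)) (v r) ≤ max 1 (NV v (g k)) * max (⨆ k, v (c k)) (v (s t)) := by
      refine max_le ?_ ?_
      · have h6 : v (c k) ≤ ⨆ k, v (c k) := Finite.le_ciSup_of_le k le_rfl
        have h8 : v (c k) ≤ max (⨆ k, v (c k)) (v (s t)) := h6.trans (le_max_left _ _)
        exact h8.trans (le_mul_of_one_le_left hmax.le (le_max_left _ _))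
      · refine hrle.trans ?_
        exact mul_le_mul (le_max_right _ _) (le_max_right _ _) (v.nonneg _)
          (zero_le_one.trans (le_max_left _ _))
    calc cst v 2 * max (v (c k)) (v r)
        ≤ cst v 2 * (max 1 (NV v (g k)) * max (⨆ k, v (c k)) (v (s t))) :=
          mul_le_mul_of_nonneg_left h5 (zero_le_one.trans hc2)
      _ = cst v 2 * max 1 (NV v (g k)) * max (⨆ k, v (c k)) (v (s t)) := by ring
      _ ≤ kap g v * max (⨆ k, v (c k)) (v (s t)) :=
          mul_le_mul_of_nonneg_right (max_NV_le_kap g v k) hmax.le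
  have h5 : ⨆ k, v (b k) ≤ kap g v * max (⨆ k, v (c k)) (v (s t)) := ciSup_le key
  have h6 := Real.log_le_log hM' h5
  rw [Real.log_mul hκ.ne' hmax.ne'] at h6
  rcases le_total (⨆ k, v (c k)) (v (s t)) with h7 | h7
  · rw [max_eq_right h7] at h6
    have h8 := min_le_right (- Real.log (⨆ k, v (c k))) (- Real.log (v (s t)))
    linarith
  · rw [max_eq_left h7] at h6
    have h8 := min_le_left (- Real.log (⨆ k, v (c k))) (- Real.log (v (s t)))
    linarith

end

end Pool.Agent.Lib.MP_17a322_nt.VG
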