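import Pool.Agent.Lib.MP_17a322_nt.VG.C0

/-!
Block polynomials, degrees (coordinates of both types).
-/

universe u

namespace Pool.Agent.Lib.MP_17a322_nt.VG

open MvPolynomial Height
open Pool.Agent.Lib.MP_17a322_nt.RO Pool.Agent.Lib.MP_17a322_nt.VJ
open Pool.Agent.Lib.MP_17a322_nt.VN

theorem chG_degree {K : Type u} [Field K] (W : CT K) {σ : Type*} {y : σ} {r q : ℕ}
    {R Q : Fin 2 → MvPolynomial σ K} (hR : ∀ i, degreeOf y (R i) ≤ r)
    (hQ : ∀ i, degreeOf y (Q i) ≤ q) (c e : Bool) {b ν : ℕ} (hν : ν ≤ b) :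
    degreeOf y (chG W R Q c e b ν) ≤ b * (2 * (r + q)) := by
  cases W with
  | ell W => exact VN.chG_degree W hR hQ c e hν
  | tor =>
    cases e
    · change degreeOf y ((Q 0 * R 1) ^ ν * (Q 1 * R 0) ^ (b - ν)) ≤ _
      have h1 : degreeOf y ((Q 0 * R 1) ^ ν) ≤ ν * (q + r) := E8_pow _ (E8_mul (hQ 0) (hR 1))
      have h2 : degreeOf y ((Q 1 * R 0) ^ (b - ν)) ≤ (b - ν) * (q + r) :=
        E8_pow _ (E8_mul (hQ 1) (hR 0))
      refine (E8_mul h1 h2).trans ?_
      rw [← Nat.add_mul, Nat.add_sub_cancel' hν]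
      exact Nat.mul_le_mul le_rfl (by omega)
    · change degreeOf y (0 : MvPolynomial σ K) ≤ _
      rw [degreeOf_zero]
      exact Nat.zero_le _

theorem UU_degree {K : Type*} [Field K] {n : ℕ} (W : Fin n → CT K)
    (χ : Fin n → Bool) (j b : ℕ) (c e : Fin n → Bool) (ν : Fin n → ℕ) (hν : ∀ t, ν t ≤ b)
    (t : Fin n) :
    degreeOf (Sum.inl t) (UU W χ j b c e ν) ≤ 2 * (b * 4 ^ j) ∧
      degreeOf (Sum.inr t) (UU W χ j b c e ν) ≤ 2 * b := by
  classical
  have key : ∀ y : Fin n ⊕ Fin n, degreeOf y (UU W χ j b c e ν) ≤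
      ∑ t, b * (2 * (4 ^ j * (if y = Sum.inl t then 1 else 0) + if y = Sum.inr t then 1 else 0)) := by
    intro y
    unfold UU UV
    refine (degreeOf_prod_le y _ _).trans (Finset.sum_le_sum fun t _ => ?_)
    exact chG_degree (W t) (E8_mu (W t) (E8_vec _ _) j) (E8_vc _ _ _) (c t) (e t) (hν t)
  constructor
  · refine (key (Sum.inl t)).trans (le_of_eq ?_)
    rw [Finset.sum_eq_single t]
    · rw [if_pos rfl, if_neg (by simp)]
      ring
    · intro t' _ ht
      rw [if_neg (fun h => ht (Sum.inl_injective h).symm), if_neg (by simp)]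
      simp
    · intro h
      exact absurd (Finset.mem_univ t) h
  · refine (key (Sum.inr t)).trans (le_of_eq ?_)
    rw [Finset.sum_eq_single t]
    · rw [if_neg (by simp), if_pos rfl]
      ring
    · intro t' _ ht
      rw [if_neg (by simp), if_neg (fun h => ht (Sum.inr_injective h).symm)]
      simp
    · intro h
      exact absurd (Finset.mem_univ t) h

end Pool.Agent.Lib.MP_17a322_nt.VG
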