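import Pool.Agent.Lib.MP_17a322_nt.VG.C02
import Pool.Agent.Lib.MP_17a322_nt.VG.C03
import Pool.Agent.Lib.MP_17a322_nt.VN.C11

/-!
Sizes of the linear equations (coordinates of both types).
-/

universe u

namespace Pool.Agent.Lib.MP_17a322_nt.VG

open MvPolynomial Height
open Pool.Agent.Lib.MP_17a322_nt.RO Pool.Agent.Lib.MP_17a322_nt.VJ
open Pool.Agent.Lib.MP_17a322_nt.VN

theorem MC_zero {K : Type*} [Field K] {k e : ℕ} (ρ : REP K (k + 2) e) {D : ℕ} (hD : ρ.Deg D)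
    (W : Fin (k + 2) → CT K) (χ : Fin (k + 2) → Bool) {N J j : ℕ} (hj : j ≤ J)
    (c ε : Fin (k + 2) → Bool) (l : Fin (e + 1)) (q β a μ : Fin (k + 2) → ℕ)
    (ha : a ∈ box (fun _ : Fin (k + 2) => N * 4 ^ J + 1))
    (hμ : μ ∈ box (fun _ : Fin (k + 2) => N * 4 ^ (J - j) + 1))
    (h : MC ρ W χ j (N * 4 ^ (J - j)) c ε l q β a μ ≠ 0) :
    q ∈ box (fun _ : Fin (k + 2) => 3 * (N * 4 ^ J) + 1) ∧
      ∀ t, β t < 2 * (k + 2) * (N * 4 ^ (J - j)) * D + 1 := by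
  classical
  have hμ' : ∀ t, μ t ≤ N * 4 ^ (J - j) := fun t => Nat.lt_succ_iff.1 ((mem_box _ _).1 hμ t)
  have ha' : ∀ t, a t ≤ N * 4 ^ J := fun t => Nat.lt_succ_iff.1 ((mem_box _ _).1 ha t)
  have hbj : N * 4 ^ (J - j) * 4 ^ j = N * 4 ^ J := by
    rw [mul_assoc, ← pow_add, Nat.sub_add_cancel hj]
  set b := N * 4 ^ (J - j) with hb
  set P := GG ρ (UU W χ j b c ε μ) l with hP
  have hdeg := UU_degree W χ j b c ε μ hμ'
  have hy : ∀ y, sf q β y ≤ Sum.elim a (fun _ => 0) y + degreeOf y P := by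
    intro y
    have h1 := monomial_le_degreeOf y (mem_support_iff.2 h)
    refine h1.trans ((degreeOf_mul_le _ _ _).trans ?_)
    exact Nat.add_le_add_right (C11_degree_prod a y) _
  refine ⟨(mem_box _ _).2 fun t => ?_, fun t => ?_⟩
  · have h1 : q t ≤ a t + degreeOf (Sum.inl t) P := hy (Sum.inl t)
    have h2 : degreeOf (Sum.inl t) P ≤ degreeOf (Sum.inl t) (UU W χ j b c ε μ) :=
      GG_degree_inl ρ (UU W χ j b c ε μ) l t
    have h3 := (hdeg t).1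
    rw [hbj] at h3
    have h4 := ha' t
    omega
  · have h1 : β t ≤ 0 + degreeOf (Sum.inr t) P := hy (Sum.inr t)
    have h2 : ∑ t, degreeOf (Sum.inr t) (UU W χ j b c ε μ) ≤ (k + 2) * (2 * b) := by
      refine (Finset.sum_le_sum fun t _ => (hdeg t).2).trans ?_
      rw [Finset.sum_const, Finset.card_univ, Fintype.card_fin, smul_eq_mul]
    have h3 : degreeOf (Sum.inr t) P ≤ (k + 2) * (2 * b) * D :=
      GG_degree_inr ρ (UU W χ j b c ε μ) h2 t
        (fun j l m => (degreeOf_le_totalDegree _ _).trans (hD.2.2 j l m)) l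
    have h4 : 2 * (k + 2) * b * D = (k + 2) * (2 * b) * D := by ring
    rw [h4]
    rw [zero_add] at h1
    exact Nat.lt_succ_iff.2 (h1.trans h3)

theorem MC_le {K : Type*} [Field K] (v : AbsoluteValue K ℝ) {k e : ℕ} (ρ : REP K (k + 2) e)
    (W : Fin (k + 2) → CT K) (χ : Fin (k + 2) → Bool) (j b : ℕ)
    (c ε : Fin (k + 2) → Bool) (l : Fin (e + 1)) (q β a μ : Fin (k + 2) → ℕ)
    (hμ : ∀ t, μ t ≤ b) :
    v (MC ρ W χ j b c ε l q β a μ) ≤ (∏ t, lc (W t) v) ^ (49 * (b * 4 ^ j)) *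
      (cst v (e + 1) * ρ.RB v) ^ (2 * (k + 2) * b) := by
  classical
  have hS := SN_NV v (σ := Fin (k + 2) ⊕ Fin (k + 2))
  unfold MC
  refine (coeff_le_NV v _ _).trans ?_
  have hdeg := UU_degree W χ j b c ε μ hμ
  have h2 : ∑ t, degreeOf (Sum.inr t) (UU W χ j b c ε μ) ≤ 2 * (k + 2) * b := by
    refine (Finset.sum_le_sum fun t _ => (hdeg t).2).trans (le_of_eq ?_)
    rw [Finset.sum_const, Finset.card_univ, Fintype.card_fin, smul_eq_mul]
    ring
  have h3 := GG_NV v ρ (UU W χ j b c ε μ) h2 (one_le_RB ρ v) (fun j l m => M_le_RB ρ v j l m) l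
  have h4 := NV_UU (K := K) (L := K) v W χ j b c ε μ hμ
  rw [Algebra.algebraMap_self, MvPolynomial.map_id] at h4
  have h5 : NV v (∏ t, (X (Sum.inl t) : MvPolynomial (Fin (k + 2) ⊕ Fin (k + 2)) K) ^ a t) ≤ 1 := by
    have h6 : ∏ t, (X (Sum.inl t) : MvPolynomial (Fin (k + 2) ⊕ Fin (k + 2)) K) ^ a t =
        monomial (sf a fun _ => 0) 1 := by
      rw [monomial_eq, Finsupp.prod_fintype _ _ (fun i => pow_zero _), C_1, one_mul,
        Fintype.prod_sum_type]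
      have h7 : ∏ t : Fin (k + 2), (X (Sum.inr t) : MvPolynomial (Fin (k + 2) ⊕ Fin (k + 2)) K) ^
          (sf a fun _ => 0) (Sum.inr t) = 1 :=
        Finset.prod_eq_one fun t _ => pow_zero _
      rw [h7, mul_one]
      rfl
    rw [h6, NV_monomial, map_one]
  have hc : 0 ≤ cst v (e + 1) * ρ.RB v :=
    mul_nonneg (cst_nonneg v _) (zero_le_one.trans (one_le_RB ρ v))
  calc NV v ((∏ t, X (Sum.inl t) ^ a t) * GG ρ (UU W χ j b c ε μ) l)
      ≤ NV v (∏ t, X (Sum.inl t) ^ a t) * NV v (GG ρ (UU W χ j b c ε μ) l) := hS.mul _ _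
    _ ≤ 1 * NV v (GG ρ (UU W χ j b c ε μ) l) := mul_le_mul_of_nonneg_right h5 (hS.nonneg _)
    _ = NV v (GG ρ (UU W χ j b c ε μ) l) := one_mul _
    _ ≤ NV v (UU W χ j b c ε μ) * (cst v (e + 1) * ρ.RB v) ^ (2 * (k + 2) * b) := h3
    _ ≤ _ := mul_le_mul_of_nonneg_right h4 (pow_nonneg hc _)

theorem matrix_height {K : Type u} [Field K] [NumberField K] {k : ℕ}
    (W : Fin (k + 2) → CT K) (e m N : ℕ) :
    ∃ C : ℝ, 0 ≤ C ∧ ∀ (J : ℕ) (j : Fin m → ℕ) (ρ : Fin m → REP K (k + 2) e)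
      (χ : Fin (k + 2) → Bool), (∀ i, j i ≤ J) → ∀ (ι : Type) [Finite ι] (x : ι → K),
      (∀ p, x p = 0 ∨ ∃ (i : Fin m) (c ε : Fin (k + 2) → Bool) (l : Fin (e + 1))
        (q β a μ : Fin (k + 2) → ℕ), (∀ t, μ t ≤ N * 4 ^ (J - j i)) ∧
          x p = MC (ρ i) W χ (j i) (N * 4 ^ (J - j i)) c ε l q β a μ) →
      logHeight x ≤ C * (4 ^ J + ∑ i, 4 ^ (J - j i) * (ρ i).ht) := by
  classical
  choose C hC0 hC using fun t : Fin (k + 2) => gs_log_lc_le (K := K) (W t)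
  set f : ℝ := (Module.finrank ℚ K : ℝ) with hf
  have hf0 : 0 ≤ f := Nat.cast_nonneg _
  have hle0 : 0 ≤ Real.log ((e + 1 : ℕ) : ℝ) := Real.log_natCast_nonneg _
  have hCs : 0 ≤ ∑ t, C t * f := Finset.sum_nonneg fun t _ => mul_nonneg (hC0 t) hf0
  set A : ℝ := 49 * N * ∑ t, C t * f with hA
  set B : ℝ := m * (2 * (k + 2) * N * (f * Real.log ((e + 1 : ℕ) : ℝ))) with hB
  set E : ℝ := 2 * (k + 2) * N with hE
  have hA0 : 0 ≤ A := by positivity
  have hB0 : 0 ≤ B := by positivity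
  have hE0 : 0 ≤ E := by positivity
  refine ⟨A + B + E, by positivity, ?_⟩
  intro J j ρ χ hj ι _ x hx
  have hht : 0 ≤ ∑ i, (4 : ℝ) ^ (J - j i) * (ρ i).ht :=
    Finset.sum_nonneg fun i _ => mul_nonneg (by positivity) (ht_nonneg (ρ i))
  have h4J : (0 : ℝ) ≤ 4 ^ J := by positivity
  by_cases hx0 : x = 0
  · rw [hx0, logHeight_zero]
    positivity
  rw [← gs_log_iSup hx0]
  let lcf : Fin (k + 2) → AbsoluteValue K ℝ → ℝ := fun t v => Real.log (lc (W t) v)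
  let rbf : Fin m → AbsoluteValue K ℝ → ℝ := fun i v => Real.log ((ρ i).RB v)
  let csf : AbsoluteValue K ℝ → ℝ := fun v => Real.log (cst v (e + 1))
  have hF1 : FS (fun v : AbsoluteValue K ℝ => ∑ t, ((49 * (N * 4 ^ J) : ℕ) : ℝ) * lcf t v) :=
    FS_sum _ fun t _ => FS_const_mul _ (FS_log_lc (W t))
  have hF2 : ∀ i : Fin m, FS (fun v : AbsoluteValue K ℝ =>
      ((2 * (k + 2) * (N * 4 ^ (J - j i)) : ℕ) : ℝ) * (csf v + rbf i v)) := fun i =>
    FS_const_mul _ (FS_add (FS_log_cst _) (FS_log_RB (ρ i)))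
  have hF3 : FS (fun v : AbsoluteValue K ℝ => ∑ i,
      ((2 * (k + 2) * (N * 4 ^ (J - j i)) : ℕ) : ℝ) * (csf v + rbf i v)) :=
    FS_sum _ fun i _ => hF2 i
  refine (gs_le (FS_log_iSup hx0) (FS_add hF1 hF3) fun v _ => ?_).trans ?_
  · obtain ⟨p, hp⟩ := Function.ne_iff.mp hx0
    have : Nonempty ι := ⟨p⟩
    have hlc : ∀ t, 1 ≤ lc (W t) v := fun t => one_le_lc (W t) v
    have hlcp : 1 ≤ ∏ t, lc (W t) v := E1_one_le_prod _ _ hlc
    have hcr : ∀ i, 1 ≤ cst v (e + 1) * (ρ i).RB v := fun i =>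
      one_le_mul_of_one_le_of_one_le (one_le_cst v (by omega)) (one_le_RB (ρ i) v)
    have hcrp : ∀ i, 1 ≤ (cst v (e + 1) * (ρ i).RB v) ^ (2 * (k + 2) * (N * 4 ^ (J - j i))) :=
      fun i => one_le_pow₀ (hcr i)
    have hbig : 1 ≤ (∏ t, lc (W t) v) ^ (49 * (N * 4 ^ J)) := one_le_pow₀ hlcp
    have hbig2 : 1 ≤ ∏ i, (cst v (e + 1) * (ρ i).RB v) ^ (2 * (k + 2) * (N * 4 ^ (J - j i))) :=
      E1_one_le_prod _ _ hcrp
    have hpos : 0 < ⨆ i, v (x i) :=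
      (v.pos hp).trans_le (le_ciSup (f := fun i => v (x i)) (Set.finite_range _).bddAbove p)
    have hle : ⨆ i, v (x i) ≤ (∏ t, lc (W t) v) ^ (49 * (N * 4 ^ J)) *
        ∏ i, (cst v (e + 1) * (ρ i).RB v) ^ (2 * (k + 2) * (N * 4 ^ (J - j i))) := by
      refine ciSup_le fun b => ?_
      rcases hx b with hb | ⟨i, c, ε, l, q, β, a, μ, hμ, hxb⟩
      · rw [hb, map_zero]
        positivity
      · rw [hxb]
        refine (MC_le v (ρ i) W χ (j i) _ c ε l q β a μ hμ).trans ?_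
        have h1 : N * 4 ^ (J - j i) * 4 ^ j i = N * 4 ^ J := by
          rw [mul_assoc, ← pow_add, Nat.sub_add_cancel (hj i)]
        rw [h1]
        refine mul_le_mul_of_nonneg_left ?_ (zero_le_one.trans hbig)
        exact E1_le_prod Finset.univ _ hcrp (Finset.mem_univ i)
    have h1 := Real.log_le_log hpos hle
    rw [Real.log_mul (zero_lt_one.trans_le hbig).ne' (zero_lt_one.trans_le hbig2).ne',
      Real.log_pow, Real.log_prod (fun t _ => (zero_lt_one.trans_le (hlc t)).ne'),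
      Real.log_prod (fun i _ => (zero_lt_one.trans_le (hcrp i)).ne'), Finset.mul_sum] at h1
    refine h1.trans (le_of_eq ?_)
    congr 1
    refine Finset.sum_congr rfl fun i _ => ?_
    rw [Real.log_pow, Real.log_mul (zero_lt_one.trans_le (one_le_cst v (by omega))).ne'
      (zero_lt_one.trans_le (one_le_RB (ρ i) v)).ne']
  · rw [gs_add hF1 hF3, gs_sum _ (fun t _ => FS_const_mul _ (FS_log_lc (W t))),
      gs_sum _ (fun i _ => hF2 i)]
    have h2 : ∀ t : Fin (k + 2), gs (fun v : AbsoluteValue K ℝ =>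
        ((49 * (N * 4 ^ J) : ℕ) : ℝ) * lcf t v) ≤ ((49 * (N * 4 ^ J) : ℕ) : ℝ) * (C t * f) := by
      intro t
      rw [gs_const_mul]
      exact mul_le_mul_of_nonneg_left (hC t K) (Nat.cast_nonneg _)
    have h3 : ∀ i : Fin m, gs (fun v : AbsoluteValue K ℝ =>
        ((2 * (k + 2) * (N * 4 ^ (J - j i)) : ℕ) : ℝ) * (csf v + rbf i v)) ≤
        (2 * (k + 2) * N * (f * Real.log ((e + 1 : ℕ) : ℝ))) * 4 ^ J +
          E * (4 ^ (J - j i) * (ρ i).ht) := by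
      intro i
      rw [gs_const_mul, gs_add (FS_log_cst _) (FS_log_RB (ρ i))]
      have h4 := gs_log_cst (L := K) (n := e + 1) (by omega)
      rw [NumberField.totalWeight_eq_finrank] at h4
      have h5 : gs (rbf i) = (ρ i).ht := rfl
      have h6 : gs csf ≤ f * Real.log ((e + 1 : ℕ) : ℝ) := h4
      rw [h5]
      have h7 : ((2 * (k + 2) * (N * 4 ^ (J - j i)) : ℕ) : ℝ) * (gs csf + (ρ i).ht) ≤
          ((2 * (k + 2) * (N * 4 ^ (J - j i)) : ℕ) : ℝ) *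
            (f * Real.log ((e + 1 : ℕ) : ℝ) + (ρ i).ht) :=
        mul_le_mul_of_nonneg_left (add_le_add h6 le_rfl) (Nat.cast_nonneg _)
      refine h7.trans ?_
      have h8 : (4 : ℝ) ^ (J - j i) ≤ 4 ^ J :=
        pow_le_pow_right₀ (by norm_num) (Nat.sub_le _ _)
      have h9 : 0 ≤ 2 * ((k : ℝ) + 2) * N * (f * Real.log ((e + 1 : ℕ) : ℝ)) := by positivity
      have h10 := mul_le_mul_of_nonneg_left h8 h9
      have h11 : ((2 * (k + 2) * (N * 4 ^ (J - j i)) : ℕ) : ℝ) *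
            (f * Real.log ((e + 1 : ℕ) : ℝ) + (ρ i).ht) =
          2 * ((k : ℝ) + 2) * N * (f * Real.log ((e + 1 : ℕ) : ℝ)) * 4 ^ (J - j i) +
            E * (4 ^ (J - j i) * (ρ i).ht) := by
        rw [hE, Nat.cast_mul, Nat.cast_mul, Nat.cast_mul, Nat.cast_add, Nat.cast_pow]
        push_cast
        ring
      rw [h11]
      linarith
    have h12 : ∑ i : Fin m, ((2 * (k + 2) * N * (f * Real.log ((e + 1 : ℕ) : ℝ))) * 4 ^ J +
          E * (4 ^ (J - j i) * (ρ i).ht)) = B * 4 ^ J + E * ∑ i, 4 ^ (J - j i) * (ρ i).ht := by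
      rw [Finset.sum_add_distrib, Finset.sum_const, Finset.card_univ, Fintype.card_fin,
        nsmul_eq_mul, ← Finset.mul_sum, hB]
      ring
    have h13 : ∑ t : Fin (k + 2), ((49 * (N * 4 ^ J) : ℕ) : ℝ) * (C t * f) = A * 4 ^ J := by
      rw [← Finset.mul_sum, hA]
      push_cast
      ring
    have h14 := Finset.sum_le_sum fun t (_ : t ∈ Finset.univ) => h2 t
    have h15 := Finset.sum_le_sum fun i (_ : i ∈ Finset.univ) => h3 i
    rw [h13] at h14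
    rw [h12] at h15
    refine (add_le_add h14 h15).trans ?_
    have h16 : 0 ≤ E * 4 ^ J := mul_nonneg hE0 h4J
    have h17 : 0 ≤ (A + B) * ∑ i, (4 : ℝ) ^ (J - j i) * (ρ i).ht :=
      mul_nonneg (add_nonneg hA0 hB0) hht
    linarith [h16, h17, mul_add (A + B + E) ((4 : ℝ) ^ J) (∑ i, 4 ^ (J - j i) * (ρ i).ht),
      add_mul A B ((4 : ℝ) ^ J), add_mul (A + B) E ((4 : ℝ) ^ J),
      add_mul (A + B) E (∑ i, (4 : ℝ) ^ (J - j i) * (ρ i).ht)]

end Pool.Agent.Lib.MP_17a322_nt.VG
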