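import Pool.Agent.Lib.MP_17a322_nt.VG.C01

/-!
Block polynomials, sizes (coordinates of both types).
-/

universe u

namespace Pool.Agent.Lib.MP_17a322_nt.VG

open MvPolynomial Height
open Pool.Agent.Lib.MP_17a322_nt.RO Pool.Agent.Lib.MP_17a322_nt.VJ
open Pool.Agent.Lib.MP_17a322_nt.VN

theorem chG_size {K L : Type*} [Field K] [Field L] [Algebra K L] {v : AbsoluteValue L ℝ}
    {A : Type*} [CommRing A] [Algebra L A] [Algebra K A] [IsScalarTower K L A] {μ : A → ℝ}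
    (h : SN v μ) (W : CT K) (R Q : Fin 2 → A) {r q : ℝ} (hr1 : 1 ≤ r) (hq1 : 1 ≤ q)
    (hr : ∀ i, μ (R i) ≤ r) (hq : ∀ i, μ (Q i) ≤ q) (c e : Bool) {b ν : ℕ} (hν : ν ≤ b) :
    μ (chG W R Q c e b ν) ≤ lc W v ^ (17 * b) * (r * q) ^ (2 * b) := by
  cases W with
  | ell W => exact VN.chG_size h W R Q hr1 hq1 hr hq c e hν
  | tor =>
    have hrq : 1 ≤ r * q := one_le_mul_of_one_le_of_one_le hr1 hq1
    have hrq0 : 0 ≤ r * q := zero_le_one.trans hrq
    have hl : 1 ≤ lc (CT.tor : CT K) v ^ (17 * b) := one_le_pow₀ (one_le_lc _ v)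
    have h1 : ∀ i k, μ (Q i * R k) ≤ r * q := fun i k => by
      refine (h.mul _ _).trans ?_
      rw [mul_comm r q]
      exact mul_le_mul (hq i) (hr k) (h.nonneg _) (zero_le_one.trans hq1)
    have h2 : ∀ i k m, μ ((Q i * R k) ^ m) ≤ (r * q) ^ m := fun i k m =>
      (h.pow_le _ _).trans (pow_le_pow_left₀ (h.nonneg _) (h1 i k) m)
    have h3 : μ ((Q 0 * R 1) ^ ν * (Q 1 * R 0) ^ (b - ν)) ≤ (r * q) ^ b := by
      refine (h.mul _ _).trans ?_
      have e1 : (r * q) ^ b = (r * q) ^ ν * (r * q) ^ (b - ν) := by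
        rw [← pow_add, Nat.add_sub_cancel' hν]
      rw [e1]
      exact mul_le_mul (h2 0 1 ν) (h2 1 0 (b - ν)) (h.nonneg _) (pow_nonneg hrq0 _)
    have h4 : (r * q) ^ b ≤ lc (CT.tor : CT K) v ^ (17 * b) * (r * q) ^ (2 * b) :=
      (pow_le_pow_right₀ hrq (by omega)).trans
        (le_mul_of_one_le_left (pow_nonneg hrq0 _) hl)
    cases e
    · exact h3.trans h4
    · change μ 0 ≤ _
      rw [h.zero]
      exact (pow_nonneg hrq0 _).trans h4

theorem UV_size {K L : Type*} [Field K] [Field L] [Algebra K L] {v : AbsoluteValue L ℝ}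
    {A : Type*} [CommRing A] [Algebra L A] [Algebra K A] [IsScalarTower K L A] {μ : A → ℝ}
    (h : SN v μ) {n : ℕ} (W : Fin n → CT K) (χ : Fin n → Bool) (j b : ℕ)
    (x u : Fin n → A) (c e : Fin n → Bool) (ν : Fin n → ℕ) (hν : ∀ t, ν t ≤ b) :
    μ (UV W χ j b x u c e ν) ≤ (∏ t, lc (W t) v) ^ (49 * (b * 4 ^ j)) *
      (∏ t, max 1 (μ (x t)) ^ (2 * (b * 4 ^ j))) * ∏ t, max 1 (μ (u t)) ^ (2 * b) := by
  have h4 : 1 ≤ 4 ^ j := Nat.one_le_pow _ _ (by norm_num)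
  have hfac : ∀ t, μ (chG (W t) (mu (W t) j ![x t, 1]) (vc (χ t) (u t)) (c t) (e t) b (ν t)) ≤
      lc (W t) v ^ (49 * (b * 4 ^ j)) * max 1 (μ (x t)) ^ (2 * (b * 4 ^ j)) *
        max 1 (μ (u t)) ^ (2 * b) := by
    intro t
    have hl : 1 ≤ lc (W t) v := one_le_lc (W t) v
    have hx1 : 1 ≤ max 1 (μ (x t)) := le_max_left _ _
    have hR0 : ∀ i, μ ((![x t, 1] : Fin 2 → A) i) ≤ max 1 (μ (x t)) := by
      intro i
      fin_cases i
      · exact le_max_right _ _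
      · exact h.one_le.trans (le_max_left _ _)
    have hR := mu_size (W t) h j ![x t, 1] hR0
    have hQ : ∀ i, μ (vc (χ t) (u t) i) ≤ max 1 (μ (u t)) := by
      intro i
      unfold vc
      cases χ t <;> fin_cases i
      · exact le_max_right _ _
      · exact h.one_le.trans (le_max_left _ _)
      · exact h.one_le.trans (le_max_left _ _)
      · exact le_max_right _ _
    have hr1 : 1 ≤ lc (W t) v ^ (16 * 4 ^ j) * max 1 (μ (x t)) ^ (4 ^ j) :=
      one_le_mul_of_one_le_of_one_le (one_le_pow₀ hl) (one_le_pow₀ hx1)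
    refine (chG_size h (W t) _ _ hr1 (le_max_left 1 (μ (u t))) hR hQ (c t) (e t) (hν t)).trans ?_
    have e1 : lc (W t) v ^ (17 * b) *
        (lc (W t) v ^ (16 * 4 ^ j) * max 1 (μ (x t)) ^ (4 ^ j) * max 1 (μ (u t))) ^ (2 * b) =
        lc (W t) v ^ (17 * b + 16 * 4 ^ j * (2 * b)) * (max 1 (μ (x t)) ^ (4 ^ j * (2 * b)) *
          max 1 (μ (u t)) ^ (2 * b)) := by
      rw [mul_pow, mul_pow, ← pow_mul, ← pow_mul, pow_add]
      ring
    rw [e1, mul_assoc (lc (W t) v ^ (49 * (b * 4 ^ j)))]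
    have e2 : 4 ^ j * (2 * b) = 2 * (b * 4 ^ j) := by ring
    rw [e2]
    refine mul_le_mul_of_nonneg_right (lc_pow_mono (W t) v ?_) (by positivity)
    have h5 : b ≤ b * 4 ^ j := Nat.le_mul_of_pos_right b h4
    have h6 : 16 * 4 ^ j * (2 * b) = 32 * (b * 4 ^ j) := by ring
    omega
  unfold UV
  refine (h.prod_le _ _).trans ((Finset.prod_le_prod (fun t _ => h.nonneg _)
    fun t _ => hfac t).trans (le_of_eq ?_))
  rw [Finset.prod_mul_distrib, Finset.prod_mul_distrib, Finset.prod_pow]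

theorem NV_UU {K L : Type*} [Field K] [Field L] [Algebra K L] (v : AbsoluteValue L ℝ) {n : ℕ}
    (W : Fin n → CT K) (χ : Fin n → Bool) (j b : ℕ) (c e : Fin n → Bool)
    (ν : Fin n → ℕ) (hν : ∀ t, ν t ≤ b) :
    NV v (MvPolynomial.map (algebraMap K L) (UU W χ j b c e ν)) ≤
      (∏ t, lc (W t) v) ^ (49 * (b * 4 ^ j)) := by
  have h1 := map_UV W χ j b (MvPolynomial.mapAlgHom (σ := Fin n ⊕ Fin n) (Algebra.ofId K L))
    (fun t => X (Sum.inl t)) (fun t => X (Sum.inr t)) c e ν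
  have h2 : MvPolynomial.map (algebraMap K L) (UU W χ j b c e ν) =
      UV W χ j b (fun t => (X (Sum.inl t) : MvPolynomial (Fin n ⊕ Fin n) L))
        (fun t => X (Sum.inr t)) c e ν := by
    have h3 : MvPolynomial.mapAlgHom (σ := Fin n ⊕ Fin n) (Algebra.ofId K L)
        (UU W χ j b c e ν) = MvPolynomial.map (algebraMap K L) (UU W χ j b c e ν) := rfl
    rw [← h3]
    refine h1.trans ?_
    have h4 : ∀ s : Fin n ⊕ Fin n, MvPolynomial.mapAlgHom (σ := Fin n ⊕ Fin n)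
        (Algebra.ofId K L) (X s) = (X s : MvPolynomial (Fin n ⊕ Fin n) L) := fun s =>
      MvPolynomial.map_X _ s
    simp only [h4]
  rw [h2]
  refine (UV_size (SN_NV v) W χ j b _ _ c e ν hν).trans (le_of_eq ?_)
  simp only [NV_X, max_self, one_pow, Finset.prod_const_one, mul_one]

end Pool.Agent.Lib.MP_17a322_nt.VG
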