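import Pool.Agent.Lib.MP_17a322_nt.VG.L1t
import Pool.Agent.Lib.MP_17a322_nt.VN.L1w

/-!
The numerical end (coordinates of both types).
-/

universe u

namespace Pool.Agent.Lib.MP_17a322_nt.VG

open Pool.Agent.Lib.MP_17a322_nt.VN

theorem numeric_end (n m N : ℕ) (ε C C₁ s₀ CF : ℝ) (hε : 0 < ε) (hm : 1 ≤ m)
    (hNε : (2 * N + 8 : ℝ) ≤ m * (ε / 2) / 4) (hC : 0 ≤ C) (hC₁ : 0 ≤ C₁) (hs₀ : 0 < s₀)
    (hs : s₀ * (C₁ * N) * (2 * C + 2) ≤ ε / 2 / 8) (hCF : 0 ≤ CF) :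
    ∃ η C₀ : ℝ, 0 < η ∧ 0 ≤ C₀ ∧ ∀ (h H : ℝ) (J : ℕ) (j s : Fin m → ℕ)
      (E g sl hP : Fin m → ℝ) (a : ℕ), (∀ i, j i ≤ J) → ∑ i, (4 : ℝ) ^ j i ≤ 2 * 4 ^ J →
      C₀ ≤ H → h ≤ CF * 4 ^ J → (∀ i, 0 ≤ E i) → (∀ i, E i ≤ n * (η * (4 ^ j i * H))) →
      (∀ i, |hP i - 4 ^ j i * H| ≤ η * (4 ^ j i * H)) → (∀ i, ε * hP i ≤ g i) →
      (∀ i, s i = 0 ∨ ε * hP i ≤ sl i) →
      (∀ i, (4 : ℝ) ^ j i * s i ≤ C₁ * (N * 4 ^ J)) → (a : ℝ) < s₀ * (C₁ * (N * 4 ^ J)) →
      INEQ C h H N J j s E g sl hP a → False := by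
  obtain ⟨δ, hδ⟩ : ∃ δ : ℝ, δ = ε / 2 := ⟨_, rfl⟩
  rw [← hδ] at hNε hs
  have hδ0 : 0 < δ := by rw [hδ]; positivity
  obtain ⟨η, hηdef⟩ : ∃ η : ℝ, η = min (min (1 / 8) (1 / ((n : ℝ) + 1)))
      (min (δ / (64 * ((N : ℝ) * n + 1))) (δ / (32 * (n * (C₁ * N) + 1)))) := ⟨_, rfl⟩
  have hn0 : (0 : ℝ) ≤ n := Nat.cast_nonneg _
  have hN0 : (0 : ℝ) ≤ N := Nat.cast_nonneg _
  have hm0 : (0 : ℝ) < m := by exact_mod_cast hm
  have hC₁N : 0 ≤ C₁ * N := mul_nonneg hC₁ hN0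
  have hη0 : 0 < η := by
    rw [hηdef]
    refine lt_min (lt_min (by norm_num) (by positivity)) (lt_min (by positivity) (by positivity))
  have hη1 : η ≤ 1 / 8 := by
    rw [hηdef]
    exact (min_le_left _ _).trans (min_le_left _ _)
  have hη2 : n * η ≤ 1 := by
    have h1 : η ≤ 1 / ((n : ℝ) + 1) := by
      rw [hηdef]
      exact (min_le_left _ _).trans (min_le_right _ _)
    rw [le_div_iff₀ (by positivity)] at h1
    nlinarith
  have hη3 : 4 * N * (n * η) ≤ δ / 16 := by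
    have h1 : η ≤ δ / (64 * ((N : ℝ) * n + 1)) := by
      rw [hηdef]
      exact (min_le_right _ _).trans (min_le_left _ _)
    rw [le_div_iff₀ (by positivity)] at h1
    nlinarith
  have hη4 : 2 * (n * η) * (C₁ * N) ≤ δ / 16 := by
    have h1 : η ≤ δ / (32 * (n * (C₁ * N) + 1)) := by
      rw [hηdef]
      exact (min_le_right _ _).trans (min_le_right _ _)
    rw [le_div_iff₀ (by positivity)] at h1
    nlinarith
  obtain ⟨K0, hK0⟩ : ∃ K0 : ℝ, K0 = CF + C + m * (C * (C₁ * N)) + m * δ / 8 := ⟨_, rfl⟩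
  have hK0' : 0 ≤ K0 := by rw [hK0]; positivity
  have h38 : 0 < 3 * (m * δ) / 8 := by positivity
  refine ⟨η, K0 / (3 * (m * δ) / 8) + 1, hη0, by positivity, ?_⟩
  intro h H J j s E g sl hP a hJ hsum hCH hh hE0 hE hhP hg hsl hsi ha hineq
  have hH1 : 1 ≤ H := le_trans (by have := div_nonneg hK0' h38.le; linarith) hCH
  have hH0 : 0 ≤ H := by linarith
  have hKH : K0 + 3 * (m * δ) / 8 ≤ 3 * (m * δ) / 8 * H := by
    have h1 : K0 / (3 * (m * δ) / 8) ≤ H - 1 := by linarith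
    rw [div_le_iff₀ h38] at h1
    linarith
  obtain ⟨x, hx⟩ : ∃ x : ℝ, x = 4 ^ J := ⟨_, rfl⟩
  have hx0 : 0 < x := by rw [hx]; positivity
  have hterm : ∀ i, (4 * 4 ^ j i * H + 4 * N * 4 ^ (J - j i) * E i + s i * (C * 4 ^ j i + 2 * E i) -
      tw J (j i) (s i) * g i - s i * sl i) ≤
      4 * H * 4 ^ j i + x * (C * (C₁ * N) + (δ / 16 + δ / 16 - 7 / 8 * δ) * H) := by
    intro i
    obtain ⟨p, hp⟩ : ∃ p : ℝ, p = 4 ^ j i := ⟨_, rfl⟩
    obtain ⟨q, hq⟩ : ∃ q : ℝ, q = 4 ^ (J - j i) := ⟨_, rfl⟩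
    have hp0 : 0 < p := by rw [hp]; positivity
    have hq0 : 0 < q := by rw [hq]; positivity
    have hpq : q * p = x := by
      rw [hp, hq, hx, ← pow_add, Nat.sub_add_cancel (hJ i)]
    have hs0 : (0 : ℝ) ≤ s i := Nat.cast_nonneg _
    have e1 := hE i
    have e2 := hsi i
    have e3 := hhP i
    have e4 := hg i
    have e5 := hsl i
    have e6 := hE0 i
    rw [← hp] at e1 e2 e3
    rw [← hx] at e2
    rw [← hp, ← hq]
    -- part 1
    have a1 : 4 * N * q * E i ≤ δ / 16 * (x * H) := by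
      have h1 : 4 * N * q * E i ≤ 4 * N * q * (n * (η * (p * H))) :=
        mul_le_mul_of_nonneg_left e1 (by positivity)
      have h2 : 4 * N * q * (n * (η * (p * H))) = 4 * N * (n * η) * (x * H) := by
        rw [← hpq]; ring
      rw [h2] at h1
      exact h1.trans (mul_le_mul_of_nonneg_right hη3 (by positivity))
    -- part 2
    have a2 : s i * (C * p + 2 * E i) ≤ x * (C * (C₁ * N)) + δ / 16 * (x * H) := by
      have h1 : s i * (C * p + 2 * E i) ≤ s i * (C * p + 2 * (n * (η * (p * H)))) :=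
        mul_le_mul_of_nonneg_left (by linarith) hs0
      have h2 : s i * (C * p + 2 * (n * (η * (p * H)))) = (p * s i) * (C + 2 * (n * η) * H) := by
        ring
      have h3 : (p * s i) * (C + 2 * (n * η) * H) ≤ (C₁ * (N * x)) * (C + 2 * (n * η) * H) :=
        mul_le_mul_of_nonneg_right e2 (by positivity)
      have h4 : (C₁ * (N * x)) * (C + 2 * (n * η) * H) =
          x * (C * (C₁ * N)) + 2 * (n * η) * (C₁ * N) * (x * H) := by ring
      have h5 : 2 * (n * η) * (C₁ * N) * (x * H) ≤ δ / 16 * (x * H) :=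
        mul_le_mul_of_nonneg_right hη4 (by positivity)
      linarith
    -- part 3
    have a3 : 7 / 8 * δ * (x * H) ≤ tw J (j i) (s i) * g i + s i * sl i := by
      have hy : 7 / 8 * (p * H) ≤ hP i := by
        have h1 := (abs_le.1 e3).1
        have h2 : η * (p * H) ≤ 1 / 8 * (p * H) :=
          mul_le_mul_of_nonneg_right hη1 (by positivity)
        linarith
      have hy2 : ε * (7 / 8 * (p * H)) ≤ ε * hP i := mul_le_mul_of_nonneg_left hy hε.le
      have hy0 : 0 ≤ ε * (7 / 8 * (p * H)) := by positivity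
      have h4 : q / 2 * (ε * (7 / 8 * (p * H))) = 7 / 8 * δ * (x * H) := by
        rw [← hpq, hδ]; ring
      unfold tw
      by_cases hc : 2 * s i ≤ 4 ^ (J - j i)
      · rw [if_pos hc, ← hq]
        have h1 : q / 2 * (ε * (7 / 8 * (p * H))) ≤ q / 2 * g i :=
          mul_le_mul_of_nonneg_left (hy2.trans e4) (by positivity)
        have h2 : 0 ≤ s i * sl i := by
          rcases e5 with h0 | h0
          · rw [h0]
            simp
          · exact mul_nonneg hs0 (hy0.trans (hy2.trans h0))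
        linarith
      · rw [if_neg hc, zero_mul, zero_add]
        have h5 : (4 : ℝ) ^ (J - j i) ≤ 2 * s i := by
          exact_mod_cast (not_le.1 hc).le
        rw [← hq] at h5
        rcases e5 with h0 | h0
        · rw [h0] at hc
          simp at hc
        · have h1 : q / 2 * (ε * (7 / 8 * (p * H))) ≤ s i * (ε * (7 / 8 * (p * H))) :=
            mul_le_mul_of_nonneg_right (by linarith) hy0
          have h2 : s i * (ε * (7 / 8 * (p * H))) ≤ s i * sl i :=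
            mul_le_mul_of_nonneg_left (hy2.trans h0) hs0
          linarith
    linarith
  have hlast : ∀ i, (4 ^ j i : ℝ)⁻¹ * (C * (4 ^ j i + hP i) + 2 * E i) ≤ (2 * C + 2) * (1 + H) := by
    intro i
    obtain ⟨p, hp⟩ : ∃ p : ℝ, p = 4 ^ j i := ⟨_, rfl⟩
    have hp0 : 0 < p := by rw [hp]; positivity
    have e1 := hE i
    have e3 := hhP i
    rw [← hp] at e1 e3 ⊢
    rw [inv_mul_le_iff₀ hp0]
    have hy : hP i ≤ 2 * (p * H) := by
      have h1 := (abs_le.1 e3).2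
      have h2 : η * (p * H) ≤ 1 / 8 * (p * H) :=
        mul_le_mul_of_nonneg_right hη1 (by positivity)
      have h3 : 0 ≤ p * H := by positivity
      linarith
    have h1 : C * (p + hP i) ≤ C * (p + 2 * (p * H)) :=
      mul_le_mul_of_nonneg_left (by linarith) hC
    have h2 : n * (η * (p * H)) ≤ p * H := by
      have h3 : n * η * (p * H) ≤ 1 * (p * H) := mul_le_mul_of_nonneg_right hη2 (by positivity)
      linarith
    have h4 : 0 ≤ p * C := by positivity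
    have h5 : p * ((2 * C + 2) * (1 + H)) = C * (p + 2 * (p * H)) + 2 * (p * H) + (p * C + 2 * p) := by
      ring
    rw [h5]
    linarith
  have hS1 : ∑ i, (4 * 4 ^ j i * H + 4 * N * 4 ^ (J - j i) * E i + s i * (C * 4 ^ j i + 2 * E i) -
      tw J (j i) (s i) * g i - s i * sl i) ≤
      8 * (x * H) + m * (x * (C * (C₁ * N) + (δ / 16 + δ / 16 - 7 / 8 * δ) * H)) := by
    refine (Finset.sum_le_sum fun i _ => hterm i).trans ?_
    rw [Finset.sum_add_distrib, ← Finset.mul_sum, Finset.sum_const, Finset.card_univ,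
      Fintype.card_fin, nsmul_eq_mul]
    have h1 : 4 * H * ∑ i, (4 : ℝ) ^ j i ≤ 4 * H * (2 * 4 ^ J) :=
      mul_le_mul_of_nonneg_left hsum (by positivity)
    rw [← hx] at h1
    linarith
  have hS2 : ∑ i, (4 ^ j i : ℝ)⁻¹ * (C * (4 ^ j i + hP i) + 2 * E i) ≤
      m * ((2 * C + 2) * (1 + H)) := by
    refine (Finset.sum_le_sum fun i _ => hlast i).trans ?_
    rw [Finset.sum_const, Finset.card_univ, Fintype.card_fin, nsmul_eq_mul]
  have ha0 : (0 : ℝ) ≤ a := Nat.cast_nonneg _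
  have hS3 : a * ∑ i, (4 ^ j i : ℝ)⁻¹ * (C * (4 ^ j i + hP i) + 2 * E i) ≤
      m * (δ / 8 * (x * (1 + H))) := by
    have h1 := mul_le_mul_of_nonneg_left hS2 ha0
    have h2 : (a : ℝ) * (m * ((2 * C + 2) * (1 + H))) ≤
        (s₀ * (C₁ * (N * x))) * (m * ((2 * C + 2) * (1 + H))) := by
      refine mul_le_mul_of_nonneg_right ?_ (by positivity)
      rw [hx]
      exact ha.le
    have h3 : (s₀ * (C₁ * (N * x))) * (m * ((2 * C + 2) * (1 + H))) =
        (s₀ * (C₁ * N) * (2 * C + 2)) * (m * (x * (1 + H))) := by ring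
    have h4 : (s₀ * (C₁ * N) * (2 * C + 2)) * (m * (x * (1 + H))) ≤
        δ / 8 * (m * (x * (1 + H))) := mul_le_mul_of_nonneg_right hs (by positivity)
    linarith
  have hfin := hineq
  rw [INEQ] at hfin
  have hh' : h ≤ CF * x := by rw [hx]; exact hh
  have hfin2 : 0 ≤ CF * x + C * x + 2 * N * x * H +
      (8 * (x * H) + m * (x * (C * (C₁ * N) + (δ / 16 + δ / 16 - 7 / 8 * δ) * H))) +
      m * (δ / 8 * (x * (1 + H))) := by
    rw [← hx] at hfin
    linarith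
  have h1 : (2 * N + 8) * (x * H) ≤ m * δ / 4 * (x * H) :=
    mul_le_mul_of_nonneg_right hNε (by positivity)
  have h2 : 0 ≤ x * (K0 - 3 * (m * δ) / 8 * H) := by
    rw [hK0]
    linarith
  have h3 : K0 - 3 * (m * δ) / 8 * H < 0 := by linarith
  have h4 : x * (K0 - 3 * (m * δ) / 8 * H) < 0 := mul_neg_of_pos_of_neg hx0 h3
  linarith

end Pool.Agent.Lib.MP_17a322_nt.VG
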