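import Pool.Agent.Lib.MP_17a322_nt.VG.F5
import Pool.Agent.Lib.MP_17a322_nt.VG.IntL
import Pool.Agent.Lib.MP_17a322_nt.VN.F6

/-!
VG, part F: no gain for coprime polynomials over `k0` in independent coordinates.
-/

universe u

namespace Pool.Agent.Lib.MP_17a322_nt.VG

open MvPolynomial Height Filter
open Pool.Agent.Lib.MP_17a322_nt.RO
open Pool.Agent.Lib.MP_17a322_nt.VJ
open Pool.Agent.Lib.MP_17a322_nt.VN

section

variable {K : Type u} [Field K] [NumberField K] {n : ℕ}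
  (W : Fin n → CT K) (χ : Fin n → Bool)
  (P : ℕ → ∀ t, (W t).Pt) (s y : ℕ → Fin n → K)
  (hH : Tendsto (fun i => HN (P i)) (hyperfilter ℕ : Filter ℕ) atTop)
  (hs : ∀ i t, CH (χ t) (P i t) (s i t))

include hs

/-- The coordinates in `J` carry a positive proportion of the height. -/
theorem HJ_ge {k : ℕ} (J : Fin k ↪ Fin n) (t₀ : Fin k)
    (h : gm (fun i => s i (J t₀)) ∉ k0 K _ hH) :
    ∃ c : ℝ, 0 < c ∧ ∀ᶠ i in (hyperfilter ℕ : Filter ℕ),
      c * HN (P i) ≤ HN (T := fun t => W (J t)) (fun t => P i (J t)) := by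
  rw [mem_k0] at h
  unfold oH at h
  push Not at h
  obtain ⟨c, hc, h1⟩ := h
  refine ⟨c, hc, ?_⟩
  filter_upwards [h1] with i hi
  refine hi.le.trans ?_
  rw [← CH_height (hs i (J t₀))]
  exact le_HN (W := fun t => W (J t)) (fun t => P i (J t)) t₀

/-- The torus coordinates in `J` are close to being `S`-units with respect to the height of `J`. -/
theorem S_transfer {k : ℕ} (J : Fin k ↪ Fin n) (S : Finset (NumberField.FinitePlace K))
    (hS : ∀ t, (W t).isTor → ∀ δ : ℝ, 0 < δ → ∀ᶠ i in (hyperfilter ℕ : Filter ℕ),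
      ∑ᶠ v : {v : NumberField.FinitePlace K // v ∉ S}, |Real.log (v.1 (s i t))| ≤ δ * HN (P i))
    {c : ℝ} (hc : 0 < c) (hHJ : ∀ᶠ i in (hyperfilter ℕ : Filter ℕ),
      c * HN (P i) ≤ HN (T := fun t => W (J t)) (fun t => P i (J t))) (t : Fin k)
    (ht : (W (J t)).isTor = true) :
    oH (fun i => HN (T := fun t => W (J t)) (fun t => P i (J t)))
      fun i => ∑ᶠ v : {v : NumberField.FinitePlace K // v ∉ S},
        |Real.log (v.1 ((W (J t)).xr (P i (J t)) 0))| := by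
  intro δ hδ
  filter_upwards [hS (J t) ht (δ * c) (by positivity), hHJ] with i h1 h2
  have e : ∑ᶠ v : {v : NumberField.FinitePlace K // v ∉ S},
      |Real.log (v.1 ((W (J t)).xr (P i (J t)) 0))| =
      ∑ᶠ v : {v : NumberField.FinitePlace K // v ∉ S}, |Real.log (v.1 (s i (J t)))| :=
    finsum_congr fun v => CH_tor_log ht (hs i (J t)) v.1
  rw [e]
  calc _ ≤ δ * c * HN (P i) := h1
    _ = δ * (c * HN (P i)) := by ring
    _ ≤ _ := mul_le_mul_of_nonneg_left h2 hδ.le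

end

section

variable {K : Type u} [Field K] [NumberField K] [DecidableEq K] {n : ℕ}
  (W : Fin n → CT K) (hW : ∀ t, (W t).IsE) (χ : Fin n → Bool)
  (P : ℕ → ∀ t, (W t).Pt) (s y : ℕ → Fin n → K)
  (hH : Tendsto (fun i => HN (P i)) (hyperfilter ℕ : Filter ℕ) atTop)
  (hP : ∀ i t, (W t).Aff (P i t)) (hs : ∀ i t, CH (χ t) (P i t) (s i t))
  (hy : ∀ i t, y i t ^ 2 = ph (W t) (vc (χ t) (s i t)))

include hW hP hs hy

/-- No gain for coprime polynomials over `k0` in coordinates independent over `k0`. The hypothesis `hS`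
says that the torus coordinates are close to being `S`-units. -/
theorem GCDSTAR (S : Finset (NumberField.FinitePlace K))
    (hS : ∀ t, (W t).isTor → ∀ δ : ℝ, 0 < δ → ∀ᶠ i in (hyperfilter ℕ : Filter ℕ),
      ∑ᶠ v : {v : NumberField.FinitePlace K // v ∉ S}, |Real.log (v.1 (s i t))| ≤ δ * HN (P i))
    {k : ℕ} (J : Fin (k + 2) ↪ Fin n)
    (hJ : AlgebraicIndependent (k0 K _ hH) fun t => gm fun i => s i (J t))
    (f g : MvPolynomial (Fin (k + 2)) (k0 K _ hH)) (hfg : IsRelPrime f g) (a b : ℕ → K)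
    (ha : gm a = aeval (fun t => gm fun i => s i (J t)) f)
    (hb : gm b = aeval (fun t => gm fun i => s i (J t)) g) (ε : ℝ) (hε : 0 < ε) :
    ∃ N : ℝ, ∀ᶠ i in (hyperfilter ℕ : Filter ℕ), gN W N (s i) (a i) (b i) ≤ ε * HN (P i) := by
  classical
  by_contra hcon
  push Not at hcon
  have hgain : ∀ N : ℝ, ∀ᶠ i in (hyperfilter ℕ : Filter ℕ),
      ε * HN (P i) ≤ gN W N (s i) (a i) (b i) := fun N => (hcon N).mono fun i hi => hi.le
  have hnz : ∀ z z' : MvPolynomial (Fin (k + 2)) (k0 K _ hH), IsRelPrime z z' →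
      aeval (fun t => gm fun i => s i (J t)) z ≠ 0 ∨
        aeval (fun t => gm fun i => s i (J t)) z' ≠ 0 := by
    intro z z' hzz
    by_contra hc
    push Not at hc
    have h1 := (algebraicIndependent_iff.mp hJ) z hc.1
    have h2 := (algebraicIndependent_iff.mp hJ) z' hc.2
    refine not_isUnit_X (0 : Fin (k + 2)) (hzz (d := X 0) ?_ ?_)
    · rw [h1]
      exact dvd_zero _
    · rw [h2]
      exact dvd_zero _
  obtain ⟨e, D, h, hh, hC'⟩ := CENTRE W s (fun i t ht => (CH_tor ht (hs i t)).1) J f g hfg a b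
    ha hb ε hε hnz
  obtain ⟨m, D', R₀, C₀, η, N, hm, hC₀, hη, hN, hS1⟩ :=
    S1 (fun t => W (J t)) (fun t => hW (J t)) (fun t => χ (J t)) e D (ε / 2) (by positivity)
  have hC := hC' N hN (hgain N)
  obtain ⟨δ, hδ, hSI⟩ := SI (fun i t => s i (J t)) (fun t => t) Function.injective_id hJ D'
  obtain ⟨c, hc, hHJ⟩ := HJ_ge W χ P s hH hs J 0 (indep_notMem _ hJ 0)
  have hHJt : Tendsto (fun i => HN (T := fun t => W (J t)) (fun t => P i (J t)))
      (hyperfilter ℕ : Filter ℕ) atTop :=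
    tendsto_atTop_mono' _ hHJ (hH.const_mul_atTop hc)
  have hhJ : oH (fun i => HN (T := fun t => W (J t)) (fun t => P i (J t))) h := by
    intro δ' hδ'
    filter_upwards [hh (δ' * c) (by positivity), hHJ] with i h1 h2
    calc h i ≤ δ' * c * HN (P i) := h1
      _ = δ' * (c * HN (P i)) := by ring
      _ ≤ _ := mul_le_mul_of_nonneg_left h2 hδ'.le
  have hy0 : ∀ᶠ i in (hyperfilter ℕ : Filter ℕ), ∀ t, y i (J t) ≠ 0 := by
    rw [eventually_all]
    exact fun t => y_ne_zero_CT (W (J t)) (χ (J t)) (fun i => P i (J t)) (fun i => s i (J t))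
      (fun i => y i (J t)) (fun i => hs i (J t)) (fun i => hy i (J t)) (hJ.transcendental t)
  obtain ⟨a₀, b₀, j, -, hSb, hCa, hpos, hR1, hR2, hhj, h4j, hpt, hcone⟩ :=
    FRAME (fun t => W (J t)) (fun t => hW (J t)) S (fun i t => P i (J t)) hHJt
      (fun t ht => S_transfer W χ P s hs J S hS hc hHJ t ht) h hhJ
      (fun i => (∃ ρ : REP K (k + 2) e, ρ.Deg D ∧ ρ.ht ≤ h i ∧
        (eval (fun t => s i (J t)) (ρ.z 0) ≠ 0 ∨ eval (fun t => s i (J t)) (ρ.z 1) ≠ 0) ∧
        ε / 2 * HN (P i) ≤ gN (fun t => W (J t)) N (fun t => s i (J t))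
          (eval (fun t => s i (J t)) (ρ.z 0)) (eval (fun t => s i (J t)) (ρ.z 1))) ∧
        (∀ t, y i (J t) ≠ 0) ∧
        ∀ G : MvPolynomial (Fin (k + 2)) K, G ≠ 0 →
          (∀ t, t ∉ Set.range (fun t : Fin (k + 2) => t) → G.degreeOf t = 0) →
          (∀ t, G.degreeOf t ≤ D') → nh G ≤ δ * HN (P i) → eval (fun t => s i (J t)) G ≠ 0)
      (hC.and (hy0.and hSI)) m R₀ (max C₀ (2 * C₀ / δ)) η hη
  choose ρ hρD hρh hρz hρg using fun i => (hSb i).1
  have hJle : ∀ i, HN (T := fun t => W (J t)) (fun t => P i (J t)) ≤ HN (P i) :=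
    fun i => HN_le_of_embedding (P i) J
  obtain ⟨i, G, hG0, hGd, hGn, hGe⟩ := hS1 (fun t => P a₀ (J t)) (fun i t => P (b₀ i) (J t)) j
    (fun i t => s (b₀ i) (J t)) (fun i t => y (b₀ i) (J t)) ρ hR1 hR2
    (fun i t => hP _ _) (fun i t => hs _ _) (fun i t => hy _ _) (fun i t => (hSb i).2.1 t)
    hρD (fun i => (hρh i).trans (hhj i)) hρz
    (fun i => le_trans (mul_le_mul_of_nonneg_left (hJle (b₀ i)) (by positivity)) (hρg i))
    (fun t => hP _ _) ((le_max_left _ _).trans hCa) hpt hcone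
  refine (hSb i).2.2 G hG0 (fun t ht => absurd ⟨t, rfl⟩ ht) hGd ?_ hGe
  refine hGn.trans ?_
  have h1 : 2 * C₀ / δ ≤ HN (T := fun t => W (J t)) (fun t => P a₀ (J t)) :=
    (le_max_right _ _).trans hCa
  rw [div_le_iff₀ hδ] at h1
  have h2 : (4 : ℝ) ^ j i * HN (T := fun t => W (J t)) (fun t => P a₀ (J t)) ≤
      2 * HN (P (b₀ i)) := (h4j i).trans (mul_le_mul_of_nonneg_left (hJle (b₀ i)) (by norm_num))
  have h3 : (0 : ℝ) < 4 ^ j i := by positivity
  have h4 := mul_le_mul_of_nonneg_left h1 h3.le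
  have h5 := mul_le_mul_of_nonneg_left h2 hδ.le
  nlinarith

end

end Pool.Agent.Lib.MP_17a322_nt.VG
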