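import Pool.Agent.Lib.MP_17a322_nt.VG.F6
import Pool.Agent.Lib.MP_17a322_nt.VG.F7

/-!
The inputs `GCDSTAR` and `SLOPE` of part Z.
-/
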