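import Pool.Agent.Lib.MP_17a322_nt.VG.Z7a
import Pool.Agent.Lib.MP_17a322_nt.VG.IntF
import Pool.Agent.Lib.MP_17a322_nt.VN.Z7b
import Pool.Agent.Lib.MP_17a322_nt.VN.Z6

/-!
The slopes of the dependent coordinates are in `k0` (both types of coordinates).
-/

universe u

namespace Pool.Agent.Lib.MP_17a322_nt.VG

open MvPolynomial Height Filter
open Pool.Agent.Lib.MP_17a322_nt.RO
open Pool.Agent.Lib.MP_17a322_nt.VJ
open Pool.Agent.Lib.MP_17a322_nt.VN

/-- The coordinate of a unit in a chart is not zero. -/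
theorem CH_ne {K : Type u} [Field K] {T : CT K} (hT : T.isTor = true) {χ : Bool} {P : T.Pt}
    {s : K} (h : CH χ P s) : s ≠ 0 := by
  obtain ⟨c, hc, h⟩ := h
  cases T with
  | ell W => simp [CT.isTor] at hT
  | tor =>
    rintro rfl
    have h0 := congrFun h 0
    have h1 := congrFun h 1
    have hu : ((Additive.toMul P : Kˣ) : K) ≠ 0 := Units.ne_zero _
    cases χ
    · simp [CT.xr, vc] at h0
    · simp [CT.xr, vc] at h1

section

variable {K : Type u} [Field K] [NumberField K] {n : ℕ} (T : Fin n → CT K) (H : ℕ → ℝ)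
  (hH : Tendsto H (hyperfilter ℕ : Filter ℕ) atTop) (s : ℕ → Fin n → K)

/-- The gain of a pair of polynomials is carried by a polynomial in the variables `J`. -/
theorem Z7_gainN (hs : ∀ i t, (T t).isTor = true → s i t ≠ 0) (J : Finset (Fin n))
    (hJ' : ∀ t, IsAlgebraic (Algebra.adjoin (k0 K H hH) ((fun t => gm fun i => s i t) '' J))
      (gm fun i => s i t))
    (a b : ℕ → K) (f : MvPolynomial (Fin n) (k0 K H hH))
    (ha : gm a = aeval (fun t => gm fun i => s i t) f) (ha0 : gm a ≠ 0)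
    (ε : ℝ) (hε : 0 < ε)
    (hgain : ∀ N : ℝ, ∀ᶠ i in (hyperfilter ℕ : Filter ℕ), ε * H i ≤ gN T N (s i) (a i) (b i)) :
    ∃ e : MvPolynomial (Fin n) (k0 K H hH), e.vars ⊆ J ∧
      ∃ b' : ℕ → K, gm b' = aeval (fun t => gm fun i => s i t) e ∧ gm b' ≠ 0 ∧
        ∀ N : ℝ, ∀ᶠ i in (hyperfilter ℕ : Filter ℕ),
          ε / 2 * H i ≤ gN T N (s i) 0 (b' i) := by
  obtain ⟨e, A, he, he0, hc⟩ := Z7_e0 (J := J) hJ' f (by rwa [← ha])
  obtain ⟨b', hb', -⟩ := cb_rep H hH s e
  refine ⟨e, he, b', hb', by rwa [hb'], fun N => ?_⟩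
  have h1 := gN_comb' T H hH s hs N 0 a b (fun _ => 0) b' 0 0 A 0
    (by rw [map_zero, zero_mul, zero_mul, add_zero, gm_zero, mul_zero])
    (by rw [pow_zero, one_mul, hb', hc, ha, map_zero, zero_mul, add_zero])
    (Or.inr (by rwa [hb'])) (ε / 2) (by linarith)
  filter_upwards [h1, hgain N] with i h2 h3
  rw [Nat.cast_zero, add_zero] at h2
  linarith

end

section

variable {K : Type u} [Field K] [NumberField K] [DecidableEq K] {n : ℕ}
  (W : Fin n → CT K) (hW : ∀ t, (W t).IsE) (χ : Fin n → Bool)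
  (P : ℕ → ∀ t, (W t).Pt) (s y : ℕ → Fin n → K)
  (hH : Tendsto (fun i => HN (P i)) (hyperfilter ℕ : Filter ℕ) atTop)
  (hP : ∀ i t, (W t).Aff (P i t)) (hs : ∀ i t, CH (χ t) (P i t) (s i t))
  (hy : ∀ i t, y i t ^ 2 = ph (W t) (vc (χ t) (s i t)))

include hW hP hs hy in
/-- The slopes are in `k0`. -/
theorem slopes (S : Finset (NumberField.FinitePlace K))
    (hS : ∀ t, (W t).isTor → ∀ δ : ℝ, 0 < δ → ∀ᶠ i in (hyperfilter ℕ : Filter ℕ),
      ∑ᶠ v : {v : NumberField.FinitePlace K // v ∉ S}, |Real.log (v.1 (s i t))| ≤ δ * HN (P i))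
    (J : Finset (Fin n))
    (hJ : AlgebraicIndependent (k0 K _ hH) fun t : J => gm fun i => s i t)
    (hJ' : ∀ t, IsAlgebraic (Algebra.adjoin (k0 K _ hH) ((fun t => gm fun i => s i t) '' J))
      (gm fun i => s i t))
    (f g : MvPolynomial (Fin n) K) (hf : aeval (fun t => gm fun i => s i t) f ≠ 0) (ε : ℝ)
    (hε : 0 < ε)
    (hgain : ∀ N : ℝ, ∀ᶠ i in (hyperfilter ℕ : Filter ℕ),
      ε * HN (P i) ≤ gN W N (s i) (eval (s i) f) (eval (s i) g)) :
    ∀ r ∉ J, ∀ q : MvPolynomial (Fin n) (k0 K _ hH), Irreducible q → q.vars ⊆ insert r J →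
      aeval (fun t => gm fun i => s i t) q = 0 → ∀ l ∈ J,
        aeval (fun t => gm fun i => s i t) (pderiv l q) * gm (fun i => y i l) /
          (aeval (fun t => gm fun i => s i t) (pderiv r q) * gm (fun i => y i r)) ∈
            k0 K _ hH := by
  have hmap : aeval (fun t => gm fun i => s i t)
      (map (algebraMap K (k0 K (fun i => HN (P i)) hH)) f) =
      aeval (fun t => gm fun i => s i t) f := aeval_map_algebraMap _ _ _
  have hgm : gm (fun i => eval (s i) f) = aeval (fun t => gm fun i => s i t) f :=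
    (aeval_gm s f).symm
  obtain ⟨e, he, b', hb', hb0, hg⟩ :=
    Z7_gainN W (fun i => HN (P i)) hH s (fun i t ht => CH_ne ht (hs i t)) J hJ'
      (fun i => eval (s i) f) (fun i => eval (s i) g)
      (map (algebraMap K (k0 K (fun i => HN (P i)) hH)) f) (hgm.trans hmap.symm)
      (by rw [hgm]; exact hf) ε hε hgain
  refine slope_transfer (k := k0 K (fun i => HN (P i)) hH) (s := fun t => gm fun i => s i t)
    (fun t => gm fun i => y i t) hJ e he (fun z => z ∈ k0 K (fun i => HN (P i)) hH) ?_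
  intro m φ r l hlr hJ2 q' f' hq' h0 hd hf
  exact SLOPE W hW χ P s y hH hP hs hy S hS φ r l hlr hJ2 q' f' hq' h0 hd b'
    (hb'.trans hf.symm) hb0 (ε / 2) (by linarith) hg

end

end Pool.Agent.Lib.MP_17a322_nt.VG
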