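import Pool.Agent.Lib.MP_17a322_nt.VN.F3b
import Pool.Agent.Lib.MP_17a322_nt.VG.Z7c

/-!
No gain for coprime polynomials in the variables of a transcendence basis (both types of coordinates).
-/

universe u

namespace Pool.Agent.Lib.MP_17a322_nt.VG

open MvPolynomial Height Filter
open Pool.Agent.Lib.MP_17a322_nt.RO
open Pool.Agent.Lib.MP_17a322_nt.VJ
open Pool.Agent.Lib.MP_17a322_nt.VN

section

variable {K : Type u} [Field K] [NumberField K] [DecidableEq K] {n : ℕ}
  (W : Fin n → CT K) (hW : ∀ t, (W t).IsE) (χ : Fin n → Bool)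
  (P : ℕ → ∀ t, (W t).Pt) (s y : ℕ → Fin n → K)
  (hH : Tendsto (fun i => HN (P i)) (hyperfilter ℕ : Filter ℕ) atTop)
  (hP : ∀ i t, (W t).Aff (P i t)) (hs : ∀ i t, CH (χ t) (P i t) (s i t))
  (hy : ∀ i t, y i t ^ 2 = ph (W t) (vc (χ t) (s i t)))

omit [DecidableEq K] in
include hs in
theorem Z7_HN (i : ℕ) : HN (P i) = ∑ t, logHeight₁ (s i t) := by
  unfold HN
  refine Finset.sum_congr rfl fun t _ => ?_
  obtain ⟨c, hc, h⟩ := hs i t
  rw [h, logHeight_smul_eq_logHeight _ hc, Z7_logHeight_vc]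

omit [DecidableEq K] in
include hs hH in
/-- Not all coordinates are in `k0`. -/
theorem Z7_card (J : Finset (Fin n))
    (hJ' : ∀ t, IsAlgebraic (Algebra.adjoin (k0 K _ hH) ((fun t => gm fun i => s i t) '' J))
      (gm fun i => s i t)) : J.card ≠ 0 := by
  intro hJ
  have h1 : ∀ t, oH (fun i => HN (P i)) fun i => logHeight₁ (s i t) := by
    intro t
    rw [← mem_k0 (hH := hH)]
    exact k0_closed _ hH _ (Z7_alg_empty (k := k0 K (fun i => HN (P i)) hH) hJ (hJ' t))
  have h2 := oH.sum hH Finset.univ (fun t i => logHeight₁ (s i t)) fun t _ => h1 t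
  obtain ⟨i, hi, hi'⟩ := ((h2 (1 / 2) (by norm_num)).and (hH.eventually_gt_atTop 0)).exists
  have hi2 : ∑ t, logHeight₁ (s i t) ≤ 1 / 2 * HN (P i) := hi
  rw [← Z7_HN W χ P s hs i] at hi2
  linarith

include hW hP hs hy in
/-- No gain for coprime polynomials in the variables `J`. -/
theorem no_gain (S : Finset (NumberField.FinitePlace K))
    (hS : ∀ t, (W t).isTor → ∀ δ : ℝ, 0 < δ → ∀ᶠ i in (hyperfilter ℕ : Filter ℕ),
      ∑ᶠ v : {v : NumberField.FinitePlace K // v ∉ S}, |Real.log (v.1 (s i t))| ≤ δ * HN (P i))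
    (J : Finset (Fin n))
    (hJ : AlgebraicIndependent (k0 K _ hH) fun t : J => gm fun i => s i t)
    (hJ' : ∀ t, IsAlgebraic (Algebra.adjoin (k0 K _ hH) ((fun t => gm fun i => s i t) '' J))
      (gm fun i => s i t))
    (f' g' : MvPolynomial (Fin n) (k0 K _ hH)) (hfv : f'.vars ⊆ J) (hgv : g'.vars ⊆ J)
    (hfg : IsRelPrime f' g') (a b : ℕ → K)
    (ha : gm a = aeval (fun t => gm fun i => s i t) f')
    (hb : gm b = aeval (fun t => gm fun i => s i t) g') (ε : ℝ) (hε : 0 < ε) :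
    (gm a ≠ 0 ∨ gm b ≠ 0) ∧
      ∃ N : ℝ, ∀ᶠ i in (hyperfilter ℕ : Filter ℕ), gN W N (s i) (a i) (b i) ≤ ε * HN (P i) := by
  have h0 : gm a ≠ 0 ∨ gm b ≠ 0 := by
    rw [ha, hb]
    exact Z7_ne (k := k0 K (fun i => HN (P i)) hH) (s := fun t => gm fun i => s i t) hJ hfv hgv hfg
  refine ⟨h0, ?_⟩
  have hc0 := Z7_card W χ P s hH hs J hJ'
  by_cases hc1 : J.card = 1
  · refine ⟨0, ?_⟩
    obtain ⟨u, v, huv⟩ := Z7_coprime hc1 hfv hgv hfg
    have h1 : gm (fun _ => (1 : K)) = aeval (fun t => gm fun i => s i t) u * gm a +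
        aeval (fun t => gm fun i => s i t) v * gm b := by
      rw [ha, hb, ← map_mul, ← map_mul, ← map_add, huv, map_one]
      rfl
    have h2 := gN_comb' W (fun i => HN (P i)) hH s (fun i t ht => CH_ne ht (hs i t)) 0 0 a b
      (fun _ => 1) (fun _ => 0) u v 0 0 (by rw [pow_zero, one_mul]; exact h1)
      (by rw [map_zero, zero_mul, zero_mul, add_zero, gm_zero, mul_zero])
      (Or.inl (by
        rw [gm_one]
        exact one_ne_zero)) ε hε
    filter_upwards [h2] with i hi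
    rw [gN_one_le W 0 le_rfl, Nat.cast_zero, add_zero, zero_add] at hi
    exact hi
  · obtain ⟨m, hm⟩ : ∃ m, J.card = m + 2 := ⟨J.card - 2, by omega⟩
    obtain ⟨f, hf⟩ := Z7_exists_rename hm f' hfv
    obtain ⟨g, hg⟩ := Z7_exists_rename hm g' hgv
    have hφr := Finset.range_orderEmbOfFin J hm
    have hφJ : ∀ t, J.orderEmbOfFin hm t ∈ J := fun t => Finset.orderEmbOfFin_mem J hm t
    have hJ2 : AlgebraicIndependent (k0 K (fun i => HN (P i)) hH)
        fun t : Fin (m + 2) => gm fun i => s i ((J.orderEmbOfFin hm).toEmbedding t) :=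
      hJ.comp (fun t : Fin (m + 2) => (⟨J.orderEmbOfFin hm t, hφJ t⟩ : J)) (by
        intro t t' htt
        simp only [Subtype.mk.injEq] at htt
        exact (J.orderEmbOfFin hm).injective htt)
    have hval : ∀ p : MvPolynomial (Fin (m + 2)) (k0 K (fun i => HN (P i)) hH),
        aeval (fun t => gm fun i => s i ((J.orderEmbOfFin hm).toEmbedding t)) p =
          aeval (fun t => gm fun i => s i t) (rename (J.orderEmbOfFin hm) p) := by
      intro p
      rw [aeval_rename]
      rfl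
    exact GCDSTAR W hW χ P s y hH hP hs hy S hS (J.orderEmbOfFin hm).toEmbedding hJ2 f g
      (Z7_isRelPrime_of_rename (J.orderEmbOfFin hm).injective (by rwa [hf, hg])) a b
      (by rw [hval, hf, ha]) (by rw [hval, hg, hb]) ε hε

end

end Pool.Agent.Lib.MP_17a322_nt.VG
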