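import Pool.Agent.Lib.MP_17a322_nt.VG.Defs
import Pool.Agent.Lib.MP_17a322_nt.VN.Z1

/-!
Definitions for part Z of VG: the theorem for coordinates of both types, for the induction on the number
of variables.
-/

universe u

namespace Pool.Agent.Lib.MP_17a322_nt.VG

open MvPolynomial Height Filter
open Pool.Agent.Lib.MP_17a322_nt.RO
open Pool.Agent.Lib.MP_17a322_nt.VJ
open Pool.Agent.Lib.MP_17a322_nt.VN

/-- `x t` is the coordinate of an affine point, resp. a unit. -/
def IsPt {K : Type u} [Field K] {n : ℕ} (W : Fin n → CT K) (x : Fin n → K) : Prop :=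
  ∀ t, ∃ P : (W t).Pt, (W t).Aff P ∧ (W t).xr P = ![x t, 1]

/-- The sum over the torus coordinates and the finite places outside `S` of `|log |x t||`. -/
noncomputable def NS {K : Type u} [Field K] [NumberField K] {n : ℕ} (W : Fin n → CT K)
    (S : Finset (NumberField.FinitePlace K)) (x : Fin n → K) : ℝ :=
  ∑ t, if (W t).isTor then
    ∑ᶠ v : {v : NumberField.FinitePlace K // v ∉ S}, |Real.log (v.1 (x t))| else 0

/-- The condition on the common zeros of the forms: codimension at least two in every stratum of the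
boundary. -/
def CodY {K : Type u} [Field K] {n m : ℕ} (W : Fin n → CT K)
    (g : Fin m → MvPolynomial (Fin n) K) (d : Fin n → ℕ) : Prop :=
  open Classical in
  ∀ (F : Type u) [Field F] [Algebra K F] (X Z : Fin n → F), (∀ i, X i ≠ 0 ∨ Z i ≠ 0) →
    (∀ k, ∑ e ∈ (g k).support, algebraMap K F ((g k).coeff e) *
      ∏ i, (X i ^ e i * Z i ^ (d i - e i)) = 0) →
      Algebra.trdeg K (IntermediateField.adjoin K (Set.range fun i => X i / Z i)) +
        (Finset.univ.filter fun t => (W t).isTor = true ∧ (X t = 0 ∨ Z t = 0)).card + 1 < n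

/-- The theorem in `n` variables. -/
def VGF (K : Type u) [Field K] [NumberField K] (n : ℕ) : Prop :=
  ∀ (m : ℕ) (W : Fin n → CT K) (_ : ∀ t, (W t).IsE) (S : Finset (NumberField.FinitePlace K))
    (g : Fin m → MvPolynomial (Fin n) K) (d : Fin n → ℕ) (_ : ∀ k i, (g k).degreeOf i ≤ d i)
    (_ : CodY W g d) (ε : ℝ) (_ : 0 < ε),
    ∃ G : MvPolynomial (Fin n) K, G ≠ 0 ∧ ∃ C : ℝ, ∀ x : Fin n → K, IsPt W x → eval x G ≠ 0 →
      ∑ i, (d i : ℝ) * logHeight₁ (x i) - logHeight (fun k => eval x (g k)) ≤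
        ε * ∑ i, logHeight₁ (x i) + C * (1 + NS W S x)

end Pool.Agent.Lib.MP_17a322_nt.VG
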