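import Pool.Agent.Lib.MP_17a322_nt.VG.EndStub
import Pool.Agent.Lib.MP_17a322_nt.VG.Z7d
import Pool.Agent.Lib.MP_17a322_nt.VG.ZDefs
import Pool.Agent.Lib.MP_17a322_nt.VN.Z8
import Pool.Agent.Lib.MP_17a322_nt.VN.Z9

/-!
# Z9: a generic sequence with positive gain does not exist
-/

universe u

namespace Pool.Agent.Lib.MP_17a322_nt.VG

open MvPolynomial Height Filter
open Pool.Agent.Lib.MP_17a322_nt.RO
open Pool.Agent.Lib.MP_17a322_nt.VJ
open Pool.Agent.Lib.MP_17a322_nt.VN

/-- The polynomial of the chart. -/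
noncomputable def QT {K : Type u} [Field K] (T : CT K) (c : Bool) : Polynomial K :=
  match T with
  | .ell W => Qp W c
  | .tor => Polynomial.X ^ 2

theorem aeval_QT {K : Type u} {A : Type*} [Field K] [CommRing A] [Algebra K A] (T : CT K)
    (c : Bool) (ξ : A) : Polynomial.aeval ξ (QT T c) = ph T (vc c ξ) := by
  cases T with
  | ell W => exact aeval_Qp W c ξ
  | tor =>
    change Polynomial.aeval ξ (Polynomial.X ^ 2 : Polynomial K) = _
    cases c <;> simp [ph, vc]

theorem no_sequence {K : Type u} [Field K] [NumberField K] [DecidableEq K] {n : ℕ}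
    (W : Fin n → CT K) (hW : ∀ t, (W t).IsE) (χ : Fin n → Bool)
    (P : ℕ → ∀ t, (W t).Pt) (s y : ℕ → Fin n → K)
    (hH : Tendsto (fun i => HN (P i)) (hyperfilter ℕ : Filter ℕ) atTop)
    (hP : ∀ i t, (W t).Aff (P i t)) (hs : ∀ i t, CH (χ t) (P i t) (s i t))
    (hy : ∀ i t, y i t ^ 2 = ph (W t) (vc (χ t) (s i t)))
    (S : Finset (NumberField.FinitePlace K))
    (hS : ∀ t, (W t).isTor → ∀ δ : ℝ, 0 < δ → ∀ᶠ i in (hyperfilter ℕ : Filter ℕ),
      ∑ᶠ v : {v : NumberField.FinitePlace K // v ∉ S}, |Real.log (v.1 (s i t))| ≤ δ * HN (P i))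
    (hgen : ∀ G : MvPolynomial (Fin n) K, G ≠ 0 →
      ∀ᶠ i in (hyperfilter ℕ : Filter ℕ), eval (s i) G ≠ 0)
    (f g : MvPolynomial (Fin n) K) (hfg : IsRelPrime f g) (hf : f ≠ 0) (ε : ℝ) (hε : 0 < ε)
    (hgain : ∀ N : ℝ, ∀ᶠ i in (hyperfilter ℕ : Filter ℕ),
      ε * HN (P i) ≤ gN W N (s i) (eval (s i) f) (eval (s i) g)) : False := by
  have hsi := algebraicIndependent_gm s hgen
  have hf0 : aeval (fun t => gm fun i => s i t) f ≠ 0 := by
    intro h
    exact hf ((algebraicIndependent_iff.1 hsi) f h)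
  obtain ⟨J, hJ, hJ'⟩ := exists_J (k := k0 K (fun i => HN (P i)) hH) (fun t => gm fun i => s i t)
  have hsl := slopes W hW χ P s y hH hP hs hy S hS J hJ hJ' f g hf0 ε hε hgain
  have hQe : ∀ t, t ∉ Finset.univ.filter (fun t => (W t).isTor = true) →
      Squarefree (QT (W t) (χ t)) ∧ 3 ≤ (QT (W t) (χ t)).natDegree := by
    intro t ht
    have h1 : (W t).isTor ≠ true := fun h => ht (Finset.mem_filter.2 ⟨Finset.mem_univ t, h⟩)
    have h2 := hW t
    revert h1 h2
    cases W t with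
    | ell W' =>
      intro _ h2
      have : W'.IsElliptic := h2
      exact ⟨Qp_squarefree W' (χ t), three_le_natDegree_Qp W' (χ t)⟩
    | tor =>
      intro h1 _
      exact absurd rfl h1
  obtain ⟨M, f', g', A, B, A', B', hfv, hgv, hfg', hf', hg'⟩ := END (k0 K _ hH)
    (fun a ha => k0_closed _ hH a ha) (Finset.univ.filter fun t => (W t).isTor = true)
    (fun t => QT (W t) (χ t)) (fun t ht => (hQe t ht).1) (fun t ht => (hQe t ht).2)
    (fun t ht => by
      have h1 := (Finset.mem_filter.1 ht).2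
      revert h1
      cases W t with
      | ell W' =>
        intro h1
        exact absurd h1 (by simp [CT.isTor])
      | tor =>
        intro _
        rfl)
    (fun t => gm fun i => s i t) (fun t => gm fun i => y i t) (fun t => by
      rw [polynomial_aeval_gm]
      simp only [aeval_QT, ← hy]
      rfl) hsi J hJ hJ' hsl f g hfg
  obtain ⟨a, ha⟩ := gm_surjective (aeval (fun t => gm fun i => s i t) f')
  obtain ⟨b, hb⟩ := gm_surjective (aeval (fun t => gm fun i => s i t) g')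
  obtain ⟨h0, N, hng⟩ := no_gain W hW χ P s y hH hP hs hy S hS J hJ hJ' f' g' hfv hgv hfg' a b
    ha hb (ε / 4) (by positivity)
  have hcomb := gN_comb' W (fun i => HN (P i)) hH s (fun i t ht => CH_ne ht (hs i t)) N M
    (fun i => eval (s i) f) (fun i => eval (s i) g) a b
    A B A' B' (by rw [ha, hf', aeval_gm, aeval_gm]) (by rw [hb, hg', aeval_gm, aeval_gm]) h0
    (ε / 4) (by positivity)
  obtain ⟨i, ⟨⟨h1, h2⟩, h3⟩, h4⟩ := ((((hgain (N + M)).and hng).and hcomb).and
    (hH.eventually_gt_atTop 0)).exists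
  have h5 : 0 < ε * HN (P i) := mul_pos hε h4
  linarith

end Pool.Agent.Lib.MP_17a322_nt.VG
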