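import Pool.Agent.Lib.MP_17a322_nt.VG.B4
import Pool.Agent.Lib.MP_17a322_nt.VG.Z9
import Pool.Agent.Lib.MP_17a322_nt.VN.Z3
import Pool.Agent.Lib.MP_17a322_nt.VN.Z5
import Pool.Agent.Lib.MP_17a322_nt.VN.Z10

/-!
# Z10: the theorem by induction on the number of variables
-/

universe u

namespace Pool.Agent.Lib.MP_17a322_nt.VG

open MvPolynomial Height Filter
open Pool.Agent.Lib.MP_17a322_nt.RO
open Pool.Agent.Lib.MP_17a322_nt.VJ
open Pool.Agent.Lib.MP_17a322_nt.VN

/-- The coordinate in the chart. -/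
theorem CH_of {K : Type u} [Field K] {T : CT K} (c : Bool) {P : T.Pt} {x : K}
    (h : T.xr P = ![x, 1]) (hx : x ≠ 0) : CH c P (sc c x) := by
  unfold CH
  rw [h]
  cases c
  · refine ⟨1, one_ne_zero, ?_⟩
    simp [sc, vc]
  · refine ⟨x, hx, ?_⟩
    funext i
    fin_cases i <;> simp [sc, vc, hx]

/-- The square root of `ph` in the chart. -/
theorem exists_sqrt {K : Type u} [Field K] {T : CT K} (c : Bool) {P : T.Pt} {x : K}
    (hP : T.Aff P) (h : T.xr P = ![x, 1]) (hx : x ≠ 0) :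
    ∃ y : K, y ^ 2 = ph T (vc c (sc c x)) := by
  cases T with
  | ell W =>
    change WeierstrassCurve.Affine.Point.xRep P = ![x, 1] at h
    change P ≠ (0 : W.toAffine.Point) at hP
    rcases P with _ | ⟨x', y', hxy⟩
    · exact absurd rfl hP
    · rw [WeierstrassCurve.Affine.Point.xRep_some] at h
      have hx' : x' = x := by
        have := congrFun h 0
        simpa using this
      subst hx'
      exact ⟨_, ph_sc c hxy hx⟩
  | tor =>
    refine ⟨sc c x, ?_⟩
    cases c <;> simp [ph, vc]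

/-- The sum over the places outside `S` of one torus coordinate. -/
noncomputable def ns {K : Type u} [Field K] [NumberField K]
    (S : Finset (NumberField.FinitePlace K)) (x : K) : ℝ :=
  ∑ᶠ v : {v : NumberField.FinitePlace K // v ∉ S}, |Real.log (v.1 x)|

theorem ns_nonneg {K : Type u} [Field K] [NumberField K]
    (S : Finset (NumberField.FinitePlace K)) (x : K) : 0 ≤ ns S x :=
  finsum_nonneg fun _ => abs_nonneg _

theorem ns_sc {K : Type u} [Field K] [NumberField K]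
    (S : Finset (NumberField.FinitePlace K)) (c : Bool) (x : K) : ns S (sc c x) = ns S x := by
  cases c
  · rfl
  · unfold ns
    refine finsum_congr fun v => ?_
    rw [show sc true x = x⁻¹ from rfl, map_inv₀, Real.log_inv, abs_neg]

theorem ns_le_NS {K : Type u} [Field K] [NumberField K] {n : ℕ} (W : Fin n → CT K)
    (S : Finset (NumberField.FinitePlace K)) (x : Fin n → K) {t : Fin n}
    (ht : (W t).isTor = true) : ns S (x t) ≤ NS W S x := by
  unfold NS
  have h1 := Finset.single_le_sum (f := fun t => if (W t).isTor = true then ns S (x t) else 0)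
    (fun t _ => by
      beta_reduce
      split_ifs
      · exact ns_nonneg S (x t)
      · exact le_rfl) (Finset.mem_univ t)
  beta_reduce at h1
  rw [if_pos ht] at h1
  exact h1

/-- The condition without the boundary. -/
theorem CodY.cod {K : Type u} [Field K] {n m : ℕ} {W : Fin n → CT K}
    {g : Fin m → MvPolynomial (Fin n) K} {d : Fin n → ℕ} (hY : CodY W g d)
    (F : Type u) [Field F] [Algebra K F] (X Z : Fin n → F) (hXZ : ∀ i, X i ≠ 0 ∨ Z i ≠ 0)
    (h : ∀ k, ∑ e ∈ (g k).support, algebraMap K F ((g k).coeff e) *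
      ∏ i, (X i ^ e i * Z i ^ (d i - e i)) = 0) :
    Algebra.trdeg K (IntermediateField.adjoin K (Set.range fun i => X i / Z i)) + 1 < n := by
  classical
  have h1 := hY F X Z hXZ h
  refine lt_of_le_of_lt ?_ h1
  refine add_le_add_left ?_ 1
  exact le_self_add

theorem VGF_zero (K : Type u) [Field K] [NumberField K] : VGF K 0 := by
  intro m W hW S g d hd hY ε hε
  refine ⟨1, one_ne_zero, |∑ i : Fin 0, (d i : ℝ) * logHeight₁ ((fun _ => (0 : K)) i) -
      logHeight (fun k => eval (fun _ => (0 : K)) (g k)) -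
      ε * ∑ i : Fin 0, logHeight₁ ((fun _ => (0 : K)) i)|, fun x _ _ => ?_⟩
  have hx : x = fun _ => 0 := Subsingleton.elim _ _
  rw [hx]
  have h1 : NS W S (fun _ => 0) = 0 := by
    unfold NS
    exact Finset.sum_of_isEmpty _
  rw [h1, add_zero, mul_one]
  have h2 := le_abs_self (∑ i : Fin 0, (d i : ℝ) * logHeight₁ ((fun _ => (0 : K)) i) -
      logHeight (fun k => eval (fun _ => (0 : K)) (g k)) -
      ε * ∑ i : Fin 0, logHeight₁ ((fun _ => (0 : K)) i))
  linarith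

theorem VGF_succ (K : Type u) [Field K] [NumberField K] (n : ℕ) (ih : VGF K n) :
    VGF K (n + 1) := by
  classical
  intro m W hW S g d hd hY ε hε
  -- coprime pairs in all charts
  have hpair : ∀ χ : Fin (n + 1) → Bool, ∃ a b : Fin m → K,
      (∑ k, a k • chp χ d (g k)) ≠ 0 ∧
      IsRelPrime (∑ k, a k • chp χ d (g k)) (∑ k, b k • chp χ d (g k)) := by
    intro χ
    have h1 := chart_no_common_factor g d (fun F _ _ X Z => hY.cod F X Z) χ
    obtain ⟨k₀, hk₀⟩ := h1 (X 0) (MvPolynomial.X_prime.irreducible)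
    have h2 : chp χ d (g k₀) ≠ 0 := by
      intro h
      rw [h] at hk₀
      exact hk₀ (dvd_zero _)
    obtain ⟨b, hb⟩ := exists_isRelPrime (k := K) (fun k => chp χ d (g k)) h1 k₀ h2
    have h3 : ∑ k, (Pi.single k₀ 1 : Fin m → K) k • chp χ d (g k) = chp χ d (g k₀) := by
      rw [Finset.sum_eq_single k₀ (fun k _ hne => by rw [Pi.single_eq_of_ne hne, zero_smul])
        (fun hne => absurd (Finset.mem_univ k₀) hne), Pi.single_eq_same, one_smul]
    exact ⟨Pi.single k₀ 1, b, by rw [h3]; exact h2, by rw [h3]; exact hb⟩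
  choose a b hf0 hrel using hpair
  have hbd : ∀ N : ℕ, ∃ G : MvPolynomial (Fin (n + 1)) K, G ≠ 0 ∧ ∃ C : ℝ,
      ∀ x : Fin (n + 1) → K, IsPt W x → (∀ t, x t ≠ 0) →
      (∀ χ, eval (fun t => sc (χ t) (x t)) (∑ k, a χ k • chp χ d (g k)) ≠ 0) →
      eval x G ≠ 0 →
      ∑ t, (d t : ℝ) * logHeight₁ (x t) - logHeight (fun k => eval x (g k)) ≤
        ∑ χ : Fin (n + 1) → Bool, gN W (N : ℝ) (fun t => sc (χ t) (x t))
          (eval (fun t => sc (χ t) (x t)) (∑ k, a χ k • chp χ d (g k)))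
          (eval (fun t => sc (χ t) (x t)) (∑ k, b χ k • chp χ d (g k))) +
        ε / 2 * ∑ i, logHeight₁ (x i) + C * (1 + NS W S x) := fun N =>
    boundary ih W hW S g d hd hY a b N (ε / 2) (Nat.cast_nonneg N) (half_pos hε)
  obtain ⟨f, hf⟩ : ∃ f : (Fin (n + 1) → Bool) → MvPolynomial (Fin (n + 1)) K,
      f = fun χ => ∑ k, a χ k • chp χ d (g k) := ⟨_, rfl⟩
  obtain ⟨h, hh⟩ : ∃ h : (Fin (n + 1) → Bool) → MvPolynomial (Fin (n + 1)) K,
      h = fun χ => ∑ k, b χ k • chp χ d (g k) := ⟨_, rfl⟩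
  have hfv : ∀ χ, ∑ k, a χ k • chp χ d (g k) = f χ := fun χ => by rw [hf]
  have hhv : ∀ χ, ∑ k, b χ k • chp χ d (g k) = h χ := fun χ => by rw [hh]
  simp only [hfv, hhv] at hf0 hrel hbd
  choose GN hGN0 CN hCN using hbd
  by_contra hcon
  push Not at hcon
  -- the sequence
  obtain ⟨P, hPbad, hPG₀, hPgen⟩ := exists_generic_seq
    (T := {x : Fin (n + 1) → K // IsPt W x})
    (fun p => p.1)
    (fun ν => {p | ε * ∑ i, logHeight₁ (p.1 i) + ν * (1 + NS W S p.1) <
      ∑ i, (d i : ℝ) * logHeight₁ (p.1 i) - logHeight (fun k => eval p.1 (g k))})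
    ((∏ t, X t) * ∏ χ, chp χ (fun t => (f χ).degreeOf t) (f χ))
    (mul_ne_zero (Finset.prod_ne_zero_iff.2 fun t _ => MvPolynomial.X_ne_zero t)
      (Finset.prod_ne_zero_iff.2 fun χ _ => chp_ne_zero χ _ (f χ) (fun _ => le_rfl) (hf0 χ)))
    (fun G hG ν => by
      obtain ⟨x, hxy, hx, hlt⟩ := hcon G hG ν
      exact ⟨⟨x, hxy⟩, hlt, hx⟩)
  obtain ⟨x, hxP⟩ : ∃ x : ℕ → Fin (n + 1) → K, x = fun ν => (P ν).1 := ⟨_, rfl⟩
  have hxy : ∀ ν, IsPt W (x ν) := fun ν => by
    rw [hxP]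
    exact (P ν).2
  have hbad : ∀ ν : ℕ, ε * ∑ i, logHeight₁ (x ν i) + ν * (1 + NS W S (x ν)) <
      ∑ i, (d i : ℝ) * logHeight₁ (x ν i) - logHeight (fun k => eval (x ν) (g k)) := fun ν => by
    rw [hxP]
    exact hPbad ν
  have hG₀ : ∀ ν, eval (x ν) ((∏ t, X t) * ∏ χ, chp χ (fun t => (f χ).degreeOf t) (f χ)) ≠ 0 :=
    fun ν => by
      rw [hxP]
      exact hPG₀ ν
  have hgen : ∀ G : MvPolynomial (Fin (n + 1)) K, G ≠ 0 → ∀ᶠ ν in atTop, eval (x ν) G ≠ 0 :=
    fun G hG => by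
      rw [hxP]
      exact hPgen G hG
  have hx0 : ∀ ν t, x ν t ≠ 0 := by
    intro ν t
    have h1 := hG₀ ν
    rw [map_mul, map_prod] at h1
    have h2 := Finset.prod_ne_zero_iff.1 (left_ne_zero_of_mul h1) t (Finset.mem_univ t)
    rwa [eval_X] at h2
  have hf1 : ∀ ν χ, eval (fun t => sc (χ t) (x ν t)) (f χ) ≠ 0 := by
    intro ν χ
    have h1 := hG₀ ν
    rw [map_mul, map_prod (eval (x ν)) (fun χ => chp χ (fun t => (f χ).degreeOf t) (f χ))] at h1
    have h2 := Finset.prod_ne_zero_iff.1 (right_ne_zero_of_mul h1) χ (Finset.mem_univ χ)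
    exact eval_sc_ne_zero χ _ (f χ) (fun _ => le_rfl) (x ν) (hx0 ν) h2
  -- heights tend to infinity
  obtain ⟨H, hHdef⟩ : ∃ H : ℕ → ℝ, H = fun ν => ∑ i, logHeight₁ (x ν i) := ⟨_, rfl⟩
  have hHv : ∀ ν, ∑ i, logHeight₁ (x ν i) = H ν := fun ν => by rw [hHdef]
  have hH0 : ∀ ν, 0 ≤ H ν := fun ν => by
    rw [← hHv]
    exact Finset.sum_nonneg fun i _ => zero_le_logHeight₁ _
  obtain ⟨D, hD⟩ : ∃ D : ℝ, D = ∑ i, (d i : ℝ) + 1 := ⟨_, rfl⟩
  have hD0 : 0 < D := by
    rw [hD]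
    have : 0 ≤ ∑ i, (d i : ℝ) := Finset.sum_nonneg fun i _ => Nat.cast_nonneg _
    linarith
  have hHge' : ∀ ν : ℕ, (ν : ℝ) * (1 + NS W S (x ν)) ≤ D * H ν := by
    intro ν
    have h1 := hbad ν
    have h2 : 0 ≤ logHeight (fun k => eval (x ν) (g k)) := logHeight_nonneg _
    have h3 : ∑ i, (d i : ℝ) * logHeight₁ (x ν i) ≤ (∑ i, (d i : ℝ)) * H ν := by
      rw [Finset.sum_mul]
      refine Finset.sum_le_sum fun i _ => mul_le_mul_of_nonneg_left ?_ (Nat.cast_nonneg _)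
      rw [← hHv]
      exact Finset.single_le_sum (f := fun i => logHeight₁ (x ν i))
        (fun i _ => zero_le_logHeight₁ _) (Finset.mem_univ i)
    rw [hHv] at h1
    have h4 := mul_nonneg hε.le (hH0 ν)
    have h5 := hH0 ν
    rw [hD]
    nlinarith
  have hNS0 : ∀ ν, 0 ≤ NS W S (x ν) := fun ν => NS_nonneg W S (x ν)
  have hHge : ∀ ν : ℕ, (ν : ℝ) / D ≤ H ν := by
    intro ν
    rw [div_le_iff₀ hD0, mul_comm]
    refine le_trans ?_ (hHge' ν)
    have h1 : (0 : ℝ) ≤ (ν : ℝ) * NS W S (x ν) := mul_nonneg (Nat.cast_nonneg ν) (hNS0 ν)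
    linarith
  have hHtop : Tendsto H atTop atTop :=
    tendsto_atTop_mono hHge (tendsto_natCast_atTop_atTop.atTop_div_const hD0)
  have hlarge : ∀ C₁ : ℝ, ∀ᶠ ν : ℕ in (hyperfilter ℕ : Filter ℕ), C₁ ≤ ν := fun C₁ =>
    (tendsto_natCast_atTop_atTop.eventually_ge_atTop C₁).filter_mono (Nat.hyperfilter_le_atTop)
  -- one chart for every `N`
  obtain ⟨c, hc⟩ : ∃ c : ℝ, c = Fintype.card (Fin (n + 1) → Bool) := ⟨_, rfl⟩
  have hc0 : 0 < c := by
    rw [hc]
    exact_mod_cast Fintype.card_pos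
  have hchart : ∀ N : ℕ, ∃ χ : Fin (n + 1) → Bool, ∀ᶠ ν in (hyperfilter ℕ : Filter ℕ),
      ε / 2 / c * H ν ≤ gN W (N : ℝ) (fun t => sc (χ t) (x ν t))
        (eval (fun t => sc (χ t) (x ν t)) (f χ)) (eval (fun t => sc (χ t) (x ν t)) (h χ)) := by
    intro N
    refine eventually_exists_fintype _ _ ?_
    filter_upwards [hlarge (CN N), (hgen (GN N) (hGN0 N)).filter_mono Nat.hyperfilter_le_atTop]
      with ν hν hν2
    by_contra hcc
    push Not at hcc
    have h1 := hCN N (x ν) (hxy ν) (hx0 ν) (hf1 ν) hν2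
    have h2 := hbad ν
    rw [hHv] at h1 h2
    have h3 : ∑ χ : Fin (n + 1) → Bool, gN W (N : ℝ) (fun t => sc (χ t) (x ν t))
        (eval (fun t => sc (χ t) (x ν t)) (f χ)) (eval (fun t => sc (χ t) (x ν t)) (h χ)) ≤
        ∑ _χ : Fin (n + 1) → Bool, ε / 2 / c * H ν := Finset.sum_le_sum fun χ _ => (hcc χ).le
    rw [Finset.sum_const, Finset.card_univ, nsmul_eq_mul, ← hc] at h3
    have h4 : c * (ε / 2 / c * H ν) = ε / 2 * H ν := by
      field_simp
    have h5 : CN N * (1 + NS W S (x ν)) ≤ ν * (1 + NS W S (x ν)) :=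
      mul_le_mul_of_nonneg_right hν (by linarith [hNS0 ν])
    linarith
  choose χN hχN using hchart
  obtain ⟨χ, hχ⟩ : ∃ χ, ∀ M : ℕ, ∃ N, M ≤ N ∧ χN N = χ := by
    by_contra hcc
    push Not at hcc
    choose MM hMM using hcc
    obtain ⟨B, hB⟩ : ∃ B : ℕ, ∀ χ, MM χ ≤ B :=
      ⟨∑ χ, MM χ, fun χ => Finset.single_le_sum (fun _ _ => Nat.zero_le _) (Finset.mem_univ χ)⟩
    exact hMM (χN B) B (hB _) rfl
  have hgain : ∀ N : ℝ, ∀ᶠ ν in (hyperfilter ℕ : Filter ℕ),
      ε / 2 / c * H ν ≤ gN W N (fun t => sc (χ t) (x ν t))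
        (eval (fun t => sc (χ t) (x ν t)) (f χ)) (eval (fun t => sc (χ t) (x ν t)) (h χ)) := by
    intro N
    obtain ⟨M, hM⟩ := exists_nat_ge N
    obtain ⟨N', hN', hN'χ⟩ := hχ M
    have h1 := hχN N'
    rw [hN'χ] at h1
    filter_upwards [h1] with ν hν
    refine hν.trans (gN_anti W ?_ _ _ _)
    exact hM.trans (by exact_mod_cast hN')
  -- points
  choose Q hQ using hxy
  have hHN : ∀ ν, HN (Q ν) = H ν := by
    intro ν
    rw [← hHv]
    unfold HN
    refine Finset.sum_congr rfl fun t _ => ?_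
    rw [(hQ ν t).2]
    exact (logHeight₁_eq_logHeight _).symm
  choose y hy using fun ν t => exists_sqrt (χ t) (hQ ν t).1 (hQ ν t).2 (hx0 ν t)
  refine no_sequence W hW χ Q (fun ν t => sc (χ t) (x ν t)) y ?_ (fun ν t => (hQ ν t).1)
    (fun ν t => CH_of _ (hQ ν t).2 (hx0 ν t)) hy S ?_ (fun G hG => ?_) (f χ) (h χ) (hrel χ)
    (hf0 χ) (ε / 2 / c) (div_pos (half_pos hε) hc0) ?_
  · simp only [hHN]
    exact hHtop.mono_left Nat.hyperfilter_le_atTop
  · intro t ht δ hδ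
    filter_upwards [hlarge (D / δ)] with ν hν
    rw [hHN]
    have h1 : ns S (sc (χ t) (x ν t)) ≤ δ * H ν := by
      rw [ns_sc]
      refine (ns_le_NS W S (x ν) ht).trans ?_
      have h2 := hHge' ν
      rw [div_le_iff₀ hδ] at hν
      have h3 : 0 < (ν : ℝ) := by
        by_contra h4
        have h5 : (ν : ℝ) = 0 := le_antisymm (not_lt.mp h4) (Nat.cast_nonneg ν)
        rw [h5, zero_mul] at hν
        linarith
      have h4 : (ν : ℝ) * NS W S (x ν) ≤ ν * (δ * H ν) := by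
        calc (ν : ℝ) * NS W S (x ν) ≤ ν * (1 + NS W S (x ν)) := by linarith
          _ ≤ D * H ν := h2
          _ ≤ ν * δ * H ν := mul_le_mul_of_nonneg_right hν (hH0 ν)
          _ = ν * (δ * H ν) := by ring
      exact le_of_mul_le_mul_left h4 h3
    exact h1
  · have h1 := (hgen (chp χ (fun t => G.degreeOf t) G)
      (chp_ne_zero χ _ G (fun _ => le_rfl) hG)).filter_mono Nat.hyperfilter_le_atTop
    filter_upwards [h1] with ν hν
    exact eval_sc_ne_zero χ _ G (fun _ => le_rfl) (x ν) (hx0 ν) hν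
  · intro N
    filter_upwards [hgain N] with ν hν
    rw [hHN]
    exact hν

/-- The theorem in every dimension. -/
theorem vgf (K : Type u) [Field K] [NumberField K] (n : ℕ) : VGF K n := by
  induction n with
  | zero => exact VGF_zero K
  | succ n ih => exact VGF_succ K n ih

end Pool.Agent.Lib.MP_17a322_nt.VG
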