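import Pool.Agent.Lib.MP_17a322_nt.VG.Z10

/-!
# Z11: the final theorem with separate coordinates
-/

universe u

namespace Pool.Agent.Lib.MP_17a322_nt.VG

open MvPolynomial Height Filter
open Pool.Agent.Lib.MP_17a322_nt.RO
open Pool.Agent.Lib.MP_17a322_nt.VJ
open Pool.Agent.Lib.MP_17a322_nt.VN

/-- The values of the forms after renaming the variables. -/
theorem form_rename {K F : Type*} [Field K] [Field F] [Algebra K F] {σ τ : Type*} [Fintype σ]
    [Fintype τ] (e : σ ≃ τ) (g : MvPolynomial σ K) (d : τ → ℕ) (X Z : τ → F) :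
    ∑ m ∈ (rename e g).support, algebraMap K F ((rename e g).coeff m) *
        ∏ t, (X t ^ m t * Z t ^ (d t - m t)) =
      ∑ m ∈ g.support, algebraMap K F (g.coeff m) *
        ∏ i, (X (e i) ^ m i * Z (e i) ^ (d (e i) - m i)) := by
  classical
  rw [support_rename_of_injective e.injective,
    Finset.sum_image fun a _ b _ h => Finsupp.mapDomain_injective e.injective h]
  refine Finset.sum_congr rfl fun m _ => ?_
  rw [coeff_rename_mapDomain e e.injective, ← Equiv.prod_comp e]
  congr 1
  refine Finset.prod_congr rfl fun i _ => ?_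
  rw [Finsupp.mapDomain_apply e.injective]

/-- The types of the coordinates. -/
def WT {K : Type u} {p q : ℕ} (W : Fin p → WeierstrassCurve K) (t : Fin (p + q)) : CT K :=
  Sum.elim (fun i => CT.ell (W i)) (fun _ : Fin q => CT.tor) (finSumFinEquiv.symm t)

theorem WT_inl {K : Type u} {p q : ℕ} (W : Fin p → WeierstrassCurve K) (i : Fin p) :
    WT (q := q) W (finSumFinEquiv (Sum.inl i)) = CT.ell (W i) := by
  unfold WT
  rw [Equiv.symm_apply_apply]
  rfl

theorem WT_inr {K : Type u} {p q : ℕ} (W : Fin p → WeierstrassCurve K) (j : Fin q) :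
    WT (q := q) W (finSumFinEquiv (Sum.inr j)) = CT.tor := by
  unfold WT
  rw [Equiv.symm_apply_apply]
  rfl

theorem final {K : Type u} [Field K] [NumberField K] {p q m : ℕ}
    (W : Fin p → WeierstrassCurve K) [∀ i, (W i).IsElliptic]
    (S : Finset (NumberField.FinitePlace K))
    (g : Fin m → MvPolynomial (Fin p ⊕ Fin q) K) (d : Fin p ⊕ Fin q → ℕ)
    (hd : ∀ k i, (g k).degreeOf i ≤ d i)
    (hY : ∀ (F : Type u) [Field F] [Algebra K F] [DecidableEq F] (X Z : Fin p ⊕ Fin q → F),
      (∀ i, X i ≠ 0 ∨ Z i ≠ 0) →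
      (∀ k, ∑ e ∈ (g k).support, algebraMap K F ((g k).coeff e) *
        ∏ i, (X i ^ e i * Z i ^ (d i - e i)) = 0) →
        Algebra.trdeg K (IntermediateField.adjoin K (Set.range fun i => X i / Z i)) +
          (Finset.univ.filter fun j : Fin q => X (Sum.inr j) = 0 ∨ Z (Sum.inr j) = 0).card + 1 <
            p + q)
    (ε : ℝ) (hε : 0 < ε) :
    ∃ G : MvPolynomial (Fin p ⊕ Fin q) K, G ≠ 0 ∧ ∃ C : ℝ, ∀ (x y : Fin p → K) (u : Fin q → K),
      (∀ i, (W i).toAffine.Nonsingular (x i) (y i)) → (∀ j, u j ≠ 0) →
      eval (Sum.elim x u) G ≠ 0 →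
        ∑ i, (d (Sum.inl i) : ℝ) * logHeight₁ (x i) + ∑ j, (d (Sum.inr j) : ℝ) * logHeight₁ (u j) -
            logHeight (fun k => eval (Sum.elim x u) (g k)) ≤
          ε * (∑ i, logHeight₁ (x i) + ∑ j, logHeight₁ (u j)) +
            C * (1 + ∑ j, ∑ᶠ v : {v : NumberField.FinitePlace K // v ∉ S},
              |Real.log (v.1 (u j))|) := by
  classical
  obtain ⟨e, he⟩ : ∃ e : Fin p ⊕ Fin q ≃ Fin (p + q), e = finSumFinEquiv := ⟨_, rfl⟩
  have hinl : ∀ i, WT (q := q) W (e (Sum.inl i)) = CT.ell (W i) := fun i => by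
    rw [he]
    exact WT_inl W i
  have hinr : ∀ j, WT (q := q) W (e (Sum.inr j)) = CT.tor := fun j => by
    rw [he]
    exact WT_inr W j
  have hall : ∀ {p' : Fin (p + q) → Prop}, (∀ i, p' (e (Sum.inl i))) → (∀ j, p' (e (Sum.inr j))) →
      ∀ t, p' t := by
    intro p' h1 h2 t
    obtain ⟨i, rfl⟩ := e.surjective t
    rcases i with i | j
    · exact h1 i
    · exact h2 j
  obtain ⟨G, hG, C, hC⟩ := vgf K (p + q) m (WT (q := q) W)
    (hall (fun i => by rw [hinl]; exact (inferInstance : (W i).IsElliptic))
      (fun j => by rw [hinr]; trivial))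
    S (fun k => rename e (g k)) (fun t => d (e.symm t))
    (fun k => hall (fun i => by
      rw [degreeOf_rename_of_injective e.injective, Equiv.symm_apply_apply]
      exact hd k _) (fun j => by
      rw [degreeOf_rename_of_injective e.injective, Equiv.symm_apply_apply]
      exact hd k _))
    (fun F _ _ X Z hXZ h => by
      have h1 := hY F (fun i => X (e i)) (fun i => Z (e i)) (fun i => hXZ _) (fun k => by
        have h2 := h k
        rw [form_rename] at h2
        simp only [Equiv.symm_apply_apply] at h2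
        exact h2)
      have h2 : Set.range (fun i => X (e i) / Z (e i)) = Set.range fun t => X t / Z t :=
        e.surjective.range_comp fun t => X t / Z t
      have h3 : (Finset.univ.filter fun t => (WT (q := q) W t).isTor = true ∧
          (X t = 0 ∨ Z t = 0)).card =
          (Finset.univ.filter fun j : Fin q => X (e (Sum.inr j)) = 0 ∨
            Z (e (Sum.inr j)) = 0).card := by
        symm
        refine Finset.card_bij (fun j _ => e (Sum.inr j)) ?_ ?_ ?_
        · intro j hj
          rw [Finset.mem_filter] at hj ⊢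
          refine ⟨Finset.mem_univ _, ?_, hj.2⟩
          rw [hinr]
          rfl
        · intro j _ j' _ h
          exact Sum.inr_injective (e.injective h)
        · intro t ht
          rw [Finset.mem_filter] at ht
          obtain ⟨i, rfl⟩ := e.surjective t
          rcases i with i | j
          · rw [hinl] at ht
            exact absurd ht.2.1 (by simp [CT.isTor])
          · exact ⟨j, Finset.mem_filter.2 ⟨Finset.mem_univ _, ht.2.2⟩, rfl⟩
      rw [h3, ← h2]
      push_cast
      exact h1)
    ε hε
  refine ⟨rename e.symm G, ?_, C, ?_⟩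
  · intro h
    exact hG (rename_injective _ e.symm.injective (by rw [h, map_zero]))
  · intro x y u hxy hu hG'
    rw [eval_rename] at hG'
    obtain ⟨z, hz⟩ : ∃ z : Fin (p + q) → K, z = Sum.elim x u ∘ e.symm := ⟨_, rfl⟩
    rw [← hz] at hG'
    have hzl : ∀ i, z (e (Sum.inl i)) = x i := fun i => by
      rw [hz, Function.comp_apply, Equiv.symm_apply_apply]
      rfl
    have hzr : ∀ j, z (e (Sum.inr j)) = u j := fun j => by
      rw [hz, Function.comp_apply, Equiv.symm_apply_apply]
      rfl
    have hpt : IsPt (WT (q := q) W) z := hall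
      (fun i => by
        rw [hinl, hzl]
        refine ⟨WeierstrassCurve.Affine.Point.some (x i) (y i) (hxy i), ?_, ?_⟩
        · exact WeierstrassCurve.Affine.Point.some_ne_zero _
        · exact WeierstrassCurve.Affine.Point.xRep_some (hxy i))
      (fun j => by
        rw [hinr, hzr]
        exact ⟨Additive.ofMul (Units.mk0 (u j) (hu j)), trivial, rfl⟩)
    have h1 := hC z hpt hG'
    have hsum : ∀ f : Fin (p + q) → ℝ, ∑ t, f t =
        ∑ i, f (e (Sum.inl i)) + ∑ j, f (e (Sum.inr j)) := by
      intro f
      rw [← Equiv.sum_comp e f, Fintype.sum_sum_type]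
    have hNS : NS (WT (q := q) W) S z = ∑ j, ∑ᶠ v : {v : NumberField.FinitePlace K // v ∉ S},
        |Real.log (v.1 (u j))| := by
      unfold NS
      rw [hsum]
      have h2 : ∀ i, (if (WT (q := q) W (e (Sum.inl i))).isTor = true then
          ∑ᶠ v : {v : NumberField.FinitePlace K // v ∉ S},
            |Real.log (v.1 (z (e (Sum.inl i))))| else 0) = 0 := by
        intro i
        rw [hinl]
        rfl
      rw [Finset.sum_congr rfl fun i _ => h2 i, Finset.sum_const_zero, zero_add]
      refine Finset.sum_congr rfl fun j _ => ?_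
      rw [hinr, hzr]
      rfl
    have hev : (fun k => eval z (rename e (g k))) = fun k => eval (Sum.elim x u) (g k) := by
      funext k
      rw [eval_rename]
      congr 2
      funext i
      rw [hz, Function.comp_apply, Function.comp_apply, Equiv.symm_apply_apply]
    rw [hNS, hsum, hsum, hev] at h1
    simp only [hzl, hzr, Equiv.symm_apply_apply] at h1
    exact h1

end Pool.Agent.Lib.MP_17a322_nt.VG
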