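import Pool.Agent.Lib.MP_17a322_nt.VG.C0
import Pool.Agent.Lib.MP_17a322_nt.VN.L1l

/-!
Definitions for part L of VG (local estimates, elimination).
-/

universe u

namespace Pool.Agent.Lib.MP_17a322_nt.VG

open MvPolynomial Height
open Pool.Agent.Lib.MP_17a322_nt.RO Pool.Agent.Lib.MP_17a322_nt.VJ
open Pool.Agent.Lib.MP_17a322_nt.VN

/-- The relation between the coordinates of `Q`, `P` and `P - Q` (a square for a torus coordinate, so
that the degree in each of `R`, `Q`, `Z` is two in all cases). -/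
noncomputable def S3 {K : Type u} [Field K] (W : CT K) {A : Type*} [CommRing A] [Algebra K A]
    (R Q Z : Fin 2 → A) : A :=
  match W with
  | .ell W => VJ.S3 W R Q Z
  | .tor => (Z 0 * (Q 1 * R 0) - Z 1 * (Q 0 * R 1)) ^ 2

/-- The relation `α_p` between `x_t`, `S_p` and `ξ_p`. -/
noncomputable def al {K : Type u} [Field K] {m n : ℕ} (W : Fin n → CT K)
    (χ : Fin n → Bool) (j : Fin m → ℕ) (p : Fin m × Fin n) : MvPolynomial (VL m n) K :=
  S3 (W p.2) (mu (W p.2) (j p.1) ![X (vX p.2), 1]) (vc (χ p.2) (X (vS p))) ![X (vZ p), 1]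

/-- The local constant, including the prime two. -/
noncomputable def kc {K : Type u} [Field K] (W : CT K) {L : Type*} [Field L]
    [Algebra K L] (v : AbsoluteValue L ℝ) : ℝ :=
  lc W v * max 1 (v (2 : L)⁻¹)

/-- The size of the coordinate of the difference (and of its inverse for a torus coordinate). -/
noncomputable def qq {K : Type u} [Field K] (W : CT K) {L : Type*} [Field L]
    (v : AbsoluteValue L ℝ) (q : L) : ℝ :=
  match W with
  | .ell _ => max 1 (v q)
  | .tor => max 1 (v q) * max 1 (v q)⁻¹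

/-- The loss at the boundary. -/
noncomputable def sg {K : Type u} [Field K] (W : CT K) {L : Type*} [Field L]
    (v : AbsoluteValue L ℝ) (σ : L) : ℝ :=
  match W with
  | .ell _ => 1
  | .tor => max 1 (v σ)⁻¹ ^ 2

/-- The package for one coordinate of one point at one place. -/
def PKG {K : Type u} [Field K] (W : CT K) {L : Type*} [Field L] [Algebra K L]
    (v : AbsoluteValue L ℝ) (χ : Bool) (M : Fin 2 → L) (σ q : L) (u ξ : P2 L) (rho : ℝ) : Prop :=
  (v σ ≤ 1 → ∀ r κ : ℝ, 0 ≤ r → r * kc W v ^ 200 ≤ rho → 0 ≤ κ → κ * kc W v ^ 200 ≤ 1 →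
    ∀ n n', nu2 v r κ n n' u ≤ kc W v ^ 200) ∧
  ∀ lam' : ℝ, 0 ≤ lam' → lam' * (kc W v ^ 200 * max 1 (v q)) ≤ 1 →
    (∀ n n', nu2 v (lam' * rho) lam' n n' ξ ≤ kc W v ^ 200 * max 1 (v q)) ∧
    (v σ ≤ 1 → ∃ (c : Bool) (B d : P2 L), B ^ 2 = ph W (M2 M) * ph W (vc χ u) ∧
      col W (M2 M) (vc χ u) B c 1 * d = 1 ∧ col W (M2 M) (vc χ u) B c 0 * d = ξ ∧
      ∀ n n', nu2 v (lam' * rho) lam' n n' B ≤ kc W v ^ 200 * vn v M ^ 2 ∧
        nu2 v (lam' * rho) lam' n n' d ≤
          kc W v ^ 200 * (qq W v q * sg W v σ) / vn v M ^ 2)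

/-- Base change of the type of a coordinate. -/
noncomputable def CT.mp {K : Type u} [Field K] (L : Type u) [Field L] [Algebra K L] : CT K → CT L
  | .ell W => .ell (W.map (algebraMap K L))
  | .tor => .tor

/-- `f` is a base change of points from `K` to `L`. -/
def PB {K : Type u} [Field K] [DecidableEq K] {L : Type u} [Field L] [DecidableEq L] [Algebra K L]
    (T : CT K) (V : CT L) (f : T.Pt →+ V.Pt) : Prop :=
  ∀ P i, V.xr (f P) i = algebraMap K L (T.xr P i)

/-- The gain for coordinates over an extension field (`τ t`: is `t` a torus coordinate?);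
`gN T N s a b = gB (fun t => (T t).isTor) N s a b` by definition. -/
noncomputable def gB {L : Type*} [Field L] [AdmissibleAbsValues L] {n : ℕ} (τ : Fin n → Bool)
    (N : ℝ) (s : Fin n → L) (a b : L) : ℝ :=
  open Classical in
  gs fun v => if ∀ t, v (s t) ≤ 1 then
    max 0 (- Real.log (min 1 (max (v a) (v b))) -
      N * ∑ t, if τ t then - Real.log (v (s t)) else 0) else 0

theorem gN_eq_gB {K : Type u} [Field K] [AdmissibleAbsValues K] {n : ℕ} (T : Fin n → CT K)
    (N : ℝ) (s : Fin n → K) (a b : K) : gN T N s a b = gB (fun t => (T t).isTor) N s a b :=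
  rfl

section

variable {K : Type u} [Field K] (W : CT K) {L : Type*} [Field L]

theorem one_le_qq (v : AbsoluteValue L ℝ) (q : L) : 1 ≤ qq W v q := by
  cases W with
  | ell W => exact le_max_left _ _
  | tor => exact one_le_mul_of_one_le_of_one_le (le_max_left _ _) (le_max_left _ _)

theorem max_le_qq (v : AbsoluteValue L ℝ) (q : L) : max 1 (v q) ≤ qq W v q := by
  cases W with
  | ell W => exact le_rfl
  | tor => exact le_mul_of_one_le_right (zero_le_one.trans (le_max_left _ _)) (le_max_left _ _)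

theorem one_le_sg (v : AbsoluteValue L ℝ) (σ : L) : 1 ≤ sg W v σ := by
  cases W with
  | ell W => exact le_rfl
  | tor => exact one_le_pow₀ (le_max_left _ _)

end

section

variable {K : Type u} [Field K] (W : CT K) {L : Type*} [Field L] [Algebra K L]

theorem one_le_kc (v : AbsoluteValue L ℝ) : 1 ≤ kc W v :=
  one_le_mul_of_one_le_of_one_le (one_le_lc W v) (le_max_left _ _)

theorem lc_le_kc (v : AbsoluteValue L ℝ) : lc W v ≤ kc W v :=
  le_mul_of_one_le_right (zero_le_one.trans (one_le_lc W v)) (le_max_left _ _)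

theorem cst_two_le_kc (v : AbsoluteValue L ℝ) : cst v 2 ≤ kc W v :=
  (cst_two_le_lc W v).trans (lc_le_kc W v)

theorem kc_ell (W : WeierstrassCurve K) (v : AbsoluteValue L ℝ) :
    kc (CT.ell W) v = VN.kc W v := rfl

theorem PKG_ell (W : WeierstrassCurve K) (v : AbsoluteValue L ℝ) (χ : Bool) (M : Fin 2 → L)
    (σ q : L) (u ξ : P2 L) (rho : ℝ) (h : VN.PKG W v χ M σ q u ξ rho) :
    PKG (CT.ell W) v χ M σ q u ξ rho := by
  refine ⟨h.1, fun lam' h0 h1 => ⟨(h.2 lam' h0 h1).1, fun h2 => ?_⟩⟩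
  obtain ⟨c, B, d, h3, h4, h5, h6⟩ := (h.2 lam' h0 h1).2 h2
  refine ⟨c, B, d, h3, h4, h5, fun n n' => ⟨(h6 n n').1, ?_⟩⟩
  have h7 := (h6 n n').2
  change _ ≤ VN.kc W v ^ 200 * (max 1 (v q) * 1) / vn v M ^ 2
  rw [mul_one]
  exact h7

end

end Pool.Agent.Lib.MP_17a322_nt.VG
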