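import Pool.Agent.Lib.MP_17a322_nt.VG.C02
import Pool.Agent.Lib.MP_17a322_nt.VG.C03
import Pool.Agent.Lib.MP_17a322_nt.VN.C08

/-!
The estimate (coordinates of both types).
-/

universe u

namespace Pool.Agent.Lib.MP_17a322_nt.VG

open MvPolynomial Height
open Pool.Agent.Lib.MP_17a322_nt.RO Pool.Agent.Lib.MP_17a322_nt.VJ
open Pool.Agent.Lib.MP_17a322_nt.VN

theorem C08_lc_nonneg {K L : Type*} [Field K] [Field L] [Algebra K L] (v : AbsoluteValue L ℝ)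
    {n : ℕ} (W : Fin n → CT K) (D : ℕ) : 0 ≤ (∏ t, lc (W t) v) ^ D :=
  pow_nonneg (Finset.prod_nonneg fun t _ => zero_le_one.trans (one_le_lc (W t) v)) _

theorem H_bound {K L : Type*} [Field K] [Field L] [Algebra K L] (v : AbsoluteValue L ℝ) {k e : ℕ}
    (ρ : REP K (k + 2) e) {D : ℕ} (hD : ρ.Deg D) (W : Fin (k + 2) → CT K)
    (χ : Fin (k + 2) → Bool) (j b : ℕ) (x0 : Fin (k + 2) → L) (c ε : Fin (k + 2) → Bool)
    (ν : Fin (k + 2) → ℕ) (hν : ∀ t, ν t ≤ b) (l : Fin (e + 1)) :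
    (∀ t, degreeOf t (spx x0 (GG ρ (UU W χ j b c ε ν) l)) ≤ (k + 2) * (2 * b) * D) ∧
      NV v (spx x0 (GG ρ (UU W χ j b c ε ν) l)) ≤
        (∏ t, lc (W t) v) ^ (49 * (b * 4 ^ j)) *
          (cst v (e + 1) * (ρ.map (algebraMap K L)).RB v) ^ ((k + 2) * (2 * b)) *
            (∏ t, max 1 (v (x0 t))) ^ (2 * (b * 4 ^ j)) := by
  have hdr : ∑ t, degreeOf (Sum.inr t) (UU W χ j b c ε ν) ≤ (k + 2) * (2 * b) := by
    refine (Finset.sum_le_card_nsmul Finset.univ _ (2 * b)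
      fun t _ => (UU_degree W χ j b c ε ν hν t).2).trans (le_of_eq ?_)
    rw [Finset.card_univ, Fintype.card_fin, smul_eq_mul]
  refine ⟨fun t => ?_, ?_⟩
  · exact (spx_degree x0 _ t).trans (GG_degree_inr ρ _ hdr t
      (fun j' l' m' => (degreeOf_le_totalDegree _ _).trans (hD.2.2 j' l' m')) l)
  · have hinj : Function.Injective (algebraMap K L) := (algebraMap K L).injective
    have h1 := spx_NV v x0 (GG ρ (UU W χ j b c ε ν) l) (D := 2 * (b * 4 ^ j))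
      fun t => (GG_degree_inl ρ _ l t).trans (UU_degree W χ j b c ε ν hν t).1
    rw [GG_map (algebraMap K L) hinj] at h1
    have hdr' : ∑ t, degreeOf (Sum.inr t) (MvPolynomial.map (algebraMap K L)
        (UU W χ j b c ε ν)) ≤ (k + 2) * (2 * b) := by
      refine le_trans (Finset.sum_le_sum fun t _ => ?_) hdr
      rw [degreeOf_le_iff]
      intro m hm
      exact monomial_le_degreeOf (Sum.inr t) (support_map_subset _ _ hm)
    have h2 := GG_NV v (ρ.map (algebraMap K L)) (MvPolynomial.map (algebraMap K L)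
      (UU W χ j b c ε ν)) hdr' (one_le_RB (ρ.map (algebraMap K L)) v)
      (fun j' l' m' => M_le_RB (ρ.map (algebraMap K L)) v j' l' m') l
    have h3 := NV_UU (L := L) v W χ j b c ε ν hν
    have hR : 0 ≤ (ρ.map (algebraMap K L)).RB v := zero_le_one.trans (one_le_RB _ v)
    refine h1.trans (mul_le_mul_of_nonneg_right ?_ (C08_prod_nonneg _ _))
    exact h2.trans (mul_le_mul_of_nonneg_right h3 (pow_nonneg (mul_nonneg (cst_nonneg _ _) hR) _))

theorem ORD_estimate {K L : Type*} [Field K] [Field L] [Algebra K L] {v : AbsoluteValue L ℝ}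
    {A : Type*} [CommRing A] [Algebra L A] [Algebra K A] [IsScalarTower K L A] {μ : A → ℝ}
    (h : SN v μ) {k e : ℕ} (ρ : REP K (k + 2) e) {D : ℕ} (hD : ρ.Deg D)
    (W : Fin (k + 2) → CT K) (χ : Fin (k + 2) → Bool) {j b T : ℕ} (hb : 1 ≤ b)
    (Φ : (Fin (k + 2) → ℕ) → A) (x0 : Fin (k + 2) → L) (hO : ORD ρ W χ j b T Φ x0)
    {B ω κ δ : ℝ} (hB : ∀ ν ∈ box (fun _ : Fin (k + 2) => b + 1), μ (Φ ν) ≤ B) (hω : 1 ≤ ω)
    (hκ : 1 ≤ κ) (hδ : 0 < δ) (hδ1 : δ ≤ 1) (u : Fin (k + 2) → A) (hu : ∀ t, μ (u t) ≤ ω)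
    (h0 : μ (aeval u (ρ.z 0)) ≤ κ * δ) (h1 : μ (aeval u (ρ.z 1)) ≤ κ * δ)
    (c ε : Fin (k + 2) → Bool) :
    μ (∑ ν ∈ box (fun _ : Fin (k + 2) => b + 1),
        Φ ν * UV W χ j b (fun t => algebraMap L A (x0 t)) u c ε ν) ≤
      B * (∏ t, lc (W t) v) ^ (49 * (b * 4 ^ j)) * (∏ t, max 1 (v (x0 t))) ^ (2 * (b * 4 ^ j)) *
        (cst v 2 * cst v (e + 1) * (ρ.map (algebraMap K L)).RB v * κ * ω) ^ (CE k D * b) *
          δ ^ T := by
  classical
  have hB0 : 0 ≤ B := C08_B_nonneg h.nonneg Φ hB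
  have hR1 : 1 ≤ (ρ.map (algebraMap K L)).RB v := one_le_RB _ v
  have hev : ∀ ν, UV W χ j b (fun t => algebraMap L A (x0 t)) u c ε ν =
      ∑ l, aeval u (ρ.w l) * aeval (fun t => aeval u (ρ.z t))
        (spx x0 (GG ρ (UU W χ j b c ε ν) l)) := by
    intro ν
    rw [← aeval_UU, GG_eval ρ]
    refine Finset.sum_congr rfl fun l _ => ?_
    rw [aeval_spx]
  have hsum : ∑ ν ∈ box (fun _ : Fin (k + 2) => b + 1),
        Φ ν * UV W χ j b (fun t => algebraMap L A (x0 t)) u c ε ν =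
      ∑ l, aeval u (ρ.w l) * ∑ ν ∈ box (fun _ : Fin (k + 2) => b + 1),
        Φ ν * aeval (fun t => aeval u (ρ.z t)) (spx x0 (GG ρ (UU W χ j b c ε ν) l)) := by
    have h1 : ∀ ν ∈ box (fun _ : Fin (k + 2) => b + 1),
        Φ ν * UV W χ j b (fun t => algebraMap L A (x0 t)) u c ε ν =
        ∑ l, aeval u (ρ.w l) * (Φ ν * aeval (fun t => aeval u (ρ.z t))
          (spx x0 (GG ρ (UU W χ j b c ε ν) l))) := by
      intro ν _
      rw [hev, Finset.mul_sum]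
      exact Finset.sum_congr rfl fun l _ => mul_left_comm _ _ _
    rw [Finset.sum_congr rfl h1, Finset.sum_comm]
    exact Finset.sum_congr rfl fun l _ => (Finset.mul_sum _ _ _).symm
  have hP : ∏ t, (max 1 (μ (u t))) ^ D ≤ ω ^ ((k + 2) * D) := C08_prod_le u hω hu D
  have hω0 : 0 ≤ ω ^ ((k + 2) * D) := pow_nonneg (zero_le_one.trans hω) _
  have hzb : ∀ t, μ (aeval u (ρ.z t)) ≤
      (ρ.map (algebraMap K L)).RB v * ω ^ ((k + 2) * D) := by
    intro t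
    refine (h.aeval_le' (ρ.z t) (fun _ => D)
      (fun t' => (degreeOf_le_totalDegree _ _).trans (hD.1 t)) u).trans ?_
    exact mul_le_mul (z_le_RB (ρ.map (algebraMap K L)) v t) hP
      (Finset.prod_nonneg fun t _ => pow_nonneg (zero_le_one.trans (le_max_left _ _)) _)
      (zero_le_one.trans hR1)
  have hwb : ∀ l, μ (aeval u (ρ.w l)) ≤
      (ρ.map (algebraMap K L)).RB v * ω ^ ((k + 2) * D) := by
    intro l
    refine (h.aeval_le' (ρ.w l) (fun _ => D)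
      (fun t' => (degreeOf_le_totalDegree _ _).trans (hD.2.1 l)) u).trans ?_
    exact mul_le_mul (w_le_RB (ρ.map (algebraMap K L)) v l) hP
      (Finset.prod_nonneg fun t _ => pow_nonneg (zero_le_one.trans (le_max_left _ _)) _)
      (zero_le_one.trans hR1)
  have hΩ1 : 1 ≤ (ρ.map (algebraMap K L)).RB v * ω ^ ((k + 2) * D) :=
    one_le_mul_of_one_le_of_one_le hR1 (one_le_pow₀ hω)
  have hMl : 0 ≤ (∏ t, lc (W t) v) ^ (49 * (b * 4 ^ j)) := C08_lc_nonneg v W _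
  have hMx : 0 ≤ (∏ t, max 1 (v (x0 t))) ^ (2 * (b * 4 ^ j)) := C08_prod_nonneg _ _
  have hG0 : 0 ≤ (∏ t, lc (W t) v) ^ (49 * (b * 4 ^ j)) *
      (cst v (e + 1) * (ρ.map (algebraMap K L)).RB v) ^ ((k + 2) * (2 * b)) *
      (∏ t, max 1 (v (x0 t))) ^ (2 * (b * 4 ^ j)) :=
    mul_nonneg (mul_nonneg hMl (pow_nonneg (mul_nonneg (cst_nonneg _ _)
      (zero_le_one.trans hR1)) _)) hMx
  have hbox : ∀ ν ∈ box (fun _ : Fin (k + 2) => b + 1), ∀ t, ν t ≤ b := by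
    intro ν hν t
    rw [mem_box] at hν
    exact Nat.lt_succ_iff.1 (hν t)
  have hcore : ∀ l, μ (∑ ν ∈ box (fun _ : Fin (k + 2) => b + 1),
        Φ ν * aeval (fun t => aeval u (ρ.z t)) (spx x0 (GG ρ (UU W χ j b c ε ν) l))) ≤
      cst v ((b + 1) ^ (k + 2)) * (B * ((∏ t, lc (W t) v) ^ (49 * (b * 4 ^ j)) *
        (cst v (e + 1) * (ρ.map (algebraMap K L)).RB v) ^ ((k + 2) * (2 * b)) *
        (∏ t, max 1 (v (x0 t))) ^ (2 * (b * 4 ^ j)))) * κ ^ (2 * ((k + 2) * (2 * b) * D)) *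
        ((ρ.map (algebraMap K L)).RB v * ω ^ ((k + 2) * D)) ^ (k * ((k + 2) * (2 * b) * D)) *
        δ ^ T := by
    intro l
    have h1 := core_estimate h (fun t => aeval u (ρ.z t)) (box (fun _ : Fin (k + 2) => b + 1)) Φ
      (fun ν => spx x0 (GG ρ (UU W χ j b c ε ν) l)) (T := T) (E := (k + 2) * (2 * b) * D)
      (fun β hβ => hO c ε l β hβ)
      (fun ν hν t => (H_bound v ρ hD W χ j b x0 c ε ν (hbox ν hν) l).1 t)
      hB0 hG0 hΩ1 hκ hδ hδ1 hzb h0 h1 hB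
      (fun ν hν => (H_bound v ρ hD W χ j b x0 c ε ν (hbox ν hν) l).2)
    rw [C08_card] at h1
    exact h1
  rw [hsum]
  have hκ0 : 0 ≤ κ := zero_le_one.trans hκ
  have hR0 : 0 ≤ (ρ.map (algebraMap K L)).RB v := zero_le_one.trans hR1
  have hcard0 : 0 ≤ cst v ((b + 1) ^ (k + 2)) := cst_nonneg _ _
  have hce0 : 0 ≤ cst v (e + 1) := cst_nonneg _ _
  have hce1 : 1 ≤ cst v (e + 1) := one_le_cst v (Nat.succ_pos e)
  have hc21 : 1 ≤ cst v 2 := one_le_cst v (by norm_num)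
  have hω00 : 0 ≤ ω := zero_le_one.trans hω
  set R := (ρ.map (algebraMap K L)).RB v with hRdef
  set Ml := (∏ t, lc (W t) v) ^ (49 * (b * 4 ^ j)) with hMldef
  set Mx := (∏ t, max 1 (v (x0 t))) ^ (2 * (b * 4 ^ j)) with hMxdef
  have hcore0 : 0 ≤ cst v ((b + 1) ^ (k + 2)) * (B * (Ml *
        (cst v (e + 1) * R) ^ ((k + 2) * (2 * b)) * Mx)) * κ ^ (2 * ((k + 2) * (2 * b) * D)) *
        (R * ω ^ ((k + 2) * D)) ^ (k * ((k + 2) * (2 * b) * D)) * δ ^ T := by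
    positivity
  have hfin := h.sum_le Finset.univ (fun l => aeval u (ρ.w l) *
      ∑ ν ∈ box (fun _ : Fin (k + 2) => b + 1),
        Φ ν * aeval (fun t => aeval u (ρ.z t)) (spx x0 (GG ρ (UU W χ j b c ε ν) l)))
    (B := (R * ω ^ ((k + 2) * D)) * (cst v ((b + 1) ^ (k + 2)) * (B * (Ml *
        (cst v (e + 1) * R) ^ ((k + 2) * (2 * b)) * Mx)) * κ ^ (2 * ((k + 2) * (2 * b) * D)) *
        (R * ω ^ ((k + 2) * D)) ^ (k * ((k + 2) * (2 * b) * D)) * δ ^ T))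
    (mul_nonneg (zero_le_one.trans hΩ1) hcore0)
    (fun l _ => (h.mul _ _).trans (mul_le_mul (hwb l) (hcore l) (h.nonneg _)
      (zero_le_one.trans hΩ1)))
  rw [Finset.card_univ, Fintype.card_fin] at hfin
  refine hfin.trans ?_
  have hmain := C08_bases hc21 hce1 hR1 hκ hω hcard0 (n := k + 2) (b := b) (k := k) (D := D)
    (E := (k + 2) * (2 * b) * D) rfl hb (C08_cst_card v (k + 2) b) rfl
  calc cst v (e + 1) * ((R * ω ^ ((k + 2) * D)) * (cst v ((b + 1) ^ (k + 2)) * (B * (Ml *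
        (cst v (e + 1) * R) ^ ((k + 2) * (2 * b)) * Mx)) * κ ^ (2 * ((k + 2) * (2 * b) * D)) *
        (R * ω ^ ((k + 2) * D)) ^ (k * ((k + 2) * (2 * b) * D)) * δ ^ T)) =
      B * Ml * Mx * (cst v (e + 1) ^ (1 + (k + 2) * (2 * b)) * cst v ((b + 1) ^ (k + 2)) *
        R ^ (1 + (k + 2) * (2 * b) + k * ((k + 2) * (2 * b) * D)) *
        κ ^ (2 * ((k + 2) * (2 * b) * D)) *
        ω ^ ((k + 2) * D + (k + 2) * D * (k * ((k + 2) * (2 * b) * D)))) * δ ^ T := by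
        generalize hEE : k * ((k + 2) * (2 * b) * D) = EE
        generalize hFF : 2 * ((k + 2) * (2 * b) * D) = FF
        generalize hnb : (k + 2) * (2 * b) = nb
        generalize hnD : (k + 2) * D = nD
        rw [mul_pow, mul_pow, ← pow_mul, pow_add, pow_add, pow_add, pow_add, pow_one, pow_one]
        ring
    _ ≤ B * Ml * Mx * (cst v 2 * cst v (e + 1) * R * κ * ω) ^ (CE k D * b) * δ ^ T := by
        refine mul_le_mul_of_nonneg_right (mul_le_mul_of_nonneg_left hmain ?_)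
          (pow_nonneg hδ.le _)
        exact mul_nonneg (mul_nonneg hB0 hMl) hMx

theorem UV_estimate {K L : Type*} [Field K] [Field L] [Algebra K L] {v : AbsoluteValue L ℝ}
    {A : Type*} [CommRing A] [Algebra L A] [Algebra K A] [IsScalarTower K L A] {μ : A → ℝ}
    (h : SN v μ) {n : ℕ} (W : Fin n → CT K) (χ : Fin n → Bool) (j b : ℕ)
    (Φ : (Fin n → ℕ) → A) (x u : Fin n → A) {B ω : ℝ}
    (hB : ∀ ν ∈ box (fun _ : Fin n => b + 1), μ (Φ ν) ≤ B) (hω : 1 ≤ ω) (hu : ∀ t, μ (u t) ≤ ω)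
    (c ε : Fin n → Bool) :
    μ (∑ ν ∈ box (fun _ : Fin n => b + 1), Φ ν * UV W χ j b x u c ε ν) ≤
      B * (∏ t, lc (W t) v) ^ (49 * (b * 4 ^ j)) * (∏ t, max 1 (μ (x t))) ^ (2 * (b * 4 ^ j)) *
        (cst v 2 * ω) ^ (2 * n * b) := by
  have hB0 : 0 ≤ B := C08_B_nonneg h.nonneg Φ hB
  have hMl : 0 ≤ (∏ t, lc (W t) v) ^ (49 * (b * 4 ^ j)) := C08_lc_nonneg v W _
  have hMx : 0 ≤ (∏ t, max 1 (μ (x t))) ^ (2 * (b * 4 ^ j)) := C08_prod_nonneg _ _
  have hω0 : 0 ≤ ω := zero_le_one.trans hω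
  have hterm : ∀ ν ∈ box (fun _ : Fin n => b + 1), μ (Φ ν * UV W χ j b x u c ε ν) ≤
      B * ((∏ t, lc (W t) v) ^ (49 * (b * 4 ^ j)) *
        (∏ t, max 1 (μ (x t))) ^ (2 * (b * 4 ^ j)) * ω ^ (n * (2 * b))) := by
    intro ν hν
    have hν' : ∀ t, ν t ≤ b := by
      intro t
      rw [mem_box] at hν
      exact Nat.lt_succ_iff.1 (hν t)
    have h1 := UV_size h W χ j b x u c ε ν hν'
    rw [Finset.prod_pow] at h1
    have h2 := C08_prod_le u hω hu (2 * b)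
    refine (h.mul _ _).trans (mul_le_mul (hB ν hν) (h1.trans ?_) (h.nonneg _) hB0)
    exact mul_le_mul_of_nonneg_left h2 (mul_nonneg hMl hMx)
  have h3 := h.sum_le (box (fun _ : Fin n => b + 1)) (fun ν => Φ ν * UV W χ j b x u c ε ν)
    (mul_nonneg hB0 (mul_nonneg (mul_nonneg hMl hMx) (pow_nonneg hω0 _))) hterm
  rw [C08_card] at h3
  refine h3.trans ?_
  have h4 : cst v ((b + 1) ^ n) ≤ cst v 2 ^ (2 * n * b) := by
    refine (C08_cst_card v n b).trans (pow_le_pow_right₀ (one_le_cst v (by norm_num)) ?_)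
    have h5 : 2 * n * b = n * b + n * b := by ring
    omega
  have h6 : n * (2 * b) = 2 * n * b := by ring
  rw [h6]
  calc cst v ((b + 1) ^ n) * (B * ((∏ t, lc (W t) v) ^ (49 * (b * 4 ^ j)) *
        (∏ t, max 1 (μ (x t))) ^ (2 * (b * 4 ^ j)) * ω ^ (2 * n * b))) ≤
      cst v 2 ^ (2 * n * b) * (B * ((∏ t, lc (W t) v) ^ (49 * (b * 4 ^ j)) *
        (∏ t, max 1 (μ (x t))) ^ (2 * (b * 4 ^ j)) * ω ^ (2 * n * b))) :=
        mul_le_mul_of_nonneg_right h4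
          (mul_nonneg hB0 (mul_nonneg (mul_nonneg hMl hMx) (pow_nonneg hω0 _)))
    _ = B * (∏ t, lc (W t) v) ^ (49 * (b * 4 ^ j)) *
        (∏ t, max 1 (μ (x t))) ^ (2 * (b * 4 ^ j)) * (cst v 2 * ω) ^ (2 * n * b) := by
        rw [mul_pow]
        ring

end Pool.Agent.Lib.MP_17a322_nt.VG
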