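import Pool.Agent.Lib.MP_17a322_nt.VG.L0
import Pool.Agent.Lib.MP_17a322_nt.VN.L1i
import Pool.Agent.Lib.MP_17a322_nt.VN.L1o
import Pool.Agent.Lib.MP_17a322_nt.RV.T0a

/-!
Local constants, heights of the points over `L` (coordinates of both types).
-/

universe u

namespace Pool.Agent.Lib.MP_17a322_nt.VG

open MvPolynomial Height
open Pool.Agent.Lib.MP_17a322_nt.RO
open Pool.Agent.Lib.MP_17a322_nt.VJ
open Pool.Agent.Lib.MP_17a322_nt.VN

theorem mu_le {K : Type u} [Field K] (W : CT K) {L : Type*} [Field L] [Algebra K L]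
    (v : AbsoluteValue L ℝ) (j : ℕ) (R : Fin 2 → L) :
    vn v (mu W j R) ≤ lc W v ^ (16 * 4 ^ j) * vn v R ^ (4 ^ j) :=
  max_le (mu_size W (SN_self v) j R (le_vn v R) 0) (mu_size W (SN_self v) j R (le_vn v R) 1)

theorem le_mu {K : Type u} [Field K] (W : CT K) (hW : W.IsE) {L : Type*}
    [Field L] [Algebra K L] (v : AbsoluteValue L ℝ) (j : ℕ) (R : Fin 2 → L) :
    vn v R ^ (4 ^ j) ≤ lc W v ^ (8 * 4 ^ j) * vn v (mu W j R) := by
  cases W with
  | ell W =>
    have : W.IsElliptic := hW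
    exact VN.le_mu W v j R
  | tor =>
    have h1 : vn v (mu (CT.tor : CT K) j R) = vn v R ^ (4 ^ j) := by
      change max (v (R 0 ^ 4 ^ j)) (v (R 1 ^ 4 ^ j)) = max (v (R 0)) (v (R 1)) ^ (4 ^ j)
      rw [map_pow, map_pow]
      rcases le_total (v (R 0)) (v (R 1)) with h | h
      · rw [max_eq_right h, max_eq_right (pow_le_pow_left₀ (v.nonneg _) h _)]
      · rw [max_eq_left h, max_eq_left (pow_le_pow_left₀ (v.nonneg _) h _)]
    rw [h1]
    exact le_mul_of_one_le_left (pow_nonneg (vn_nonneg v R) _) (one_le_pow₀ (one_le_lc _ v))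

theorem ph_size {K : Type u} {L : Type*} [Field K] [Field L] [Algebra K L]
    {v : AbsoluteValue L ℝ} {A : Type*} [CommRing A] [Algebra L A] [Algebra K A]
    [IsScalarTower K L A] {ν : A → ℝ} (W : CT K) (h : SN v ν) (R : Fin 2 → A) {r : ℝ}
    (hr : ∀ i, ν (R i) ≤ r) : ν (ph W R) ≤ lc W v ^ 16 * r ^ 4 := by
  cases W with
  | ell W => exact VJ.ph_size W h R hr
  | tor =>
    have h0 : 0 ≤ r := (h.nonneg _).trans (hr 0)
    have h1 : ν ((R 0 * R 1) ^ 2) ≤ (r * r) ^ 2 :=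
      (h.pow_le _ _).trans (pow_le_pow_left₀ (h.nonneg _)
        ((h.mul _ _).trans (mul_le_mul (hr 0) (hr 1) (h.nonneg _) h0)) _)
    refine h1.trans ?_
    have h2 : (r * r) ^ 2 = r ^ 4 := by ring
    rw [h2]
    exact le_mul_of_one_le_left (pow_nonneg h0 _) (one_le_pow₀ (one_le_lc _ v))

private theorem L1o_log {K : Type u} [Field K] (W : CT K) {L : Type*} [Field L]
    [Algebra K L] (v : AbsoluteValue L ℝ) :
    Real.log (kc W v) = Real.log (lc W v) + Real.log (max 1 (v (2 : L)⁻¹)) := by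
  unfold kc
  exact Real.log_mul (zero_lt_one.trans_le (one_le_lc W v)).ne'
    (zero_lt_one.trans_le (le_max_left _ _)).ne'

theorem FS_log_kc {K L : Type u} [Field K] [NumberField K] [Field L] [NumberField L]
    [Algebra K L] (W : CT K) :
    FS (fun v : AbsoluteValue L ℝ => Real.log (kc W v)) := by
  have h1 : (fun v : AbsoluteValue L ℝ => Real.log (kc W v)) =
      fun v => Real.log (lc W v) + Real.log (max 1 (v (2 : L)⁻¹)) := by
    funext v
    exact L1o_log W v
  rw [h1]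
  exact FS_add (FS_log_lc W) (FS_log_max _)

theorem gs_log_kc_le {K : Type u} [Field K] [NumberField K] (W : CT K) :
    ∃ C : ℝ, 0 ≤ C ∧ ∀ (L : Type u) [Field L] [NumberField L] [Algebra K L],
      gs (fun v : AbsoluteValue L ℝ => Real.log (kc W v)) ≤ C * Module.finrank K L := by
  obtain ⟨C, hC, h⟩ := gs_log_lc_le (K := K) W
  have h2 : 0 ≤ logHeight₁ ((2 : K)⁻¹) := zero_le_logHeight₁ _
  refine ⟨C * Module.finrank ℚ K + logHeight₁ ((2 : K)⁻¹),
    add_nonneg (mul_nonneg hC (Nat.cast_nonneg _)) h2, fun L _ _ _ => ?_⟩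
  have h1 : (fun v : AbsoluteValue L ℝ => Real.log (kc W v)) =
      fun v => Real.log (lc W v) + Real.log (max 1 (v (2 : L)⁻¹)) := by
    funext v
    exact L1o_log W v
  rw [h1, gs_add (FS_log_lc W) (FS_log_max _), gs_log_max]
  have h3 : logHeight₁ ((2 : L)⁻¹) = Module.finrank K L * logHeight₁ ((2 : K)⁻¹) := by
    rw [← logHeight₁_algebraMap, map_inv₀, map_ofNat]
  have h4 := h L
  have h5 : (Module.finrank ℚ L : ℝ) = Module.finrank ℚ K * Module.finrank K L := by
    rw [← Nat.cast_mul, Module.finrank_mul_finrank ℚ K L]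
  rw [h5] at h4
  rw [h3]
  linarith [h4, mul_assoc C (Module.finrank ℚ K : ℝ) (Module.finrank K L),
    add_mul (C * Module.finrank ℚ K) (logHeight₁ ((2 : K)⁻¹)) (Module.finrank K L : ℝ),
    mul_comm (logHeight₁ ((2 : K)⁻¹)) (Module.finrank K L : ℝ)]

private theorem L1o_max (x : ℝ) : (0 : ℝ) < max 1 x := zero_lt_one.trans_le (le_max_left _ _)

theorem gs_log_qq {K : Type u} [Field K] {L : Type u} [Field L] [NumberField L] (W : CT K)
    (q : L) : FS (fun v : AbsoluteValue L ℝ => Real.log (qq W v q)) ∧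
      gs (fun v : AbsoluteValue L ℝ => Real.log (qq W v q)) ≤ 2 * logHeight₁ q := by
  have h0 : 0 ≤ logHeight₁ q := zero_le_logHeight₁ _
  cases W with
  | ell W =>
    change FS (fun v : AbsoluteValue L ℝ => Real.log (max 1 (v q))) ∧
      gs (fun v : AbsoluteValue L ℝ => Real.log (max 1 (v q))) ≤ 2 * logHeight₁ q
    refine ⟨FS_log_max q, ?_⟩
    rw [gs_log_max]
    linarith
  | tor =>
    have h1 : (fun v : AbsoluteValue L ℝ => Real.log (qq (CT.tor : CT K) v q)) =
        fun v => Real.log (max 1 (v q)) + Real.log (max 1 (v q⁻¹)) := by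
      funext v
      rw [map_inv₀]
      exact Real.log_mul (L1o_max _).ne' (L1o_max _).ne'
    rw [h1]
    refine ⟨FS_add (FS_log_max _) (FS_log_max _), ?_⟩
    rw [gs_add (FS_log_max _) (FS_log_max _), gs_log_max, gs_log_max, logHeight₁_inv]
    linarith

theorem xr_add_tor {L : Type u} [Field L] [DecidableEq L] (P Q : (CT.tor : CT L).Pt) :
    (CT.tor : CT L).xr (P + Q) = ![(CT.tor : CT L).xr P 0 * (CT.tor : CT L).xr Q 0, 1] :=
  rfl

theorem xr_zero_tor {L : Type u} [Field L] [DecidableEq L] :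
    (CT.tor : CT L).xr (0 : (CT.tor : CT L).Pt) = ![1, 1] :=
  rfl

theorem xr_nsmul_tor {L : Type u} [Field L] [DecidableEq L] (P : (CT.tor : CT L).Pt) (n : ℕ) :
    (CT.tor : CT L).xr (n • P) 0 = (CT.tor : CT L).xr P 0 ^ n := by
  induction n with
  | zero =>
    rw [zero_nsmul, pow_zero, xr_zero_tor]
    rfl
  | succ n ih =>
    rw [succ_nsmul, xr_add_tor, pow_succ, ← ih]
    rfl

theorem xr_neg_tor {L : Type u} [Field L] [DecidableEq L] (P : (CT.tor : CT L).Pt) :
    (CT.tor : CT L).xr (-P) 0 = ((CT.tor : CT L).xr P 0)⁻¹ := by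
  have h := congrFun (xr_add_tor (-P) P) 0
  rw [neg_add_cancel, xr_zero_tor] at h
  have h1 : (1 : L) = (CT.tor : CT L).xr (-P) 0 * (CT.tor : CT L).xr P 0 := h
  exact (inv_eq_of_mul_eq_one_left h1.symm).symm

private theorem L1o_ht {K L : Type u} [Field K] [NumberField K] [Field L] [NumberField L]
    [Algebra K L] (x : K) (z w : L) (hz : ∃ N, 0 < N ∧ z ^ N = 1)
    (hw : w = algebraMap K L x * z) :
    logHeight ![w, 1] = Module.finrank K L * logHeight ![x, 1] := by
  obtain ⟨N, hN, hz1⟩ := hz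
  rw [← logHeight₁_eq_logHeight, ← logHeight₁_eq_logHeight, ← logHeight₁_algebraMap,
    ← gs_log_max, ← gs_log_max]
  congr 1
  funext v
  have h2 : v z ^ N = 1 := by rw [← map_pow, hz1, map_one]
  have h3 : v z = 1 := (pow_eq_one_iff_of_nonneg (v.nonneg _) hN.ne').1 h2
  rw [hw, map_mul, h3, mul_one]

theorem heights_L {K : Type u} [Field K] [NumberField K] [DecidableEq K]
    (W : CT K) (hW : W.IsE) :
    ∃ C : ℝ, 0 ≤ C ∧ ∀ (L : Type u) [Field L] [NumberField L] [DecidableEq L] [Algebra K L]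
      (V : CT L) (f : W.Pt →+ V.Pt) (z : V.Pt), W.mp L = V → PB W V f → V.Aff z →
      (∃ N, 0 < N ∧ V.xr z 0 ^ N = 1) → ∀ P₀ : W.Pt,
        logHeight (V.xr (f P₀ + z)) ≤ Module.finrank K L * (2 * logHeight (W.xr P₀) + C) ∧
        ∀ (P : W.Pt) (j : ℕ), logHeight (V.xr (f P - V.ml j (f P₀ + z))) ≤
          Module.finrank K L * (2 * logHeight (W.xr (P - W.ml j P₀)) + C * 4 ^ j) := by
  cases W with
  | ell W =>
    have : W.IsElliptic := hW
    obtain ⟨C, hC, h⟩ := VN.heights_L W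
    refine ⟨C, hC, ?_⟩
    intro L _ _ _ _ V f z hV hf hz hroot P₀
    subst hV
    exact h L (W.map (algebraMap K L)) f z rfl hf hz hroot P₀
  | tor =>
    refine ⟨0, le_rfl, ?_⟩
    intro L _ _ _ _ V f z hV hf hz hroot P₀
    obtain rfl : V = (CT.tor : CT L) := hV.symm
    have hadd : ∀ P Q : (CT.tor : CT L).Pt, (CT.tor : CT L).xr (P + Q) =
        ![(CT.tor : CT L).xr P 0 * (CT.tor : CT L).xr Q 0, 1] := fun P Q => rfl
    have hx : ∀ P : (CT.tor : CT K).Pt, (CT.tor : CT K).xr P = ![(CT.tor : CT K).xr P 0, 1] :=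
      fun P => rfl
    have hd : (0 : ℝ) ≤ Module.finrank K L := Nat.cast_nonneg _
    have hml : ∀ (j : ℕ) (P : (CT.tor : CT L).Pt), (CT.tor : CT L).ml j P = 4 ^ j • P :=
      fun j P => rfl
    have hmlK : ∀ (j : ℕ) (P : (CT.tor : CT K).Pt), (CT.tor : CT K).ml j P = 4 ^ j • P :=
      fun j P => rfl
    refine ⟨?_, fun P j => ?_⟩
    · have h1 : logHeight ((CT.tor : CT L).xr (f P₀ + z)) =
          Module.finrank K L * logHeight ((CT.tor : CT K).xr P₀) := by
        rw [hadd, hx P₀]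
        refine L1o_ht _ _ _ hroot ?_
        rw [hf P₀ 0]
      rw [h1]
      have h2 : 0 ≤ logHeight ((CT.tor : CT K).xr P₀) := logHeight_nonneg _
      nlinarith [mul_nonneg hd h2]
    · have h0 : f P - (CT.tor : CT L).ml j (f P₀ + z) =
          f (P - (CT.tor : CT K).ml j P₀) + -(4 ^ j • z) := by
        rw [hml, hmlK, map_sub, map_nsmul, smul_add]
        abel
      have h1 : logHeight ((CT.tor : CT L).xr (f P - (CT.tor : CT L).ml j (f P₀ + z))) =
          Module.finrank K L * logHeight ((CT.tor : CT K).xr (P - (CT.tor : CT K).ml j P₀)) := by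
        rw [h0, hadd, hx (P - (CT.tor : CT K).ml j P₀)]
        refine L1o_ht _ _ _ ?_ (by rw [hf _ 0])
        obtain ⟨N, hN, hz1⟩ := hroot
        refine ⟨N, hN, ?_⟩
        have h3 : (CT.tor : CT L).xr (-(4 ^ j • z)) 0 = (((CT.tor : CT L).xr z 0) ^ 4 ^ j)⁻¹ := by
          rw [xr_neg_tor, xr_nsmul_tor]
        rw [h3, inv_pow, ← pow_mul, mul_comm, pow_mul]
        change (((CT.tor : CT L).xr z 0 ^ N) ^ 4 ^ j)⁻¹ = 1
        have hz2 : (CT.tor : CT L).xr z 0 ^ N = 1 := hz1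
        rw [hz2, one_pow, inv_one]
      rw [h1, zero_mul, add_zero]
      have h2 : 0 ≤ logHeight ((CT.tor : CT K).xr (P - (CT.tor : CT K).ml j P₀)) :=
        logHeight_nonneg _
      nlinarith [mul_nonneg hd h2]

end Pool.Agent.Lib.MP_17a322_nt.VG
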