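import Pool.Agent.Lib.MP_17a322_nt.VG.C08
import Pool.Agent.Lib.MP_17a322_nt.VG.L1o
import Pool.Agent.Lib.MP_17a322_nt.VN.L1k

/-!
The estimate of one block (coordinates of both types).
-/

universe u

namespace Pool.Agent.Lib.MP_17a322_nt.VG

open MvPolynomial Height
open Pool.Agent.Lib.MP_17a322_nt.RO
open Pool.Agent.Lib.MP_17a322_nt.VJ
open Pool.Agent.Lib.MP_17a322_nt.VN

/-- one factor of the product over `t` -/
private theorem L1k_fac {R : Type*} [CommRing R] {c0 c1 d ξ : R} (h1 : c1 * d = 1) (h0 : c0 * d = ξ)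
    {ν b : ℕ} (hν : ν ≤ b) : ξ ^ ν = d ^ b * (c0 ^ ν * c1 ^ (b - ν)) := by
  obtain ⟨a, rfl⟩ := Nat.exists_eq_add_of_le hν
  rw [Nat.add_sub_cancel_left, pow_add, ← h0, mul_pow]
  have h2 : c1 ^ a * d ^ a = 1 := by rw [← mul_pow, h1, one_pow]
  linear_combination (- (c0 ^ ν * d ^ ν)) * h2

theorem block_sum {K : Type*} [Field K] {n : ℕ} (W : Fin n → CT K)
    (χ : Fin n → Bool) (j b : ℕ) {R : Type*} [CommRing R] [Algebra K R]
    (Φ : (Fin n → ℕ) → R) (x u ξ : Fin n → R) (c : Fin n → Bool) (B d : Fin n → R)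
    (hB : ∀ t, B t ^ 2 = ph (W t) (mu (W t) j ![x t, 1]) * ph (W t) (vc (χ t) (u t)))
    (hd : ∀ t, col (W t) (mu (W t) j ![x t, 1]) (vc (χ t) (u t)) (B t) (c t) 1 * d t = 1)
    (hξ : ∀ t, col (W t) (mu (W t) j ![x t, 1]) (vc (χ t) (u t)) (B t) (c t) 0 * d t = ξ t) :
    ∑ ν ∈ box (fun _ : Fin n => b + 1), Φ ν * ∏ t, ξ t ^ ν t =
      (∏ t, d t ^ b) * ∑ ε : Fin n → Bool, (∏ t, if ε t then B t else 1) *
        ∑ ν ∈ box (fun _ : Fin n => b + 1), Φ ν * UV W χ j b x u c ε ν := by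
  have h1 : ∀ μ ∈ box (fun _ : Fin n => b + 1), Φ μ * ∏ t, ξ t ^ μ t =
      (∏ t, d t ^ b) * ∑ ε : Fin n → Bool, (∏ t, if ε t then B t else 1) *
        (Φ μ * UV W χ j b x u c ε μ) := by
    intro μ hμ
    have h2 : ∏ t, ξ t ^ μ t = (∏ t, d t ^ b) * ∑ ε : Fin n → Bool,
        (∏ t, if ε t then B t else 1) * UV W χ j b x u c ε μ := by
      rw [← prod_col W χ j b x u B hB c μ, ← Finset.prod_mul_distrib]
      refine Finset.prod_congr rfl fun t _ => ?_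
      exact L1k_fac (hd t) (hξ t) (Nat.lt_succ_iff.1 ((mem_box _ _).1 hμ t))
    rw [h2, mul_left_comm, Finset.mul_sum]
    congr 1
    exact Finset.sum_congr rfl fun ε _ => mul_left_comm _ _ _
  rw [Finset.sum_congr rfl h1, ← Finset.mul_sum, Finset.sum_comm]
  congr 1
  refine Finset.sum_congr rfl fun ε _ => ?_
  rw [Finset.mul_sum]

section

variable {K L : Type*} [Field K] [Field L] [Algebra K L] {v : AbsoluteValue L ℝ}
  {R : Type*} [CommRing R] [Algebra L R] [Algebra K R] [IsScalarTower K L R] {ν : R → ℝ}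

omit [Algebra K R] [IsScalarTower K L R] in
private theorem L1k_Bprod (h : SN v ν) {n : ℕ} (B : Fin n → R) (ε : Fin n → Bool) (M : Fin n → ℝ)
    (hM1 : ∀ t, 1 ≤ M t) (hM : ∀ t, ν (B t) ≤ M t) :
    ν (∏ t, if ε t then B t else 1) ≤ ∏ t, M t := by
  refine (h.prod_le _ _).trans (Finset.prod_le_prod (fun t _ => h.nonneg _) fun t _ => ?_)
  split_ifs
  · exact hM t
  · exact h.one_le.trans (hM1 t)

/-- one coordinate: `X t`, `m t`, `y t` -/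
private theorem L1k_one {kk X m y Bt : ℝ} {b f : ℕ} (hkk : 1 ≤ kk) (hX : 1 ≤ X) (hm : 0 < m)
    (hy : 1 ≤ y) (hMl : y ^ f ≤ kk ^ (8 * f) * m) (hBt : Bt ≤ kk ^ (1 + 32 * f) * y ^ (2 * f)) :
    (kk * X / m ^ 2) ^ b * Bt * y ^ (2 * (b * f)) ≤
      X ^ b * kk ^ (b + (1 + 32 * f) + 16 * (b * f)) * y ^ (2 * f) := by
  have h0 : 0 ≤ kk := zero_le_one.trans hkk
  have hX0 : 0 ≤ X := zero_le_one.trans hX
  have hy0 : 0 ≤ y := zero_le_one.trans hy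
  have h1 : y ^ (2 * (b * f)) ≤ kk ^ (16 * (b * f)) * (m ^ 2) ^ b := by
    calc y ^ (2 * (b * f)) = (y ^ f) ^ (2 * b) := by rw [← pow_mul]; congr 1; ring
      _ ≤ (kk ^ (8 * f) * m) ^ (2 * b) := pow_le_pow_left₀ (pow_nonneg hy0 _) hMl _
      _ = kk ^ (16 * (b * f)) * (m ^ 2) ^ b := by
        rw [mul_pow, ← pow_mul, ← pow_mul]
        congr 2
        ring
  have h2 : (kk * X / m ^ 2) ^ b * y ^ (2 * (b * f)) ≤ X ^ b * kk ^ (b + 16 * (b * f)) := by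
    rw [div_pow, div_mul_eq_mul_div, div_le_iff₀ (pow_pos (pow_pos hm 2) b)]
    calc (kk * X) ^ b * y ^ (2 * (b * f)) ≤ (kk * X) ^ b * (kk ^ (16 * (b * f)) * (m ^ 2) ^ b) :=
          mul_le_mul_of_nonneg_left h1 (pow_nonneg (mul_nonneg h0 hX0) _)
      _ = X ^ b * kk ^ (b + 16 * (b * f)) * (m ^ 2) ^ b := by
        rw [mul_pow, pow_add]
        ring
  calc (kk * X / m ^ 2) ^ b * Bt * y ^ (2 * (b * f)) =
        ((kk * X / m ^ 2) ^ b * y ^ (2 * (b * f))) * Bt := by ring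
    _ ≤ (X ^ b * kk ^ (b + 16 * (b * f))) * (kk ^ (1 + 32 * f) * y ^ (2 * f)) := by
        refine (mul_le_mul_of_nonneg_left hBt ?_).trans (mul_le_mul_of_nonneg_right h2 ?_)
        · positivity
        · positivity
    _ = X ^ b * kk ^ (b + (1 + 32 * f) + 16 * (b * f)) * y ^ (2 * f) := by
        rw [pow_add, pow_add, pow_add]
        ring

/-- the final inequality between real numbers -/
private theorem L1k_fin {n b f q c : ℕ} {c2 ce RB κ kk Bd Lc Y XP dT PD M1 : ℝ} (hq : q = b * f)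
    (hb : 1 ≤ b) (hf : 1 ≤ f) (h20 : 0 ≤ c2) (h2 : c2 ≤ kk) (hkk : 1 ≤ kk) (hce : 0 ≤ ce)
    (hRB : 0 ≤ RB) (hκ : 0 ≤ κ) (hBd : 0 ≤ Bd) (hLc0 : 0 ≤ Lc) (hLc : Lc ≤ kk ^ n) (hY : 0 ≤ Y)
    (hXP : 0 ≤ XP) (hdT : 0 ≤ dT)
    (hmain : PD * M1 * Y ^ (2 * q) ≤ XP * kk ^ (n * (b + (1 + 32 * f) + 16 * q)) * Y ^ (2 * f)) :
    PD * (c2 ^ n * (M1 * (Bd * Lc ^ (49 * q) * Y ^ (2 * q) *
      (c2 * ce * RB * κ * kk) ^ (c * b) * dT))) ≤
    Bd * kk ^ ((200 * n + 2 * c) * q) * (ce * RB * κ) ^ (c * b) * Y ^ (2 * f) * XP * dT := by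
  have h0 : 0 ≤ kk := zero_le_one.trans hkk
  have hS : 0 ≤ (ce * RB * κ) ^ (c * b) := by positivity
  have e1 : (c2 * ce * RB * κ * kk) ^ (c * b) ≤ kk ^ (2 * (c * b)) * (ce * RB * κ) ^ (c * b) := by
    calc (c2 * ce * RB * κ * kk) ^ (c * b) = (c2 * kk * (ce * RB * κ)) ^ (c * b) := by
          congr 1
          ring
      _ ≤ (kk * kk * (ce * RB * κ)) ^ (c * b) := by
          refine pow_le_pow_left₀ (by positivity) ?_ _
          exact mul_le_mul_of_nonneg_right (mul_le_mul_of_nonneg_right h2 h0) (by positivity)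
      _ = kk ^ (2 * (c * b)) * (ce * RB * κ) ^ (c * b) := by
          rw [mul_pow, ← pow_two, ← pow_mul]
  have e2 : c2 ^ n ≤ kk ^ n := pow_le_pow_left₀ h20 h2 n
  have e3 : Lc ^ (49 * q) ≤ kk ^ (n * (49 * q)) := by
    rw [pow_mul kk n]
    exact pow_le_pow_left₀ hLc0 hLc _
  have e4 : c2 ^ n * Lc ^ (49 * q) * (c2 * ce * RB * κ * kk) ^ (c * b) ≤
      kk ^ n * kk ^ (n * (49 * q)) * (kk ^ (2 * (c * b)) * (ce * RB * κ) ^ (c * b)) := by
    refine mul_le_mul (mul_le_mul e2 e3 (by positivity) (by positivity)) e1 (by positivity)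
      (by positivity)
  have hexp : n * (b + (1 + 32 * f) + 16 * q) + n + n * (49 * q) + 2 * (c * b) ≤
      (200 * n + 2 * c) * q := by
    have hbq : b ≤ q := by rw [hq]; exact Nat.le_mul_of_pos_right b hf
    have hfq : f ≤ q := by rw [hq]; exact Nat.le_mul_of_pos_left f hb
    have hq1 : 1 ≤ q := hb.trans hbq
    have a1 : n * (b + (1 + 32 * f) + 16 * q) ≤ n * (50 * q) := Nat.mul_le_mul_left n (by omega)
    have a2 : n ≤ n * q := Nat.le_mul_of_pos_right n hq1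
    have a3 : 2 * (c * b) ≤ 2 * (c * q) := Nat.mul_le_mul_left 2 (Nat.mul_le_mul_left c hbq)
    have a4 : n * (50 * q) = 50 * (n * q) := by ring
    have a5 : n * (49 * q) = 49 * (n * q) := by ring
    have a6 : (200 * n + 2 * c) * q = 200 * (n * q) + 2 * (c * q) := by ring
    rw [a6, a5]
    rw [a4] at a1
    omega
  calc PD * (c2 ^ n * (M1 * (Bd * Lc ^ (49 * q) * Y ^ (2 * q) *
        (c2 * ce * RB * κ * kk) ^ (c * b) * dT))) =
      (PD * M1 * Y ^ (2 * q)) * ((c2 ^ n * Lc ^ (49 * q) *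
        (c2 * ce * RB * κ * kk) ^ (c * b)) * (Bd * dT)) := by ring
    _ ≤ (XP * kk ^ (n * (b + (1 + 32 * f) + 16 * q)) * Y ^ (2 * f)) *
        ((c2 ^ n * Lc ^ (49 * q) * (c2 * ce * RB * κ * kk) ^ (c * b)) * (Bd * dT)) :=
        mul_le_mul_of_nonneg_right hmain (by positivity)
    _ ≤ (XP * kk ^ (n * (b + (1 + 32 * f) + 16 * q)) * Y ^ (2 * f)) *
        ((kk ^ n * kk ^ (n * (49 * q)) * (kk ^ (2 * (c * b)) * (ce * RB * κ) ^ (c * b))) *
          (Bd * dT)) :=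
        mul_le_mul_of_nonneg_left (mul_le_mul_of_nonneg_right e4 (by positivity)) (by positivity)
    _ = kk ^ (n * (b + (1 + 32 * f) + 16 * q) + n + n * (49 * q) + 2 * (c * b)) *
        (Bd * (ce * RB * κ) ^ (c * b) * Y ^ (2 * f) * XP * dT) := by
        rw [pow_add, pow_add, pow_add]
        ring
    _ ≤ kk ^ ((200 * n + 2 * c) * q) *
        (Bd * (ce * RB * κ) ^ (c * b) * Y ^ (2 * f) * XP * dT) :=
        mul_le_mul_of_nonneg_right (pow_le_pow_right₀ hkk hexp) (by positivity)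
    _ = Bd * kk ^ ((200 * n + 2 * c) * q) * (ce * RB * κ) ^ (c * b) * Y ^ (2 * f) * XP * dT := by
        ring

theorem block_gain (h : SN v ν) {k e : ℕ} (ρ : REP K (k + 2) e) {D : ℕ} (hD : ρ.Deg D)
    (W : Fin (k + 2) → CT K) (χ : Fin (k + 2) → Bool) {j b T : ℕ} (hb : 1 ≤ b)
    (Φ : (Fin (k + 2) → ℕ) → R) (x0 : Fin (k + 2) → L) (hO : ORD ρ W χ j b T Φ x0)
    {Bd κ δ kk : ℝ} (hBd : ∀ μ ∈ box (fun _ : Fin (k + 2) => b + 1), ν (Φ μ) ≤ Bd)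
    (hκ : 1 ≤ κ) (hδ : 0 < δ) (hδ1 : δ ≤ 1) (hkk : 1 ≤ kk) (hlc : ∀ t, lc (W t) v ≤ kk)
    (hMl : ∀ t, max 1 (v (x0 t)) ^ (4 ^ j) ≤ kk ^ (8 * 4 ^ j) *
      vn v (mu (W t) j ![x0 t, 1]))
    (hM0 : ∀ t, 0 < vn v (mu (W t) j ![x0 t, 1]))
    (u ξ : Fin (k + 2) → R) (c : Fin (k + 2) → Bool) (B d : Fin (k + 2) → R)
    (X : Fin (k + 2) → ℝ) (hX : ∀ t, 1 ≤ X t)
    (hB : ∀ t, B t ^ 2 = ph (W t) (mu (W t) j ![algebraMap L R (x0 t), 1]) *
      ph (W t) (vc (χ t) (u t)))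
    (hd : ∀ t, col (W t) (mu (W t) j ![algebraMap L R (x0 t), 1]) (vc (χ t) (u t)) (B t)
      (c t) 1 * d t = 1)
    (hξ : ∀ t, col (W t) (mu (W t) j ![algebraMap L R (x0 t), 1]) (vc (χ t) (u t)) (B t)
      (c t) 0 * d t = ξ t)
    (hu : ∀ t, ν (u t) ≤ kk) (hBs : ∀ t, ν (B t) ≤ kk * vn v (mu (W t) j ![x0 t, 1]) ^ 2)
    (hds : ∀ t, ν (d t) ≤ kk * X t / vn v (mu (W t) j ![x0 t, 1]) ^ 2)
    (h0 : ν (aeval u (ρ.z 0)) ≤ κ * δ) (h1 : ν (aeval u (ρ.z 1)) ≤ κ * δ) :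
    ν (∑ μ ∈ box (fun _ : Fin (k + 2) => b + 1), Φ μ * ∏ t, ξ t ^ μ t) ≤
      Bd * kk ^ ((200 * (k + 2) + 2 * CE k D) * (b * 4 ^ j)) *
        (cst v (e + 1) * (ρ.map (algebraMap K L)).RB v * κ) ^ (CE k D * b) *
        (∏ t, max 1 (v (x0 t))) ^ (2 * 4 ^ j) * (∏ t, X t) ^ b * δ ^ T := by
  have hkk0 : 0 ≤ kk := zero_le_one.trans hkk
  have hB0 : 0 ≤ Bd := C08_B_nonneg h.nonneg Φ hBd
  have hy1 : ∀ t, 1 ≤ max 1 (v (x0 t)) := fun t => le_max_left _ _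
  have hy0 : ∀ t, 0 ≤ max 1 (v (x0 t)) := fun t => zero_le_one.trans (hy1 t)
  have hf1 : 1 ≤ 4 ^ j := Nat.one_le_pow _ _ (by norm_num)
  rw [block_sum W χ j b Φ (fun t => algebraMap L R (x0 t)) u ξ c B d hB hd hξ]
  -- the size of `mu`
  have hmu : ∀ t, vn v (mu (W t) j ![x0 t, 1]) ≤
      kk ^ (16 * 4 ^ j) * max 1 (v (x0 t)) ^ (4 ^ j) := by
    intro t
    have h2 := mu_le (W t) v j ![x0 t, 1]
    have h3 : vn v ![x0 t, 1] = max 1 (v (x0 t)) := by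
      have h4 : vn v ![x0 t, 1] = max (v (x0 t)) (v 1) := rfl
      rw [h4, map_one, max_comm]
    rw [h3] at h2
    refine h2.trans (mul_le_mul_of_nonneg_right ?_ (pow_nonneg (hy0 t) _))
    exact pow_le_pow_left₀ (zero_le_one.trans (one_le_lc (W t) v)) (hlc t) _
  have hBt : ∀ t, ν (B t) ≤ kk ^ (1 + 32 * 4 ^ j) * max 1 (v (x0 t)) ^ (2 * 4 ^ j) := by
    intro t
    refine (hBs t).trans ?_
    calc kk * vn v (mu (W t) j ![x0 t, 1]) ^ 2 ≤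
        kk * (kk ^ (16 * 4 ^ j) * max 1 (v (x0 t)) ^ (4 ^ j)) ^ 2 :=
          mul_le_mul_of_nonneg_left (pow_le_pow_left₀ (hM0 t).le (hmu t) 2) hkk0
      _ = kk ^ (1 + 32 * 4 ^ j) * max 1 (v (x0 t)) ^ (2 * 4 ^ j) := by
          rw [mul_pow, ← pow_mul, ← pow_mul, pow_add, pow_one]
          have e1 : 16 * 4 ^ j * 2 = 32 * 4 ^ j := by ring
          have e2 : 4 ^ j * 2 = 2 * 4 ^ j := by ring
          rw [e1, e2]
          ring
  have hM1 : ∀ t, 1 ≤ kk ^ (1 + 32 * 4 ^ j) * max 1 (v (x0 t)) ^ (2 * 4 ^ j) := fun t =>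
    one_le_mul_of_one_le_of_one_le (one_le_pow₀ hkk) (one_le_pow₀ (hy1 t))
  -- the sum over `ε`
  have hR0 : 0 ≤ (ρ.map (algebraMap K L)).RB v := zero_le_one.trans (one_le_RB _ v)
  have hE0 : 0 ≤ Bd * (∏ t, lc (W t) v) ^ (49 * (b * 4 ^ j)) *
      (∏ t, max 1 (v (x0 t))) ^ (2 * (b * 4 ^ j)) *
        (cst v 2 * cst v (e + 1) * (ρ.map (algebraMap K L)).RB v * κ * kk) ^ (CE k D * b) *
          δ ^ T := by
    have a1 := C08_lc_nonneg v W (49 * (b * 4 ^ j))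
    have a2 := C08_prod_nonneg (fun t => v (x0 t)) (2 * (b * 4 ^ j))
    have a3 := cst_nonneg v 2
    have a4 := cst_nonneg v (e + 1)
    have a5 : 0 ≤ κ := zero_le_one.trans hκ
    have a6 : 0 ≤ cst v 2 * cst v (e + 1) * (ρ.map (algebraMap K L)).RB v * κ * kk := by
      positivity
    exact mul_nonneg (mul_nonneg (mul_nonneg (mul_nonneg hB0 a1) a2) (pow_nonneg a6 _))
      (pow_nonneg hδ.le _)
  have hM10 : 0 ≤ ∏ t, (kk ^ (1 + 32 * 4 ^ j) * max 1 (v (x0 t)) ^ (2 * 4 ^ j)) :=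
    Finset.prod_nonneg fun t _ => zero_le_one.trans (hM1 t)
  have hsum := h.sum_le (Finset.univ : Finset (Fin (k + 2) → Bool))
    (fun ε => (∏ t, if ε t then B t else 1) * ∑ μ ∈ box (fun _ : Fin (k + 2) => b + 1),
      Φ μ * UV W χ j b (fun t => algebraMap L R (x0 t)) u c ε μ) (mul_nonneg hM10 hE0)
    (fun ε _ => (h.mul _ _).trans (mul_le_mul (L1k_Bprod h B ε _ hM1 hBt)
      (ORD_estimate h ρ hD W χ hb Φ x0 hO hBd hkk hκ hδ hδ1 u hu h0 h1 c ε) (h.nonneg _) hM10))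
  rw [Finset.card_univ, Fintype.card_fun, Fintype.card_bool, Fintype.card_fin, cst_pow] at hsum
  -- the size of the product of the `d t`
  have hPd : ν (∏ t, d t ^ b) ≤
      ∏ t, (kk * X t / vn v (mu (W t) j ![x0 t, 1]) ^ 2) ^ b := by
    refine (h.prod_le _ _).trans (Finset.prod_le_prod (fun t _ => h.nonneg _) fun t _ => ?_)
    exact (h.pow_le _ _).trans (pow_le_pow_left₀ (h.nonneg _) (hds t) _)
  have hPd0 : 0 ≤ ∏ t, (kk * X t / vn v (mu (W t) j ![x0 t, 1]) ^ 2) ^ b :=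
    (h.nonneg _).trans hPd
  refine (h.mul _ _).trans ((mul_le_mul hPd hsum (h.nonneg _) hPd0).trans ?_)
  have hXb : ∏ t, X t ^ b = (∏ t, X t) ^ b := Finset.prod_pow _ _ _
  have hmain : (∏ t, (kk * X t / vn v (mu (W t) j ![x0 t, 1]) ^ 2) ^ b) *
      (∏ t, (kk ^ (1 + 32 * 4 ^ j) * max 1 (v (x0 t)) ^ (2 * 4 ^ j))) *
        (∏ t, max 1 (v (x0 t))) ^ (2 * (b * 4 ^ j)) ≤
      (∏ t, X t) ^ b * kk ^ ((k + 2) * (b + (1 + 32 * 4 ^ j) + 16 * (b * 4 ^ j))) *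
        (∏ t, max 1 (v (x0 t))) ^ (2 * 4 ^ j) := by
    rw [← Finset.prod_pow, ← Finset.prod_mul_distrib, ← Finset.prod_mul_distrib]
    have hr : (∏ t, X t) ^ b * kk ^ ((k + 2) * (b + (1 + 32 * 4 ^ j) + 16 * (b * 4 ^ j))) *
        (∏ t, max 1 (v (x0 t))) ^ (2 * 4 ^ j) =
        ∏ t : Fin (k + 2), (X t ^ b * kk ^ (b + (1 + 32 * 4 ^ j) + 16 * (b * 4 ^ j)) *
          max 1 (v (x0 t)) ^ (2 * 4 ^ j)) := by
      rw [Finset.prod_mul_distrib, Finset.prod_mul_distrib, Finset.prod_pow, Finset.prod_pow,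
        Finset.prod_pow, Finset.prod_const, Finset.card_univ, Fintype.card_fin, ← pow_mul]
    rw [hr]
    refine Finset.prod_le_prod (fun t _ => ?_) fun t _ => ?_
    · have b1 : 0 ≤ X t := zero_le_one.trans (hX t)
      have b2 := hy0 t
      have b3 := (hM0 t).le
      positivity
    · exact L1k_one hkk (hX t) (hM0 t) (hy1 t) (hMl t) le_rfl
  have hlcn : ∏ t, lc (W t) v ≤ kk ^ (k + 2) := by
    refine (Finset.prod_le_prod (fun t _ => zero_le_one.trans (one_le_lc (W t) v))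
      fun t _ => hlc t).trans (le_of_eq ?_)
    rw [Finset.prod_const, Finset.card_univ, Fintype.card_fin]
  exact L1k_fin (n := k + 2) (f := 4 ^ j) (c := CE k D) rfl hb hf1 (cst_nonneg v 2)
    ((cst_two_le_lc (W 0) v).trans (hlc 0)) hkk (cst_nonneg v (e + 1)) hR0
    (zero_le_one.trans hκ) hB0
    (Finset.prod_nonneg fun t _ => zero_le_one.trans (one_le_lc (W t) v)) hlcn
    (Finset.prod_nonneg fun t _ => hy0 t)
    (pow_nonneg (Finset.prod_nonneg fun t _ => zero_le_one.trans (hX t)) _)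
    (pow_nonneg hδ.le _) hmain

end

end Pool.Agent.Lib.MP_17a322_nt.VG
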