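import Pool.Agent.Lib.MP_17a322_nt.VG.L1o
import Pool.Agent.Lib.MP_17a322_nt.VN.L1r

/-!
Radii (coordinates of both types).
-/

universe u

namespace Pool.Agent.Lib.MP_17a322_nt.VG

open MvPolynomial Height
open Pool.Agent.Lib.MP_17a322_nt.RO
open Pool.Agent.Lib.MP_17a322_nt.VJ
open Pool.Agent.Lib.MP_17a322_nt.VN

section

variable {K L : Type*} [Field K] [Field L] [Algebra K L] {n : ℕ}

private theorem L1r_kc_pos (W : CT K) (v : AbsoluteValue L ℝ) : 0 < kc W v :=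
  one_pos.trans_le (one_le_kc W v)

private theorem L1r_max_pos (v : AbsoluteValue L ℝ) (x : L) : 0 < max 1 (v x) :=
  one_pos.trans_le (le_max_left _ _)

theorem beta_le (W : CT K) (v : AbsoluteValue L ℝ) (c : Bool) {x y : L}
    (h : y ^ 2 = ph W (vc c x)) : v y ≤ kc W v ^ 8 * max 1 (v x) ^ 2 := by
  have hk := L1r_kc_pos W v
  have hm := L1r_max_pos v x
  have hl0 : 0 ≤ lc W v := zero_le_one.trans (one_le_lc W v)
  have hr : ∀ i, v ((vc c x : Fin 2 → L) i) ≤ max 1 (v x) := by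
    intro i
    rw [← vn_vc v c x]
    unfold vn
    fin_cases i
    · exact le_max_left _ _
    · exact le_max_right _ _
  have h1 : v (ph W (vc c x)) ≤ lc W v ^ 16 * max 1 (v x) ^ 4 := ph_size W (SN_self v) (vc c x) hr
  have h2 : v y ^ 2 ≤ (kc W v ^ 8 * max 1 (v x) ^ 2) ^ 2 := by
    rw [← map_pow, h]
    refine h1.trans ?_
    have e : (kc W v ^ 8 * max 1 (v x) ^ 2) ^ 2 = kc W v ^ 16 * max 1 (v x) ^ 4 := by ring
    rw [e]
    exact mul_le_mul_of_nonneg_right (pow_le_pow_left₀ hl0 (lc_le_kc W v) 16) (pow_nonneg hm.le 4)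
  exact (pow_le_pow_iff_left₀ (v.nonneg y) (mul_nonneg (pow_nonneg hk.le 8) (pow_nonneg hm.le 2))
    two_ne_zero).1 h2

/-- The factor of the radius from the square roots. -/
noncomputable def ro (W : Fin n → CT K) (v : AbsoluteValue L ℝ) (σ β : Fin n → L) :
    ℝ :=
  ∏ t, (v (β t) ^ 2 / (kc (W t) v ^ 40 * max 1 (v (σ t)) ^ 4))

theorem ro_pos (W : Fin n → CT K) (v : AbsoluteValue L ℝ) (σ β : Fin n → L)
    (h0 : ∀ t, β t ≠ 0) : 0 < ro W v σ β := by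
  unfold ro
  exact Finset.prod_pos fun t _ => div_pos (pow_pos (v.pos (h0 t)) 2)
    (mul_pos (pow_pos (L1r_kc_pos (W t) v) 40) (pow_pos (L1r_max_pos v (σ t)) 4))

theorem ro_le (W : Fin n → CT K) (χ : Fin n → Bool) (v : AbsoluteValue L ℝ)
    (σ β : Fin n → L) (hβ : ∀ t, β t ^ 2 = ph (W t) (vc (χ t) (σ t))) :
    ro W v σ β ≤ 1 ∧ ∀ t, ro W v σ β * (kc (W t) v ^ 40 * vn v (vc (χ t) (σ t)) ^ 4) ≤
      v (β t) ^ 2 := by
  classical
  have hpos : ∀ t, 0 < kc (W t) v ^ 40 * max 1 (v (σ t)) ^ 4 := fun t =>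
    mul_pos (pow_pos (L1r_kc_pos (W t) v) 40) (pow_pos (L1r_max_pos v (σ t)) 4)
  have hf0 : ∀ t, 0 ≤ v (β t) ^ 2 / (kc (W t) v ^ 40 * max 1 (v (σ t)) ^ 4) := fun t =>
    div_nonneg (pow_nonneg (v.nonneg _) 2) (hpos t).le
  have hf1 : ∀ t, v (β t) ^ 2 / (kc (W t) v ^ 40 * max 1 (v (σ t)) ^ 4) ≤ 1 := by
    intro t
    rw [div_le_one (hpos t)]
    have h1 := beta_le (W t) v (χ t) (hβ t)
    have hk := one_le_kc (W t) v
    calc v (β t) ^ 2 ≤ (kc (W t) v ^ 8 * max 1 (v (σ t)) ^ 2) ^ 2 :=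
          pow_le_pow_left₀ (v.nonneg _) h1 2
      _ = kc (W t) v ^ 16 * max 1 (v (σ t)) ^ 4 := by ring
      _ ≤ kc (W t) v ^ 40 * max 1 (v (σ t)) ^ 4 :=
          mul_le_mul_of_nonneg_right (pow_le_pow_right₀ hk (by norm_num))
            (pow_nonneg (L1r_max_pos v (σ t)).le 4)
  have hle : ∀ t, ro W v σ β ≤ v (β t) ^ 2 / (kc (W t) v ^ 40 * max 1 (v (σ t)) ^ 4) := by
    intro t
    unfold ro
    rw [← Finset.mul_prod_erase Finset.univ _ (Finset.mem_univ t)]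
    exact mul_le_of_le_one_right (hf0 t) (Finset.prod_le_one (fun i _ => hf0 i) (fun i _ => hf1 i))
  refine ⟨?_, fun t => ?_⟩
  · unfold ro
    exact Finset.prod_le_one (fun i _ => hf0 i) (fun i _ => hf1 i)
  · rw [vn_vc]
    calc ro W v σ β * (kc (W t) v ^ 40 * max 1 (v (σ t)) ^ 4) ≤
          v (β t) ^ 2 / (kc (W t) v ^ 40 * max 1 (v (σ t)) ^ 4) *
            (kc (W t) v ^ 40 * max 1 (v (σ t)) ^ 4) :=
          mul_le_mul_of_nonneg_right (hle t) (hpos t).le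
      _ = v (β t) ^ 2 := div_mul_cancel₀ _ (hpos t).ne'

private theorem L1r_prod_nonneg (v : AbsoluteValue L ℝ) (D : ℕ) (σ : Fin n → L) :
    0 ≤ ∏ t, (cst v 2 * max 1 (v (σ t))) ^ D :=
  Finset.prod_nonneg fun t _ => pow_nonneg (mul_nonneg (cst_nonneg v 2) (L1r_max_pos v (σ t)).le) D

private theorem L1r_self_le (v : AbsoluteValue L ℝ) (x : L) : v x ≤ cst v 2 * max 1 (v x) :=
  (le_max_right 1 (v x)).trans
    (le_mul_of_one_le_left (L1r_max_pos v x).le (one_le_cst v one_le_two))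

private theorem L1r_deriv_le (v : AbsoluteValue L ℝ) (g : MvPolynomial (Fin n) K) (D : ℕ)
    (hD : ∀ t, g.degreeOf t ≤ D) (σ : Fin n → L) (d : Fin n) :
    v (aeval σ (pderiv d g)) ≤ bg v g D σ :=
  bg_deriv (SN_self v) g D hD σ σ (fun t => L1r_self_le v (σ t)) d

private theorem L1r_one_le_fac (W : Fin n → CT K) (v : AbsoluteValue L ℝ)
    (σ : Fin n → L) (t : Fin n) : 1 ≤ kc (W t) v ^ 8 * max 1 (v (σ t)) ^ 2 :=
  one_le_mul_of_one_le_of_one_le (one_le_pow₀ (one_le_kc (W t) v)) (one_le_pow₀ (le_max_left _ _))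

private theorem L1r_beta_prod (W : Fin n → CT K) (χ : Fin n → Bool)
    (v : AbsoluteValue L ℝ) (σ β : Fin n → L)
    (hβ : ∀ t, β t ^ 2 = ph (W t) (vc (χ t) (σ t))) (t : Fin n) :
    v (β t) ≤ ∏ t, (kc (W t) v ^ 8 * max 1 (v (σ t)) ^ 2) := by
  classical
  exact (beta_le (W t) v (χ t) (hβ t)).trans
    (E1_le_prod Finset.univ (fun t => kc (W t) v ^ 8 * max 1 (v (σ t)) ^ 2)
      (L1r_one_le_fac W v σ) (Finset.mem_univ t))

private theorem L1r_den_pos (W : Fin n → CT K) (v : AbsoluteValue L ℝ)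
    {g : MvPolynomial (Fin n) K} (hg : g ≠ 0) (D : ℕ) (σ : Fin n → L) :
    0 < cst v 2 * (bg v g D σ * cst v 2 * ∏ t, (kc (W t) v ^ 8 * max 1 (v (σ t)) ^ 2)) := by
  have h2 : 0 < cst v 2 := one_pos.trans_le (one_le_cst v one_le_two)
  exact mul_pos h2 (mul_pos (mul_pos (bg_pos v hg D σ) h2)
    (Finset.prod_pos fun t _ => one_pos.trans_le (L1r_one_le_fac W v σ t)))

/-- The factor of the radius from the inverse of the derivatives. -/
noncomputable def g2 (W : Fin n → CT K) (v : AbsoluteValue L ℝ)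
    (g : MvPolynomial (Fin n) K) (D : ℕ) (σ β : Fin n → L) (r l : Fin n) : ℝ :=
  max (v (aeval σ (pderiv l g) * β l)) (v (aeval σ (pderiv r g) * β r)) /
    (cst v 2 * (bg v g D σ * cst v 2 * ∏ t, (kc (W t) v ^ 8 * max 1 (v (σ t)) ^ 2)))

theorem g2_spec (W : Fin n → CT K) (χ : Fin n → Bool) (v : AbsoluteValue L ℝ)
    {g : MvPolynomial (Fin n) K} (hg : g ≠ 0) (D : ℕ) (hD : ∀ t, g.degreeOf t ≤ D)
    (σ β : Fin n → L) (hβ : ∀ t, β t ^ 2 = ph (W t) (vc (χ t) (σ t))) (h0 : ∀ t, β t ≠ 0)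
    (r l : Fin n) (hr : aeval σ (pderiv r g) ≠ 0) :
    0 < g2 W v g D σ β r l ∧ g2 W v g D σ β r l ≤ 1 := by
  have hden := L1r_den_pos W v hg D σ
  have h2 : 1 ≤ cst v 2 := one_le_cst v one_le_two
  have hb := bg_pos v hg D σ
  have hP : 0 < ∏ t, (kc (W t) v ^ 8 * max 1 (v (σ t)) ^ 2) :=
    Finset.prod_pos fun t _ => one_pos.trans_le (L1r_one_le_fac W v σ t)
  have hle : ∀ t, v (aeval σ (pderiv t g) * β t) ≤
      cst v 2 * (bg v g D σ * cst v 2 * ∏ t, (kc (W t) v ^ 8 * max 1 (v (σ t)) ^ 2)) := by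
    intro t
    rw [map_mul]
    calc v (aeval σ (pderiv t g)) * v (β t) ≤
          bg v g D σ * ∏ t, (kc (W t) v ^ 8 * max 1 (v (σ t)) ^ 2) :=
          mul_le_mul (L1r_deriv_le v g D hD σ t) (L1r_beta_prod W χ v σ β hβ t) (v.nonneg _) hb.le
      _ ≤ bg v g D σ * cst v 2 * ∏ t, (kc (W t) v ^ 8 * max 1 (v (σ t)) ^ 2) :=
          mul_le_mul_of_nonneg_right (le_mul_of_one_le_right hb.le h2) hP.le
      _ ≤ _ := le_mul_of_one_le_left
          (mul_nonneg (mul_nonneg hb.le (zero_le_one.trans h2)) hP.le) h2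
  unfold g2
  refine ⟨div_pos (lt_max_of_lt_right (v.pos (mul_ne_zero hr (h0 r)))) hden, ?_⟩
  rw [div_le_one hden]
  exact max_le (hle l) (hle r)

private theorem L1r_const (F : MvPolynomial (Fin n) K) (S : Fin n → PowerSeries L)
    (σ : Fin n → L) (hS0 : ∀ t, PowerSeries.constantCoeff (S t) = σ t) :
    PowerSeries.constantCoeff (aeval S F) = aeval σ F := by
  rw [map_aeval]
  have h1 : (PowerSeries.constantCoeff (R := L)).comp (algebraMap K (PowerSeries L)) =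
      algebraMap K L := by
    ext a
    rw [RingHom.comp_apply, PowerSeries.algebraMap_apply, PowerSeries.constantCoeff_C]
  rw [h1]
  have h2 : (fun t => PowerSeries.constantCoeff (S t)) = σ := funext hS0
  rw [h2]
  rfl

theorem g2_inv (W : Fin n → CT K) (χ : Fin n → Bool) (v : AbsoluteValue L ℝ)
    {g : MvPolynomial (Fin n) K} (hg : g ≠ 0) (D : ℕ) (hD : ∀ t, g.degreeOf t ≤ D)
    (σ β : Fin n → L) (hβ : ∀ t, β t ^ 2 = ph (W t) (vc (χ t) (σ t))) (h0 : ∀ t, β t ≠ 0)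
    (r l : Fin n) (hr : aeval σ (pderiv r g) ≠ 0) (S Y : Fin n → PowerSeries L)
    (hS0 : ∀ t, PowerSeries.constantCoeff (S t) = σ t)
    (hY0 : ∀ t, PowerSeries.constantCoeff (Y t) = β t) {rho : ℝ} (hrho : 0 ≤ rho)
    (hS : ∀ t n', PN v rho n' (S t) ≤ cst v 2 * max 1 (v (σ t)))
    (hY : ∀ t n', PN v rho n' (Y t) ≤ cst v 2 * v (β t)) (j : ℕ) (gi : PowerSeries L)
    (hgi : Ex1 L j (aeval S (pderiv (dd v g σ β r l) g) *
      (if χ (dd v g σ β r l) then Y (dd v g σ β r l) else -Y (dd v g σ β r l))) * gi = 1)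
    (x : ℝ) (hx : 0 ≤ x) (hx1 : x ^ (4 ^ j) ≤ g2 W v g D σ β r l * rho) (n' : ℕ) :
    PN v x n' gi ≤ cst v 2 /
      max (v (aeval σ (pderiv l g) * β l)) (v (aeval σ (pderiv r g) * β r)) := by
  obtain ⟨_, hdd⟩ := dd_spec v g σ β r l
  obtain ⟨hg0, hg1⟩ := g2_spec W χ v hg D hD σ β hβ h0 r l hr
  have hden := L1r_den_pos W v hg D σ
  revert hgi hdd
  generalize dd v g σ β r l = d
  intro hgi hdd
  have hM : 0 < max (v (aeval σ (pderiv l g) * β l)) (v (aeval σ (pderiv r g) * β r)) :=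
    lt_max_of_lt_right (v.pos (mul_ne_zero hr (h0 r)))
  have hb := bg_pos v hg D σ
  have h2 : 0 ≤ cst v 2 := cst_nonneg v 2
  obtain ⟨Z, hZ, hZ0, hZs⟩ : ∃ Z : PowerSeries L, (if χ d then Y d else -Y d) = Z ∧
      v (PowerSeries.constantCoeff Z) = v (β d) ∧ ∀ m, PN v rho m Z ≤ cst v 2 * v (β d) := by
    refine ⟨_, rfl, ?_, ?_⟩
    · split_ifs
      · rw [hY0]
      · rw [map_neg, v.map_neg, hY0]
    · intro m
      split_ifs
      · exact hY d m
      · have h3 : PN v rho m (-Y d) = PN v rho m (Y d) := (SN_PN v hrho m).neg (Y d)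
        rw [h3]
        exact hY d m
  rw [hZ] at hgi
  have hf0 : v (PowerSeries.constantCoeff (aeval S (pderiv d g) * Z)) =
      max (v (aeval σ (pderiv l g) * β l)) (v (aeval σ (pderiv r g) * β r)) := by
    rw [map_mul, L1r_const (pderiv d g) S σ hS0, map_mul, hZ0, ← map_mul, hdd]
  have hB : ∀ m, PN v rho m (aeval S (pderiv d g) * Z) ≤
      bg v g D σ * cst v 2 * ∏ t, (kc (W t) v ^ 8 * max 1 (v (σ t)) ^ 2) := by
    intro m
    have h3 : PN v rho m (aeval S (pderiv d g) * Z) ≤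
        PN v rho m (aeval S (pderiv d g)) * PN v rho m Z := (SN_PN v hrho m).mul _ _
    have h4 : PN v rho m (aeval S (pderiv d g)) ≤ bg v g D σ :=
      bg_deriv (SN_PN v hrho m) g D hD σ S (fun t => hS t m) d
    have h5 : 0 ≤ PN v rho m Z := (SN_PN v hrho m).nonneg Z
    calc PN v rho m (aeval S (pderiv d g) * Z) ≤
          PN v rho m (aeval S (pderiv d g)) * PN v rho m Z := h3
      _ ≤ bg v g D σ * (cst v 2 * v (β d)) := mul_le_mul h4 (hZs m) h5 hb.le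
      _ = bg v g D σ * cst v 2 * v (β d) := (mul_assoc _ _ _).symm
      _ ≤ _ := mul_le_mul_of_nonneg_left (L1r_beta_prod W χ v σ β hβ d) (mul_nonneg hb.le h2)
  revert hf0 hB hgi
  generalize aeval S (pderiv d g) * Z = f
  intro hgi hf0 hB
  have hfne : PowerSeries.constantCoeff f ≠ 0 := by
    intro h3
    rw [h3, map_zero] at hf0
    exact hM.ne hf0
  have hinv : f * f⁻¹ = 1 := PowerSeries.mul_inv_cancel f hfne
  have hgi2 : gi = Ex1 L j f⁻¹ := by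
    have h3 : Ex1 L j f * Ex1 L j f⁻¹ = 1 := by rw [← map_mul, hinv, map_one]
    calc gi = gi * (Ex1 L j f * Ex1 L j f⁻¹) := by rw [h3, mul_one]
      _ = (Ex1 L j f * gi) * Ex1 L j f⁻¹ := by ring
      _ = Ex1 L j f⁻¹ := by rw [hgi, one_mul]
  have hlam : g2 W v g D σ β r l *
      (cst v 2 * (bg v g D σ * cst v 2 * ∏ t, (kc (W t) v ^ 8 * max 1 (v (σ t)) ^ 2))) ≤
      v (PowerSeries.constantCoeff f) := by
    rw [hf0]
    unfold g2
    rw [div_mul_cancel₀ _ hden.ne']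
  have h3 : PN v (g2 W v g D σ β r l * rho) n' f⁻¹ ≤
      cst v 2 / v (PowerSeries.constantCoeff f) :=
    PN_inv v hrho hg0.le hg1 f f⁻¹ hinv hB hlam n'
  rw [hf0] at h3
  rw [hgi2]
  have h4 : PN v x n' (Ex1 L j f⁻¹) ≤ PN v (x ^ (4 ^ j)) n' f⁻¹ :=
    PN_expand v hx (pow_ne_zero j four_ne_zero) n' f⁻¹
  exact h4.trans ((PN_mono_radius v (pow_nonneg hx _) hx1 n' f⁻¹).trans h3)

end

end Pool.Agent.Lib.MP_17a322_nt.VG
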