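import Pool.Agent.Lib.MP_17a322_nt.VG.L1n
import Pool.Agent.Lib.MP_17a322_nt.VG.L1r
import Pool.Agent.Lib.MP_17a322_nt.VN.L1t

/-!
Transport of relations, all coordinates together, the inequality over `K` (coordinates of both types).
-/

universe u

namespace Pool.Agent.Lib.MP_17a322_nt.VG

open MvPolynomial Height
open Pool.Agent.Lib.MP_17a322_nt.RO
open Pool.Agent.Lib.MP_17a322_nt.VJ
open Pool.Agent.Lib.MP_17a322_nt.VN

private theorem L1t_map_S3 {K : Type u} [Field K] (W : CT K) {A A' : Type*} [CommRing A]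
    [Algebra K A] [CommRing A'] [Algebra K A'] (f : A →ₐ[K] A') (R Q Z : Fin 2 → A) :
    f (S3 W R Q Z) = S3 W (fun i => f (R i)) (fun i => f (Q i)) (fun i => f (Z i)) := by
  cases W with
  | ell W => exact VJ.map_S3 W f R Q Z
  | tor =>
    change f ((Z 0 * (Q 1 * R 0) - Z 1 * (Q 0 * R 1)) ^ 2) =
      (f (Z 0) * (f (Q 1) * f (R 0)) - f (Z 1) * (f (Q 0) * f (R 1))) ^ 2
    simp only [map_pow, map_sub, map_mul]

private theorem L1t_Ex1_C (L : Type*) [Field L] (j : ℕ) (a : L) :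
    Ex1 L j (PowerSeries.C a) = PowerSeries.C a :=
  (PowerSeries.expand (4 ^ j) (pow_ne_zero j four_ne_zero) :
    PowerSeries L →ₐ[L] PowerSeries L).commutes a

private theorem L1t_alg {K : Type*} [Field K] (L : Type*) [Field L] [Algebra K L] (a : K) :
    algebraMap K (P2 L) a = PowerSeries.C (PowerSeries.C (algebraMap K L a)) := by
  rw [PowerSeries.algebraMap_apply, PowerSeries.algebraMap_apply]

private noncomputable def L1t_E {K : Type*} [Field K] (L : Type*) [Field L] [Algebra K L]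
    (j : ℕ) : P2 L →ₐ[K] P2 L :=
  { PowerSeries.map (Ex1 L j) with
    commutes' := fun a => by
      show PowerSeries.map (Ex1 L j) (algebraMap K (P2 L) a) = algebraMap K (P2 L) a
      rw [L1t_alg, PowerSeries.map_C, L1t_Ex1_C] }

private theorem L1t_E_CC {K : Type*} [Field K] (L : Type*) [Field L] [Algebra K L]
    (j : ℕ) (x : L) : L1t_E (K := K) L j (PowerSeries.C (PowerSeries.C x)) =
      PowerSeries.C (PowerSeries.C x) := by
  show PowerSeries.map (Ex1 L j) (PowerSeries.C (PowerSeries.C x)) = _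
  rw [PowerSeries.map_C, L1t_Ex1_C]

private noncomputable def L1t_CC {K : Type*} [Field K] (L : Type*) [Field L] [Algebra K L] :
    L →ₐ[K] P2 L :=
  { (PowerSeries.C (R := PowerSeries L)).comp (PowerSeries.C (R := L)) with
    commutes' := fun a => (L1t_alg L a).symm }

private theorem L1t_M2 {K : Type u} [Field K] (W : CT K) {L : Type*} [Field L]
    [Algebra K L] (j : ℕ) (x0 : L) : M2 (mu W j ![x0, 1]) =
      mu W j ![PowerSeries.C (PowerSeries.C x0), (1 : P2 L)] := by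
  have h1 : (M2 (mu W j ![x0, 1]) : Fin 2 → P2 L) =
      mu W j (fun i => L1t_CC (K := K) L ((![x0, 1] : Fin 2 → L) i)) := by
    funext i
    rw [← map_mu]
    rfl
  rw [h1]
  congr 1
  funext i
  fin_cases i
  · rfl
  · exact map_one _

private noncomputable def L1t_c {K : Type*} [Field K] (L : Type*) [Field L] [Algebra K L] :
    P2 L →ₐ[K] PowerSeries L :=
  { (PowerSeries.constantCoeff (R := PowerSeries L)) with
    commutes' := fun a => by
      show PowerSeries.constantCoeff (algebraMap K (P2 L) a) = algebraMap K (PowerSeries L) a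
      rw [L1t_alg, PowerSeries.constantCoeff_C, PowerSeries.algebraMap_apply] }

private theorem L1t_cEx (L : Type*) [Field L] (j : ℕ) (u : P2 L) :
    PowerSeries.constantCoeff (Ex j u) = Ex1 L j (PowerSeries.constantCoeff u) := by
  unfold Ex
  rw [← PowerSeries.coeff_zero_eq_constantCoeff_apply, PowerSeries.coeff_map,
    PowerSeries.coeff_zero_eq_constantCoeff_apply]

theorem rel_two {K : Type u} [Field K] (W : CT K) {L : Type*} [Field L]
    [Algebra K L] (χ : Bool) (j j' : ℕ) (x0 : L) (u ξ : P2 L)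
    (h : S3 W (M2 (mu W j ![x0, 1])) (vc χ u) ![ξ, 1] = 0) :
    S3 W (mu W j ![PowerSeries.C (PowerSeries.C x0), 1]) (vc χ (Ex j' u)) ![Ex j' ξ, 1] = 0 := by
  have h1 := congrArg (L1t_E (K := K) L j') h
  rw [L1t_M2, L1t_map_S3, map_zero] at h1
  have e1 : (fun i => L1t_E (K := K) L j'
      (mu W j ![PowerSeries.C (PowerSeries.C x0), 1] i)) =
      mu W j ![PowerSeries.C (PowerSeries.C x0), (1 : P2 L)] := by
    funext i
    rw [map_mu]
    congr 1
    funext i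
    fin_cases i
    · exact L1t_E_CC L j' x0
    · exact map_one _
  have e2 : (fun i => L1t_E (K := K) L j' (vc χ u i)) = vc χ (Ex j' u) := by
    funext i
    cases χ <;> fin_cases i
    · rfl
    · exact map_one _
    · exact map_one _
    · rfl
  have e3 : (fun i => L1t_E (K := K) L j' ((![ξ, 1] : Fin 2 → P2 L) i)) = ![Ex j' ξ, 1] := by
    funext i
    fin_cases i
    · rfl
    · exact map_one _
  rw [e1, e2, e3] at h1
  exact h1

theorem rel_one {K : Type u} [Field K] (W : CT K) {L : Type*} [Field L]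
    [Algebra K L] (χ : Bool) (j j' : ℕ) (x0 : L) (u ξ : P2 L)
    (h : S3 W (M2 (mu W j ![x0, 1])) (vc χ u) ![ξ, 1] = 0) :
    S3 W (mu W j ![PowerSeries.C x0, 1]) (vc χ (Ex1 L j' (PowerSeries.constantCoeff u)))
      ![PowerSeries.constantCoeff (Ex j' ξ), 1] = 0 := by
  have h1 := congrArg (L1t_c (K := K) L) (rel_two W χ j j' x0 u ξ h)
  rw [L1t_map_S3, map_zero] at h1
  have e1 : (fun i => L1t_c (K := K) L
      (mu W j ![PowerSeries.C (PowerSeries.C x0), 1] i)) =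
      mu W j ![PowerSeries.C x0, (1 : PowerSeries L)] := by
    funext i
    rw [map_mu]
    congr 1
    funext i
    fin_cases i
    · exact PowerSeries.constantCoeff_C _
    · exact map_one _
  have e0 : L1t_c (K := K) L (Ex j' u) = Ex1 L j' (PowerSeries.constantCoeff u) := L1t_cEx L j' u
  have e2 : (fun i => L1t_c (K := K) L (vc χ (Ex j' u) i)) =
      vc χ (Ex1 L j' (PowerSeries.constantCoeff u)) := by
    funext i
    cases χ <;> fin_cases i
    · exact e0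
    · exact map_one _
    · exact map_one _
    · exact e0
  have e3 : (fun i => L1t_c (K := K) L ((![Ex j' ξ, 1] : Fin 2 → P2 L) i)) =
      ![PowerSeries.constantCoeff (Ex j' ξ), 1] := by
    funext i
    fin_cases i
    · rfl
    · exact map_one _
  rw [e1, e2, e3] at h1
  exact h1

theorem CH_map {K : Type u} [Field K] [DecidableEq K] {L : Type u} [Field L] [DecidableEq L]
    [Algebra K L] {W : CT K} {V : CT L}
    {f : W.Pt →+ V.Pt} (hf : PB W V f) {c : Bool} {P : W.Pt}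
    {s : K} (h : CH c P s) : CH c (f P) (algebraMap K L s) := by
  obtain ⟨a, ha, hP⟩ := h
  refine ⟨algebraMap K L a, (map_ne_zero _).2 ha, ?_⟩
  funext i
  rw [hf P i, hP, Pi.smul_apply, Pi.smul_apply, smul_eq_mul, smul_eq_mul, map_mul]
  congr 1
  cases c <;> fin_cases i
  · rfl
  · exact map_one _
  · exact map_one _
  · rfl

theorem L_CH_height {K : Type u} [Field K] [AdmissibleAbsValues K] {W : CT K} {c : Bool}
    {P : W.Pt} {s : K} (h : CH c P s) : logHeight (W.xr P) = logHeight₁ s := by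
  obtain ⟨a, ha, hP⟩ := h
  rw [hP, Height.logHeight_smul_eq_logHeight _ ha]
  cases c
  · rw [logHeight₁_eq_logHeight]
    rfl
  · rw [logHeight₁_eq_logHeight, logHeight_swap]
    rfl

/-- The package for all coordinates of all points. -/
theorem pack_all {K : Type u} [Field K] {n : ℕ} (W : Fin n → CT K)
    (hW : ∀ t, (W t).IsE) {L : Type u} [Field L] [CharZero L] [DecidableEq L] [Algebra K L]
    (V : Fin n → CT L) (hV : ∀ t, (W t).mp L = V t)
    (χ : Fin n → Bool) {m : ℕ} (j : Fin m → ℕ) (Q : ∀ t, (V t).Pt)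
    (P : Fin m → ∀ t, (V t).Pt) (σ β : Fin m × Fin n → L)
    (hch : ∀ i t, CH (χ t) (P i t) (σ (i, t)))
    (hβ : ∀ i t, β (i, t) ^ 2 = ph (W t) (vc (χ t) (σ (i, t)))) (hβ0 : ∀ p, β p ≠ 0)
    (h1 : ∀ i t, (V t).Aff (P i t - (V t).ml (j i) (Q t)))
    (h2 : ∀ i t, (V t).Aff ((V t).ml (j i + 1) (Q t)))
    (U : Fin m × Fin n → PowerSeries L) (hU : ∀ p, PowerSeries.constantCoeff (U p) = 0)
    (r₁ : Fin m → AbsoluteValue L ℝ → ℝ) (hr₁ : ∀ i v, 0 ≤ r₁ i v)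
    (hUr : ∀ i t v n', PN v (r₁ i v) n' (U (i, t)) ≤ 1) :
    ∃ (u ξ : Fin m × Fin n → P2 L) (Y : Fin m × Fin n → PowerSeries L),
      (∀ i t, mu (W t) (j i) ![(V t).xr (Q t) 0, 1] ≠ 0) ∧
      (∀ p, PowerSeries.constantCoeff (u p) = PowerSeries.C (σ p) + U p) ∧
      (∀ p, PowerSeries.coeff 1 (u p) = (if χ p.2 then Y p else -Y p)) ∧
      (∀ p, PowerSeries.constantCoeff (Y p) = β p) ∧
      (∀ p, S3 (W p.2) (M2 (mu (W p.2) (j p.1) ![(V p.2).xr (Q p.2) 0, 1])) (vc (χ p.2) (u p))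
        ![ξ p, 1] = 0) ∧
      (∀ p, cc2 (u p) = σ p) ∧
      ∀ i v, (∀ t, PKG (W t) v (χ t) (mu (W t) (j i) ![(V t).xr (Q t) 0, 1]) (σ (i, t))
          ((V t).xr (P i t - (V t).ml (j i) (Q t)) 0) (u (i, t)) (ξ (i, t))
          (r₁ i v * ro W v (fun t => σ (i, t)) (fun t => β (i, t)))) ∧
        (∀ t n', PN v (r₁ i v * ro W v (fun t => σ (i, t)) (fun t => β (i, t))) n'
          (PowerSeries.constantCoeff (u (i, t))) ≤ cst v 2 * max 1 (v (σ (i, t)))) ∧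
        ∀ t n', PN v (r₁ i v * ro W v (fun t => σ (i, t)) (fun t => β (i, t))) n' (Y (i, t)) ≤
          cst v 2 * v (β (i, t)) := by
  have key := fun p : Fin m × Fin n => pack (W p.2) (hW p.2) (V p.2) (hV p.2) (j p.1) (Q p.2)
    (P p.1 p.2) (χ p.2) (σ p) (β p) (hch p.1 p.2) (hβ p.1 p.2) (hβ0 p) (h1 p.1 p.2) (h2 p.1 p.2)
    (U p) (hU p) (r₁ p.1) (hr₁ p.1) (hUr p.1 p.2)
  choose u ξ Y hM h0 h1' hY2 hY0 hS hq hu hpk using key
  refine ⟨u, ξ, Y, fun i t => hM (i, t), h0, h1', hY0, hS, hu, fun i v => ?_⟩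
  have hro := ro_pos W v (fun t => σ (i, t)) (fun t => β (i, t)) (fun t => hβ0 (i, t))
  have hrl := (ro_le W χ v (fun t => σ (i, t)) (fun t => β (i, t)) (fun t => hβ i t)).2
  have h3 := fun t => hpk (i, t) v (r₁ i v * ro W v (fun t => σ (i, t)) (fun t => β (i, t)))
    (mul_nonneg (hr₁ i v) hro.le)
    (by
      rw [mul_assoc]
      exact mul_le_mul_of_nonneg_left (hrl t) (hr₁ i v))
  exact ⟨fun t => (h3 t).1, fun t => (h3 t).2.1, fun t => (h3 t).2.2⟩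

/-- The weight of the gain. -/
noncomputable def tw (J j s : ℕ) : ℝ := if 2 * s ≤ 4 ^ (J - j) then (4 : ℝ) ^ (J - j) / 2 else 0

/-- The inequality over `K`: `h` the height of the auxiliary polynomial, `H` the height of the base
point, `E i` the heights of the differences, `g i` the gains, `sl i` the heights of the slopes, `hP i` the heights
of the points, `s i` the orders, `a` the order in `T`. -/
def INEQ {m : ℕ} (C h H : ℝ) (N J : ℕ) (j s : Fin m → ℕ) (E g sl hP : Fin m → ℝ) (a : ℕ) : Prop :=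
  0 ≤ h + C * 4 ^ J + 2 * N * 4 ^ J * H +
    ∑ i, (4 * 4 ^ j i * H + 4 * N * 4 ^ (J - j i) * E i + s i * (C * 4 ^ j i + 2 * E i) -
      tw J (j i) (s i) * g i - s i * sl i) +
    a * ∑ i, (4 ^ j i : ℝ)⁻¹ * (C * (4 ^ j i + hP i) + 2 * E i)

private theorem L1t_term (N cF cE : ℕ) (dK le Ck Ch : ℝ) (hdK : 0 ≤ dK) (hle : 0 ≤ le)
    (hCk : 0 ≤ Ck) (hCh : 0 ≤ Ch) (C : ℝ) (hC1 : 200 * Ck + Ch + dK ≤ C)
    (d H hx kk : ℝ) (J j : ℕ) (s : ℕ) (E g sl ht hq gL gG : ℝ) (hd : 0 < d)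
    (hjJ : j ≤ J) (hht : ht ≤ 4 ^ j) (hhx : hx ≤ d * (2 * H + Ch))
    (hkk : kk ≤ d * Ck) (hhq : hq ≤ d * (2 * E + Ch * 4 ^ j)) (hgL : gL = d * g)
    (hgG : gG ≤ d * dK - d * sl) :
    cF * (N * 4 ^ J) * kk + 2 * (cE * (N * 4 ^ (J - j))) * ((d * dK) * le + d * ht) +
          2 * 4 ^ j * hx + N * 4 ^ (J - j) * (2 * hq) + s * (200 * kk + hq) -
          tw J j s * gL + s * gG ≤
      d * (4 * 4 ^ j * H + 4 * N * 4 ^ (J - j) * E + s * (C * 4 ^ j + 2 * E) -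
      tw J j s * g - s * sl +
      (cF * N * Ck + 2 * cE * N * (dK * le + 1) + 2 * Ch + 2 * N * Ch) * 4 ^ J) := by
  have hw : (4 : ℝ) ^ J = 4 ^ (J - j) * 4 ^ j := by
    rw [← pow_add, Nat.sub_add_cancel hjJ]
  rw [hw, hgL]
  have hy : (1 : ℝ) ≤ 4 ^ j := one_le_pow₀ (by norm_num)
  have hz : (1 : ℝ) ≤ 4 ^ (J - j) := one_le_pow₀ (by norm_num)
  generalize (4 : ℝ) ^ j = y at hy hht hhq ⊢
  generalize (4 : ℝ) ^ (J - j) = z at hz ⊢
  generalize tw J j s = w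
  have hy0 : 0 ≤ y := zero_le_one.trans hy
  have hz0 : 0 ≤ z := zero_le_one.trans hz
  have hs : (0 : ℝ) ≤ s := Nat.cast_nonneg s
  have hN : (0 : ℝ) ≤ N := Nat.cast_nonneg N
  have hF : (0 : ℝ) ≤ cF := Nat.cast_nonneg cF
  have hcE : (0 : ℝ) ≤ cE := Nat.cast_nonneg cE
  have hd0 := hd.le
  have t1 : cF * (N * (z * y)) * kk ≤ cF * (N * (z * y)) * (d * Ck) :=
    mul_le_mul_of_nonneg_left hkk (by positivity)
  have hle' : dK * le ≤ dK * le * y := le_mul_of_one_le_right (mul_nonneg hdK hle) hy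
  have t2a : d * dK * le + d * ht ≤ d * ((dK * le + 1) * y) := by
    have e1 : d * dK * le + d * ht = d * (dK * le + ht) := by ring
    rw [e1]
    refine mul_le_mul_of_nonneg_left ?_ hd0
    linarith
  have t2 : 2 * (cE * (N * z)) * (d * dK * le + d * ht) ≤
      2 * (cE * (N * z)) * (d * ((dK * le + 1) * y)) :=
    mul_le_mul_of_nonneg_left t2a (by positivity)
  have t3 : 2 * y * hx ≤ 2 * y * (d * (2 * H + Ch)) :=
    mul_le_mul_of_nonneg_left hhx (by positivity)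
  have t3' : d * (2 * Ch * y) ≤ d * (2 * Ch * (z * y)) := by
    refine mul_le_mul_of_nonneg_left (mul_le_mul_of_nonneg_left ?_ (by positivity)) hd0
    exact le_mul_of_one_le_left hy0 hz
  have t4 : N * z * (2 * hq) ≤ N * z * (2 * (d * (2 * E + Ch * y))) :=
    mul_le_mul_of_nonneg_left (mul_le_mul_of_nonneg_left hhq (by norm_num)) (by positivity)
  have t5 : s * (200 * kk + hq) ≤ s * (200 * (d * Ck) + d * (2 * E + Ch * y)) :=
    mul_le_mul_of_nonneg_left (by linarith) hs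
  have t7 : s * gG ≤ s * (d * dK - d * sl) := mul_le_mul_of_nonneg_left hgG hs
  have t8 : s * (d * ((200 * Ck + dK) * 1)) ≤ s * (d * ((200 * Ck + dK) * y)) := by
    refine mul_le_mul_of_nonneg_left (mul_le_mul_of_nonneg_left
      (mul_le_mul_of_nonneg_left hy (by positivity)) hd0) hs
  have t9 : s * (d * ((200 * Ck + Ch + dK) * y)) ≤ s * (d * (C * y)) := by
    refine mul_le_mul_of_nonneg_left (mul_le_mul_of_nonneg_left
      (mul_le_mul_of_nonneg_right hC1 hy0) hd0) hs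
  linarith

private theorem L1t_conv (m k N cF cE : ℕ) (dK le Ck Ch Cr : ℝ) (hdK : 0 ≤ dK) (hle : 0 ≤ le)
    (hCk : 0 ≤ Ck) (hCh : 0 ≤ Ch) (hCr : 0 ≤ Cr)
    (hc0 : 0 ≤ (cF * N * Ck + 2 * cE * N * (dK * le + 1) + 2 * Ch + 2 * N * Ch : ℝ)) (C : ℝ)
    (hC0 : 0 ≤ C) (hC1 : 200 * Ck + Ch + dK ≤ C) (hC2 : Cr ≤ C)
    (hC3 : (k + 2) * N * dK + N * Ch +
      m * (cF * N * Ck + 2 * cE * N * (dK * le + 1) + 2 * Ch + 2 * N * Ch) ≤ C)
    (d lF H hx kk : ℝ) (J : ℕ) (j s : Fin m → ℕ)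
      (E g sl hP ht hq gL gG rr : Fin m → ℝ) (a : ℕ) (hd : 0 < d) (hH : 0 ≤ H)
      (hE : ∀ i, 0 ≤ E i) (hhP : ∀ i, 0 ≤ hP i) (hjJ : ∀ i, j i ≤ J)
      (hht : ∀ i, ht i ≤ 4 ^ j i) (hhx : hx ≤ d * (2 * H + Ch))
      (hkk : kk ≤ d * Ck) (hhq : ∀ i, hq i ≤ d * (2 * E i + Ch * 4 ^ j i))
      (hgL : ∀ i, gL i = d * g i) (hgG : ∀ i, gG i ≤ d * dK - d * sl i)
      (hrr : ∀ i, rr i ≤ d * (Cr * (4 ^ j i + hP i) + 2 * E i))
      (h : 0 ≤ d * lF + (d * dK) * ((k + 2) * (N * 4 ^ J)) + N * 4 ^ J * hx +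
        ∑ i, (cF * (N * 4 ^ J) * kk +
          2 * (cE * (N * 4 ^ (J - j i))) * ((d * dK) * le + d * ht i) +
          2 * 4 ^ j i * hx + N * 4 ^ (J - j i) * (2 * hq i) + s i * (200 * kk + hq i) -
          tw J (j i) (s i) * gL i + s i * gG i) +
        a * ∑ i, (4 ^ j i : ℝ)⁻¹ * rr i) :
      INEQ C lF H N J j s E g sl hP a := by
  unfold INEQ
  have hd0 := hd.le
  have hJ : (0 : ℝ) ≤ 4 ^ J := by positivity
  have h1 := Finset.sum_le_sum (s := Finset.univ) fun i (_ : i ∈ Finset.univ) =>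
    L1t_term N cF cE dK le Ck Ch hdK hle hCk hCh C hC1 d H hx kk J (j i) (s i) (E i) (g i) (sl i)
      (ht i) (hq i) (gL i) (gG i) hd (hjJ i) (hht i) hhx hkk (hhq i) (hgL i) (hgG i)
  rw [← Finset.mul_sum] at h1
  have h1c : ∑ i, (4 * 4 ^ j i * H + 4 * N * 4 ^ (J - j i) * E i +
      s i * (C * 4 ^ j i + 2 * E i) -
      tw J (j i) (s i) * g i - s i * sl i +
      (cF * N * Ck + 2 * cE * N * (dK * le + 1) + 2 * Ch + 2 * N * Ch) * 4 ^ J) =
      (∑ i, (4 * 4 ^ j i * H + 4 * N * 4 ^ (J - j i) * E i +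
      s i * (C * 4 ^ j i + 2 * E i) -
      tw J (j i) (s i) * g i - s i * sl i)) +
      m * ((cF * N * Ck + 2 * cE * N * (dK * le + 1) + 2 * Ch + 2 * N * Ch) * 4 ^ J) := by
    rw [Finset.sum_add_distrib, Finset.sum_const, Finset.card_univ, Fintype.card_fin,
      nsmul_eq_mul]
  rw [h1c] at h1
  have h2 : ∑ i, (4 ^ j i : ℝ)⁻¹ * rr i ≤
      d * ∑ i, (4 ^ j i : ℝ)⁻¹ * (C * (4 ^ j i + hP i) + 2 * E i) := by
    rw [Finset.mul_sum]
    refine Finset.sum_le_sum fun i _ => ?_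
    have h3 : (0 : ℝ) ≤ (4 ^ j i : ℝ)⁻¹ := by positivity
    have h4 : (0 : ℝ) ≤ 4 ^ j i + hP i := add_nonneg (by positivity) (hhP i)
    have h5 : rr i ≤ d * (C * (4 ^ j i + hP i) + 2 * E i) := by
      refine (hrr i).trans (mul_le_mul_of_nonneg_left ?_ hd0)
      have h6 := mul_le_mul_of_nonneg_right hC2 h4
      linarith
    refine (mul_le_mul_of_nonneg_left h5 h3).trans (le_of_eq ?_)
    ring
  have h3 : (a : ℝ) * ∑ i, (4 ^ j i : ℝ)⁻¹ * rr i ≤
      a * (d * ∑ i, (4 ^ j i : ℝ)⁻¹ * (C * (4 ^ j i + hP i) + 2 * E i)) :=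
    mul_le_mul_of_nonneg_left h2 (Nat.cast_nonneg a)
  have h4 : N * 4 ^ J * hx ≤ N * 4 ^ J * (d * (2 * H + Ch)) :=
    mul_le_mul_of_nonneg_left hhx (by positivity)
  have h5 : d * (((k + 2) * N * dK + N * Ch +
      m * (cF * N * Ck + 2 * cE * N * (dK * le + 1) + 2 * Ch + 2 * N * Ch)) * 4 ^ J) ≤
      d * (C * 4 ^ J) :=
    mul_le_mul_of_nonneg_left (mul_le_mul_of_nonneg_right hC3 hJ) hd0
  refine (mul_nonneg_iff_of_pos_left hd).1 ?_
  generalize (∑ i, (cF * (N * 4 ^ J) * kk +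
          2 * (cE * (N * 4 ^ (J - j i))) * ((d * dK) * le + d * ht i) +
          2 * 4 ^ j i * hx + N * 4 ^ (J - j i) * (2 * hq i) + s i * (200 * kk + hq i) -
          tw J (j i) (s i) * gL i + s i * gG i) : ℝ) = S1 at h h1
  generalize (∑ i, (4 ^ j i : ℝ)⁻¹ * rr i : ℝ) = S2 at h h3
  generalize (∑ i, (4 ^ j i : ℝ)⁻¹ * (C * (4 ^ j i + hP i) + 2 * E i) : ℝ) = S3 at h3 ⊢
  generalize (∑ i, (4 * 4 ^ j i * H + 4 * N * 4 ^ (J - j i) * E i +
      s i * (C * 4 ^ j i + 2 * E i) -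
      tw J (j i) (s i) * g i - s i * sl i) : ℝ) = S4 at h1 ⊢
  generalize (4 : ℝ) ^ J = w at *
  linarith

theorem conv_ineq (m k N cF cE : ℕ) (dK le Ck Ch Cr : ℝ) (hdK : 0 ≤ dK) (hle : 0 ≤ le)
    (hCk : 0 ≤ Ck) (hCh : 0 ≤ Ch) (hCr : 0 ≤ Cr) :
    ∃ C : ℝ, 0 ≤ C ∧ ∀ (d lF H hx kk : ℝ) (J : ℕ) (j s : Fin m → ℕ)
      (E g sl hP ht hq gL gG rr : Fin m → ℝ) (a : ℕ), 0 < d → 0 ≤ lF → 0 ≤ H → (∀ i, 0 ≤ E i) →
      (∀ i, 0 ≤ hP i) → (∀ i, j i ≤ J) → (∀ i, ht i ≤ 4 ^ j i) → hx ≤ d * (2 * H + Ch) →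
      kk ≤ d * Ck → (∀ i, hq i ≤ d * (2 * E i + Ch * 4 ^ j i)) → (∀ i, gL i = d * g i) →
      (∀ i, gG i ≤ d * dK - d * sl i) → (∀ i, rr i ≤ d * (Cr * (4 ^ j i + hP i) + 2 * E i)) →
      0 ≤ d * lF + (d * dK) * ((k + 2) * (N * 4 ^ J)) + N * 4 ^ J * hx +
        ∑ i, (cF * (N * 4 ^ J) * kk +
          2 * (cE * (N * 4 ^ (J - j i))) * ((d * dK) * le + d * ht i) +
          2 * 4 ^ j i * hx + N * 4 ^ (J - j i) * (2 * hq i) + s i * (200 * kk + hq i) -
          tw J (j i) (s i) * gL i + s i * gG i) +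
        a * ∑ i, (4 ^ j i : ℝ)⁻¹ * rr i →
      INEQ C lF H N J j s E g sl hP a := by
  have hc0 : 0 ≤ (cF * N * Ck + 2 * cE * N * (dK * le + 1) + 2 * Ch + 2 * N * Ch : ℝ) := by positivity
  refine ⟨(k + 2) * N * dK + N * Ch +
    m * (cF * N * Ck + 2 * cE * N * (dK * le + 1) + 2 * Ch + 2 * N * Ch) + (200 * Ck + Ch + dK) + Cr,
    by positivity, ?_⟩
  intro d lF H hx kk J j s E g sl hP ht hq gL gG rr a hd hlF hH hE hhP hjJ hht hhx hkk hhq hgL hgG
    hrr h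
  have hC1 : (200 * Ck + Ch + dK) ≤ (k + 2) * N * dK + N * Ch +
    m * (cF * N * Ck + 2 * cE * N * (dK * le + 1) + 2 * Ch + 2 * N * Ch) + (200 * Ck + Ch + dK) + Cr := by
    have h1 : (0 : ℝ) ≤ (k + 2) * N * dK + N * Ch +
      m * (cF * N * Ck + 2 * cE * N * (dK * le + 1) + 2 * Ch + 2 * N * Ch) := by positivity
    linarith
  have hC2 : Cr ≤ (k + 2) * N * dK + N * Ch +
    m * (cF * N * Ck + 2 * cE * N * (dK * le + 1) + 2 * Ch + 2 * N * Ch) + (200 * Ck + Ch + dK) + Cr := by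
    have h1 : (0 : ℝ) ≤ (k + 2) * N * dK + N * Ch +
      m * (cF * N * Ck + 2 * cE * N * (dK * le + 1) + 2 * Ch + 2 * N * Ch) +
      (200 * Ck + Ch + dK) := by positivity
    linarith
  have hC3 : (k + 2) * N * dK + N * Ch +
    m * (cF * N * Ck + 2 * cE * N * (dK * le + 1) + 2 * Ch + 2 * N * Ch) ≤
    (k + 2) * N * dK + N * Ch +
    m * (cF * N * Ck + 2 * cE * N * (dK * le + 1) + 2 * Ch + 2 * N * Ch) + (200 * Ck + Ch + dK) + Cr := by
    have h1 : (0 : ℝ) ≤ (200 * Ck + Ch + dK) := by positivity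
    linarith
  have hC0 : 0 ≤ (k + 2) * N * dK + N * Ch +
    m * (cF * N * Ck + 2 * cE * N * (dK * le + 1) + 2 * Ch + 2 * N * Ch) + (200 * Ck + Ch + dK) + Cr := by
    positivity
  generalize ((k + 2) * N * dK + N * Ch +
    m * (cF * N * Ck + 2 * cE * N * (dK * le + 1) + 2 * Ch + 2 * N * Ch) + (200 * Ck + Ch + dK) + Cr :
    ℝ) = C at hC0 hC1 hC2 hC3 ⊢
  exact L1t_conv m k N cF cE dK le Ck Ch Cr hdK hle hCk hCh hCr hc0 C hC0 hC1 hC2 hC3 d lF H hx kk
    J j s E g sl hP ht hq gL gG rr a hd hH hE hhP hjJ hht hhx hkk hhq hgL hgG hrr h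

end Pool.Agent.Lib.MP_17a322_nt.VG
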