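import Pool.Agent.Lib.MP_17a322_nt.VG.L2A3b
import Pool.Agent.Lib.MP_17a322_nt.VN.L2A5b
import Pool.Agent.Lib.MP_17a322_nt.VN.L2A5c
import Pool.Agent.Lib.MP_17a322_nt.VJ.C4

/-!
Part L-II of VG: (II.1), one step of stage 2.
-/

universe u

namespace Pool.Agent.Lib.MP_17a322_nt.VG

open MvPolynomial Height
open Pool.Agent.Lib.MP_17a322_nt.RO
open Pool.Agent.Lib.MP_17a322_nt.VJ
open Pool.Agent.Lib.MP_17a322_nt.VN

theorem step_two {K : Type u} [Field K] [NumberField K] {n : ℕ} (W : Fin n → CT K)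
    (hW : ∀ t, (W t).IsE) (χ : Fin n → Bool) (m : ℕ) (r : Fin n) (D : ℕ) :
    ∃ c : ℝ, 1 ≤ c ∧ ∀ (j : Fin m → ℕ) (g : Fin m → MvPolynomial (Fin n) K) (i : Fin m) (b H : ℝ)
      (N : MvPolynomial (VL m n) K), Irreducible (g i) → (g i).degreeOf r ≠ 0 →
      (∀ t, (g i).degreeOf t ≤ D) → nh (g i) ≤ 4 ^ j i → 0 ≤ b → 0 ≤ H → N ≠ 0 →
      (∀ t, N.degreeOf (vS (i, t)) = 0) → QB j b H N →
      ∃ (N'' N' : MvPolynomial (VL m n) K) (R : ℕ), N'' ≠ 0 ∧ N''.degreeOf (vS (i, r)) = 0 ∧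
        (∀ t, N''.degreeOf (vZ (i, t)) = 0) ∧ (∀ t, N'.degreeOf (vZ (i, t)) = 0) ∧
        (∀ y, (∀ t, y ≠ vX t) → (∀ t, y ≠ vS (i, t)) → N.degreeOf y = 0 →
          N'.degreeOf y = 0 ∧ N''.degreeOf y = 0) ∧
        QB j (c * b) (c * (H + b)) N'' ∧ (4 : ℝ) ^ j i * R ≤ c * b ∧
        (∀ (A : Type u) [CommRing A] [Algebra K A] (x : VL m n → A),
          (∀ t, aeval x (al W χ j (i, t)) = 0) →
            aeval x N ∣ aeval x (gS g i) ^ R * aeval x N') ∧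
        ∀ (A : Type u) [CommRing A] [Algebra K A] (x : VL m n → A),
          aeval x (gS g i) = 0 → aeval x N' ∣ aeval x N'' := by
  classical
  obtain ⟨C, hC, hal⟩ := nh_al_le W χ m
  obtain ⟨q, hq⟩ : ∃ q : ℝ, q = 4 ^ n := ⟨_, rfl⟩
  obtain ⟨F, hF⟩ : ∃ F : ℝ, F = 3 * Module.finrank ℚ K * Fintype.card (VL m n) := ⟨_, rfl⟩
  have hq0 : 0 ≤ q := by rw [hq]; positivity
  have hF0 : 0 ≤ F := by rw [hF]; positivity
  have hD0 : (0 : ℝ) ≤ D := Nat.cast_nonneg D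
  obtain ⟨u1, hu1⟩ : ∃ u1 : ℝ, u1 = 2 * D * q := ⟨_, rfl⟩
  obtain ⟨u3, hu3⟩ : ∃ u3 : ℝ, u3 = D * q := ⟨_, rfl⟩
  obtain ⟨u4, hu4⟩ : ∃ u4 : ℝ, u4 = D * q * C := ⟨_, rfl⟩
  obtain ⟨u5, hu5⟩ : ∃ u5 : ℝ, u5 = D * (F * q) := ⟨_, rfl⟩
  have h1 : 0 ≤ u1 := by rw [hu1]; positivity
  have h3 : 0 ≤ u3 := by rw [hu3]; positivity
  have h4 : 0 ≤ u4 := by rw [hu4]; positivity
  have h5 : 0 ≤ u5 := by rw [hu5]; positivity
  refine ⟨1 + u1 + q + u3 + u4 + u5, by linarith, ?_⟩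
  intro j g i b H N hg hgr hD hgh hb hH hN hNS hQ
  have hQ1 : QB j (4 ^ 0 * b) (4 ^ 0 * (H + C * b)) N := by
    have e1 : 0 ≤ C * b := mul_nonneg hC hb
    rw [pow_zero, one_mul, one_mul]
    exact QB_mono j le_rfl (by linarith) hQ
  obtain ⟨hM0, hM1⟩ := BE_spec W hW χ C hC j (hal j) b H hb hH i 0 N hN hNS hQ1
  obtain ⟨M, hM⟩ : ∃ M, M = BE W χ j i N := ⟨_, rfl⟩
  have hMZ : ∀ t, M.degreeOf (vZ (i, t)) = 0 := fun t => by
    rw [hM]
    exact BE_degreeOf_Z W χ j i N t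
  have hMy : ∀ y, (∀ t, y ≠ vX t) → (∀ t, y ≠ vS (i, t)) → N.degreeOf y = 0 →
      M.degreeOf y = 0 := fun y hX hS hy => by
    rw [hM]
    exact BE_degreeOf_eq_zero W χ j i N y hX hS hy
  rw [← hM, zero_add, ← hq] at hM1
  rw [← hM] at hM0
  obtain ⟨R, N', hfac, hnd⟩ := exists_pow_dvd (gS g i) M (gS_irreducible g i hg) hM0
  obtain ⟨hN'0, hN'Q, hN'd, hR⟩ := QB_factor j _ _ M N' (gS g i) R hfac hM0 hM1
  have hgSr : (gS g i : MvPolynomial (VL m n) K).degreeOf (vS (i, r)) ≠ 0 := by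
    rw [degreeOf_gS]
    exact hgr
  have hN''0 : El (vS (i, r)) (gS g i) N' ≠ 0 :=
    El_ne_zero_of_irreducible (vS (i, r)) (gS g i) N' (gS_irreducible g i hg) hgSr hnd
  have hCb : 0 ≤ C * b := mul_nonneg hC hb
  have hqb : 0 ≤ q * b := mul_nonneg hq0 hb
  have hH' : 0 ≤ q * (H + C * b) + 3 * Module.finrank ℚ K * (Fintype.card (VL m n) * (q * b)) := by
    have e1 : 0 ≤ q * (H + C * b) := mul_nonneg hq0 (by linarith)
    have e2 : (0 : ℝ) ≤ 3 * Module.finrank ℚ K * (Fintype.card (VL m n) * (q * b)) := by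
      refine mul_nonneg (by positivity) (mul_nonneg (by positivity) hqb)
    linarith
  have hN''Q := QB_El_gS j g i r D (q * b) _ hH' hD hgh N' hN'Q hN''0
  have hdN'' : ∀ y, y ≠ vS (i, r) → (gS g i : MvPolynomial (VL m n) K).degreeOf y = 0 →
      N'.degreeOf y = 0 → (El (vS (i, r)) (gS g i) N').degreeOf y = 0 := by
    intro y hy e1 e2
    have e3 := degreeOf_El_le (vS (i, r)) (gS g i) N' y hy
    rw [e1, e2, mul_zero, mul_zero, add_zero] at e3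
    exact Nat.le_zero.1 e3
  have hN'Z : ∀ t, N'.degreeOf (vZ (i, t)) = 0 := fun t =>
    Nat.le_zero.1 ((hN'd (vZ (i, t))).trans (le_of_eq (hMZ t)))
  have hb1 : 0 ≤ u1 * b := mul_nonneg h1 hb
  have hb3 : 0 ≤ u3 * b := mul_nonneg h3 hb
  have hb4 : 0 ≤ u4 * b := mul_nonneg h4 hb
  have hb5 : 0 ≤ u5 * b := mul_nonneg h5 hb
  have hH1 : 0 ≤ u1 * H := mul_nonneg h1 hH
  have hH2 : 0 ≤ q * H := mul_nonneg hq0 hH
  have hH3 : 0 ≤ u3 * H := mul_nonneg h3 hH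
  have hH4 : 0 ≤ u4 * H := mul_nonneg h4 hH
  have hH5 : 0 ≤ u5 * H := mul_nonneg h5 hH
  have hcexp : ∀ z : ℝ, (1 + u1 + q + u3 + u4 + u5) * z =
      z + u1 * z + q * z + u3 * z + u4 * z + u5 * z := fun z => by ring
  refine ⟨El (vS (i, r)) (gS g i) N', N', R, hN''0, degreeOf_El_self _ _ _, ?_, hN'Z, ?_, ?_, ?_,
    ?_, ?_⟩
  · intro t
    refine hdN'' _ ?_ ?_ (hN'Z t)
    · intro h
      cases h
    · refine degreeOf_gS_eq_zero g i _ fun t' h => ?_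
      cases h
  · intro y hX hS hy
    have e1 : N'.degreeOf y = 0 := Nat.le_zero.1 ((hN'd y).trans (le_of_eq (hMy y hX hS hy)))
    exact ⟨e1, hdN'' y (hS r) (degreeOf_gS_eq_zero g i y hS) e1⟩
  · refine QB_mono j ?_ ?_ hN''Q
    · have e1 : 2 * (D : ℝ) * (q * b) = u1 * b := by rw [hu1]; ring
      rw [e1, hcexp]
      linarith
    · have e1 : q * b + (D : ℝ) * (q * (H + C * b) +
          3 * Module.finrank ℚ K * (Fintype.card (VL m n) * (q * b))) =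
          q * b + u3 * H + u4 * b + u5 * b := by
        rw [hu3, hu4, hu5, hF]
        ring
      rw [e1, mul_add, hcexp, hcexp]
      linarith
  · have e1 : (R : ℝ) ≤ M.degreeOf (vS (i, r)) := Nat.cast_le.2 (hR _ hgSr)
    have e2 := hM1.2.1 (i, r)
    have e3 : (4 : ℝ) ^ j i * R ≤ 4 ^ j i * M.degreeOf (vS (i, r)) :=
      mul_le_mul_of_nonneg_left e1 (by positivity)
    have e4 : (4 : ℝ) ^ j i * R ≤ q * b := e3.trans e2
    rw [hcexp]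
    linarith
  · intro A _ _ x hx
    have e1 := aeval_dvd_BE W χ j i N x hx
    rw [← hM, hfac, map_mul, map_pow] at e1
    exact e1
  · intro A _ _ x hx
    exact aeval_dvd_El (vS (i, r)) (gS g i) N' (Or.inl hgSr) x hx

end Pool.Agent.Lib.MP_17a322_nt.VG
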