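import Pool.Agent.Lib.MP_17a322_nt.VN.L2R
import Pool.Agent.Lib.MP_17a322_nt.VG.L2A5

/-!
Part L-II of VG: (II.1), stage 2.
-/

universe u

namespace Pool.Agent.Lib.MP_17a322_nt.VG

open MvPolynomial Height
open Pool.Agent.Lib.MP_17a322_nt.RO
open Pool.Agent.Lib.MP_17a322_nt.VJ
open Pool.Agent.Lib.MP_17a322_nt.VN

/-- (II.1), stage 2. -/
theorem elim_two {K : Type u} [Field K] [NumberField K] {n : ℕ} (W : Fin n → CT K)
    (hW : ∀ t, (W t).IsE) (χ : Fin n → Bool) (m : ℕ) (r : Fin n) (D : ℕ) :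
    ∃ C₁ : ℝ, 0 ≤ C₁ ∧ ∀ (j : Fin m → ℕ) (g : Fin m → MvPolynomial (Fin n) K) (b H : ℝ)
      (N₀ : MvPolynomial (VL m n) K), (∀ i, Irreducible (g i)) → (∀ i, (g i).degreeOf r ≠ 0) →
      (∀ i t, (g i).degreeOf t ≤ D) → (∀ i, nh (g i) ≤ 4 ^ j i) → N₀ ≠ 0 →
      (∀ p, N₀.degreeOf (vS p) = 0) → (∀ t, (N₀.degreeOf (vX t) : ℝ) ≤ b) →
      (∀ p : Fin m × Fin n, (4 : ℝ) ^ j p.1 * N₀.degreeOf (vZ p) ≤ b) → nh N₀ ≤ H →
      ∃ (N : Fin (m + 1) → MvPolynomial (VL m n) K) (N' : Fin m → MvPolynomial (VL m n) K)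
        (R : Fin m → ℕ),
        N 0 = N₀ ∧ N (Fin.last m) ≠ 0 ∧ (∀ p, (N (Fin.last m)).degreeOf (vZ p) = 0) ∧
        (∀ i, (N (Fin.last m)).degreeOf (vS (i, r)) = 0) ∧
        (∀ p : Fin m × Fin n, (4 : ℝ) ^ j p.1 * (N (Fin.last m)).degreeOf (vS p) ≤ C₁ * b) ∧
        nh (N (Fin.last m)) ≤ C₁ * (H + b) ∧ (∀ i, (4 : ℝ) ^ j i * R i ≤ C₁ * b) ∧
        (∀ (i i' : Fin m) (t : Fin n), i ≤ i' → (N i.castSucc).degreeOf (vS (i', t)) = 0) ∧
        (∀ (i i' : Fin m) (t : Fin n), i' ≤ i → (N' i).degreeOf (vZ (i', t)) = 0) ∧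
        (∀ (i i' : Fin m) (t : Fin n), i' ≤ i → (N i.succ).degreeOf (vZ (i', t)) = 0) ∧
        (∀ (i : Fin m) (A : Type u) [CommRing A] [Algebra K A] (x : VL m n → A),
          (∀ t, aeval x (al W χ j (i, t)) = 0) →
            aeval x (N i.castSucc) ∣ aeval x (gS g i) ^ R i * aeval x (N' i)) ∧
        ∀ (i : Fin m) (A : Type u) [CommRing A] [Algebra K A] (x : VL m n → A),
          aeval x (gS g i) = 0 → aeval x (N' i) ∣ aeval x (N i.succ) := by
  classical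
  obtain ⟨c, hc1, hstep⟩ := step_two W hW χ m r D
  obtain ⟨e, he⟩ : ∃ e : ℝ, e = 2 * c := ⟨_, rfl⟩
  have he1 : 1 ≤ e := by linarith
  have he0 : 0 ≤ e := by linarith
  refine ⟨e ^ m, pow_nonneg he0 m, ?_⟩
  intro j g b H N₀ hg hgr hD hgh hN0 hS0 hX0 hZ0 hH0
  have hb : 0 ≤ b := le_trans (Nat.cast_nonneg _) (hX0 r)
  have hH : 0 ≤ H := (nh_nonneg hN0).trans hH0
  have hHb : 0 ≤ H + b := by linarith
  have key := exists_chain m
    (fun k (N : MvPolynomial (VL m n) K) => N ≠ 0 ∧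
      (∀ (i' : Fin m) (t : Fin n), k ≤ (i' : ℕ) → N.degreeOf (vS (i', t)) = 0) ∧
      (∀ (i' : Fin m) (t : Fin n), (i' : ℕ) < k → N.degreeOf (vZ (i', t)) = 0) ∧
      (∀ i' : Fin m, (i' : ℕ) < k → N.degreeOf (vS (i', r)) = 0) ∧
      QB j (e ^ k * b) (e ^ k * (H + b)) N)
    (fun i N N'' => ∃ (N' : MvPolynomial (VL m n) K) (R : ℕ),
      (∀ (i' : Fin m) (t : Fin n), i' ≤ i → N'.degreeOf (vZ (i', t)) = 0) ∧
      (4 : ℝ) ^ j i * R ≤ e ^ m * b ∧
      (∀ (A : Type u) [CommRing A] [Algebra K A] (x : VL m n → A),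
          (∀ t, aeval x (al W χ j (i, t)) = 0) →
            aeval x N ∣ aeval x (gS g i) ^ R * aeval x N') ∧
      ∀ (A : Type u) [CommRing A] [Algebra K A] (x : VL m n → A),
          aeval x (gS g i) = 0 → aeval x N' ∣ aeval x N'')
    N₀ ⟨hN0, fun i' t _ => hS0 (i', t), fun i' t h => absurd h (Nat.not_lt_zero _),
      fun i' h => absurd h (Nat.not_lt_zero _), by
        rw [pow_zero, one_mul, one_mul]
        refine ⟨hX0, fun p => ?_, hZ0, by linarith⟩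
        rw [hS0 p, Nat.cast_zero, mul_zero]
        exact hb⟩
  obtain ⟨f, hf0, hfP, hfQ⟩ := key (by
    intro i N hP
    obtain ⟨hN, hS, hZ, hSr, hQ⟩ := hP
    have hek : 0 ≤ e ^ (i : ℕ) := pow_nonneg he0 _
    obtain ⟨N'', N', R, a1, a2, a3, a4, a5, a6, a7, a8, a9⟩ := hstep j g i (e ^ (i : ℕ) * b)
      (e ^ (i : ℕ) * (H + b)) N (hg i) (hgr i) (hD i) (hgh i) (mul_nonneg hek hb)
      (mul_nonneg hek hHb) hN (fun t => hS i t le_rfl) hQ
    have hkey : ∀ i' : Fin m, i' ≠ i → ∀ t, (∀ s, (vZ (i', t) : VL m n) ≠ vX s) ∧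
        (∀ s, (vZ (i', t) : VL m n) ≠ vS (i, s)) ∧ (∀ s, (vS (i', t) : VL m n) ≠ vX s) ∧
        ∀ s, (vS (i', t) : VL m n) ≠ vS (i, s) := by
      intro i' hi' t
      refine ⟨fun s h => ?_, fun s h => ?_, fun s h => ?_, fun s h => ?_⟩
      · cases h
      · cases h
      · cases h
      · have h6 := congrArg Prod.fst (Sum.inl.inj (Sum.inr.inj h))
        exact hi' h6
    have hcb : c * (e ^ (i : ℕ) * b) ≤ e ^ ((i : ℕ) + 1) * b := by
      have e1 : 0 ≤ c * (e ^ (i : ℕ) * b) := mul_nonneg (by linarith) (mul_nonneg hek hb)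
      have e2 : e ^ ((i : ℕ) + 1) * b = c * (e ^ (i : ℕ) * b) + c * (e ^ (i : ℕ) * b) := by
        rw [pow_succ, he]
        ring
      rw [e2]
      linarith
    refine ⟨N'', ⟨a1, ?_, ?_, ?_, ?_⟩, N', R, ?_, ?_, a8, a9⟩
    · intro i' t hi'
      have hne : i' ≠ i := by
        intro h
        rw [h] at hi'
        omega
      obtain ⟨-, -, k3, k4⟩ := hkey i' hne t
      exact (a5 _ k3 k4 (hS i' t (by omega))).2
    · intro i' t hi'
      by_cases hne : i' = i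
      · rw [hne]
        exact a3 t
      · obtain ⟨k1, k2, -, -⟩ := hkey i' hne t
        have hlt : (i' : ℕ) < i := by
          have h7 : (i' : ℕ) ≠ i := fun h => hne (Fin.ext h)
          omega
        exact (a5 _ k1 k2 (hZ i' t hlt)).2
    · intro i' hi'
      by_cases hne : i' = i
      · rw [hne]
        exact a2
      · obtain ⟨-, -, k3, k4⟩ := hkey i' hne r
        have hlt : (i' : ℕ) < i := by
          have h7 : (i' : ℕ) ≠ i := fun h => hne (Fin.ext h)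
          omega
        exact (a5 _ k3 k4 (hSr i' hlt)).2
    · refine QB_mono j hcb ?_ a6
      have e1 : e ^ ((i : ℕ) + 1) * (H + b) =
          c * (e ^ (i : ℕ) * (H + b) + e ^ (i : ℕ) * b) + c * (e ^ (i : ℕ) * H) := by
        rw [pow_succ, he]
        ring
      have e2 : 0 ≤ c * (e ^ (i : ℕ) * H) := mul_nonneg (by linarith) (mul_nonneg hek hH)
      rw [e1]
      linarith
    · intro i' t hi'
      by_cases hne : i' = i
      · rw [hne]
        exact a4 t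
      · obtain ⟨k1, k2, -, -⟩ := hkey i' hne t
        have hlt : (i' : ℕ) < i := by
          have h7 : (i' : ℕ) ≠ i := fun h => hne (Fin.ext h)
          have h8 : (i' : ℕ) ≤ i := hi'
          omega
        exact (a5 _ k1 k2 (hZ i' t hlt)).1
    · have e1 : e ^ ((i : ℕ) + 1) * b ≤ e ^ m * b :=
        mul_le_mul_of_nonneg_right (pow_le_pow_right₀ he1 i.2) hb
      exact (a7.trans hcb).trans e1)
  choose N' R h1 h2 h3 h4 using hfQ
  refine ⟨f, N', R, hf0, ?_, ?_, ?_, ?_, ?_, h2, ?_, h1, ?_, h3, h4⟩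
  · exact (hfP (Fin.last m)).1
  · intro p
    exact (hfP (Fin.last m)).2.2.1 p.1 p.2 (by rw [Fin.val_last]; exact p.1.2)
  · intro i
    exact (hfP (Fin.last m)).2.2.2.1 i (by rw [Fin.val_last]; exact i.2)
  · intro p
    have h5 := (hfP (Fin.last m)).2.2.2.2.2.1 p
    rw [Fin.val_last] at h5
    exact h5
  · have h5 := (hfP (Fin.last m)).2.2.2.2.2.2.2
    rw [Fin.val_last] at h5
    exact h5
  · intro i i' t hi
    exact (hfP i.castSucc).2.1 i' t (by rw [Fin.val_castSucc]; exact hi)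
  · intro i i' t hi
    exact (hfP i.succ).2.2.1 i' t (by
      rw [Fin.val_succ]
      exact Nat.lt_succ_of_le hi)

end Pool.Agent.Lib.MP_17a322_nt.VG
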