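import Pool.Agent.Lib.MP_17a322_nt.VG.L0
import Pool.Agent.Lib.MP_17a322_nt.VN.L2C2

/-!
Part L-II of VG: (II.3), the auxiliary point, the roots of unity and the field `L`.
-/

universe u

namespace Pool.Agent.Lib.MP_17a322_nt.VG

open MvPolynomial Height
open Pool.Agent.Lib.MP_17a322_nt.RO
open Pool.Agent.Lib.MP_17a322_nt.VJ
open Pool.Agent.Lib.MP_17a322_nt.VN

/-- The underlying curve (a dummy curve for a torus coordinate). -/
private def L2C2_und {K : Type u} [Field K] : CT K → WeierstrassCurve K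
  | .ell W => W
  | .tor => ⟨0, 0, 0, 0, 0⟩

private noncomputable def L2C2_um {K : Type u} [Field K] {L : Type u} [Field L] [Algebra K L] :
    Additive Kˣ →+ Additive Lˣ :=
  MonoidHom.toAdditive (Units.map (algebraMap K L : K →* L))

private theorem L2C2_um_PB {K : Type u} [Field K] [DecidableEq K] {L : Type u} [Field L]
    [DecidableEq L] [Algebra K L] :
    PB (CT.tor : CT K) (CT.tor : CT L) (L2C2_um (K := K) (L := L)) := by
  intro P i
  fin_cases i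
  · rfl
  · exact (map_one _).symm

theorem exists_PB {K : Type u} [Field K] [DecidableEq K] {L : Type u} [Field L] [DecidableEq L]
    [Algebra K L] (T : CT K) : ∃ f : T.Pt →+ (T.mp L).Pt, PB T (T.mp L) f := by
  cases T with
  | ell W => exact VJ.exists_PB W (W.map (algebraMap K L)) rfl
  | tor => exact ⟨L2C2_um (K := K) (L := L), L2C2_um_PB⟩

theorem exists_PB_comp {K : Type u} [Field K] [DecidableEq K] {L : Type u} [Field L]
    [DecidableEq L] [Algebra K L] {Ω : Type u} [Field Ω] [DecidableEq Ω] [Algebra K Ω]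
    [Algebra L Ω] [IsScalarTower K L Ω] (T : CT K)
    {g : T.Pt →+ (T.mp Ω).Pt} (hg : PB T (T.mp Ω) g)
    {g' : (T.mp L).Pt →+ (T.mp Ω).Pt} (hg' : PB (T.mp L) (T.mp Ω) g') :
    ∃ f : T.Pt →+ (T.mp L).Pt, PB T (T.mp L) f ∧ ∀ P, g' (f P) = g P := by
  cases T with
  | ell W =>
    exact VJ.exists_PB_comp (W := W) (V' := W.map (algebraMap K L))
      (V := W.map (algebraMap K Ω)) rfl hg hg'
  | tor =>
    refine ⟨L2C2_um (K := K) (L := L), L2C2_um_PB, fun P => ?_⟩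
    have h1 := hg P 0
    have h2 := hg' (L2C2_um (K := K) (L := L) P) 0
    have h3 : algebraMap L Ω (((CT.tor : CT K).mp L).xr (L2C2_um (K := K) (L := L) P) 0) =
        algebraMap K Ω ((CT.tor : CT K).xr P 0) :=
      (congrArg (algebraMap L Ω) (L2C2_um_PB (K := K) (L := L) P 0)).trans
        (IsScalarTower.algebraMap_apply K L Ω _).symm
    have h4 := (h2.trans h3).trans h1.symm
    exact Additive.toMul.injective (Units.ext h4)

theorem infinite_xx {Ω : Type u} [Field Ω] [IsAlgClosed Ω] [CharZero Ω] [DecidableEq Ω]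
    (T : CT Ω) (hT : T.IsE) {m : ℕ} (R : T.Pt) (S : Fin m → T.Pt) (j : Fin m → ℕ) :
    {ξ : Ω | ∃ w : T.Pt, T.Aff w ∧ (∃ N, 0 < N ∧ T.xr w 0 ^ N = 1) ∧ T.Aff (R + w) ∧
      (∀ i, T.Aff (S i - T.ml (j i) (R + w))) ∧ (∀ i, T.Aff (T.ml (j i + 1) (R + w))) ∧
      ξ = T.xr (R + w) 0}.Infinite := by
  cases T with
  | ell V =>
    have hV : V.IsElliptic := hT
    exact VN.infinite_xx V R S j
  | tor =>
    have h1 : Set.InjOn (fun z : Ω => (((Additive.toMul R : Ωˣ) : Ω)) * z)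
        {ζ : Ω | ∃ N, 0 < N ∧ ζ ^ N = 1} := fun a _ b _ h =>
      mul_left_cancel₀ (Units.ne_zero _) h
    refine ((infinite_root_one Ω).image h1).mono ?_
    rintro _ ⟨ζ, ⟨N, hN, hζ⟩, rfl⟩
    have hζ0 : ζ ≠ 0 := by
      rintro rfl
      rw [zero_pow hN.ne'] at hζ
      exact zero_ne_one hζ
    exact ⟨Additive.ofMul (Units.mk0 ζ hζ0), trivial, ⟨N, hN, hζ⟩, trivial, fun _ => trivial,
      fun _ => trivial, rfl⟩

private noncomputable def L2C2_pt {K : Type u} [Field K] {Ω : Type u} [Field Ω]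
    [Algebra K Ω] : (T : CT K) → (T.mp Ω).Pt → ((L2C2_und T).map (algebraMap K Ω)).toAffine.Point
  | .ell _, w => w
  | .tor, _ => .zero

private theorem L2C2_one {K : Type u} [Field K] {L : Type u} [Field L]
    [DecidableEq L] [Algebra K L] {Ω : Type u} [Field Ω] [DecidableEq Ω] [Algebra K Ω]
    [Algebra L Ω] (T : CT K) (w : (T.mp Ω).Pt)
    (g₀ : ((L2C2_und T).map (algebraMap K L)).toAffine.Point →+
      ((L2C2_und T).map (algebraMap K Ω)).toAffine.Point)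
    (hg₀ : VJ.PB ((L2C2_und T).map (algebraMap K L)) ((L2C2_und T).map (algebraMap K Ω)) g₀)
    (w₀ : ((L2C2_und T).map (algebraMap K L)).toAffine.Point) (hw₀ : g₀ w₀ = L2C2_pt T w)
    (a : L) (ha : algebraMap L Ω a = (T.mp Ω).xr w 0) :
    ∃ (g : (T.mp L).Pt →+ (T.mp Ω).Pt) (w' : (T.mp L).Pt), PB (T.mp L) (T.mp Ω) g ∧
      g w' = w := by
  cases T with
  | ell W => exact ⟨g₀, w₀, hg₀, hw₀⟩
  | tor =>
    have ha0 : a ≠ 0 := by
      rintro rfl
      rw [map_zero] at ha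
      exact Units.ne_zero (Additive.toMul w : Ωˣ) ha.symm
    exact ⟨L2C2_um (K := L) (L := Ω), Additive.ofMul (Units.mk0 a ha0), L2C2_um_PB,
      Additive.toMul.injective (Units.ext ha)⟩

theorem exists_field_of_def_ct {K : Type u} [Field K] [NumberField K] {Ω : Type u} [Field Ω]
    [DecidableEq Ω] [Algebra K Ω] [Algebra.IsAlgebraic K Ω] {n : ℕ} (W : Fin n → CT K)
    (w : ∀ t, ((W t).mp Ω).Pt) {κ : Type*} [Finite κ] (ζ : κ → Ω) :
    ∃ (L : Type u) (_ : Field L) (_ : NumberField L) (_ : DecidableEq L) (_ : Algebra K L)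
      (_ : Algebra L Ω) (_ : IsScalarTower K L Ω)
      (g : ∀ t, ((W t).mp L).Pt →+ ((W t).mp Ω).Pt)
      (w' : ∀ t, ((W t).mp L).Pt) (ζ' : κ → L),
      (∀ t, PB ((W t).mp L) ((W t).mp Ω) (g t)) ∧ (∀ t, g t (w' t) = w t) ∧
        ∀ k, algebraMap L Ω (ζ' k) = ζ k := by
  obtain ⟨L, _, _, _, _, _, _, V', g, w', ζ', hV', hg, hw', hζ'⟩ :=
    exists_field_of_def_n (fun t => L2C2_und (W t))
      (fun t => (L2C2_und (W t)).map (algebraMap K Ω)) (fun t => rfl)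
      (fun t => L2C2_pt (W t) (w t)) (Sum.elim ζ fun t : Fin n => ((W t).mp Ω).xr (w t) 0)
  obtain rfl : (fun t => (L2C2_und (W t)).map (algebraMap K L)) = V' := funext hV'
  have h1 : ∀ t, ∃ (g : ((W t).mp L).Pt →+ ((W t).mp Ω).Pt) (w' : ((W t).mp L).Pt),
      PB ((W t).mp L) ((W t).mp Ω) g ∧ g w' = w t := fun t =>
    L2C2_one (W t) (w t) (g t) (hg t) (w' t) (hw' t) (ζ' (Sum.inr t)) (hζ' (Sum.inr t))
  choose g₁ w₁ hg₁ hw₁ using h1
  exact ⟨L, inferInstance, inferInstance, inferInstance, inferInstance, inferInstance,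
    inferInstance, g₁, w₁, fun k => ζ' (Sum.inl k), hg₁, hw₁, fun k => hζ' (Sum.inl k)⟩

private theorem L2C2_Aff {K : Type u} [Field K] {L : Type u} [Field L]
    [DecidableEq L] [Algebra K L] {Ω : Type u} [Field Ω] [DecidableEq Ω] [Algebra K Ω]
    (T : CT K) (g : (T.mp L).Pt →+ (T.mp Ω).Pt) (P : (T.mp L).Pt)
    (h : (T.mp Ω).Aff (g P)) : (T.mp L).Aff P := by
  cases T with
  | ell W =>
    intro h0
    apply h
    have h1 : P = 0 := h0
    rw [h1]
    exact map_zero g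
  | tor => trivial

private theorem L2C2_ml {K : Type u} [Field K] {L : Type u} [Field L]
    [DecidableEq L] [Algebra K L] {Ω : Type u} [Field Ω] [DecidableEq Ω] [Algebra K Ω]
    (T : CT K) (g : (T.mp L).Pt →+ (T.mp Ω).Pt) (j : ℕ) (P : (T.mp L).Pt) :
    g ((T.mp L).ml j P) = (T.mp Ω).ml j (g P) := by
  cases T with
  | ell W => exact map_nsmul g _ _
  | tor => exact map_nsmul g _ _

private theorem L2C2_IsE {K : Type u} [Field K] {Ω : Type u} [Field Ω] [Algebra K Ω]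
    (T : CT K) (hT : T.IsE) : (T.mp Ω).IsE := by
  cases T with
  | ell W =>
    have hW : W.IsElliptic := hT
    exact inferInstanceAs (W.map (algebraMap K Ω)).IsElliptic
  | tor => trivial

/-- (II.3) The auxiliary point, the roots of unity and the field `L`. -/
theorem choose_L {K : Type u} [Field K] [NumberField K] [DecidableEq K] {m n : ℕ}
    (W : Fin n → CT K) (hW : ∀ t, (W t).IsE)
    (P₀ : ∀ t, (W t).Pt) (P : Fin m → ∀ t, (W t).Pt) (j : Fin m → ℕ)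
    (c : MvPolynomial (Fin n ⊕ (Fin m × Fin n)) K) (hc : c ≠ 0) :
    ∃ (L : Type u) (_ : Field L) (_ : NumberField L) (_ : DecidableEq L) (_ : Algebra K L)
      (V : Fin n → CT L) (f : ∀ t, (W t).Pt →+ (V t).Pt)
      (z : ∀ t, (V t).Pt) (ζ : Fin m × Fin n → L),
      (∀ t, (W t).mp L = V t) ∧ (∀ t, PB (W t) (V t) (f t)) ∧
      (∀ t, (V t).Aff (z t) ∧ ∃ N, 0 < N ∧ (V t).xr (z t) 0 ^ N = 1) ∧
      (∀ t, (V t).Aff (f t (P₀ t) + z t)) ∧
      (∀ i t, (V t).Aff (f t (P i t) - (V t).ml (j i) (f t (P₀ t) + z t))) ∧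
      (∀ i t, (V t).Aff ((V t).ml (j i + 1) (f t (P₀ t) + z t))) ∧
      (∀ p, ∃ N, 0 < N ∧ ζ p ^ N = 1) ∧
      aeval (Sum.elim (fun t => (V t).xr (f t (P₀ t) + z t) 0) ζ) c ≠ 0 := by
  classical
  let Ω := AlgebraicClosure K
  let _ : DecidableEq Ω := Classical.decEq _
  choose fΩ hfΩ using fun t => exists_PB (L := Ω) (W t)
  let T : Fin n ⊕ (Fin m × Fin n) → Set Ω := Sum.elim
    (fun t => {ξ : Ω | ∃ w : ((W t).mp Ω).Pt, ((W t).mp Ω).Aff w ∧
      (∃ N, 0 < N ∧ ((W t).mp Ω).xr w 0 ^ N = 1) ∧ ((W t).mp Ω).Aff (fΩ t (P₀ t) + w) ∧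
      (∀ i, ((W t).mp Ω).Aff (fΩ t (P i t) - ((W t).mp Ω).ml (j i) (fΩ t (P₀ t) + w))) ∧
      (∀ i, ((W t).mp Ω).Aff (((W t).mp Ω).ml (j i + 1) (fΩ t (P₀ t) + w))) ∧
      ξ = ((W t).mp Ω).xr (fΩ t (P₀ t) + w) 0})
    (fun _ => {ζ : Ω | ∃ N, 0 < N ∧ ζ ^ N = 1})
  have hT : ∀ y, (T y).Infinite := by
    rintro (t | p)
    · exact infinite_xx ((W t).mp Ω) (L2C2_IsE (W t) (hW t)) (fΩ t (P₀ t))
        (fun i => fΩ t (P i t)) j
    · exact infinite_root_one Ω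
  obtain ⟨s, hs, hsc⟩ := exists_mem_ne c hc T hT
  have hs1 : ∀ t, ∃ w : ((W t).mp Ω).Pt, ((W t).mp Ω).Aff w ∧
      (∃ N, 0 < N ∧ ((W t).mp Ω).xr w 0 ^ N = 1) ∧ ((W t).mp Ω).Aff (fΩ t (P₀ t) + w) ∧
      (∀ i, ((W t).mp Ω).Aff (fΩ t (P i t) - ((W t).mp Ω).ml (j i) (fΩ t (P₀ t) + w))) ∧
      (∀ i, ((W t).mp Ω).Aff (((W t).mp Ω).ml (j i + 1) (fΩ t (P₀ t) + w))) ∧
      s (Sum.inl t) = ((W t).mp Ω).xr (fΩ t (P₀ t) + w) 0 := fun t => hs (Sum.inl t)
  have hs2 : ∀ p, ∃ N, 0 < N ∧ s (Sum.inr p) ^ N = 1 := fun p => hs (Sum.inr p)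
  choose w hw0 hwN hw1 hw2 hw3 hw4 using hs1
  obtain ⟨L, _, _, _, _, _, _, g, w', ζ', hg, hw', hζ'⟩ :=
    exists_field_of_def_ct W w (fun p => s (Sum.inr p))
  choose f hf hfg using fun t => exists_PB_comp (L := L) (W t) (hfΩ t) (hg t)
  have hinj : Function.Injective (algebraMap L Ω) := (algebraMap L Ω).injective
  have hz : ∀ t, g t (f t (P₀ t) + w' t) = fΩ t (P₀ t) + w t := by
    intro t
    rw [map_add, hfg, hw']
  have hQ : ∀ i t, g t (f t (P i t) - ((W t).mp L).ml (j i) (f t (P₀ t) + w' t)) =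
      fΩ t (P i t) - ((W t).mp Ω).ml (j i) (fΩ t (P₀ t) + w t) := by
    intro i t
    rw [map_sub, L2C2_ml, hz, hfg]
  refine ⟨L, inferInstance, inferInstance, inferInstance, inferInstance,
    fun t => (W t).mp L, f, w', ζ', fun t => rfl, hf, ?_, ?_, ?_, ?_, ?_, ?_⟩
  · intro t
    refine ⟨L2C2_Aff (W t) (g t) _ (by rw [hw']; exact hw0 t), ?_⟩
    obtain ⟨N, hN, hN1⟩ := hwN t
    refine ⟨N, hN, hinj ?_⟩
    rw [map_pow, map_one, ← hg t, hw', hN1]
  · intro t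
    exact L2C2_Aff (W t) (g t) _ (by rw [hz]; exact hw1 t)
  · intro i t
    exact L2C2_Aff (W t) (g t) _ (by rw [hQ]; exact hw2 t i)
  · intro i t
    exact L2C2_Aff (W t) (g t) _ (by rw [L2C2_ml, hz]; exact hw3 t i)
  · intro p
    obtain ⟨N, hN, hN1⟩ := hs2 p
    refine ⟨N, hN, hinj ?_⟩
    rw [map_pow, map_one, hζ', hN1]
  · intro h
    apply hsc
    have h2 := congrArg (IsScalarTower.toAlgHom K L Ω) h
    rw [map_zero, comp_aeval_apply] at h2
    have e1 : (fun i => (IsScalarTower.toAlgHom K L Ω)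
        (Sum.elim (fun t => ((W t).mp L).xr (f t (P₀ t) + w' t) 0) ζ' i)) = s := by
      funext i
      rcases i with t | p
      · rw [hw4 t, ← hz t, hg t]
        rfl
      · exact hζ' p
    rw [e1] at h2
    exact h2

end Pool.Agent.Lib.MP_17a322_nt.VG
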