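import Pool.Agent.Lib.MP_17a322_nt.VG.L2A1
import Pool.Agent.Lib.MP_17a322_nt.VN.L2D3

/-!
Part L-II of VG: values of the relations at the deformed point `dp` (II.4).
-/

universe u

namespace Pool.Agent.Lib.MP_17a322_nt.VG

open MvPolynomial Height
open Pool.Agent.Lib.MP_17a322_nt.RO
open Pool.Agent.Lib.MP_17a322_nt.VJ
open Pool.Agent.Lib.MP_17a322_nt.VN

private theorem L2D3_rs_C {A D : Type*} [CommRing A] [CommRing D] (φ : A →+* D) (e : D) (a : A) :
    rs φ e (PowerSeries.C a) = PowerSeries.C (φ a) := by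
  ext k
  rw [coeff_rs, PowerSeries.coeff_C, PowerSeries.coeff_C]
  split_ifs with h
  · rw [h, pow_zero, one_mul]
  · rw [map_zero, mul_zero]

section

variable {K : Type*} [Field K] {A : Type*} [CommRing A] [Algebra K A] {m n : ℕ}

private theorem L2D3_alg (a : K) :
    algebraMap K (PowerSeries (MvPolynomial (Fin 2) (MvPolynomial (Fin m × Fin n) A))) a =
      PowerSeries.C (cc A m n (algebraMap K A a)) := by
  rw [PowerSeries.algebraMap_apply, MvPolynomial.algebraMap_apply, MvPolynomial.algebraMap_apply]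
  rfl

/-- `rs` as a homomorphism of algebras -/
private noncomputable def L2D3_rsA (K : Type*) [Field K] [Algebra K A]
    (e : MvPolynomial (Fin 2) (MvPolynomial (Fin m × Fin n) A)) :
    PowerSeries A →ₐ[K] PowerSeries (MvPolynomial (Fin 2) (MvPolynomial (Fin m × Fin n) A)) :=
  { rs (cc A m n) e with
    commutes' := fun a => by
      change rs (cc A m n) e (algebraMap K (PowerSeries A) a) = _
      rw [L2D3_alg, PowerSeries.algebraMap_apply, L2D3_rs_C] }

end

theorem aeval_dp_al {K : Type u} [Field K] {A : Type*} [CommRing A] [Algebra K A] {m n : ℕ}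
    (W : Fin n → CT K) (χ : Fin n → Bool) (j : Fin m → ℕ)
    (e : Fin n → MvPolynomial (Fin 2) (MvPolynomial (Fin m × Fin n) A)) (x : Fin n → A)
    (u ξ : Fin m × Fin n → PowerSeries A) (i : Fin m)
    (hrel : ∀ t : Fin n, S3 (W t) (mu (W t) (j i) ![PowerSeries.C (x t), 1])
      (vc (χ t) (u (i, t))) ![ξ (i, t), 1] = 0) (t : Fin n) :
    aeval (dp e x u ξ i) (al W χ j (i, t)) = 0 := by
  rw [aeval_al]
  have h1 := congrArg (L2D3_rsA K (e t)) (hrel t)
  rw [map_S3, map_zero] at h1
  rw [← h1]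
  have hC : ∀ a : A, L2D3_rsA K (e t) (PowerSeries.C a) = PowerSeries.C (cc A m n a) := fun a =>
    L2D3_rs_C _ _ a
  have hu : dp e x u ξ i (vS (i, t)) = L2D3_rsA K (e t) (u (i, t)) := by
    show (if i = i then rs (cc A m n) (e t) (u (i, t)) else _) = _
    rw [if_pos rfl]
    rfl
  have hξ : dp e x u ξ i (vZ (i, t)) = L2D3_rsA K (e t) (ξ (i, t)) := by
    show (if i = i then rs (cc A m n) (e t) (ξ (i, t)) else _) = _
    rw [if_pos rfl]
    rfl
  have hx : dp e x u ξ i (vX t) = L2D3_rsA K (e t) (PowerSeries.C (x t)) := by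
    rw [hC]
    rfl
  rw [hu, hξ, hx]
  congr 1
  · funext k
    rw [map_mu]
    congr 1
    funext l
    fin_cases l
    · rfl
    · exact (map_one (L2D3_rsA K (e t))).symm
  · funext k
    cases χ t
    · fin_cases k
      · rfl
      · exact (map_one (L2D3_rsA K (e t))).symm
    · fin_cases k
      · exact (map_one (L2D3_rsA K (e t))).symm
      · rfl
  · funext k
    fin_cases k
    · rfl
    · exact (map_one (L2D3_rsA K (e t))).symm

end Pool.Agent.Lib.MP_17a322_nt.VG
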