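import Pool.Agent.Lib.MP_17a322_nt.VN.L2D1
import Pool.Agent.Lib.MP_17a322_nt.VN.L2D3
import Pool.Agent.Lib.MP_17a322_nt.VN.L2D4
import Pool.Agent.Lib.MP_17a322_nt.VN.L2D5a
import Pool.Agent.Lib.MP_17a322_nt.VN.L2D5b
import Pool.Agent.Lib.MP_17a322_nt.VG.L2D3

/-!
Part L-II of VG: one block of the chain in stage 2 (II.4).
-/

universe u

namespace Pool.Agent.Lib.MP_17a322_nt.VG

open MvPolynomial Height
open Pool.Agent.Lib.MP_17a322_nt.RO
open Pool.Agent.Lib.MP_17a322_nt.VJ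
open Pool.Agent.Lib.MP_17a322_nt.VN

theorem block_chain {K : Type u} [Field K] {m n : ℕ} (W : Fin n → CT K)
    (χ : Fin n → Bool) (j : Fin m → ℕ) (r l : Fin n) (hrl : l ≠ r)
    (g : Fin m → MvPolynomial (Fin n) K) (i : Fin m) (N₁ N' : MvPolynomial (VL m n) K) (R : ℕ)
    (hS : ∀ t, N₁.degreeOf (vS (i, t)) = 0) (hZ' : ∀ t, N'.degreeOf (vZ (i, t)) = 0)
    (hN : ∀ (A : Type u) [CommRing A] [Algebra K A] (x : VL m n → A),
      (∀ t, aeval x (al W χ j (i, t)) = 0) →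
        aeval x N₁ ∣ aeval x (gS g i) ^ R * aeval x N')
    {A : Type u} [CommRing A] [IsDomain A] [Algebra K A] (x : Fin n → A)
    (u ξ : Fin m × Fin n → PowerSeries A)
    (hrel : ∀ t : Fin n, S3 (W t) (mu (W t) (j i) ![PowerSeries.C (x t), 1])
      (vc (χ t) (u (i, t))) ![ξ (i, t), 1] = 0)
    (hg : aeval (fun t => PowerSeries.constantCoeff (u (i, t))) (g i) = 0) (gd : Fin n → A)
    (hgd : ∀ t, gd t = aeval (fun t => PowerSeries.constantCoeff (u (i, t))) (pderiv t (g i)) *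
      PowerSeries.coeff 1 (u (i, t))) (hr : IsUnit (gd r))
    (hN' : aeval (pS x fun p => PowerSeries.constantCoeff (u p)) N' ≠ 0) :
    aeval (pS x fun p => PowerSeries.constantCoeff (u p)) N₁ ≠ 0 ∧
      ∀ F : MvPolynomial (Fin m × Fin n) A,
        F ∣ aeval (pS x fun p => PowerSeries.constantCoeff (u p)) N₁ →
        ∃ (ρ : ℕ) (c : MvPolynomial (Fin m × Fin n) A), ρ ≤ R ∧
          c ∣ aeval (pS x fun p => PowerSeries.constantCoeff (u p)) N' ∧
          ∀ d, (d = r ∨ d = l) → C (gd d ^ ρ) * c = PowerSeries.coeff ρ (sb ξ i d F) := by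
  classical
  obtain ⟨gr', hgr'⟩ := hr.exists_left_inv
  set e : Fin n → MvPolynomial (Fin 2) (MvPolynomial (Fin m × Fin n) A) :=
    ee (C gr') (C (gd l)) r l with he
  set c₀ := aeval (pS x fun p => PowerSeries.constantCoeff (u p)) N' with hc₀
  set n₁ := aeval (pS x fun p => PowerSeries.constantCoeff (u p)) N₁ with hn₁
  have h1 : aeval (dp e x u ξ i) N₁ ∣
      aeval (dp e x u ξ i) (gS g i) ^ R * aeval (dp e x u ξ i) N' :=
    hN _ (dp e x u ξ i) fun t => aeval_dp_al W χ j e x u ξ i hrel t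
  obtain ⟨hG0, hG1⟩ := coeff_dp_gS x u ξ i r l hrl g hg gd hgd gr' hgr'
  have hNn0 : PowerSeries.coeff 0 (aeval (dp e x u ξ i) N') = C c₀ :=
    coeff_zero_dp e x u ξ i N' hZ'
  have hNn : aeval (dp e x u ξ i) N' ≠ 0 := by
    intro h
    rw [h, map_zero] at hNn0
    exact hN' ((C_injective (Fin 2) _) (by rw [← hNn0, map_zero]))
  have hG : aeval (dp e x u ξ i) (gS g i) ≠ 0 := by
    intro h
    rw [← he] at hG1
    rw [h, map_zero] at hG1
    exact X_ne_zero (R := MvPolynomial (Fin m × Fin n) A) (0 : Fin 2) hG1.symm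
  have hprod : aeval (dp e x u ξ i) (gS g i) ^ R * aeval (dp e x u ξ i) N' ≠ 0 :=
    mul_ne_zero (pow_ne_zero _ hG) hNn
  have hd : aeval (dp e x u ξ i) N₁ = Psi e ξ i n₁ := aeval_dp_eq_Psi e x u ξ i N₁ hS
  have hd0 : aeval (dp e x u ξ i) N₁ ≠ 0 := ne_zero_of_dvd_ne_zero hprod h1
  refine ⟨fun h => hd0 (by rw [hd, h, map_zero]), fun F hF => ?_⟩
  have h2 : Psi e ξ i F ∣
      aeval (dp e x u ξ i) (gS g i) ^ R * aeval (dp e x u ξ i) N' :=
    ((map_dvd (Psi e ξ i) hF).trans (by rw [← hd])).trans h1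
  obtain ⟨Ψ, hΨ⟩ := h2
  obtain ⟨ρ, c, hρ, hc, -, hco⟩ := leading_coeff (Psi e ξ i F) Ψ (aeval (dp e x u ξ i) (gS g i))
    (aeval (dp e x u ξ i) N') R c₀ hN' hΨ.symm
    (fun k => Psi_homogeneous e (fun t => ee_homogeneous _ _ r l t) ξ i F k) hG0 hG1 hNn0
  refine ⟨ρ, c, hρ, hc, ?_⟩
  rintro d (rfl | rfl)
  · rw [← map_Psi_r ξ i d l (gd d) gr' (gd l) hgr' F, PowerSeries.coeff_map, ← he, hco, map_mul,
      map_pow, map_pow, eval_C, eval_X, mul_comm]
    rfl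
  · rw [← map_Psi_l ξ i r d hrl gr' (gd d) F, PowerSeries.coeff_map, ← he, hco, map_mul,
      map_pow, map_pow, eval_C, eval_X, mul_comm]
    rfl

end Pool.Agent.Lib.MP_17a322_nt.VG
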