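import Pool.Agent.Lib.MP_17a322_nt.VG.L0
import Pool.Agent.Lib.MP_17a322_nt.VG.Z7a
import Pool.Agent.Lib.MP_17a322_nt.VN.BC

/-!
Base change of the gain `gN`, comparison with `gn`.
-/

universe u

namespace Pool.Agent.Lib.MP_17a322_nt.VG

open MvPolynomial Height
open Pool.Agent.Lib.MP_17a322_nt.RO
open Pool.Agent.Lib.MP_17a322_nt.VJ
open Pool.Agent.Lib.MP_17a322_nt.VN

/-- Base change of the gain. -/
theorem gB_map {K L : Type u} [Field K] [NumberField K] [Field L] [NumberField L] [Algebra K L]
    {n : ℕ} (T : Fin n → CT K) (N : ℝ) (s : Fin n → K) (a b : K) :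
    gB (fun t => (T t).isTor) N (fun t => algebraMap K L (s t)) (algebraMap K L a)
      (algebraMap K L b) = Module.finrank K L * gN T N s a b := by
  classical
  rw [gN_eq]
  refine (gs_bc (gNl T N s a b) (fun v : AbsoluteValue L ℝ =>
    if ∀ t, v (algebraMap K L (s t)) ≤ 1 then
      max 0 (- Real.log (min 1 (max (v (algebraMap K L a)) (v (algebraMap K L b)))) -
      N * ∑ t, if (T t).isTor = true then - Real.log (v (algebraMap K L (s t))) else 0) else 0)
    (FS_gNl T N s a b) (fun ψ => ?_) (fun v w n hn0 hvw => ?_)).2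
  · unfold gNl ls
    simp only [A7_apply]
  · unfold gNl ls
    simp only [hvw]
    have h1 : (∀ t, v (s t) ^ n ≤ 1) ↔ ∀ t, v (s t) ≤ 1 :=
      forall_congr' fun t => pow_le_one_iff_of_nonneg (v.nonneg _) hn0.ne'
    have h2 : min 1 (max (v a ^ n) (v b ^ n)) = (min 1 (max (v a) (v b))) ^ n := by
      have h3 : max (v a ^ n) (v b ^ n) = (max (v a) (v b)) ^ n := by
        rcases le_total (v a) (v b) with h | h
        · rw [max_eq_right h, max_eq_right (pow_le_pow_left₀ (v.nonneg _) h n)]
        · rw [max_eq_left h, max_eq_left (pow_le_pow_left₀ (v.nonneg _) h n)]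
      have h4 : 0 ≤ max (v a) (v b) := le_max_of_le_left (v.nonneg _)
      rw [h3]
      rcases le_total 1 (max (v a) (v b)) with h | h
      · rw [min_eq_left h, min_eq_left (one_le_pow₀ h), one_pow]
      · rw [min_eq_right h, min_eq_right (pow_le_one₀ h4 h)]
    have h6 : (∑ t, if (T t).isTor = true then - Real.log (v (s t) ^ n) else 0 : ℝ) =
        n * ∑ t, if (T t).isTor = true then - Real.log (v (s t)) else 0 := by
      rw [Finset.mul_sum]
      refine Finset.sum_congr rfl fun t _ => ?_
      split_ifs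
      · rw [Real.log_pow]
        ring
      · rw [mul_zero]
    rw [h2, Real.log_pow, h6]
    by_cases h5 : ∀ t, v (s t) ≤ 1
    · rw [if_pos h5, if_pos (h1.2 h5)]
      have hn : (0 : ℝ) ≤ n := Nat.cast_nonneg n
      rw [mul_max_of_nonneg _ _ hn, mul_zero]
      congr 1
      ring
    · rw [if_neg h5, if_neg (fun h6 => h5 (h1.1 h6)), mul_zero]

/-- The gain is at most `gn`. -/
theorem gN_le_gn {K : Type u} [Field K] [NumberField K] {n : ℕ} (T : Fin n → CT K) {N : ℝ}
    (hN : 0 ≤ N) (s : Fin n → K) (a b : K) : gN T N s a b ≤ gn s a b := by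
  classical
  rw [gN_eq]
  refine gs_le (FS_gNl T N s a b) (BC_FS_gn s a b) fun v _ => ?_
  unfold gNl
  split_ifs with hv
  · refine max_le (BC_core_nonneg a b v) ?_
    have := mul_nonneg hN (ls_nonneg T hv)
    linarith
  · exact le_rfl

end Pool.Agent.Lib.MP_17a322_nt.VG
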