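import Pool.Agent.Lib.MP_17a322_nt.VG.L1p
import Pool.Agent.Lib.MP_17a322_nt.VG.L1u0
import Pool.Agent.Lib.MP_17a322_nt.VG.L1g
import Pool.Agent.Lib.MP_17a322_nt.VG.LInt
import Pool.Agent.Lib.MP_17a322_nt.VN.L1q

/-!
The inequality of stage 1 (coordinates of both types).
-/

universe u

namespace Pool.Agent.Lib.MP_17a322_nt.VG

open MvPolynomial Height
open Pool.Agent.Lib.MP_17a322_nt.RO
open Pool.Agent.Lib.MP_17a322_nt.VJ
open Pool.Agent.Lib.MP_17a322_nt.VN

theorem ineq_one {K : Type u} [Field K] [NumberField K] [DecidableEq K] {k : ℕ}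
    (W : Fin (k + 2) → CT K) (hW : ∀ t, (W t).IsE) (χ : Fin (k + 2) → Bool)
    (e D m N : ℕ) (hN : 1 ≤ N) :
    ∃ C : ℝ, 0 ≤ C ∧
      ∀ (P₀ : ∀ t, (W t).Pt) (P : Fin m → ∀ t, (W t).Pt) (j : Fin m → ℕ)
        (s y : Fin m → Fin (k + 2) → K) (ρ : Fin m → REP K (k + 2) e) (J : ℕ)
        (F₀ : (Fin (k + 2) → ℕ) → (Fin m → Fin (k + 2) → ℕ) → K)
        (NN : Fin (m + 1) → MvPolynomial (VL m (k + 2)) K) (a : ℕ)
        (c : MvPolynomial (Fin (k + 2) ⊕ (Fin m × Fin (k + 2))) K),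
      (∀ i, j i ≤ J) → (∀ i t, (W t).Aff (P i t)) → (∀ i t, CH (χ t) (P i t) (s i t)) →
      (∀ i t, y i t ^ 2 = ph (W t) (vc (χ t) (s i t))) → (∀ i t, y i t ≠ 0) →
      (∀ i, (ρ i).Deg D) → (∀ i, (ρ i).ht ≤ 4 ^ j i) →
      (∀ i, eval (s i) ((ρ i).z 0) ≠ 0 ∨ eval (s i) ((ρ i).z 1) ≠ 0) →
      (∃ a ν, F₀ a ν ≠ 0) →
      (∀ a ν, F₀ a ν ≠ 0 → a ∈ box (fun _ : Fin (k + 2) => N * 4 ^ J + 1) ∧
        ν ∈ BB (fun i : Fin m => N * 4 ^ (J - j i) + 1)) →
      CC ρ W χ N J j F₀ →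
      NN 0 = NF (box (fun _ : Fin (k + 2) => N * 4 ^ J + 1))
        (BB (fun i : Fin m => N * 4 ^ (J - j i) + 1)) F₀ →
      (∀ p, (NN (Fin.last m)).degreeOf (vZ p) = 0) →
      (∀ (i i' : Fin m) (t : Fin (k + 2)), i ≤ i' → (NN i.castSucc).degreeOf (vS (i', t)) = 0) →
      (∀ (i i' : Fin m) (t : Fin (k + 2)), i' ≤ i → (NN i.succ).degreeOf (vZ (i', t)) = 0) →
      (∀ (i : Fin m) (A : Type u) [CommRing A] [Algebra K A] (x : VL m (k + 2) → A),
        (∀ t, aeval x (al W χ j (i, t)) = 0) →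
          aeval x (NN i.castSucc) ∣ aeval x (NN i.succ)) →
      c ≠ 0 →
      (∀ (L : Type u) [Field L] [Algebra K L] (x : Fin (k + 2) → L)
        (ζ : Fin m × Fin (k + 2) → L) (S : Fin m × Fin (k + 2) → PowerSeries L),
        (∀ p, S p = PowerSeries.C (algebraMap K L (s p.1 p.2)) +
          PowerSeries.C (ζ p) * PowerSeries.X ^ (4 ^ j p.1)) →
        PowerSeries.coeff a (aeval (Sum.elim (fun t => PowerSeries.C (x t))
          (Sum.elim S fun _ => 0) : VL m (k + 2) → PowerSeries L) (NN (Fin.last m))) =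
            aeval (Sum.elim x ζ) c) →
      INEQ C (logHeight (fun p : (box (fun _ : Fin (k + 2) => N * 4 ^ J + 1)) ×
          (BB (fun i : Fin m => N * 4 ^ (J - j i) + 1) : Finset (Fin m → Fin (k + 2) → ℕ)) =>
            F₀ p.1 p.2)) (HN P₀) N J j (fun _ => 0)
        (fun i => ∑ t, logHeight ((W t).xr (P i t - (W t).ml (j i) (P₀ t))))
        (fun i => gN W (4 * N) (s i) (eval (s i) ((ρ i).z 0)) (eval (s i) ((ρ i).z 1)))
        (fun _ => 0)
        (fun i => HN (P i)) a := by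
  obtain ⟨Ck, Ch, hCk, hCh, hpack⟩ := const_pack W hW
  obtain ⟨C, hC, hconv⟩ := conv_ineq m k N (CF k D) (CE k D) (Module.finrank ℚ K)
    (Real.log (e + 1)) Ck Ch (240 * Ck + Ch + D + 5) (Nat.cast_nonneg _)
    (Real.log_nonneg (by linarith [(Nat.cast_nonneg e : (0 : ℝ) ≤ e)])) hCk hCh
    (by positivity)
  refine ⟨C, hC, ?_⟩
  intro P₀ P j s y ρ J F₀ NN a c hJ hP0 hch hy hy0 hD hht hz01 hne hsupp hCC hNN0 hlast hS hZ hN'
    hc hc'
  obtain ⟨L, iF, iN, iD, iA, V, f, z, ζ, hV, hf, hz, h0, h1, h2, hζ, hcL⟩ :=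
    choose_L W hW P₀ P j c hc
  have hs0 : ∀ i t, (W t).isTor = true → s i t ≠ 0 := by
    intro i t ht h
    apply hy0 i t
    have e1 := hy i t
    rw [h] at e1
    refine pow_eq_zero_iff two_ne_zero |>.1 (e1.trans ?_)
    generalize W t = T at ht
    cases T with
    | ell W => exact absurd ht Bool.false_ne_true
    | tor =>
      show (vc (χ t) (0 : K) 0 * vc (χ t) (0 : K) 1) ^ 2 = 0
      cases χ t <;> simp [vc]
  obtain ⟨hk, hh⟩ := hpack L V f z hV hf hz
  obtain ⟨hh0, hh1⟩ := hh P₀ h0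
  have hinj : Function.Injective (algebraMap K L) := (algebraMap K L).injective
  -- the coordinates
  set σ : Fin m × Fin (k + 2) → L := fun p => algebraMap K L (s p.1 p.2) with hσ
  set β : Fin m × Fin (k + 2) → L := fun p => algebraMap K L (y p.1 p.2) with hβdef
  set x0 : Fin (k + 2) → L := fun t => (V t).xr (f t (P₀ t) + z t) 0 with hx0
  set q : Fin m × Fin (k + 2) → L := fun p =>
    (V p.2).xr (f p.2 (P p.1 p.2) - (V p.2).ml (j p.1) (f p.2 (P₀ p.2) + z p.2)) 0 with hq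
  have hβ : ∀ i t, β (i, t) ^ 2 = ph (W t) (vc (χ t) (σ (i, t))) := by
    intro i t
    have e1 : (fun l => (Algebra.ofId K L) (vc (χ t) (s i t) l)) = vc (χ t) (σ (i, t)) := by
      funext l
      unfold vc
      cases χ t <;> fin_cases l <;> simp [hσ, Algebra.ofId_apply]
    have e2 := map_ph (W t) (Algebra.ofId K L) (vc (χ t) (s i t))
    rw [e1] at e2
    rw [← e2, ← hy i t, map_pow]
    rfl
  have hβ0 : ∀ p, β p ≠ 0 := fun p =>
    (map_ne_zero_iff _ hinj).2 (hy0 p.1 p.2)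
  have hσ0 : ∀ i t, (W t).isTor = true → σ (i, t) ≠ 0 := fun i t ht =>
    (map_ne_zero_iff _ hinj).2 (hs0 i t ht)
  obtain ⟨u, ξ, Y, hM0, hu0, hu1, hY0, hrel, hcu, hpk⟩ := pack_all W hW V hV χ j
    (fun t => f t (P₀ t) + z t) (fun i t => f t (P i t)) σ β
    (fun i t => CH_map (hf t) (hch i t)) hβ hβ0 h1 h2
    (fun p => PowerSeries.C (ζ p) * PowerSeries.X)
    (fun p => by rw [map_mul, PowerSeries.constantCoeff_X, mul_zero])
    (fun _ _ => 1) (fun _ _ => zero_le_one)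
    (fun i t v n' => explicit_size v (ζ (i, t)) (hζ (i, t)) n')
  -- the chain
  have hinjP : (0 : ℝ) < Module.finrank K L := by exact_mod_cast Module.finrank_pos
  set S : Fin m × Fin (k + 2) → PowerSeries L := fun p =>
    Ex1 L (j p.1) (PowerSeries.constantCoeff (u p)) with hSdef
  have hSe : ∀ p, S p = PowerSeries.C (algebraMap K L (s p.1 p.2)) +
      PowerSeries.C (ζ p) * PowerSeries.X ^ (4 ^ j p.1) := by
    intro p
    rw [hSdef]
    show Ex1 L (j p.1) (PowerSeries.constantCoeff (u p)) = _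
    rw [hu0 p, map_add, map_mul, Ex1_C, Ex1_C, Ex1_X]
  obtain ⟨F, hF0, hFl, hFs⟩ := chain_one W χ j NN hS hZ hN'
    (fun t => (PowerSeries.C (x0 t) : PowerSeries L)) S (fun p => Ex (j p.1) (ξ p))
    (fun p => rel_one (W p.2) (χ p.2) (j p.1) (j p.1) (x0 p.2) (u p) (ξ p) (hrel p)) 0
  rw [pS_const _ _ _ hlast] at hFl
  -- the radii
  have hz01L : ∀ i, aeval (fun t => σ (i, t)) ((ρ i).z 0) ≠ 0 ∨
      aeval (fun t => σ (i, t)) ((ρ i).z 1) ≠ 0 := by
    intro i
    have e1 : ∀ p : MvPolynomial (Fin (k + 2)) K, aeval (fun t => σ (i, t)) p =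
        algebraMap K L (eval (s i) p) := by
      intro p
      have := aeval_algebraMap_apply L (s i) p
      rw [show (fun t => σ (i, t)) = algebraMap K L ∘ s i from rfl, this]
      rfl
    rw [e1, e1, map_ne_zero_iff _ hinj, map_ne_zero_iff _ hinj]
    exact hz01 i
  have hro := fun i => gs_log_ro W (fun t => σ (i, t)) (fun t => β (i, t)) fun t => hβ0 (i, t)
  have hro1 : ∀ i (v : AbsoluteValue L ℝ), 0 < 1 * ro W v (fun t => σ (i, t)) (fun t => β (i, t)) ∧
      1 * ro W v (fun t => σ (i, t)) (fun t => β (i, t)) ≤ 1 := by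
    intro i v
    rw [one_mul]
    exact ⟨ro_pos W v _ _ fun t => hβ0 (i, t), (ro_le W χ v _ _ fun t => hβ i t).1⟩
  set RR : Fin m → AbsoluteValue L ℝ → ℝ := fun i v =>
    dlv v (fun t => σ (i, t)) (aeval (fun t => σ (i, t)) ((ρ i).z 0))
        (aeval (fun t => σ (i, t)) ((ρ i).z 1)) *
      (1 * ro W v (fun t => σ (i, t)) (fun t => β (i, t))) /
        ((∏ t, kc (W t) v) ^ 200 * ∏ t, max 1 (v (q (i, t)))) with hRR
  have hrr := fun i => rr_spec W (fun t => σ (i, t)) (fun t => q (i, t)) (hz01L i)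
    (fun v => 1 * ro W v (fun t => σ (i, t)) (fun t => β (i, t))) (hro1 i)
    (by simp only [one_mul]; exact (hro i).1)
  have key := core_ineq ρ hD W hW χ j N J hN hJ x0 σ q u ξ
    (fun i v => 1 * ro W v (fun t => σ (i, t)) (fun t => β (i, t)))
    (fun i v => (hro1 i v).1.le) hM0 hcu (fun v _ i t => (hpk i v).1 t) F₀ hne hsupp hCC F
    (fun e' => by
      rw [hF0, hNN0]
      exact NF_aeval _ _ F₀ hsupp x0 S e') (fun _ _ => 1) (fun _ _ => 1) (fun _ => 0)
    (fun _ _ => 0) (fun _ _ => one_mul 1)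
    (fun v i => by
      rw [pow_zero, map_one, one_mul]
      exact hFs i) (fun _ _ => 1)
    RR
    (fun v hv i r hr _ N' => by
      have e1 := PN_C v (r := r) N' (1 : L)
      rw [map_one, map_one] at e1
      exact e1.le) (fun _ _ _ => one_pos)
    (fun i => by
      simp only [Real.log_one]
      unfold FS
      simp) (fun v _ i => ⟨((hrr i).1 v).1, ((hrr i).1 v).2.1.trans (hro1 i v).2⟩)
    (fun i => (hrr i).2.1) hz01L hσ0 (fun v _ i => ((hrr i).1 v).2.2.le) a
    (aeval (Sum.elim (fun t => PowerSeries.C (x0 t)) (Sum.elim S fun _ => 0) :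
      VL m (k + 2) → PowerSeries L) (NN (Fin.last m))) hFl
    (by
      rw [hc' L x0 ζ S hSe]
      exact hcL)
  -- conversion to `K`
  have hd : (0 : ℝ) < Module.finrank K L := by exact_mod_cast Module.finrank_pos
  have hL : (Module.finrank ℚ L : ℝ) = Module.finrank K L * Module.finrank ℚ K := finrank_eq_mul
  have hlF : 0 ≤ logHeight (fun p : (box (fun _ : Fin (k + 2) => N * 4 ^ J + 1)) ×
          (BB (fun i : Fin m => N * 4 ^ (J - j i) + 1) : Finset (Fin m → Fin (k + 2) → ℕ)) =>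
            F₀ p.1 p.2) := logHeight_nonneg _
  have hHN : ∀ P : ∀ t, (W t).Pt, 0 ≤ HN P := fun P =>
    Finset.sum_nonneg fun t _ => logHeight_nonneg _
  have hsig : ∀ i, ∑ t, logHeight₁ (σ (i, t)) = Module.finrank K L * HN (P i) := by
    intro i
    unfold HN
    rw [Finset.mul_sum]
    refine Finset.sum_congr rfl fun t _ => ?_
    rw [L_CH_height (hch i t)]
    exact logHeight₁_algebraMap (s i t)
  have haev : ∀ i (p : MvPolynomial (Fin (k + 2)) K), aeval (fun t => σ (i, t)) p =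
      algebraMap K L (eval (s i) p) := by
    intro i p
    have := aeval_algebraMap_apply L (s i) p
    rw [show (fun t => σ (i, t)) = algebraMap K L ∘ s i from rfl, this]
    rfl
  have hgL : ∀ i, gn (fun t => σ (i, t)) (aeval (fun t => σ (i, t)) ((ρ i).z 0))
      (aeval (fun t => σ (i, t)) ((ρ i).z 1)) =
      Module.finrank K L * gn (s i) (eval (s i) ((ρ i).z 0)) (eval (s i) ((ρ i).z 1)) := by
    intro i
    rw [haev, haev]
    exact gn_map (s i) _ _
  have hgBL : ∀ i, gB (fun t => (W t).isTor) (4 * N) (fun t => σ (i, t))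
      (aeval (fun t => σ (i, t)) ((ρ i).z 0)) (aeval (fun t => σ (i, t)) ((ρ i).z 1)) =
      Module.finrank K L * gN W (4 * N) (s i) (eval (s i) ((ρ i).z 0))
        (eval (s i) ((ρ i).z 1)) := by
    intro i
    rw [haev, haev]
    exact gB_map W _ (s i) _ _
  have hgs1 : gs (fun _ : AbsoluteValue L ℝ => Real.log 1) = 0 := by
    unfold gs
    simp
  rw [hL] at key
  refine hconv (Module.finrank K L) _ (HN P₀) (∑ t, logHeight₁ (x0 t))
    (∑ t, gs (fun v : AbsoluteValue L ℝ => Real.log (kc (W t) v))) J j (fun _ => 0)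
    _ _ _ _ (fun i => (ρ i).ht) (fun i => ∑ t, logHeight₁ (q (i, t)))
    (fun i => gB (fun t => (W t).isTor) (4 * N) (fun t => σ (i, t))
      (aeval (fun t => σ (i, t)) ((ρ i).z 0)) (aeval (fun t => σ (i, t)) ((ρ i).z 1)))
    (fun _ => gs (fun _ : AbsoluteValue L ℝ => Real.log 1))
    (fun i => - gs (fun v => Real.log (RR i v))) a hd hlF (hHN P₀)
    (fun i => Finset.sum_nonneg fun t _ => logHeight_nonneg _) (fun i => hHN (P i)) hJ hht
    hh0 hk (fun i => hh1 (P i) (j i) (h1 i)) hgBL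
    (fun i => by rw [hgs1, mul_zero, sub_zero]; positivity) ?_ key
  intro i
  have e1 : - gs (fun v => Real.log (RR i v)) = _ := (hrr i).2.2
  have e13 : gs (fun v : AbsoluteValue L ℝ =>
      Real.log (1 * ro W v (fun t => σ (i, t)) (fun t => β (i, t)))) =
      gs (fun v : AbsoluteValue L ℝ => Real.log (ro W v (fun t => σ (i, t)) (fun t => β (i, t)))) := by
    simp only [one_mul]
  have e2 := (hro i).2
  rw [hsig i] at e2
  have e3 := hh1 (P i) (j i) (h1 i)
  have e4 := gn_bound (ρ i) (hD i) (s i) (hz01 i)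
  have e5 : ∑ t, logHeight₁ (s i t) = HN (P i) := by
    unfold HN
    exact Finset.sum_congr rfl fun t _ => (L_CH_height (hch i t)).symm
  rw [e5] at e4
  have e6 : (1 : ℝ) ≤ 4 ^ j i := one_le_pow₀ (by norm_num)
  have e7 := hht i
  have e8 := hHN (P i)
  rw [e13, e2, hgL i] at e1
  have e9 : (Module.finrank K L : ℝ) *
      gn (s i) (eval (s i) ((ρ i).z 0)) (eval (s i) ((ρ i).z 1)) ≤
      Module.finrank K L * (4 ^ j i + D * HN (P i)) :=
    mul_le_mul_of_nonneg_left (by linarith) hd.le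
  have e10 : 240 * ∑ t, gs (fun v : AbsoluteValue L ℝ => Real.log (kc (W t) v)) ≤
      Module.finrank K L * (240 * Ck * 4 ^ j i) := by
    have : Ck ≤ Ck * 4 ^ j i := le_mul_of_one_le_right hCk e6
    nlinarith [mul_le_mul_of_nonneg_left this hd.le]
  have e11 : 0 ≤ (240 * Ck + Ch + 1) * HN (P i) := by positivity
  have e12 : 0 ≤ (D + 4 : ℝ) * 4 ^ j i := by positivity
  have e14 := mul_nonneg hd.le (add_nonneg e11 e12)
  show - gs (fun v => Real.log (RR i v)) ≤ _
  rw [e1]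
  have e15 : (Module.finrank K L : ℝ) * (4 ^ j i + D * HN (P i)) +
      Module.finrank K L * (240 * Ck * 4 ^ j i) + 4 * (Module.finrank K L * HN (P i)) +
      Module.finrank K L * (2 * ∑ t, logHeight ((W t).xr (P i t - (W t).ml (j i) (P₀ t))) +
        Ch * 4 ^ j i) +
      Module.finrank K L * ((240 * Ck + Ch + 1) * HN (P i) + (D + 4 : ℝ) * 4 ^ j i) =
      Module.finrank K L * ((240 * Ck + Ch + D + 5) * (4 ^ j i + HN (P i)) +
        2 * ∑ t, logHeight ((W t).xr (P i t - (W t).ml (j i) (P₀ t)))) := by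
    ring
  linarith

end Pool.Agent.Lib.MP_17a322_nt.VG
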