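import Pool.Agent.Lib.MP_17a322_nt.VN.Z1

/-!
# B0: coefficients with respect to one variable

`cof t c g` is the coefficient of `X t ^ c` in `g`, a polynomial in the other variables.
-/

universe u

namespace Pool.Agent.Lib.MP_17a322_nt.VG

open MvPolynomial Height Filter
open Pool.Agent.Lib.MP_17a322_nt.RO
open Pool.Agent.Lib.MP_17a322_nt.VJ
open Pool.Agent.Lib.MP_17a322_nt.VN

/-- Forget the coordinate `t` of the exponent. -/
noncomputable def rs {n : ℕ} (t : Fin (n + 1)) (e : Fin (n + 1) →₀ ℕ) : Fin n →₀ ℕ :=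
  Finsupp.equivFunOnFinite.symm fun i => e (t.succAbove i)

/-- Insert the coordinate `t`. -/
noncomputable def ins {n : ℕ} (t : Fin (n + 1)) (c : ℕ) (e : Fin n →₀ ℕ) : Fin (n + 1) →₀ ℕ :=
  Finsupp.equivFunOnFinite.symm (Fin.insertNth (α := fun _ => ℕ) t c fun i => e i)

theorem rs_apply {n : ℕ} (t : Fin (n + 1)) (e : Fin (n + 1) →₀ ℕ) (i : Fin n) :
    rs t e i = e (t.succAbove i) := rfl

theorem ins_self {n : ℕ} (t : Fin (n + 1)) (c : ℕ) (e : Fin n →₀ ℕ) : ins t c e t = c := by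
  show Fin.insertNth (α := fun _ => ℕ) t c (fun i => e i) t = c
  rw [Fin.insertNth_apply_same]

theorem ins_succAbove {n : ℕ} (t : Fin (n + 1)) (c : ℕ) (e : Fin n →₀ ℕ) (i : Fin n) :
    ins t c e (t.succAbove i) = e i := by
  show Fin.insertNth (α := fun _ => ℕ) t c (fun i => e i) (t.succAbove i) = e i
  rw [Fin.insertNth_apply_succAbove]

theorem rs_ins {n : ℕ} (t : Fin (n + 1)) (c : ℕ) (e : Fin n →₀ ℕ) : rs t (ins t c e) = e := by
  ext i
  rw [rs_apply, ins_succAbove]

theorem ins_rs {n : ℕ} (t : Fin (n + 1)) (e : Fin (n + 1) →₀ ℕ) : ins t (e t) (rs t e) = e := by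
  ext i
  rcases Fin.eq_self_or_eq_succAbove t i with h | ⟨j, h⟩
  · rw [h, ins_self]
  · rw [h, ins_succAbove, rs_apply]

/-- The coefficient of `X t ^ c`. -/
noncomputable def cof {K : Type*} [Field K] {n : ℕ} (t : Fin (n + 1)) (c : ℕ)
    (g : MvPolynomial (Fin (n + 1)) K) : MvPolynomial (Fin n) K :=
  ∑ e ∈ g.support.filter (fun e => e t = c), monomial (rs t e) (coeff e g)

theorem coeff_cof {K : Type*} [Field K] {n : ℕ} (t : Fin (n + 1)) (c : ℕ)
    (g : MvPolynomial (Fin (n + 1)) K) (m : Fin n →₀ ℕ) :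
    coeff m (cof t c g) = coeff (ins t c m) g := by
  classical
  unfold cof
  rw [coeff_sum]
  simp only [coeff_monomial]
  by_cases h : ins t c m ∈ g.support
  · rw [Finset.sum_eq_single (ins t c m)]
    · rw [if_pos (rs_ins t c m)]
    · intro e he hne
      rw [Finset.mem_filter] at he
      rw [if_neg]
      intro h1
      apply hne
      rw [← h1, ← he.2, ins_rs]
    · intro h1
      exact absurd (Finset.mem_filter.2 ⟨h, ins_self t c m⟩) h1
  · rw [notMem_support_iff.1 h]
    refine Finset.sum_eq_zero fun e he => ?_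
    rw [Finset.mem_filter] at he
    rw [if_neg]
    intro h1
    apply h
    rw [← h1, ← he.2, ins_rs]
    exact he.1

theorem sum_cof {K A : Type*} [Field K] [CommRing A] {n : ℕ} (t : Fin (n + 1)) (c : ℕ)
    (g : MvPolynomial (Fin (n + 1)) K) (f : K →+* A) (Φ : (Fin n →₀ ℕ) → A) :
    ∑ m ∈ (cof t c g).support, f (coeff m (cof t c g)) * Φ m =
      ∑ e ∈ g.support.filter (fun e => e t = c), f (coeff e g) * Φ (rs t e) := by
  refine Finset.sum_nbij' (ins t c) (rs t) ?_ ?_ ?_ ?_ ?_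
  · intro m hm
    rw [mem_support_iff, coeff_cof] at hm
    exact Finset.mem_filter.2 ⟨mem_support_iff.2 hm, ins_self t c m⟩
  · intro e he
    rw [Finset.mem_filter, mem_support_iff] at he
    rw [mem_support_iff, coeff_cof, ← he.2, ins_rs]
    exact he.1
  · intro m _
    exact rs_ins t c m
  · intro e he
    rw [Finset.mem_filter] at he
    rw [← he.2, ins_rs]
  · intro m _
    rw [coeff_cof, rs_ins]

theorem degreeOf_cof {K : Type*} [Field K] {n : ℕ} (t : Fin (n + 1)) (c : ℕ)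
    (g : MvPolynomial (Fin (n + 1)) K) (d : Fin (n + 1) → ℕ) (hd : ∀ i, g.degreeOf i ≤ d i)
    (i : Fin n) : (cof t c g).degreeOf i ≤ d (t.succAbove i) := by
  classical
  rw [degreeOf_le_iff]
  intro m hm
  rw [mem_support_iff, coeff_cof] at hm
  have h1 := monomial_le_degreeOf (t.succAbove i) (mem_support_iff.2 hm)
  rw [ins_succAbove] at h1
  exact h1.trans (hd _)

/-- The degree belonging to the boundary `u = 0` (`a = false`) or `u = ∞` (`a = true`). -/
def cd (a : Bool) (d : ℕ) : ℕ := if a then d else 0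

/-- The value of the restriction in a chart. -/
theorem aeval_chp_cof {K A : Type*} [Field K] [CommRing A] [Algebra K A] {n : ℕ}
    (χ : Fin (n + 1) → Bool) (d : Fin (n + 1) → ℕ) (g : MvPolynomial (Fin (n + 1)) K)
    (ξ : Fin (n + 1) → A) (t : Fin (n + 1)) :
    aeval (fun i => ξ (t.succAbove i)) (chp (fun i => χ (t.succAbove i))
        (fun i => d (t.succAbove i)) (cof t (cd (χ t) (d t)) g)) =
      ∑ e ∈ g.support.filter (fun e => e t = cd (χ t) (d t)), algebraMap K A (coeff e g) *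
        ∏ i, (vc (χ i) (ξ i) 0 ^ e i * vc (χ i) (ξ i) 1 ^ (d i - e i)) := by
  rw [aeval_chp, sum_cof t _ g (algebraMap K A) fun m =>
    ∏ i, (vc (χ (t.succAbove i)) (ξ (t.succAbove i)) 0 ^ m i *
      vc (χ (t.succAbove i)) (ξ (t.succAbove i)) 1 ^ (d (t.succAbove i) - m i))]
  refine Finset.sum_congr rfl fun e he => ?_
  rw [Finset.mem_filter] at he
  rw [Fin.prod_univ_succAbove _ t]
  have h1 : vc (χ t) (ξ t) 0 ^ e t * vc (χ t) (ξ t) 1 ^ (d t - e t) = 1 := by
    rw [he.2]
    unfold vc cd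
    cases χ t <;> simp
  rw [h1, one_mul]
  rfl

end Pool.Agent.Lib.MP_17a322_nt.VG
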