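import Pool.Agent.Lib.MP_17a322_nt.VG.B1
import Pool.Agent.Lib.MP_17a322_nt.VG.Z7a
import Pool.Agent.Lib.MP_17a322_nt.VN.Z4

/-!
# B2: the defect is bounded by the gains diminished by the distances to the boundary and the defects of
the restrictions to the boundary
-/

universe u

namespace Pool.Agent.Lib.MP_17a322_nt.VG

open MvPolynomial Height Filter
open Pool.Agent.Lib.MP_17a322_nt.RO
open Pool.Agent.Lib.MP_17a322_nt.VJ
open Pool.Agent.Lib.MP_17a322_nt.VN

/-- The constant of the combinations. -/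
theorem exists_kappa {K : Type u} [Field K] [NumberField K] {n m : ℕ}
    (a b : (Fin n → Bool) → Fin m → K) :
    ∃ κ : AbsoluteValue K ℝ → ℝ, (∀ v, 1 ≤ κ v) ∧ (FS fun v => Real.log (κ v)) ∧
      ∀ (v : AbsoluteValue K ℝ) (χ : Fin n → Bool) (c : Fin m → K) (M : ℝ), 0 < M →
        (∀ k, v (c k) ≤ M) → v (∑ k, a χ k * c k) ≤ κ v * M ∧
          v (∑ k, b χ k * c k) ≤ κ v * M := by
  classical
  obtain ⟨κ, hκ⟩ : ∃ κ : AbsoluteValue K ℝ → ℝ, κ = fun v => cst v (m + 1) *
      ∏ χ : Fin n → Bool, ∏ k, (max 1 (v (a χ k)) * max 1 (v (b χ k))) := ⟨_, rfl⟩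
  have hge1 : ∀ (v : AbsoluteValue K ℝ) (x y : K), 1 ≤ max 1 (v x) * max 1 (v y) := fun v x y =>
    one_le_mul_of_one_le_of_one_le (le_max_left _ _) (le_max_left _ _)
  have hprod1 : ∀ (v : AbsoluteValue K ℝ) (χ : Fin n → Bool),
      1 ≤ ∏ k, (max 1 (v (a χ k)) * max 1 (v (b χ k))) := fun v χ =>
    one_le_prod_real _ _ fun k => hge1 v _ _
  have hκ1 : ∀ v, 1 ≤ κ v := by
    intro v
    rw [hκ]
    exact one_le_mul_of_one_le_of_one_le (one_le_cst v (Nat.succ_le_succ (Nat.zero_le m)))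
      (one_le_prod_real _ _ fun χ => hprod1 v χ)
  have hlog : (fun v => Real.log (κ v)) = fun v => Real.log (cst v (m + 1)) +
      ∑ χ : Fin n → Bool, ∑ k, (Real.log (max 1 (v (a χ k))) + Real.log (max 1 (v (b χ k)))) := by
    funext v
    have hne : ∀ y : K, max 1 (v y) ≠ 0 := fun y => (lt_max_of_lt_left one_pos).ne'
    rw [hκ, Real.log_mul (one_pos.trans_le (one_le_cst v (Nat.succ_le_succ (Nat.zero_le m)))).ne'
      (one_pos.trans_le (one_le_prod_real _ _ fun χ => hprod1 v χ)).ne',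
      Real.log_prod (fun χ _ => (one_pos.trans_le (hprod1 v χ)).ne')]
    congr 1
    refine Finset.sum_congr rfl fun χ _ => ?_
    rw [Real.log_prod (fun k _ => (one_pos.trans_le (hge1 v _ _)).ne')]
    refine Finset.sum_congr rfl fun k _ => ?_
    rw [Real.log_mul (hne _) (hne _)]
  have hFS : FS fun v => Real.log (κ v) := by
    rw [hlog]
    exact FS_add (FS_log_cst _) (FS_sum _ fun χ _ => FS_sum _ fun k _ =>
      FS_add (FS_log_max _) (FS_log_max _))
  refine ⟨κ, hκ1, hFS, fun v χ c M hM0 hcM => ?_⟩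
  have hcomb : ∀ a' : Fin m → K, (∀ k, max 1 (v (a' k)) ≤
      ∏ k, (max 1 (v (a χ k)) * max 1 (v (b χ k)))) → v (∑ k, a' k * c k) ≤ κ v * M := by
    intro a' ha'
    have h1 : 0 ≤ (∏ k, (max 1 (v (a χ k)) * max 1 (v (b χ k)))) * M :=
      mul_nonneg (zero_le_one.trans (hprod1 v χ)) hM0.le
    have h2 := (SN_self v).sum_le Finset.univ (fun k => a' k * c k) h1 (fun k _ => by
      rw [map_mul]
      exact mul_le_mul ((le_max_right _ _).trans (ha' k)) (hcM k) (v.nonneg _)
        (zero_le_one.trans (hprod1 v χ)))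
    refine h2.trans ?_
    rw [Finset.card_univ, Fintype.card_fin, hκ, ← mul_assoc]
    refine mul_le_mul_of_nonneg_right ?_ hM0.le
    refine mul_le_mul (cst_mono v (Nat.le_succ m)) ?_ (zero_le_one.trans (hprod1 v χ))
      (cst_nonneg v _)
    exact single_le_prod_real _ (fun χ : Fin n → Bool =>
      ∏ k, (max 1 (v (a χ k)) * max 1 (v (b χ k)))) (fun χ => hprod1 v χ) (Finset.mem_univ χ)
  have hone : ∀ k, max 1 (v (a χ k)) * max 1 (v (b χ k)) ≤
      ∏ k, (max 1 (v (a χ k)) * max 1 (v (b χ k))) := fun k =>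
    single_le_prod_real _ (fun k => max 1 (v (a χ k)) * max 1 (v (b χ k)))
      (fun k => hge1 v _ _) (Finset.mem_univ k)
  constructor
  · refine hcomb _ fun k => (le_mul_of_one_le_right ?_ (le_max_left _ _)).trans (hone k)
    exact zero_le_one.trans (le_max_left _ _)
  · refine hcomb _ fun k => (le_mul_of_one_le_left ?_ (le_max_left _ _)).trans (hone k)
    exact zero_le_one.trans (le_max_left _ _)

section

variable {K : Type u} [Field K] [NumberField K] {n m : ℕ}

theorem FS_max_NV {σ : Type*} (F : MvPolynomial σ K) :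
    FS fun v : AbsoluteValue K ℝ => Real.log (max 1 (NV v F)) := by
  rcases eq_or_ne F 0 with h | h
  · have h1 : (fun v : AbsoluteValue K ℝ => Real.log (max 1 (NV v F))) = fun _ => 0 := by
      funext v
      rw [h, A2_zero, max_eq_left zero_le_one, Real.log_one]
    rw [h1]
    simp [FS]
  · refine (FS_log_NV h).subset fun v hv => ?_
    intro h1
    have h2 : NV v.val F = 1 := Real.eq_one_of_pos_of_log_eq_zero (NV_pos v.val h) h1
    exact hv (by simp only [h2, max_self, Real.log_one])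

theorem FS_kap (g : Fin m → MvPolynomial (Fin n) K) : FS fun v => Real.log (kap g v) := by
  have h1 : (fun v => Real.log (kap g v)) = fun v => Real.log (cst v 2) +
      ∑ k, Real.log (max 1 (NV v (g k))) := by
    funext v
    have h2 : ∀ k, 0 < max 1 (NV v (g k)) := fun k => lt_max_of_lt_left one_pos
    unfold kap
    rw [Real.log_mul (one_pos.trans_le (Z7_one_le_cst v)).ne'
      (Finset.prod_pos fun k _ => h2 k).ne', Real.log_prod fun k _ => (h2 k).ne']
  rw [h1]
  exact FS_add (FS_log_cst _) (FS_sum _ fun k _ => FS_max_NV _)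

theorem FS_lam (d : Fin n → ℕ) (g : Fin m → MvPolynomial (Fin n) K) (x : Fin n → K)
    (hg : ∃ k, eval x (g k) ≠ 0) : FS (lam d g x) := by
  have hne : (fun k => eval x (g k)) ≠ 0 := fun h => by
    obtain ⟨k, hk⟩ := hg
    exact hk (congrFun h k)
  exact FS_sub (FS_sum _ fun t _ => FS_const_mul _ (FS_log_max _)) (FS_log_iSup hne)

theorem gs_lam (d : Fin n → ℕ) (g : Fin m → MvPolynomial (Fin n) K) (x : Fin n → K)
    (hg : ∃ k, eval x (g k) ≠ 0) :
    gs (lam d g x) = ∑ t, (d t : ℝ) * logHeight₁ (x t) - logHeight (fun k => eval x (g k)) := by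
  have hne : (fun k => eval x (g k)) ≠ 0 := fun h => by
    obtain ⟨k, hk⟩ := hg
    exact hk (congrFun h k)
  have hFSx : ∀ t ∈ (Finset.univ : Finset (Fin n)),
      FS (fun v : AbsoluteValue K ℝ => (d t : ℝ) * Real.log (max 1 (v (x t)))) := fun t _ =>
    FS_const_mul _ (FS_log_max _)
  have h1 : gs (lam d g x) = gs fun v => ∑ t, (d t : ℝ) * Real.log (max 1 (v (x t))) -
      Real.log (⨆ k, v (eval x (g k))) := rfl
  rw [h1, gs_sub (FS_sum _ hFSx) (FS_log_iSup hne), gs_sum _ hFSx, gs_log_iSup hne]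
  congr 1
  refine Finset.sum_congr rfl fun t _ => ?_
  rw [gs_const_mul, gs_log_max]

/-- The bound. -/
theorem defect_le (W : Fin (n + 1) → CT K) (g : Fin m → MvPolynomial (Fin (n + 1)) K)
    (d : Fin (n + 1) → ℕ) (hd : ∀ k i, (g k).degreeOf i ≤ d i)
    (a b : (Fin (n + 1) → Bool) → Fin m → K) (N : ℝ) (hN : 0 ≤ N) :
    ∃ C : ℝ, ∀ x : Fin (n + 1) → K, (∀ t, x t ≠ 0) →
      (∀ χ, eval (fun t => sc (χ t) (x t)) (∑ k, a χ k • chp χ d (g k)) ≠ 0) →
      (∀ t (c : Bool), (W t).isTor = true →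
        ∃ k, eval (fun i => x (t.succAbove i)) (cof t (cd c (d t)) (g k)) ≠ 0) →
      ∑ t, (d t : ℝ) * logHeight₁ (x t) - logHeight (fun k => eval x (g k)) ≤
        ∑ χ : Fin (n + 1) → Bool, gN W N (fun t => sc (χ t) (x t))
          (eval (fun t => sc (χ t) (x t)) (∑ k, a χ k • chp χ d (g k)))
          (eval (fun t => sc (χ t) (x t)) (∑ k, b χ k • chp χ d (g k))) +
        (N + 1) * ∑ t ∈ Finset.univ.filter (fun t => (W t).isTor = true), ∑ c : Bool,
          (∑ i, (d (t.succAbove i) : ℝ) * logHeight₁ (x (t.succAbove i)) -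
            logHeight (fun k => eval (fun i => x (t.succAbove i))
              (cof t (cd c (d t)) (g k)))) + C := by
  classical
  obtain ⟨κ, hκ1, hκFS, hκc⟩ := exists_kappa a b
  -- the constants of the restrictions
  obtain ⟨q, hq⟩ : ∃ q : Fin (n + 1) → Bool → AbsoluteValue K ℝ → ℝ, q = fun t c v =>
    Real.log (kap (fun k => cof t (cd c (d t)) (g k)) v) + Real.log (kap g v) := ⟨_, rfl⟩
  have hqFS : ∀ t c, FS (q t c) := by
    intro t c
    rw [hq]
    exact FS_add (FS_kap _) (FS_kap _)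
  refine ⟨gs (fun v => Real.log (κ v)) + (N + 1) *
    ∑ t ∈ Finset.univ.filter (fun t => (W t).isTor = true), ∑ c : Bool, gs (q t c),
    fun x hx hne hbd => ?_⟩
  obtain ⟨f, hf⟩ : ∃ f : (Fin (n + 1) → Bool) → K,
      f = fun χ => eval (fun t => sc (χ t) (x t)) (∑ k, a χ k • chp χ d (g k)) := ⟨_, rfl⟩
  obtain ⟨h, hh⟩ : ∃ h : (Fin (n + 1) → Bool) → K,
      h = fun χ => eval (fun t => sc (χ t) (x t)) (∑ k, b χ k • chp χ d (g k)) := ⟨_, rfl⟩
  have hfv : ∀ χ, eval (fun t => sc (χ t) (x t)) (∑ k, a χ k • chp χ d (g k)) = f χ := fun χ => by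
    rw [hf]
  have hhv : ∀ χ, eval (fun t => sc (χ t) (x t)) (∑ k, b χ k • chp χ d (g k)) = h χ := fun χ => by
    rw [hh]
  simp only [hfv, hhv] at hne ⊢
  obtain ⟨c, hc⟩ : ∃ c : (Fin (n + 1) → Bool) → Fin m → K,
      c = fun χ k => eval (fun t => sc (χ t) (x t)) (chp χ d (g k)) := ⟨_, rfl⟩
  have hcv : ∀ χ k, eval (fun t => sc (χ t) (x t)) (chp χ d (g k)) = c χ k := fun χ k => by rw [hc]
  have hfc : ∀ χ, f χ = ∑ k, a χ k * c χ k := by
    intro χ
    rw [← hfv, map_sum]
    refine Finset.sum_congr rfl fun k _ => ?_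
    rw [smul_eval, hcv]
  have hhc : ∀ χ, h χ = ∑ k, b χ k * c χ k := by
    intro χ
    rw [← hhv, map_sum]
    refine Finset.sum_congr rfl fun k _ => ?_
    rw [smul_eval, hcv]
  have hmul : ∀ χ k, c χ k * ∏ t, (if χ t then x t ^ d t else 1) = eval x (g k) := by
    intro χ k
    have h1 := aeval_chp_mul χ d (g k) (hd k) x (fun t _ => hx t)
    rw [aeval_eq_eval, aeval_eq_eval] at h1
    rw [← hcv]
    exact h1
  have hcne : ∀ χ, c χ ≠ 0 := by
    intro χ h0
    apply hne χ
    rw [hfc]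
    refine Finset.sum_eq_zero fun k _ => ?_
    rw [h0, Pi.zero_apply, mul_zero]
  have hgex : ∃ k, eval x (g k) ≠ 0 := by
    obtain ⟨k, hk⟩ := Function.ne_iff.1 (hcne fun _ => false)
    refine ⟨k, fun h0 => ?_⟩
    have h1 := hmul (fun _ => false) k
    rw [h0] at h1
    simp only [Bool.false_eq_true, if_false, Finset.prod_const_one, mul_one] at h1
    exact hk h1
  -- the local defects of the restrictions
  obtain ⟨l, hl⟩ : ∃ l : Fin (n + 1) → Bool → AbsoluteValue K ℝ → ℝ, l = fun t c =>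
    lam (fun i => d (t.succAbove i)) (fun k => cof t (cd c (d t)) (g k))
      (fun i => x (t.succAbove i)) := ⟨_, rfl⟩
  have hlFS : ∀ t ∈ Finset.univ.filter (fun t => (W t).isTor = true), ∀ c, FS (l t c) := by
    intro t ht c
    rw [hl]
    exact FS_lam _ _ _ (hbd t c (Finset.mem_filter.1 ht).2)
  have hlgs : ∀ t ∈ Finset.univ.filter (fun t => (W t).isTor = true), ∀ c, gs (l t c) =
      ∑ i, (d (t.succAbove i) : ℝ) * logHeight₁ (x (t.succAbove i)) -
        logHeight (fun k => eval (fun i => x (t.succAbove i)) (cof t (cd c (d t)) (g k))) := by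
    intro t ht c
    rw [hl]
    exact gs_lam (fun i => d (t.succAbove i)) _ _ (hbd t c (Finset.mem_filter.1 ht).2)
  have hdFS : ∀ t ∈ Finset.univ.filter (fun t => (W t).isTor = true),
      FS (fun v => ∑ c : Bool, (l t c v + q t c v)) := fun t ht =>
    FS_sum _ fun c _ => FS_add (hlFS t ht c) (hqFS t c)
  have hR : ∑ χ : Fin (n + 1) → Bool, gN W N (fun t => sc (χ t) (x t)) (f χ) (h χ) +
        (N + 1) * ∑ t ∈ Finset.univ.filter (fun t => (W t).isTor = true), ∑ c : Bool,
          (∑ i, (d (t.succAbove i) : ℝ) * logHeight₁ (x (t.succAbove i)) -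
            logHeight (fun k => eval (fun i => x (t.succAbove i))
              (cof t (cd c (d t)) (g k)))) +
        (gs (fun v => Real.log (κ v)) + (N + 1) *
          ∑ t ∈ Finset.univ.filter (fun t => (W t).isTor = true), ∑ c : Bool, gs (q t c)) =
      gs fun v => ∑ χ : Fin (n + 1) → Bool, gNl W N (fun t => sc (χ t) (x t)) (f χ) (h χ) v +
        (N + 1) * (∑ t ∈ Finset.univ.filter (fun t => (W t).isTor = true), ∑ c : Bool,
          (l t c v + q t c v)) + Real.log (κ v) := by
    rw [gs_add (FS_add (FS_sum _ fun χ _ => FS_gNl W N _ _ _)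
      (FS_const_mul _ (FS_sum _ fun t ht => hdFS t ht))) hκFS,
      gs_add (FS_sum _ fun χ _ => FS_gNl W N _ _ _)
      (FS_const_mul _ (FS_sum _ fun t ht => hdFS t ht)), gs_const_mul,
      gs_sum _ (fun t ht => hdFS t ht), gs_sum _ fun χ _ => FS_gNl W N _ _ _]
    have h1 : ∑ t ∈ Finset.univ.filter (fun t => (W t).isTor = true),
        gs (fun v => ∑ c : Bool, (l t c v + q t c v)) =
        (∑ t ∈ Finset.univ.filter (fun t => (W t).isTor = true), ∑ c : Bool,
          (∑ i, (d (t.succAbove i) : ℝ) * logHeight₁ (x (t.succAbove i)) -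
            logHeight (fun k => eval (fun i => x (t.succAbove i))
              (cof t (cd c (d t)) (g k))))) +
        ∑ t ∈ Finset.univ.filter (fun t => (W t).isTor = true), ∑ c : Bool, gs (q t c) := by
      rw [← Finset.sum_add_distrib]
      refine Finset.sum_congr rfl fun t ht => ?_
      rw [gs_sum _ (fun c _ => FS_add (hlFS t ht c) (hqFS t c)), ← Finset.sum_add_distrib]
      refine Finset.sum_congr rfl fun c _ => ?_
      rw [gs_add (hlFS t ht c) (hqFS t c), hlgs t ht c]
    rw [h1]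
    have h2 : ∀ χ : Fin (n + 1) → Bool, gN W N (fun t => sc (χ t) (x t)) (f χ) (h χ) =
      gs (gNl W N (fun t => sc (χ t) (x t)) (f χ) (h χ)) := fun χ => rfl
    simp only [h2]
    ring
  rw [← gs_lam d g x hgex, hR]
  refine gs_le (FS_lam d g x hgex) (FS_add (FS_add (FS_sum _ fun χ _ => FS_gNl W N _ _ _)
      (FS_const_mul _ (FS_sum _ fun t ht => hdFS t ht))) hκFS) fun v _ => ?_
  -- the chart of the place
  obtain ⟨χ, hχ⟩ : ∃ χ : Fin (n + 1) → Bool, χ = fun t => decide (1 < v (x t)) := ⟨_, rfl⟩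
  have hχt : ∀ t, χ t = true ↔ 1 < v (x t) := fun t => by rw [hχ, decide_eq_true_iff]
  have hle : ∀ t, v (sc (χ t) (x t)) ≤ 1 := by
    intro t
    unfold sc
    by_cases h1 : 1 < v (x t)
    · rw [if_pos ((hχt t).2 h1), map_inv₀]
      exact inv_le_one_of_one_le₀ h1.le
    · have h2 : ¬ χ t = true := fun h2 => h1 ((hχt t).1 h2)
      rw [if_neg h2]
      exact not_lt.1 h1
  obtain ⟨hlc, _⟩ := lam_chart d g hd x hx hgex v χ hχt
  simp only [hcv] at hlc
  have hcne' : ∃ k, c χ k ≠ 0 := Function.ne_iff.1 (hcne χ)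
  have hM0 := iSup_pos v _ hcne'
  have hκ0 : 0 < κ v := one_pos.trans_le (hκ1 v)
  obtain ⟨hva, hvb⟩ := hκc v χ (c χ) _ hM0 (fun k => Finite.le_ciSup_of_le k le_rfl)
  rw [← hfc] at hva
  rw [← hhc] at hvb
  have hmax0 : 0 < max (v (f χ)) (v (h χ)) := lt_max_of_lt_left (v.pos (hne χ))
  have h1 : Real.log (max (v (f χ)) (v (h χ))) ≤ Real.log (κ v) + Real.log (⨆ k, v (c χ k)) := by
    rw [← Real.log_mul hκ0.ne' hM0.ne']
    exact Real.log_le_log hmax0 (max_le hva hvb)
  have h2 : Real.log (min 1 (max (v (f χ)) (v (h χ)))) ≤ Real.log (max (v (f χ)) (v (h χ))) :=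
    Real.log_le_log (lt_min one_pos hmax0) (min_le_right _ _)
  have h3 : lam d g x v ≤ - Real.log (min 1 (max (v (f χ)) (v (h χ)))) + Real.log (κ v) := by
    rw [hlc]
    linarith
  -- the term of the chart
  have hterm : gNl W N (fun t => sc (χ t) (x t)) (f χ) (h χ) v ≤
      ∑ χ : Fin (n + 1) → Bool, gNl W N (fun t => sc (χ t) (x t)) (f χ) (h χ) v :=
    Finset.single_le_sum
      (f := fun χ : Fin (n + 1) → Bool => gNl W N (fun t => sc (χ t) (x t)) (f χ) (h χ) v)
      (fun χ _ => gNl_nonneg W N _ _ _ _) (Finset.mem_univ χ)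
  have hgl : gNl W N (fun t => sc (χ t) (x t)) (f χ) (h χ) v =
      max 0 (- Real.log (min 1 (max (v (f χ)) (v (h χ)))) -
        N * ls W (fun t => sc (χ t) (x t)) v) := by
    unfold gNl
    rw [if_pos hle]
  have hκl : 0 ≤ Real.log (κ v) := Real.log_nonneg (hκ1 v)
  -- the terms of the boundary
  have hD0 : ∀ t ∈ Finset.univ.filter (fun t => (W t).isTor = true), ∀ c : Bool,
      0 ≤ l t c v + q t c v := by
    intro t ht c
    have h4 := lam_ge (fun i => d (t.succAbove i)) (fun k => cof t (cd c (d t)) (g k))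
      (fun k i => degreeOf_cof t _ (g k) d (hd k) i) (fun i => x (t.succAbove i))
      (hbd t c (Finset.mem_filter.1 ht).2) v
    have h5 := Real.log_nonneg (one_le_kap g v)
    rw [hl, hq]
    simp only
    linarith
  have hD1 : ∀ t ∈ Finset.univ.filter (fun t => (W t).isTor = true),
      min (lam d g x v) (- Real.log (v (sc (χ t) (x t)))) ≤ ∑ c : Bool, (l t c v + q t c v) := by
    intro t ht
    have h4 := lam_min_le d g hd x hx hgex v χ hχt t (hbd t (χ t) (Finset.mem_filter.1 ht).2)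
    have h5 := Real.log_nonneg (one_le_kap (fun k => cof t (cd (χ t) (d t)) (g k)) v)
    have h6 : l t (χ t) v + q t (χ t) v ≤ ∑ c : Bool, (l t c v + q t c v) :=
      Finset.single_le_sum (f := fun c : Bool => l t c v + q t c v)
        (fun c _ => hD0 t ht c) (Finset.mem_univ (χ t))
    refine le_trans ?_ h6
    rw [hl, hq]
    simp only
    linarith
  have hD2 : ∀ t ∈ Finset.univ.filter (fun t => (W t).isTor = true),
      0 ≤ ∑ c : Bool, (l t c v + q t c v) := fun t ht =>
    Finset.sum_nonneg fun c _ => hD0 t ht c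
  have hDs : 0 ≤ ∑ t ∈ Finset.univ.filter (fun t => (W t).isTor = true), ∑ c : Bool,
      (l t c v + q t c v) := Finset.sum_nonneg hD2
  by_cases hcase : ∀ t ∈ Finset.univ.filter (fun t => (W t).isTor = true),
      - Real.log (v (sc (χ t) (x t))) ≤ lam d g x v
  · have h4 : ls W (fun t => sc (χ t) (x t)) v ≤
        ∑ t ∈ Finset.univ.filter (fun t => (W t).isTor = true), ∑ c : Bool,
          (l t c v + q t c v) := by
      unfold ls
      rw [← Finset.sum_filter]
      refine Finset.sum_le_sum fun t ht => ?_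
      have h5 := hD1 t ht
      rwa [min_eq_right (hcase t ht)] at h5
    have h5 := le_max_right 0 (- Real.log (min 1 (max (v (f χ)) (v (h χ)))) -
        N * ls W (fun t => sc (χ t) (x t)) v)
    rw [← hgl] at h5
    have h6 := mul_le_mul_of_nonneg_left h4 hN
    have h7 : (N + 1) * (∑ t ∈ Finset.univ.filter (fun t => (W t).isTor = true), ∑ c : Bool,
          (l t c v + q t c v)) =
        N * (∑ t ∈ Finset.univ.filter (fun t => (W t).isTor = true), ∑ c : Bool,
          (l t c v + q t c v)) + ∑ t ∈ Finset.univ.filter (fun t => (W t).isTor = true),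
            ∑ c : Bool, (l t c v + q t c v) := by ring
    rw [h7]
    linarith
  · push Not at hcase
    obtain ⟨t, ht, h4⟩ := hcase
    have h5 := hD1 t ht
    rw [min_eq_left h4.le] at h5
    have h6 : ∑ c : Bool, (l t c v + q t c v) ≤
        ∑ t ∈ Finset.univ.filter (fun t => (W t).isTor = true), ∑ c : Bool,
          (l t c v + q t c v) :=
      Finset.single_le_sum (f := fun t => ∑ c : Bool, (l t c v + q t c v)) hD2 ht
    have h7 : (∑ t ∈ Finset.univ.filter (fun t => (W t).isTor = true), ∑ c : Bool,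
          (l t c v + q t c v)) ≤
        (N + 1) * (∑ t ∈ Finset.univ.filter (fun t => (W t).isTor = true), ∑ c : Bool,
          (l t c v + q t c v)) := le_mul_of_one_le_left hDs (by linarith)
    have h8 := gNl_nonneg W N (fun t => sc (χ t) (x t)) (f χ) (h χ) v
    linarith

end

end Pool.Agent.Lib.MP_17a322_nt.VG
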