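import Pool.Agent.Lib.MP_17a322_nt.VG.B0
import Pool.Agent.Lib.MP_17a322_nt.VG.ZDefs

/-!
# B3: the condition on the centre is inherited by the restrictions to the boundary
-/

universe u

namespace Pool.Agent.Lib.MP_17a322_nt.VG

open MvPolynomial Height Filter
open Pool.Agent.Lib.MP_17a322_nt.RO
open Pool.Agent.Lib.MP_17a322_nt.VJ
open Pool.Agent.Lib.MP_17a322_nt.VN

theorem B3_card (a : Cardinal.{u}) (m n : ℕ)
    (h : a + ((m + 1 : ℕ) : Cardinal) + 1 < ((n + 1 : ℕ) : Cardinal)) :
    a + (m : Cardinal) + 1 < (n : Cardinal) := by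
  have h1 : a < Cardinal.aleph0 := by
    refine lt_of_le_of_lt ?_ (h.trans (Cardinal.natCast_lt_aleph0))
    refine (le_add_right (le_refl a)).trans (le_add_right le_rfl)
  obtain ⟨b, rfl⟩ := Cardinal.lt_aleph0.1 h1
  have h2 : b + (m + 1) + 1 < n + 1 := by exact_mod_cast h
  have h3 : b + m + 1 < n := by omega
  exact_mod_cast h3

/-- Inheritance. -/
theorem CodY_cof {K : Type u} [Field K] {n m : ℕ} (W : Fin (n + 1) → CT K)
    (g : Fin m → MvPolynomial (Fin (n + 1)) K) (d : Fin (n + 1) → ℕ)
    (hd : ∀ k i, (g k).degreeOf i ≤ d i) (hY : CodY W g d) (t : Fin (n + 1))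
    (ht : (W t).isTor = true) (c : Bool) :
    CodY (fun i => W (t.succAbove i)) (fun k => cof t (cd c (d t)) (g k))
      (fun i => d (t.succAbove i)) := by
  classical
  intro F _ _ X Z hXZ h0
  obtain ⟨X', hX'⟩ : ∃ X' : Fin (n + 1) → F,
      X' = Fin.insertNth (α := fun _ => F) t (if c then 1 else 0) X := ⟨_, rfl⟩
  obtain ⟨Z', hZ'⟩ : ∃ Z' : Fin (n + 1) → F,
      Z' = Fin.insertNth (α := fun _ => F) t (if c then 0 else 1) Z := ⟨_, rfl⟩
  have hXt : X' t = if c then 1 else 0 := by rw [hX', Fin.insertNth_apply_same]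
  have hZt : Z' t = if c then 0 else 1 := by rw [hZ', Fin.insertNth_apply_same]
  have hXs : ∀ i, X' (t.succAbove i) = X i := fun i => by
    rw [hX', Fin.insertNth_apply_succAbove]
  have hZs : ∀ i, Z' (t.succAbove i) = Z i := fun i => by
    rw [hZ', Fin.insertNth_apply_succAbove]
  have h1 : ∀ i, X' i ≠ 0 ∨ Z' i ≠ 0 := by
    intro i
    rcases Fin.eq_self_or_eq_succAbove t i with h | ⟨j, h⟩
    · rw [h, hXt, hZt]
      cases c <;> simp
    · rw [h, hXs, hZs]
      exact hXZ j
  have h2 : ∀ k, ∑ e ∈ (g k).support, algebraMap K F ((g k).coeff e) *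
      ∏ i, (X' i ^ e i * Z' i ^ (d i - e i)) = 0 := by
    intro k
    rw [← Finset.sum_filter_add_sum_filter_not (g k).support (fun e => e t = cd c (d t))]
    have h3 : ∑ e ∈ (g k).support.filter (fun e => e t = cd c (d t)),
        algebraMap K F ((g k).coeff e) * ∏ i, (X' i ^ e i * Z' i ^ (d i - e i)) = 0 := by
      rw [← h0 k, sum_cof t _ (g k) (algebraMap K F) fun m => ∏ i, (X i ^ m i *
        Z i ^ (d (t.succAbove i) - m i))]
      refine Finset.sum_congr rfl fun e he => ?_
      rw [Finset.mem_filter] at he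
      rw [Fin.prod_univ_succAbove _ t]
      have h4 : X' t ^ e t * Z' t ^ (d t - e t) = 1 := by
        rw [he.2, hXt, hZt]
        unfold cd
        cases c <;> simp
      rw [h4, one_mul]
      simp only [hXs, hZs, rs_apply]
    have h4 : ∑ e ∈ (g k).support.filter (fun e => ¬ e t = cd c (d t)),
        algebraMap K F ((g k).coeff e) * ∏ i, (X' i ^ e i * Z' i ^ (d i - e i)) = 0 := by
      refine Finset.sum_eq_zero fun e he => ?_
      rw [Finset.mem_filter] at he
      have h5 : e t ≤ d t := (monomial_le_degreeOf t he.1).trans (hd k t)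
      have h6 : X' t ^ e t * Z' t ^ (d t - e t) = 0 := by
        have h7 := he.2
        rw [hXt, hZt]
        unfold cd at h7
        cases c
        · simp only [Bool.false_eq_true, if_false] at h7 ⊢
          rw [zero_pow h7, zero_mul]
        · simp only [if_true] at h7 ⊢
          rw [zero_pow (by omega : d t - e t ≠ 0), mul_zero]
      rw [Finset.prod_eq_zero (Finset.mem_univ t) h6, mul_zero]
    rw [h3, h4, add_zero]
  have h3 := hY F X' Z' h1 h2
  have h4 : IntermediateField.adjoin K (Set.range fun i => X' i / Z' i) =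
      IntermediateField.adjoin K (Set.range fun i => X i / Z i) := by
    apply le_antisymm
    · rw [IntermediateField.adjoin_le_iff]
      rintro y ⟨i, rfl⟩
      rcases Fin.eq_self_or_eq_succAbove t i with h | ⟨j, h⟩
      · have h5 : X' i / Z' i = 0 := by
          rw [h, hXt, hZt]
          cases c <;> simp
        simp only
        rw [h5]
        exact zero_mem _
      · simp only
        rw [h, hXs, hZs]
        exact IntermediateField.subset_adjoin K _ ⟨j, rfl⟩
    · rw [IntermediateField.adjoin_le_iff]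
      rintro y ⟨i, rfl⟩
      have h5 : X' (t.succAbove i) / Z' (t.succAbove i) ∈
          IntermediateField.adjoin K (Set.range fun i => X' i / Z' i) :=
        IntermediateField.subset_adjoin K _ ⟨t.succAbove i, rfl⟩
      rw [hXs, hZs] at h5
      exact h5
  have h5 : (Finset.univ.filter fun i => (W i).isTor = true ∧ (X' i = 0 ∨ Z' i = 0)).card =
      (Finset.univ.filter fun i => (W (t.succAbove i)).isTor = true ∧
        (X i = 0 ∨ Z i = 0)).card + 1 := by
    rw [Finset.card_filter, Finset.card_filter, Fin.sum_univ_succAbove _ t, add_comm]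
    congr 1
    · refine Finset.sum_congr rfl fun i _ => ?_
      rw [hXs, hZs]
    · rw [if_pos]
      refine ⟨ht, ?_⟩
      rw [hXt, hZt]
      cases c <;> simp
  rw [h4, h5] at h3
  exact B3_card _ _ _ h3

/-- One of the polynomials is not zero. -/
theorem exists_ne_of_CodY {K : Type u} [Field K] {n m : ℕ} (W : Fin n → CT K)
    (g : Fin m → MvPolynomial (Fin n) K) (d : Fin n → ℕ) (hY : CodY W g d) : ∃ k, g k ≠ 0 := by
  classical
  by_contra hc
  push Not at hc
  obtain ⟨F, hF⟩ : ∃ F, F = FractionRing (MvPolynomial (Fin n) K) := ⟨_, rfl⟩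
  have h1 := hY (FractionRing (MvPolynomial (Fin n) K))
    (fun i => algebraMap (MvPolynomial (Fin n) K) _ (X i)) (fun _ => 1)
    (fun i => Or.inr one_ne_zero) (fun k => by
      rw [hc k, support_zero, Finset.sum_empty])
  set E := IntermediateField.adjoin K (Set.range fun i : Fin n =>
    algebraMap (MvPolynomial (Fin n) K) (FractionRing (MvPolynomial (Fin n) K)) (X i) / 1) with hE
  have hinj : Function.Injective (algebraMap (MvPolynomial (Fin n) K)
    (FractionRing (MvPolynomial (Fin n) K))) := IsFractionRing.injective _ _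
  have h2 : ∀ i : Fin n, algebraMap (MvPolynomial (Fin n) K)
      (FractionRing (MvPolynomial (Fin n) K)) (X i) ∈ E := by
    intro i
    have h3 : algebraMap (MvPolynomial (Fin n) K)
      (FractionRing (MvPolynomial (Fin n) K)) (X i) / 1 ∈ E :=
      IntermediateField.subset_adjoin K _ ⟨i, rfl⟩
    rwa [div_one] at h3
  have hind : AlgebraicIndependent K (fun i : Fin n => algebraMap (MvPolynomial (Fin n) K)
      (FractionRing (MvPolynomial (Fin n) K)) (X i)) := by
    rw [algebraicIndependent_iff]
    intro q hq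
    have h3 : aeval (fun i : Fin n => algebraMap (MvPolynomial (Fin n) K)
        (FractionRing (MvPolynomial (Fin n) K)) (X i)) q =
        algebraMap (MvPolynomial (Fin n) K) (FractionRing (MvPolynomial (Fin n) K)) q := by
      have h4 : (aeval (fun i : Fin n => algebraMap (MvPolynomial (Fin n) K)
          (FractionRing (MvPolynomial (Fin n) K)) (X i)) :
          MvPolynomial (Fin n) K →ₐ[K] FractionRing (MvPolynomial (Fin n) K)) =
          IsScalarTower.toAlgHom K (MvPolynomial (Fin n) K)
            (FractionRing (MvPolynomial (Fin n) K)) := by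
        refine MvPolynomial.algHom_ext fun i => ?_
        rw [aeval_X]
        rfl
      rw [h4]
      rfl
    rw [h3, map_eq_zero_iff _ hinj] at hq
    exact hq
  have h3 : AlgebraicIndependent K (fun i : Fin n => (⟨algebraMap (MvPolynomial (Fin n) K)
      (FractionRing (MvPolynomial (Fin n) K)) (X i), h2 i⟩ : E)) :=
    AlgebraicIndependent.of_comp E.val hind
  have h4 := h3.lift_cardinalMk_le_trdeg
  rw [Cardinal.mk_fin, Cardinal.lift_natCast, Cardinal.lift_uzero] at h4
  have h5 : Algebra.trdeg K E < (n : Cardinal) := by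
    refine lt_of_le_of_lt ?_ h1
    exact (le_add_right le_rfl).trans (le_add_right le_rfl)
  exact lt_irrefl _ (h4.trans_lt h5)

end Pool.Agent.Lib.MP_17a322_nt.VG
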