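import Pool.Agent.Lib.MP_17a322_nt.VG.B2
import Pool.Agent.Lib.MP_17a322_nt.VG.B3

/-!
# B4: the boundary reduction
-/

universe u

namespace Pool.Agent.Lib.MP_17a322_nt.VG

open MvPolynomial Height Filter
open Pool.Agent.Lib.MP_17a322_nt.RO
open Pool.Agent.Lib.MP_17a322_nt.VJ
open Pool.Agent.Lib.MP_17a322_nt.VN

theorem NS_nonneg {K : Type u} [Field K] [NumberField K] {n : ℕ} (W : Fin n → CT K)
    (S : Finset (NumberField.FinitePlace K)) (x : Fin n → K) : 0 ≤ NS W S x := by
  unfold NS
  refine Finset.sum_nonneg fun t _ => ?_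
  split_ifs
  · exact finsum_nonneg fun v => abs_nonneg _
  · exact le_rfl

theorem NS_succAbove {K : Type u} [Field K] [NumberField K] {n : ℕ} (W : Fin (n + 1) → CT K)
    (S : Finset (NumberField.FinitePlace K)) (x : Fin (n + 1) → K) (t : Fin (n + 1)) :
    NS (fun i => W (t.succAbove i)) S (fun i => x (t.succAbove i)) ≤ NS W S x := by
  unfold NS
  rw [Fin.sum_univ_succAbove _ t]
  refine le_add_of_nonneg_left ?_
  split_ifs
  · exact finsum_nonneg fun v => abs_nonneg _
  · exact le_rfl

theorem sum_succAbove_le {n : ℕ} (f : Fin (n + 1) → ℝ) (hf : ∀ i, 0 ≤ f i) (t : Fin (n + 1)) :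
    ∑ i, f (t.succAbove i) ≤ ∑ i, f i := by
  rw [Fin.sum_univ_succAbove _ t]
  exact le_add_of_nonneg_left (hf t)

/-- The boundary reduction: the defect is bounded by the sum over the charts of the gains diminished by
`N` times the distance to the boundary, up to `ε H + C (1 + N_S)`. -/
theorem boundary {K : Type u} [Field K] [NumberField K] {n m : ℕ} (ih : VGF K n)
    (W : Fin (n + 1) → CT K) (hW : ∀ t, (W t).IsE) (S : Finset (NumberField.FinitePlace K))
    (g : Fin m → MvPolynomial (Fin (n + 1)) K) (d : Fin (n + 1) → ℕ)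
    (hd : ∀ k i, (g k).degreeOf i ≤ d i) (hY : CodY W g d)
    (a b : (Fin (n + 1) → Bool) → Fin m → K) (N ε : ℝ) (hN : 0 ≤ N) (hε : 0 < ε) :
    ∃ G : MvPolynomial (Fin (n + 1)) K, G ≠ 0 ∧ ∃ C : ℝ, ∀ x : Fin (n + 1) → K, IsPt W x →
      (∀ t, x t ≠ 0) →
      (∀ χ, eval (fun t => sc (χ t) (x t)) (∑ k, a χ k • chp χ d (g k)) ≠ 0) →
      eval x G ≠ 0 →
      ∑ t, (d t : ℝ) * logHeight₁ (x t) - logHeight (fun k => eval x (g k)) ≤
        ∑ χ : Fin (n + 1) → Bool, gN W N (fun t => sc (χ t) (x t))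
          (eval (fun t => sc (χ t) (x t)) (∑ k, a χ k • chp χ d (g k)))
          (eval (fun t => sc (χ t) (x t)) (∑ k, b χ k • chp χ d (g k))) +
        ε * ∑ i, logHeight₁ (x i) + C * (1 + NS W S x) := by
  classical
  -- the constant for the restrictions
  obtain ⟨δ, hδ⟩ : ∃ δ : ℝ, δ = ε / ((N + 1) * (2 * (n + 1))) := ⟨_, rfl⟩
  have hden : 0 < (N + 1) * (2 * ((n : ℝ) + 1)) := by positivity
  have hδ0 : 0 < δ := by
    rw [hδ]
    exact div_pos hε hden
  -- the restrictions
  have hres : ∀ (t : Fin (n + 1)) (c : Bool), ∃ (G : MvPolynomial (Fin (n + 1)) K) (C : ℝ),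
      G ≠ 0 ∧ 0 ≤ C ∧ ((W t).isTor = true → ∀ x : Fin (n + 1) → K, IsPt W x → eval x G ≠ 0 →
        (∃ k, eval (fun i => x (t.succAbove i)) (cof t (cd c (d t)) (g k)) ≠ 0) ∧
        ∑ i, (d (t.succAbove i) : ℝ) * logHeight₁ (x (t.succAbove i)) -
          logHeight (fun k => eval (fun i => x (t.succAbove i)) (cof t (cd c (d t)) (g k))) ≤
          δ * ∑ i, logHeight₁ (x i) + C * (1 + NS W S x)) := by
    intro t c
    by_cases ht : (W t).isTor = true
    · have hY' := CodY_cof W g d hd hY t ht c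
      obtain ⟨k, hk⟩ := exists_ne_of_CodY _ _ _ hY'
      obtain ⟨G, hG, C, hC⟩ := ih m (fun i => W (t.succAbove i)) (fun i => hW _) S
        (fun k => cof t (cd c (d t)) (g k)) (fun i => d (t.succAbove i))
        (fun k i => degreeOf_cof t _ (g k) d (hd k) i) hY' δ hδ0
      refine ⟨rename t.succAbove (G * cof t (cd c (d t)) (g k)), |C|, ?_, abs_nonneg _, ?_⟩
      · intro h0
        have h1 := rename_injective t.succAbove Fin.succAbove_right_injective
          (h0.trans (map_zero _).symm)
        exact mul_ne_zero hG hk h1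
      · intro _ x hx hGx
        rw [eval_rename, map_mul] at hGx
        have hG1 : eval (fun i => x (t.succAbove i)) G ≠ 0 := fun h => hGx (by
          have h1 : eval (x ∘ t.succAbove) G = 0 := h
          rw [h1, zero_mul])
        have hG2 : eval (fun i => x (t.succAbove i)) (cof t (cd c (d t)) (g k)) ≠ 0 :=
          fun h => hGx (by
            have h1 : eval (x ∘ t.succAbove) (cof t (cd c (d t)) (g k)) = 0 := h
            rw [h1, mul_zero])
        refine ⟨⟨k, hG2⟩, ?_⟩
        have h1 := hC (fun i => x (t.succAbove i)) (fun i => hx _) hG1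
        have h2 := sum_succAbove_le (fun i => logHeight₁ (x i))
          (fun i => zero_le_logHeight₁ (x i)) t
        have h3 := mul_le_mul_of_nonneg_left h2 hδ0.le
        have h4 := NS_succAbove W S x t
        have h5 := NS_nonneg (fun i => W (t.succAbove i)) S (fun i => x (t.succAbove i))
        have h6 : C * (1 + NS (fun i => W (t.succAbove i)) S (fun i => x (t.succAbove i))) ≤
            |C| * (1 + NS W S x) :=
          mul_le_mul (le_abs_self C) (by linarith) (by linarith) (abs_nonneg C)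
        linarith
    · exact ⟨1, 0, one_ne_zero, le_rfl, fun h => absurd h ht⟩
  choose G C hG hC0 hGC using hres
  obtain ⟨C₁, hC₁⟩ := defect_le W g d hd a b N hN
  refine ⟨∏ t, ∏ c, G t c, ?_, |C₁| + (N + 1) * ∑ t, ∑ c, C t c, fun x hxP hx hne hGx => ?_⟩
  · exact Finset.prod_ne_zero_iff.2 fun t _ => Finset.prod_ne_zero_iff.2 fun c _ => hG t c
  · have hGx' : ∀ t c, eval x (G t c) ≠ 0 := by
      intro t c h0
      apply hGx
      rw [map_prod]
      refine Finset.prod_eq_zero (Finset.mem_univ t) ?_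
      rw [map_prod]
      exact Finset.prod_eq_zero (Finset.mem_univ c) h0
    have h1 := hC₁ x hx hne (fun t c ht => (hGC t c ht x hxP (hGx' t c)).1)
    refine h1.trans ?_
    have hNS := NS_nonneg W S x
    have hH : 0 ≤ ∑ i, logHeight₁ (x i) :=
      Finset.sum_nonneg fun i _ => zero_le_logHeight₁ (x i)
    have h2 : ∑ t ∈ Finset.univ.filter (fun t => (W t).isTor = true), ∑ c : Bool,
        (∑ i, (d (t.succAbove i) : ℝ) * logHeight₁ (x (t.succAbove i)) -
          logHeight (fun k => eval (fun i => x (t.succAbove i)) (cof t (cd c (d t)) (g k)))) ≤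
        ∑ t, ∑ c : Bool, (δ * ∑ i, logHeight₁ (x i) + C t c * (1 + NS W S x)) := by
      have h3 : ∑ t ∈ Finset.univ.filter (fun t => (W t).isTor = true), ∑ c : Bool,
          (∑ i, (d (t.succAbove i) : ℝ) * logHeight₁ (x (t.succAbove i)) -
            logHeight (fun k => eval (fun i => x (t.succAbove i))
              (cof t (cd c (d t)) (g k)))) ≤
          ∑ t ∈ Finset.univ.filter (fun t => (W t).isTor = true),
            ∑ c : Bool, (δ * ∑ i, logHeight₁ (x i) + C t c * (1 + NS W S x)) := by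
        refine Finset.sum_le_sum fun t ht => Finset.sum_le_sum fun c _ => ?_
        exact (hGC t c (Finset.mem_filter.1 ht).2 x hxP (hGx' t c)).2
      refine h3.trans (Finset.sum_le_sum_of_subset_of_nonneg (Finset.filter_subset _ _) ?_)
      intro t _ _
      refine Finset.sum_nonneg fun c _ => ?_
      exact add_nonneg (mul_nonneg hδ0.le hH) (mul_nonneg (hC0 t c) (by linarith))
    have h3 : ∑ t : Fin (n + 1), ∑ c : Bool,
        (δ * ∑ i, logHeight₁ (x i) + C t c * (1 + NS W S x)) =
        (2 * ((n : ℝ) + 1)) * δ * (∑ i, logHeight₁ (x i)) +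
          (∑ t, ∑ c, C t c) * (1 + NS W S x) := by
      simp only [Finset.sum_add_distrib, Finset.sum_const, Finset.card_univ, Fintype.card_bool,
        Fintype.card_fin, nsmul_eq_mul, ← Finset.sum_mul]
      push_cast
      ring
    rw [h3] at h2
    have h4 := mul_le_mul_of_nonneg_left h2 (by linarith : 0 ≤ N + 1)
    have h5 : (N + 1) * ((2 * ((n : ℝ) + 1)) * δ * (∑ i, logHeight₁ (x i)) +
        (∑ t, ∑ c, C t c) * (1 + NS W S x)) =
        ε * (∑ i, logHeight₁ (x i)) + (N + 1) * (∑ t, ∑ c, C t c) * (1 + NS W S x) := by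
      have h6 : (N + 1) * (2 * ((n : ℝ) + 1)) * δ = ε := by
        rw [hδ]
        field_simp
      rw [← h6]
      ring
    rw [h5] at h4
    have h6 : C₁ ≤ |C₁| * (1 + NS W S x) := by
      refine (le_abs_self C₁).trans ?_
      exact le_mul_of_one_le_right (abs_nonneg _) (by linarith)
    have h7 : (|C₁| + (N + 1) * ∑ t, ∑ c, C t c) * (1 + NS W S x) =
        |C₁| * (1 + NS W S x) + (N + 1) * (∑ t, ∑ c, C t c) * (1 + NS W S x) := by ring
    rw [h7]
    linarith

end Pool.Agent.Lib.MP_17a322_nt.VG
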