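import Pool.Agent.Lib.MP_17a322_nt.VG.Defs
import Pool.Agent.Lib.MP_17a322_nt.VN.C01
import Pool.Agent.Lib.MP_17a322_nt.VN.C02
import Pool.Agent.Lib.MP_17a322_nt.VN.C03

/-!
Basic properties of the forms for coordinates of both types.
-/

universe u

namespace Pool.Agent.Lib.MP_17a322_nt.VG

open MvPolynomial Height
open Pool.Agent.Lib.MP_17a322_nt.RO Pool.Agent.Lib.MP_17a322_nt.VJ
open Pool.Agent.Lib.MP_17a322_nt.VN

theorem one_le_lc {K : Type u} [Field K] (W : CT K) {L : Type*} [Field L] [Algebra K L]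
    (v : AbsoluteValue L ℝ) : 1 ≤ lc W v := by
  cases W with
  | ell W => exact VJ.one_le_lc W v
  | tor => exact one_le_cst v (by norm_num)

theorem cst_two_le_lc {K : Type u} [Field K] (W : CT K) {L : Type*} [Field L] [Algebra K L]
    (v : AbsoluteValue L ℝ) : cst v 2 ≤ lc W v := by
  cases W with
  | ell W => exact VJ.cst_two_le_lc W v
  | tor => exact le_rfl

theorem lc_pow_mono {K : Type u} [Field K] (W : CT K) {L : Type*} [Field L] [Algebra K L]
    (v : AbsoluteValue L ℝ) {m n : ℕ} (h : m ≤ n) : lc W v ^ m ≤ lc W v ^ n :=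
  pow_le_pow_right₀ (one_le_lc W v) h

theorem FS_log_lc {K L : Type u} [Field K] [NumberField K] [Field L] [NumberField L]
    [Algebra K L] (W : CT K) : FS (fun v : AbsoluteValue L ℝ => Real.log (lc W v)) := by
  cases W with
  | ell W => exact VJ.FS_log_lc W
  | tor => exact FS_log_cst 2

theorem gs_log_lc_le {K : Type u} [Field K] [NumberField K] (W : CT K) :
    ∃ C : ℝ, 0 ≤ C ∧ ∀ (L : Type u) [Field L] [NumberField L] [Algebra K L],
      gs (fun v : AbsoluteValue L ℝ => Real.log (lc W v)) ≤ C * Module.finrank ℚ L := by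
  cases W with
  | ell W => exact VJ.gs_log_lc_le W
  | tor =>
    refine ⟨Real.log (2 : ℕ), Real.log_natCast_nonneg 2, fun L _ _ _ => ?_⟩
    have h := gs_log_cst (L := L) (n := 2) (by norm_num)
    rw [NumberField.totalWeight_eq_finrank, mul_comm] at h
    exact h

theorem map_ph {K : Type u} [Field K] (W : CT K) {A A' : Type*} [CommRing A]
    [Algebra K A] [CommRing A'] [Algebra K A'] (f : A →ₐ[K] A') (R : Fin 2 → A) :
    f (ph W R) = ph W (fun j => f (R j)) := by
  cases W with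
  | ell W => exact VJ.map_ph W f R
  | tor => simp only [ph, map_pow, map_mul]

theorem map_mu {K : Type u} [Field K] (W : CT K) {A A' : Type*} [CommRing A]
    [Algebra K A] [CommRing A'] [Algebra K A'] (f : A →ₐ[K] A') (n : ℕ) (R : Fin 2 → A)
    (i : Fin 2) : f (mu W n R i) = mu W n (fun j => f (R j)) i := by
  cases W with
  | ell W => exact VJ.map_mu W f n R i
  | tor => simp only [mu, map_pow]

theorem mu_size {K L : Type*} [Field K] [Field L] [Algebra K L] {v : AbsoluteValue L ℝ}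
    {A : Type*} [CommRing A] [Algebra L A] [Algebra K A] [IsScalarTower K L A] {ν : A → ℝ}
    (W : CT K) (h : SN v ν) (j : ℕ) (R : Fin 2 → A) {r : ℝ} (hr : ∀ i, ν (R i) ≤ r) (i : Fin 2) :
    ν (mu W j R i) ≤ lc W v ^ (16 * 4 ^ j) * r ^ (4 ^ j) := by
  cases W with
  | ell W => exact VJ.mu_size W h j R hr i
  | tor =>
    have h0 : 0 ≤ r := (h.nonneg _).trans (hr 0)
    have h1 : ν (R i ^ 4 ^ j) ≤ r ^ 4 ^ j :=
      (h.pow_le _ _).trans (pow_le_pow_left₀ (h.nonneg _) (hr i) _)
    refine h1.trans (le_mul_of_one_le_left (pow_nonneg h0 _) ?_)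
    exact one_le_pow₀ (one_le_lc CT.tor v)

theorem E8_mu {K : Type u} [Field K] {σ : Type*} (W : CT K) {y : σ} {r : ℕ}
    {R : Fin 2 → MvPolynomial σ K} (hR : ∀ i, degreeOf y (R i) ≤ r) (j : ℕ) (i : Fin 2) :
    degreeOf y (mu W j R i) ≤ 4 ^ j * r := by
  cases W with
  | ell W => exact VJ.E8_mu W hR j i
  | tor => exact E8_pow _ (hR i)

end Pool.Agent.Lib.MP_17a322_nt.VG
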