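import Pool.Agent.Lib.MP_17a322_nt.VG.C0

/-!
Block polynomials, algebra (coordinates of both types).
-/

universe u

namespace Pool.Agent.Lib.MP_17a322_nt.VG

open MvPolynomial Height
open Pool.Agent.Lib.MP_17a322_nt.RO Pool.Agent.Lib.MP_17a322_nt.VJ
open Pool.Agent.Lib.MP_17a322_nt.VN

theorem col_chG {K : Type u} [Field K] (W : CT K) {A : Type*} [CommRing A]
    [Algebra K A] (R Q : Fin 2 → A) {B : A} (hB : B ^ 2 = ph W R * ph W Q) (c : Bool) (b ν : ℕ) :
    col W R Q B c 0 ^ ν * col W R Q B c 1 ^ (b - ν) =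
      chG W R Q c false b ν + B * chG W R Q c true b ν := by
  cases W with
  | ell W => exact VN.col_chG W R Q hB c b ν
  | tor =>
    have h0 : col (CT.tor : CT K) R Q B c 0 = Q 0 * R 1 := rfl
    have h1 : col (CT.tor : CT K) R Q B c 1 = Q 1 * R 0 := rfl
    have h2 : chG (CT.tor : CT K) R Q c false b ν = (Q 0 * R 1) ^ ν * (Q 1 * R 0) ^ (b - ν) := rfl
    have h3 : chG (CT.tor : CT K) R Q c true b ν = 0 := rfl
    rw [h0, h1, h2, h3, mul_zero, add_zero]

theorem map_chG {K : Type u} [Field K] (W : CT K) {A A' : Type*} [CommRing A]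
    [Algebra K A] [CommRing A'] [Algebra K A'] (f : A →ₐ[K] A') (R Q : Fin 2 → A) (c e : Bool)
    (b ν : ℕ) :
    f (chG W R Q c e b ν) = chG W (fun i => f (R i)) (fun i => f (Q i)) c e b ν := by
  cases W with
  | ell W => exact VN.map_chG W f R Q c e b ν
  | tor =>
    cases e
    · change f ((Q 0 * R 1) ^ ν * (Q 1 * R 0) ^ (b - ν)) =
        (f (Q 0) * f (R 1)) ^ ν * (f (Q 1) * f (R 0)) ^ (b - ν)
      simp only [map_mul, map_pow]
    · change f 0 = 0
      exact map_zero f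

theorem map_UV {K : Type*} [Field K] {n : ℕ} (W : Fin n → CT K) (χ : Fin n → Bool)
    (j b : ℕ) {A A' : Type*} [CommRing A] [Algebra K A] [CommRing A'] [Algebra K A']
    (f : A →ₐ[K] A') (x u : Fin n → A) (c e : Fin n → Bool) (ν : Fin n → ℕ) :
    f (UV W χ j b x u c e ν) = UV W χ j b (fun t => f (x t)) (fun t => f (u t)) c e ν := by
  unfold UV
  rw [map_prod]
  refine Finset.prod_congr rfl fun t _ => ?_
  rw [map_chG]
  have h1 : (fun i => f (mu (W t) j ![x t, 1] i)) = mu (W t) j ![f (x t), 1] := by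
    funext i
    rw [map_mu]
    have h2 : (fun i => f ((![x t, 1] : Fin 2 → A) i)) = ![f (x t), 1] := by
      funext i
      fin_cases i
      · rfl
      · exact map_one f
    rw [h2]
  have h3 : (fun i => f (vc (χ t) (u t) i)) = vc (χ t) (f (u t)) := by
    funext i
    cases χ t
    · fin_cases i
      · rfl
      · exact map_one f
    · fin_cases i
      · exact map_one f
      · rfl
  rw [h1, h3]

theorem aeval_UU {K : Type*} [Field K] {n : ℕ} (W : Fin n → CT K) (χ : Fin n → Bool)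
    (j b : ℕ) {A : Type*} [CommRing A] [Algebra K A] (x u : Fin n → A) (c e : Fin n → Bool)
    (ν : Fin n → ℕ) : aeval (Sum.elim x u) (UU W χ j b c e ν) = UV W χ j b x u c e ν := by
  unfold UU
  rw [map_UV]
  simp only [aeval_X, Sum.elim_inl, Sum.elim_inr]

theorem prod_col {K : Type*} [Field K] {n : ℕ} (W : Fin n → CT K) (χ : Fin n → Bool)
    (j b : ℕ) {A : Type*} [CommRing A] [Algebra K A] (x u : Fin n → A) (B : Fin n → A)
    (hB : ∀ t, B t ^ 2 = ph (W t) (mu (W t) j ![x t, 1]) * ph (W t) (vc (χ t) (u t)))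
    (c : Fin n → Bool) (ν : Fin n → ℕ) :
    ∏ t, (col (W t) (mu (W t) j ![x t, 1]) (vc (χ t) (u t)) (B t) (c t) 0 ^ (ν t) *
      col (W t) (mu (W t) j ![x t, 1]) (vc (χ t) (u t)) (B t) (c t) 1 ^ (b - ν t)) =
      ∑ ε : Fin n → Bool, (∏ t, if ε t then B t else 1) * UV W χ j b x u c ε ν := by
  have h1 : ∀ t, col (W t) (mu (W t) j ![x t, 1]) (vc (χ t) (u t)) (B t) (c t) 0 ^ (ν t) *
      col (W t) (mu (W t) j ![x t, 1]) (vc (χ t) (u t)) (B t) (c t) 1 ^ (b - ν t) =
      ∑ ε : Bool, (if ε then B t else 1) *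
        chG (W t) (mu (W t) j ![x t, 1]) (vc (χ t) (u t)) (c t) ε b (ν t) := by
    intro t
    rw [col_chG (W t) _ _ (hB t), Fintype.sum_bool]
    simp only [if_true, Bool.false_eq_true, if_false, one_mul]
    ring
  rw [Finset.prod_congr rfl fun t _ => h1 t, Finset.prod_univ_sum, Fintype.piFinset_univ]
  refine Finset.sum_congr rfl fun ε _ => ?_
  rw [Finset.prod_mul_distrib]
  rfl

end Pool.Agent.Lib.MP_17a322_nt.VG
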