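import Pool.Agent.Lib.MP_17a322_nt.VN.DefsC

/-!
Definitions for Vojta's inequality on log blow-ups of split semiabelian varieties: products of
elliptic curves and multiplicative groups.

A coordinate is of type `CT.ell W` (a point of the curve `W`) or `CT.tor` (an element of `Kˣ`).
The forms `ph`, `mu`, the columns `col` and the polynomials `chG` are those of `VJ`, `VN` for `CT.ell W`;
in this namespace the short names mean the versions for coordinates of both types.
-/

universe u

namespace Pool.Agent.Lib.MP_17a322_nt.VG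

open MvPolynomial Height Filter
open Pool.Agent.Lib.MP_17a322_nt.RO
open Pool.Agent.Lib.MP_17a322_nt.VJ
open Pool.Agent.Lib.MP_17a322_nt.VN

/-- The type of a coordinate: a point of an elliptic curve or a unit. -/
inductive CT (K : Type u) : Type u
  | ell (W : WeierstrassCurve K) : CT K
  | tor : CT K

/-- The curve is elliptic. -/
def CT.IsE {K : Type u} [Field K] : CT K → Prop
  | .ell W => W.IsElliptic
  | .tor => True

/-- Is it a torus coordinate? -/
def CT.isTor {K : Type u} : CT K → Bool
  | .ell _ => false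
  | .tor => true

/-- The group. -/
def CT.Pt {K : Type u} [Field K] : CT K → Type u
  | .ell W => W.toAffine.Point
  | .tor => Additive Kˣ

noncomputable instance {K : Type u} [Field K] [DecidableEq K] (T : CT K) : AddCommGroup T.Pt :=
  match T with
  | .ell W => inferInstanceAs (AddCommGroup W.toAffine.Point)
  | .tor => inferInstanceAs (AddCommGroup (Additive Kˣ))

/-- The vector of the x-coordinate, resp. of the unit. -/
noncomputable def CT.xr {K : Type u} [Field K] : (T : CT K) → T.Pt → Fin 2 → K
  | .ell _, P => WeierstrassCurve.Affine.Point.xRep P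
  | .tor, u => ![((Additive.toMul u : Kˣ) : K), 1]

/-- Affine points (no condition for units). -/
def CT.Aff {K : Type u} [Field K] : (T : CT K) → T.Pt → Prop
  | .ell _, P => P ≠ (0 : WeierstrassCurve.Affine.Point _)
  | .tor, _ => True

/-- The multiplication which multiplies heights by `4 ^ j`. -/
noncomputable def CT.ml {K : Type u} [Field K] [DecidableEq K] (T : CT K) (j : ℕ) (P : T.Pt) :
    T.Pt :=
  (if T.isTor then 4 ^ j else 2 ^ j) • P

/-- `VJ.ph W`, resp. the square of the product of the coordinates. -/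
noncomputable def ph {K : Type u} [Field K] (W : CT K) {A : Type*} [CommRing A] [Algebra K A]
    (R : Fin 2 → A) : A :=
  match W with
  | .ell W => VJ.ph W R
  | .tor => (R 0 * R 1) ^ 2

/-- The map on vectors belonging to `ml`. -/
noncomputable def mu {K : Type u} [Field K] (W : CT K) {A : Type*} [CommRing A] [Algebra K A]
    (j : ℕ) (R : Fin 2 → A) : Fin 2 → A :=
  match W with
  | .ell W => VJ.mu W j R
  | .tor => fun i => R i ^ 4 ^ j

/-- The local constant. -/
noncomputable def lc {K : Type u} [Field K] (W : CT K) {L : Type*} [Field L] [Algebra K L]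
    (v : AbsoluteValue L ℝ) : ℝ :=
  match W with
  | .ell W => VJ.lc W v
  | .tor => cst v 2

/-- The two columns (both the same for a torus coordinate). -/
noncomputable def col {K : Type u} [Field K] (W : CT K) {A : Type*} [CommRing A]
    [Algebra K A] (R Q : Fin 2 → A) (B : A) (c : Bool) : Fin 2 → A :=
  match W with
  | .ell W => VN.col W R Q B c
  | .tor => ![Q 0 * R 1, Q 1 * R 0]

/-- The even (`e = false`) and odd (`e = true`) part of `col 0 ^ ν * col 1 ^ (b - ν)`. -/
noncomputable def chG {K : Type u} [Field K] (W : CT K) {A : Type*} [CommRing A]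
    [Algebra K A] (R Q : Fin 2 → A) (c e : Bool) (b ν : ℕ) : A :=
  match W with
  | .ell W => VN.chG W R Q c e b ν
  | .tor => if e then 0 else (Q 0 * R 1) ^ ν * (Q 1 * R 0) ^ (b - ν)

/-- The value at `x`, `u` of the block polynomial: product over `t` of the even/odd parts for
`R = mu j (x t, 1)` and `Q` the vector of the chart coordinate `u t`. -/
noncomputable def UV {K : Type u} [Field K] {n : ℕ} (W : Fin n → CT K)
    (χ : Fin n → Bool) (j b : ℕ) {A : Type*} [CommRing A] [Algebra K A] (x u : Fin n → A)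
    (c e : Fin n → Bool) (ν : Fin n → ℕ) : A :=
  ∏ t, chG (W t) (mu (W t) j ![x t, 1]) (vc (χ t) (u t)) (c t) (e t) b (ν t)

/-- The block polynomial in the variables `x t` (`Sum.inl t`) and `u t` (`Sum.inr t`). -/
noncomputable def UU {K : Type u} [Field K] {n : ℕ} (W : Fin n → CT K)
    (χ : Fin n → Bool) (j b : ℕ) (c e : Fin n → Bool) (ν : Fin n → ℕ) :
    MvPolynomial (Fin n ⊕ Fin n) K :=
  UV W χ j b (fun t => X (Sum.inl t)) (fun t => X (Sum.inr t)) c e ν

/-- The vanishing condition of order `T` (along `z 0 = z 1 = 0`) for the family `Φ` with values in the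
`L`-algebra `A`, at the point `x0`. -/
def ORD {K : Type u} [Field K] {k e : ℕ} (ρ : REP K (k + 2) e) (W : Fin (k + 2) → CT K)
    (χ : Fin (k + 2) → Bool) (j b T : ℕ) {L : Type*} [Field L] [Algebra K L]
    {A : Type*} [CommRing A] [Algebra L A]
    (Φ : (Fin (k + 2) → ℕ) → A) (x0 : Fin (k + 2) → L) : Prop :=
  ∀ (c ε : Fin (k + 2) → Bool) (l : Fin (e + 1)) (β : Fin (k + 2) →₀ ℕ), β 0 + β 1 < T →
    ∑ ν ∈ box (fun _ : Fin (k + 2) => b + 1),
      Φ ν * algebraMap L A (coeff β (spx x0 (GG ρ (UU W χ j b c ε ν) l))) = 0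

/-- The coefficient of the unknown `F a μ` in the linear equation for the exponents `q`, `β`. -/
noncomputable def MC {K : Type u} [Field K] {k e : ℕ} (ρ : REP K (k + 2) e)
    (W : Fin (k + 2) → CT K) (χ : Fin (k + 2) → Bool) (j b : ℕ)
    (c ε : Fin (k + 2) → Bool) (l : Fin (e + 1)) (q β a μ : Fin (k + 2) → ℕ) : K :=
  coeff (sf q β) ((∏ t, X (Sum.inl t) ^ a t) * GG ρ (UU W χ j b c ε μ) l)

/-- The linear equations for the auxiliary polynomial: `m` blocks, `b = N * 4 ^ J`,
`b_i = N * 4 ^ (J - j i)`, `T_i = 4 ^ (J - j i)`. -/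
def CC {K : Type u} [Field K] {k e m : ℕ} (ρ : Fin m → REP K (k + 2) e)
    (W : Fin (k + 2) → CT K) (χ : Fin (k + 2) → Bool) (N J : ℕ) (j : Fin m → ℕ)
    (F : (Fin (k + 2) → ℕ) → (Fin m → Fin (k + 2) → ℕ) → K) : Prop :=
  ∀ (i : Fin m) (c ε : Fin (k + 2) → Bool) (l : Fin (e + 1)) (q β : Fin (k + 2) → ℕ)
    (ν : Fin m → Fin (k + 2) → ℕ), β 0 + β 1 < 4 ^ (J - j i) →
    ∑ a ∈ box (fun _ : Fin (k + 2) => N * 4 ^ J + 1),
      ∑ μ ∈ box (fun _ : Fin (k + 2) => N * 4 ^ (J - j i) + 1),
        F a (Function.update ν i μ) *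
          MC (ρ i) W χ (j i) (N * 4 ^ (J - j i)) c ε l q β a μ = 0

/-- The height of a point of the product. -/
noncomputable def HN {K : Type u} [Field K] [AdmissibleAbsValues K] {n : ℕ} {T : Fin n → CT K}
    (P : ∀ t, (T t).Pt) : ℝ :=
  ∑ t, logHeight ((T t).xr (P t))

/-- `s` is the coordinate of the point `P` in the chart `χ`. -/
def CH {K : Type u} [Field K] {T : CT K} (χ : Bool) (P : T.Pt) (s : K) : Prop :=
  ∃ c : K, c ≠ 0 ∧ T.xr P = c • vc χ s

/-- The gain, diminished by `N` times the distances to the boundary: sum of the positive parts of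
`- log (min (1, max (|a|, |b|))) - N ∑ log (1 / |s t|)`, `t` torus coordinate, over the places at which
all `|s t|` are at most one. -/
noncomputable def gN {K : Type u} [Field K] [AdmissibleAbsValues K] {n : ℕ} (T : Fin n → CT K)
    (N : ℝ) (s : Fin n → K) (a b : K) : ℝ :=
  open Classical in
  gs fun v => if ∀ t, v (s t) ≤ 1 then
    max 0 (- Real.log (min 1 (max (v a) (v b))) -
      N * ∑ t, if (T t).isTor then - Real.log (v (s t)) else 0) else 0

end Pool.Agent.Lib.MP_17a322_nt.VG
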