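import Pool.Agent.Lib.MP_17a322_nt.VN.E10

/-!
Stable prime ideals, elliptic and torus coordinates (`q_j = X^2` for a torus coordinate).
-/

namespace Pool.Agent.Lib.MP_17a322_nt.VG

open MvPolynomial
open Pool.Agent.Lib.MP_17a322_nt.VN

theorem E10_notMem_one {Ω B : Type*} [Field Ω] [CharZero Ω] (q : B → Polynomial Ω)
    (P : Ideal (MvPolynomial (B ⊕ B) Ω)) (hP : P.IsPrime)
    (j : B) (hq : (q j).Separable)
    (hD : ∀ a ∈ P, DD q j a ∈ P)
    (hY : X (Sum.inr j) ^ 2 -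
      Polynomial.aeval (X (Sum.inl j) : MvPolynomial (B ⊕ B) Ω) (q j) ∈ P) :
    (X (Sum.inr j) : MvPolynomial (B ⊕ B) Ω) ∉ P := by
  intro h
  have h1 := hD _ h
  have hne : (Sum.inl j : B ⊕ B) ≠ Sum.inr j := fun h => nomatch h
  rw [DD_apply, pderiv_X_of_ne hne.symm, mul_zero, zero_add, pderiv_X_self, mul_one] at h1
  have h2 : Polynomial.aeval (X (Sum.inl j) : MvPolynomial (B ⊕ B) Ω)
      (Polynomial.derivative (q j)) ∈ P := by
    have h3 := P.mul_mem_left (C (2 : Ω)) h1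
    rw [← mul_assoc, ← C_mul, mul_inv_cancel₀ (two_ne_zero : (2 : Ω) ≠ 0), C_1, one_mul] at h3
    exact h3
  have h4 : Polynomial.aeval (X (Sum.inl j) : MvPolynomial (B ⊕ B) Ω) (q j) ∈ P := by
    have h5 := P.sub_mem (P.mul_mem_left (X (Sum.inr j)) h) hY
    rw [← sq, sub_sub_cancel] at h5
    exact h5
  obtain ⟨a, b, hab⟩ := hq
  apply hP.ne_top
  rw [Ideal.eq_top_iff_one]
  have h6 := congrArg (Polynomial.aeval (X (Sum.inl j) : MvPolynomial (B ⊕ B) Ω)) hab
  rw [map_add, map_mul, map_mul, map_one] at h6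
  rw [← h6]
  exact P.add_mem (P.mul_mem_left _ h4) (P.mul_mem_left _ h2)

/-- Stable prime ideals contain no nonzero polynomial in the coordinates `S`. -/
theorem diff_simple {Ω B : Type*} [Fintype B] [Field Ω] [CharZero Ω] (q : B → Polynomial Ω)
    (P : Ideal (MvPolynomial (B ⊕ B) Ω)) (hP : P.IsPrime)
    (hq : ∀ j, (q j).Separable ∨
      (q j = Polynomial.X ^ 2 ∧ (X (Sum.inl j) : MvPolynomial (B ⊕ B) Ω) ∉ P))
    (hD : ∀ j, ∀ a ∈ P, DD q j a ∈ P)
    (hY : ∀ j, X (Sum.inr j) ^ 2 - Polynomial.aeval (X (Sum.inl j) : MvPolynomial (B ⊕ B) Ω) (q j) ∈ P)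
    (H : MvPolynomial B Ω) (hH : rename Sum.inl H ∈ P) : H = 0 := by
  have hX : ∀ j, (X (Sum.inr j) : MvPolynomial (B ⊕ B) Ω) ∉ P := by
    intro j
    rcases hq j with h | ⟨h, h'⟩
    · exact E10_notMem_one q P hP j h (hD j) (hY j)
    · intro hm
      have h1 := hY j
      rw [h, map_pow, Polynomial.aeval_X] at h1
      have h2 := P.sub_mem (P.mul_mem_left (X (Sum.inr j)) hm) h1
      rw [← sq, sub_sub_cancel] at h2
      exact h' (hP.mem_of_pow_mem 2 h2)
  refine E10_main q P hP hD hX H.totalDegree H (fun m hm => ?_) hH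
  have h1 := le_totalDegree (mem_support_iff.2 hm)
  rw [Finsupp.sum_fintype _ _ (fun _ => rfl)] at h1
  exact h1

end Pool.Agent.Lib.MP_17a322_nt.VG
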