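import Pool.Agent.Lib.MP_17a322_nt.VG.E7
import Pool.Agent.Lib.MP_17a322_nt.VN.E14

/-!
LEMMA TAU: the slopes are killed by the derivations over `K`.
-/

namespace Pool.Agent.Lib.MP_17a322_nt.VG

open MvPolynomial
open Pool.Agent.Lib.MP_17a322_nt.VN

/-- a derivation that kills the base field and a set kills the field generated by the set -/
private theorem kill_adjoin {Ω L : Type*} [Field Ω] [Field L] [Algebra Ω L] (S : Set L)
    (E : Derivation ℤ L L) (hE : ∀ a, E (algebraMap Ω L a) = 0) (hS : ∀ z ∈ S, E z = 0) (z : L)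
    (hz : z ∈ IntermediateField.adjoin Ω S) : E z = 0 := by
  refine IntermediateField.adjoin_induction Ω (p := fun z _ => E z = 0) (fun z hz => hS z hz)
    (fun a => hE a) (fun a b _ _ ha hb => by rw [map_add, ha, hb, add_zero]) (fun a _ ha => ?_)
    (fun a b _ _ ha hb => by rw [Derivation.leibniz, ha, hb, smul_zero, smul_zero, add_zero]) hz
  rw [Derivation.leibniz_inv, ha, smul_zero]

/-- Proof. Let `M = Ω(x l : l ≠ i, l ≠ r)` (`IntermediateField.adjoin Ω ..` in `L`). Then `x i` is
transcendental over `M` (independence of the `x t`, `t ≠ r`), `L` is algebraic over `M(x i)`, the derivation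
`∂_i = E` of `GP.dpart` kills `M` and `E (x i) = y i`, `y_i^2 = q_i(x_i)`. With `ψ` from `GP.lift` and
`GP.bracket`: `E ψ = δ (c i) ∈ Ω ⊆ M`. Apply `exactness` (E7) over the field `M` with `p` = image of `q i`
(squarefree over `M`: `Separable` is preserved). So `algebraMap Ω L (δ (c i)) = 0`. -/
theorem tau {Ω L B : Type*} [Fintype B] [DecidableEq B] [Field Ω] [CharZero Ω] [Field L]
    [Algebra Ω L] {q : B → Polynomial Ω} {r : B} {G : MvPolynomial B Ω} {c : B → Ω} {x y : B → L}
    (h : GP q r G c x y)
    (hq : ∀ t, ((q t).Separable ∧ 3 ≤ (q t).natDegree) ∨ q t = Polynomial.X ^ 2)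
    (δ : Derivation ℤ Ω Ω) (hδ : ∀ t m, δ ((q t).coeff m) = 0) (i : B) (hi : i ≠ r) :
    δ (c i) = 0 := by
  obtain ⟨E, hE, hEx, hEr, hEy, hEyr⟩ := h.dpart i hi
  obtain ⟨D, ψ, hD, hDx, hDy, hDr, hDyr⟩ := h.lift δ hδ
  have hbr := h.bracket i hi δ E D ψ hE hEx hEr hEyr hD hDx hDy hDr hDyr
  set S : Set L := (fun t : {t : B // t ≠ r} => x t) '' {t | t.1 ≠ i} with hSdef
  have htr : Transcendental (IntermediateField.adjoin Ω S) (x i) := by
    rw [IntermediateField.transcendental_adjoin_iff]
    exact h.ind.transcendental_adjoin (s := {t | t.1 ≠ i}) (i := ⟨i, hi⟩) (fun hh => hh rfl)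
  have hkill : ∀ z : IntermediateField.adjoin Ω S,
      E (algebraMap (IntermediateField.adjoin Ω S) L z) = 0 := by
    intro z
    refine kill_adjoin S E hE ?_ z.1 z.2
    rintro w ⟨t, ht, rfl⟩
    have h1 : E (x t.1) = if t.1 = i then y i else 0 := hEx t.1 t.2
    rw [if_neg ht] at h1
    exact h1
  have hle : ∀ z : L, z ∈ IntermediateField.adjoin Ω
      (Set.range fun t : {t : B // t ≠ r} => x t) →
      z ∈ IntermediateField.adjoin (IntermediateField.adjoin Ω S) {x i} := by
    intro z hz
    refine IntermediateField.adjoin_induction Ω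
      (p := fun z _ => z ∈ IntermediateField.adjoin (IntermediateField.adjoin Ω S) {x i}) ?_ ?_
      (fun a b _ _ ha hb => add_mem ha hb) (fun a _ ha => inv_mem ha)
      (fun a b _ _ ha hb => mul_mem ha hb) hz
    · rintro w ⟨t, rfl⟩
      by_cases ht : t.1 = i
      · refine IntermediateField.subset_adjoin _ _ ?_
        rw [Set.mem_singleton_iff]
        exact congrArg x ht
      · have h1 : x t.1 ∈ IntermediateField.adjoin Ω S :=
          IntermediateField.subset_adjoin _ _ ⟨t, ht, rfl⟩
        exact (IntermediateField.adjoin (IntermediateField.adjoin Ω S) {x i}).algebraMap_mem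
          ⟨x t.1, h1⟩
    · intro a
      exact (IntermediateField.adjoin (IntermediateField.adjoin Ω S) {x i}).algebraMap_mem
        (algebraMap Ω (IntermediateField.adjoin Ω S) a)
  have halg : Algebra.IsAlgebraic
      (IntermediateField.adjoin (IntermediateField.adjoin Ω S) {x i}) L := by
    refine ⟨fun z => ?_⟩
    obtain ⟨P, hP, hP0⟩ := h.alg.isAlgebraic z
    have hcomm : ∀ w : IntermediateField.adjoin Ω
        (Set.range fun t : {t : B // t ≠ r} => x t), (w : L) ∈
        IntermediateField.adjoin (IntermediateField.adjoin Ω S) {x i} := fun w => hle w.1 w.2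
    let φ : IntermediateField.adjoin Ω (Set.range fun t : {t : B // t ≠ r} => x t) →+*
        IntermediateField.adjoin (IntermediateField.adjoin Ω S) {x i} :=
      { toFun := fun w => ⟨w.1, hcomm w⟩
        map_one' := rfl
        map_mul' := fun _ _ => rfl
        map_zero' := rfl
        map_add' := fun _ _ => rfl }
    refine ⟨P.map φ, ?_, ?_⟩
    · rw [Polynomial.map_ne_zero_iff φ.injective]
      exact hP
    · rw [Polynomial.aeval_def, Polynomial.eval₂_map]
      rw [Polynomial.aeval_def] at hP0
      exact hP0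
  rcases hq i with ⟨hqi, hqd⟩ | hqi
  · have hγ := exactness (x i) (y i) htr halg
      ((q i).map (algebraMap Ω (IntermediateField.adjoin Ω S)))
      (by rw [Polynomial.natDegree_map]; exact hqd)
      (hqi.map.squarefree)
      (by rw [Polynomial.aeval_map_algebraMap]; exact h.sq i) E hkill
      (by rw [hEx i hi, if_pos rfl]) ψ (algebraMap Ω (IntermediateField.adjoin Ω S) (δ (c i)))
      (by rw [hbr]; rfl)
    exact (algebraMap Ω (IntermediateField.adjoin Ω S)).injective (hγ.trans (map_zero _).symm)
  · have hsq : y i ^ 2 = x i ^ 2 := by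
      rw [h.sq i, hqi, map_pow, Polynomial.aeval_X]
    have hγ := exactness_tor (x i) (y i) htr halg hsq E hkill
      (by rw [hEx i hi, if_pos rfl]) ψ (algebraMap Ω (IntermediateField.adjoin Ω S) (δ (c i)))
      (by rw [hbr]; rfl)
    exact (algebraMap Ω (IntermediateField.adjoin Ω S)).injective (hγ.trans (map_zero _).symm)

end Pool.Agent.Lib.MP_17a322_nt.VG
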