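import Pool.Agent.Lib.MP_17a322_nt.VN.E13
import Pool.Agent.Lib.MP_17a322_nt.VG.E16
import Pool.Agent.Lib.MP_17a322_nt.VN.E17a

/-!
Fields of definition: the coefficients of `g` are algebraic over the field generated by any zero.
-/

universe u

namespace Pool.Agent.Lib.MP_17a322_nt.VG

open MvPolynomial
open Pool.Agent.Lib.MP_17a322_nt.VN

private theorem E17_map_aeval {K k : Type*} {Ω : Type*} {B : Type*} [Field K] [Field k]
    [Field Ω] [Algebra K k] [Algebra k Ω] [Algebra K Ω] [IsScalarTower K k Ω]
    (P : Polynomial K) (l : B) :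
    map (algebraMap k Ω) (Polynomial.aeval (X l : MvPolynomial B k) P) =
      Polynomial.aeval (X l : MvPolynomial B Ω) (P.map (algebraMap K Ω)) := by
  rw [Polynomial.aeval_def, Polynomial.aeval_def, Polynomial.hom_eval₂, Polynomial.eval₂_map,
    map_X]
  congr 1
  ext a : 1
  change map (algebraMap k Ω) (algebraMap K (MvPolynomial B k) a) =
    algebraMap Ω (MvPolynomial B Ω) (algebraMap K Ω a)
  rw [MvPolynomial.algebraMap_apply, MvPolynomial.algebraMap_apply, map_C,
    ← IsScalarTower.algebraMap_apply, Algebra.algebraMap_self_apply]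

/-- Field of definition. Proof. Let `G = map g` over `Ω`, `q t = (Q t).map (algebraMap K Ω)`, separable of the
same degree, `E = K(p)`. If `G.degreeOf i = 0` for all `i ≠ r` use `FD_one`. Otherwise take a generic point by
`exists_GP` (E13; the slope condition is the image of `hc`) and use `isAlgebraic_of_derivation` (E5) over
the field `E`: every derivation `δ` of `Ω` that kills `E` kills the coefficients of the `q t` and the `p t`, so it
kills the coefficients of `G` by `psi_zero` (E16). -/
theorem FD {K k : Type*} {Ω : Type u} {B : Type} [Fintype B] [Field K] [CharZero K] [Field k]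
    [Field Ω] [IsAlgClosed Ω] [Algebra K k] [Algebra k Ω] [Algebra K Ω] [IsScalarTower K k Ω]
    (Q : B → Polynomial K) (r : B)
    (g : MvPolynomial B k) (hg : Irreducible (map (algebraMap k Ω) g)) (hr : g.degreeOf r ≠ 0)
    (m₀ : B →₀ ℕ) (hm : coeff m₀ g = 1) (c : B → k)
    (hc : ∀ l, l ≠ r → g ∣ Polynomial.aeval (X l : MvPolynomial B k) (Q l) * pderiv l g ^ 2 -
      C (c l ^ 2) * (Polynomial.aeval (X r : MvPolynomial B k) (Q r) * pderiv r g ^ 2))
    (p : B → Ω) (hQ : ∀ t, (Squarefree (Q t) ∧ 3 ≤ (Q t).natDegree) ∨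
      (Q t = Polynomial.X ^ 2 ∧ p t ≠ 0)) (hp : aeval p g = 0) (m : B →₀ ℕ) :
    IsAlgebraic (IntermediateField.adjoin K (Set.range p)) (algebraMap k Ω (coeff m g)) := by
  classical
  have hΩ0 : CharZero Ω := charZero_of_injective_algebraMap (algebraMap K Ω).injective
  set E := IntermediateField.adjoin K (Set.range p) with hE
  have hE0 : CharZero E := charZero_of_injective_algebraMap (algebraMap K E).injective
  have hpE : ∀ t, p t ∈ E := fun t =>
    IntermediateField.subset_adjoin K (Set.range p) (Set.mem_range_self t)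
  set G : MvPolynomial B Ω := map (algebraMap k Ω) g with hGdef
  have hinj : Function.Injective (algebraMap k Ω) := (algebraMap k Ω).injective
  have hdeg : ∀ i, G.degreeOf i = g.degreeOf i := fun i => by
    rw [degreeOf_def, degreeOf_def, hGdef, degrees_map_of_injective g hinj]
  have hcoef : ∀ n, coeff n G = algebraMap k Ω (coeff n g) := fun n => coeff_map _ _ _
  have hm' : coeff m₀ G = 1 := by rw [hcoef, hm, map_one]
  have hp' : eval p G = 0 := by
    rw [hGdef, eval_map]
    exact hp
  rw [← hcoef]
  by_cases hone : ∀ i, i ≠ r → G.degreeOf i = 0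
  · have hmem := FD_one r G hg hone m₀ hm' p hp' E.toSubfield (hpE r) m
    exact isAlgebraic_algebraMap (⟨coeff m G, hmem⟩ : E)
  · push Not at hone
    obtain ⟨i, hir, hi⟩ := hone
    set q : B → Polynomial Ω := fun t => (Q t).map (algebraMap K Ω) with hq
    have hqs : ∀ t, ((q t).Separable ∧ 3 ≤ (q t).natDegree) ∨
        (q t = Polynomial.X ^ 2 ∧ p t ≠ 0) := fun t => by
      rcases hQ t with ⟨h1, h2⟩ | ⟨h1, h2⟩
      · refine Or.inl ⟨(PerfectField.separable_iff_squarefree.mpr h1).map, ?_⟩
        rw [hq]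
        change 3 ≤ ((Q t).map (algebraMap K Ω)).natDegree
        rw [Polynomial.natDegree_map]
        exact h2
      · refine Or.inr ⟨?_, h2⟩
        rw [hq]
        change (Q t).map (algebraMap K Ω) = Polynomial.X ^ 2
        rw [h1, Polynomial.map_pow, Polynomial.map_X]
    have hq0 : ∀ t, q t ≠ 0 := fun t h0 => by
      rcases hqs t with ⟨_, h2⟩ | ⟨h1, _⟩
      · rw [h0, Polynomial.natDegree_zero] at h2
        omega
      · rw [h0] at h1
        exact pow_ne_zero 2 Polynomial.X_ne_zero h1.symm
    have hr' : G.degreeOf r ≠ 0 := by rw [hdeg]; exact hr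
    have hpd : ∀ l, pderiv l G = map (algebraMap k Ω) (pderiv l g) := fun l => by
      rw [hGdef, pderiv_map]
    have hc' : ∀ l, l ≠ r → G ∣ Polynomial.aeval (X l : MvPolynomial B Ω) (q l) * pderiv l G ^ 2 -
        C ((algebraMap k Ω (c l)) ^ 2) *
          (Polynomial.aeval (X r : MvPolynomial B Ω) (q r) * pderiv r G ^ 2) := by
      intro l hl
      have h1 := map_dvd (map (algebraMap k Ω)) (hc l hl)
      simp only [map_sub, map_mul, map_pow, map_C, E17_map_aeval, ← hpd] at h1
      simp only [map_pow]
      exact h1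
    obtain ⟨L, _, _, x, y, h⟩ := exists_GP q hq0 r G hg hr' i hir hi
      (fun l => algebraMap k Ω (c l)) hc'
    refine isAlgebraic_of_derivation (k := E) (coeff m G) fun D hD => ?_
    have hDE : ∀ z ∈ E, D z = 0 := fun z hz => hD ⟨z, hz⟩
    refine psi_zero h hg p hqs m₀ hm' D ?_ hp' (fun t => hDE _ (hpE t)) m
    intro t n
    have hco : (q t).coeff n = algebraMap K Ω ((Q t).coeff n) := Polynomial.coeff_map _ _
    rw [hco]
    exact hDE _ (E.algebraMap_mem _)

end Pool.Agent.Lib.MP_17a322_nt.VG
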