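import Pool.Agent.Lib.MP_17a322_nt.VN.E22
import Pool.Agent.Lib.MP_17a322_nt.VG.E17
import Pool.Agent.Lib.MP_17a322_nt.VG.E18
import Pool.Agent.Lib.MP_17a322_nt.VG.E21

/-!
The field theoretic end, elliptic and torus coordinates.
-/

universe u

namespace Pool.Agent.Lib.MP_17a322_nt.VG

open MvPolynomial
open Pool.Agent.Lib.MP_17a322_nt.VN hiding END FD elim_point END_relation

/-- The end: pure field theory. -/
theorem END {K F : Type u} [Field K] [Field F] [CharZero K] [Algebra K F]
    (k : IntermediateField K F) (hk : ∀ a : F, IsAlgebraic k a → a ∈ k) {n : ℕ}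
    (Tr : Finset (Fin n)) (Q : Fin n → Polynomial K) (hQ : ∀ t ∉ Tr, Squarefree (Q t))
    (hQd : ∀ t ∉ Tr, 3 ≤ (Q t).natDegree) (hQT : ∀ t ∈ Tr, Q t = Polynomial.X ^ 2)
    (s y : Fin n → F) (hy : ∀ t, y t ^ 2 = Polynomial.aeval (s t) (Q t))
    (hs : AlgebraicIndependent K s) (J : Finset (Fin n))
    (hJ : AlgebraicIndependent k fun t : J => s t)
    (hJ' : ∀ t, IsAlgebraic (Algebra.adjoin k (s '' J)) (s t))
    (hsl : ∀ r ∉ J, ∀ g : MvPolynomial (Fin n) k, Irreducible g → g.vars ⊆ insert r J →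
      aeval s g = 0 → ∀ l ∈ J,
        aeval s (pderiv l g) * y l / (aeval s (pderiv r g) * y r) ∈ k)
    (f g : MvPolynomial (Fin n) K) (hfg : IsRelPrime f g) :
    ∃ (M : ℕ) (f' g' A B A' B' : MvPolynomial (Fin n) k), f'.vars ⊆ J ∧ g'.vars ⊆ J ∧
      IsRelPrime f' g' ∧
      (∏ t ∈ Tr, s t) ^ M * aeval s f' = aeval s A * aeval s f + aeval s B * aeval s g ∧
      (∏ t ∈ Tr, s t) ^ M * aeval s g' = aeval s A' * aeval s f + aeval s B' * aeval s g := by
  classical
  rcases J.eq_empty_or_nonempty with hJe | ⟨i₀, hi₀⟩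
  · subst hJe
    have hsk : ∀ t, s t ∈ k := ?_
    · obtain ⟨f', g', A, B, A', B', h1, h2, h3, h4, h5⟩ := END_empty k s hs hsk f g hfg
      exact ⟨0, f', g', A, B, A', B', h1, h2, h3, by rw [pow_zero, one_mul]; exact h4,
        by rw [pow_zero, one_mul]; exact h5⟩
    intro t
    refine hk _ ?_
    have h1 := hJ' t
    have h2 : Algebra.adjoin k (s '' ((∅ : Finset (Fin n)) : Set (Fin n))) = ⊥ := by
      rw [Finset.coe_empty, Set.image_empty, Algebra.adjoin_empty]
    rw [h2] at h1
    have h3 : Algebra.IsAlgebraic k (⊥ : Subalgebra k F) := by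
      refine ⟨fun x => ?_⟩
      obtain ⟨a, ha⟩ := Algebra.mem_bot.mp x.2
      have : x = algebraMap k (⊥ : Subalgebra k F) a := Subtype.ext ha.symm
      rw [this]
      exact isAlgebraic_algebraMap a
    exact h1.restrictScalars k
  have hQ0 : ∀ t, Q t ≠ 0 := by
    intro t h0
    by_cases ht : t ∈ Tr
    · rw [hQT t ht] at h0
      exact pow_ne_zero 2 Polynomial.X_ne_zero h0
    · have := hQd t ht
      rw [h0, Polynomial.natDegree_zero] at this
      omega
  have hR := fun r (hr : r ∉ J) => END_relation k hk Q hQ0 s y hy hs J hJ hJ' hsl r hr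
  choose G m₀ c hG1 hG2 hG3 hG4 hG5 using hR
  set T : Set (MvPolynomial (Fin n) k) :=
    {a | a = map (algebraMap K k) f ∨ a = map (algebraMap K k) g ∨
      ∃ (r : Fin n) (hr : r ∉ J), a = rename Subtype.val (G r hr)} with hT
  have hTs : ∀ a ∈ T, a = map (algebraMap K k) f ∨ a = map (algebraMap K k) g ∨
      aeval s a = 0 := by
    rintro a (h | h | ⟨r, hr, h⟩)
    · exact Or.inl h
    · exact Or.inr (Or.inl h)
    · right; right
      rw [h, aeval_rename]
      exact hG4 r hr
  set ι : MvPolynomial J k →+* MvPolynomial (Fin n) k :=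
    (rename (Subtype.val : J → Fin n) : MvPolynomial J k →ₐ[k] MvPolynomial (Fin n) k).toRingHom
    with hι
  set π : MvPolynomial (Fin n) k := ∏ t ∈ Tr, X t with hπ
  have hπs : aeval s π = ∏ t ∈ Tr, s t := by
    rw [hπ, map_prod]
    exact Finset.prod_congr rfl fun t _ => aeval_X s t
  let N : Ideal (MvPolynomial J k) :=
    { carrier := {a | ∃ M : ℕ, π ^ M * ι a ∈ Ideal.span T}
      add_mem' := by
        rintro a b ⟨M, hM⟩ ⟨M', hM'⟩
        refine ⟨M + M', ?_⟩
        have e : π ^ (M + M') * ι (a + b) = π ^ M' * (π ^ M * ι a) + π ^ M * (π ^ M' * ι b) := by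
          rw [map_add, pow_add]
          ring
        rw [e]
        exact add_mem (Ideal.mul_mem_left _ _ hM) (Ideal.mul_mem_left _ _ hM')
      zero_mem' := ⟨0, by rw [map_zero, mul_zero]; exact zero_mem _⟩
      smul_mem' := by
        rintro c a ⟨M, hM⟩
        refine ⟨M, ?_⟩
        have e : π ^ M * ι (c • a) = ι c * (π ^ M * ι a) := by
          rw [smul_eq_mul, map_mul]
          ring
        rw [e]
        exact Ideal.mul_mem_left _ _ hM }
  rcases avoidance N (X (⟨i₀, hi₀⟩ : J)) X_prime.irreducible with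
    ⟨f', ⟨M, hf'⟩, g', ⟨M', hg'⟩, hrel⟩ | ⟨h, hh, hI⟩
  · obtain ⟨A, B, hAB⟩ := END_comb k s f g T hTs (π ^ (M + M') * ι f') (by
      rw [add_comm, pow_add, mul_assoc]
      exact Ideal.mul_mem_left _ _ hf')
    obtain ⟨A', B', hAB'⟩ := END_comb k s f g T hTs (π ^ (M + M') * ι g') (by
      rw [pow_add, mul_assoc]
      exact Ideal.mul_mem_left _ _ hg')
    rw [map_mul, map_pow, hπs] at hAB hAB'
    refine ⟨M + M', ι f', ι g', A, B, A', B', ?_, ?_, ?_, hAB, hAB'⟩
    · intro t ht
      obtain ⟨a, ha, rfl⟩ := Finset.mem_image.mp (vars_rename (Subtype.val : J → Fin n) f' ht)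
      exact a.2
    · intro t ht
      obtain ⟨a, ha, rfl⟩ := Finset.mem_image.mp (vars_rename (Subtype.val : J → Fin n) g' ht)
      exact a.2
    · exact rename_isRelPrime (Subtype.val : J → Fin n) Subtype.val_injective f' g' hrel
  · exfalso
    obtain ⟨Ω, _, _, _, p, i, hiJ, hp0, hpT, hpi⟩ := elim_point Tr J (Ideal.span T) h hh
      (fun a M ha => hI a ⟨M, ha⟩)
    let _ : Algebra K Ω := ((algebraMap k Ω).comp (algebraMap K k)).toAlgebra
    have : IsScalarTower K k Ω := IsScalarTower.of_algebraMap_eq (fun _ => rfl)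
    set V : Set k := {v | ∃ (r : Fin n) (hr : r ∉ J) (m : _ →₀ ℕ), v = coeff m (G r hr)} with hV
    have hpV : ∀ v ∈ V,
        IsAlgebraic (IntermediateField.adjoin K (Set.range p)) (algebraMap k Ω v) := by
      rintro v ⟨r, hr, m, rfl⟩
      have h1 := FD (K := K) (k := k) (Ω := Ω) (B := {t : Fin n // t ∈ insert r J})
        (fun t => Q t) ⟨r, Finset.mem_insert_self r J⟩
        (G r hr) (hG1 r hr Ω) (hG3 r hr) (m₀ r hr) (hG2 r hr) (c r hr) (hG5 r hr)
        (fun t => p t) (by
          intro t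
          by_cases ht : t.1 ∈ Tr
          · exact Or.inr ⟨hQT t ht, hpT t ht⟩
          · exact Or.inl ⟨hQ t ht, hQd t ht⟩) (by
          have h2 := hp0 (rename Subtype.val (G r hr))
            (Ideal.subset_span (Or.inr (Or.inr ⟨r, hr, rfl⟩)))
          rw [aeval_rename] at h2
          exact h2) m
      refine isAlgebraic_of_le (IntermediateField.adjoin.mono K _ _ ?_) h1
      rintro _ ⟨t, rfl⟩
      exact ⟨t, rfl⟩
    have hsV : ∀ t, IsAlgebraic
        (IntermediateField.adjoin K (algebraMap k F '' V ∪ s '' J)) (s t) := by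
      intro t
      by_cases ht : t ∈ J
      · exact isAlgebraic_algebraMap (⟨s t, IntermediateField.subset_adjoin K _
          (Or.inr ⟨t, ht, rfl⟩)⟩ : IntermediateField.adjoin K (algebraMap k F '' V ∪ s '' J))
      · exact algebraic_of_relation s J hJ t ht (G t ht) (hG3 t ht) (hG4 t ht) V
          (fun m => ⟨t, ht, m, rfl⟩)
    obtain ⟨j, hj⟩ := count V J s hs hsV p i hiJ hpi hpV
    refine no_common_zero f g hfg p j hj ?_ ?_
    · have h1 := hp0 _ (Ideal.subset_span (Or.inl rfl))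
      rwa [aeval_map_algebraMap] at h1
    · have h1 := hp0 _ (Ideal.subset_span (Or.inr (Or.inl rfl)))
      rwa [aeval_map_algebraMap] at h1

end Pool.Agent.Lib.MP_17a322_nt.VG
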