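import Pool.Agent.Lib.MP_17a322_nt.VN.E7

/-!
The invariant differential of a torus coordinate is not exact.
-/

namespace Pool.Agent.Lib.MP_17a322_nt.VG

open Polynomial
open Pool.Agent.Lib.MP_17a322_nt.VN

/-- Elements of `Ω(x)` as quotients of coprime polynomials. -/
private theorem E7_frac {Ω L : Type*} [Field Ω] [Field L] [Algebra Ω L] (x : L)
    (hx : Transcendental Ω x) (b : L) (hb : b ∈ IntermediateField.adjoin Ω {x}) :
    ∃ u v : Polynomial Ω, v ≠ 0 ∧ IsCoprime u v ∧ aeval x v ≠ 0 ∧ b = aeval x u / aeval x v := by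
  classical
  rw [IntermediateField.mem_adjoin_simple_iff] at hb
  obtain ⟨r, s, hb⟩ := hb
  by_cases hs : s = 0
  · refine ⟨0, 1, one_ne_zero, isCoprime_zero_left.2 isUnit_one, ?_, ?_⟩
    · rw [map_one]
      exact one_ne_zero
    · rw [hb, hs, map_zero, div_zero, zero_div]
  · letI := EuclideanDomain.gcdMonoid (Polynomial Ω)
    have hg : GCDMonoid.gcd r s ≠ 0 := gcd_ne_zero_of_right hs
    have h1 : GCDMonoid.gcd r s * (r / GCDMonoid.gcd r s) = r :=
      EuclideanDomain.mul_div_cancel' hg (gcd_dvd_left _ _)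
    have h2 : GCDMonoid.gcd r s * (s / GCDMonoid.gcd r s) = s :=
      EuclideanDomain.mul_div_cancel' hg (gcd_dvd_right _ _)
    have hv : s / GCDMonoid.gcd r s ≠ 0 := by
      intro h0
      rw [h0, mul_zero] at h2
      exact hs h2.symm
    have hne : ∀ f : Polynomial Ω, f ≠ 0 → aeval x f ≠ 0 := fun f hf h0 => hx ⟨f, hf, h0⟩
    refine ⟨r / GCDMonoid.gcd r s, s / GCDMonoid.gcd r s, hv, isCoprime_div_gcd_div_gcd hs,
      hne _ hv, ?_⟩
    have h3 : aeval x r = aeval x (GCDMonoid.gcd r s) * aeval x (r / GCDMonoid.gcd r s) := by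
      rw [← map_mul, h1]
    have h4 : aeval x s = aeval x (GCDMonoid.gcd r s) * aeval x (s / GCDMonoid.gcd r s) := by
      rw [← map_mul, h2]
    rw [hb, h3, h4, mul_div_mul_left _ _ (hne _ hg)]

/-- The derivation on polynomials in `x`. -/
private theorem E7_poly {Ω L : Type*} [Field Ω] [Field L] [Algebra Ω L] (x ψ : L)
    (D : Derivation ℤ L L) (hD : ∀ a : Ω, D (algebraMap Ω L a) = 0) (hDx : D x = ψ)
    (f : Polynomial Ω) : D (aeval x f) = aeval x (derivative f) * ψ := by
  induction f using Polynomial.induction_on' with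
  | add f g hf hg => rw [map_add, map_add, hf, hg, derivative_add, map_add, add_mul]
  | monomial n a =>
    rw [derivative_monomial, aeval_monomial, aeval_monomial, Derivation.leibniz, hD, smul_zero,
      add_zero, Derivation.leibniz_pow, hDx, smul_eq_mul, smul_eq_mul, nsmul_eq_mul, map_mul,
      map_natCast]
    ring

/-- The derivation on `Ω(x)`. -/
private theorem E7_div {Ω L : Type*} [Field Ω] [Field L] [Algebra Ω L] (x ψ : L)
    (D : Derivation ℤ L L) (hD : ∀ a : Ω, D (algebraMap Ω L a) = 0) (hDx : D x = ψ)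
    (u v : Polynomial Ω) (hv : aeval x v ≠ 0) :
    D (aeval x u / aeval x v) =
      (aeval x (derivative u * v - u * derivative v) / aeval x v ^ 2) * ψ := by
  rw [Derivation.leibniz_div, E7_poly x ψ D hD hDx, E7_poly x ψ D hD hDx, map_sub, map_mul, map_mul]
  simp only [smul_eq_mul]
  field_simp

/-- There is no rational function `f` with `x f' = γ ≠ 0`. -/
theorem no_rational_log {Ω : Type*} [Field Ω] [CharZero Ω] (u v : Polynomial Ω) (hv : v ≠ 0)
    (huv : IsCoprime u v) (γ : Ω)
    (h : X * (derivative u * v - u * derivative v) = C γ * v ^ 2) : γ = 0 := by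
  obtain ⟨m, w, hw, hvw⟩ : ∃ (m : ℕ) (w : Polynomial Ω), w.eval 0 ≠ 0 ∧ v = X ^ m * w := by
    obtain ⟨w, hw, hnd⟩ := exists_eq_pow_rootMultiplicity_mul_and_not_dvd v hv 0
    refine ⟨v.rootMultiplicity 0, w, ?_, ?_⟩
    · intro h0
      exact hnd (dvd_iff_isRoot.2 h0)
    · rw [C_0, sub_zero] at hw
      exact hw
  subst hvw
  rcases Nat.eq_zero_or_pos m with hm | hm
  · subst hm
    have h1 := congrArg (eval 0) h
    simp only [eval_mul, eval_X, zero_mul, eval_C, pow_zero, one_mul, eval_pow] at h1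
    rcases mul_eq_zero.1 h1.symm with h2 | h2
    · exact h2
    · exact absurd (pow_eq_zero_iff (two_ne_zero)|>.1 h2) hw
  · exfalso
    obtain ⟨l, rfl⟩ : ∃ l, m = l + 1 := ⟨m - 1, by omega⟩
    have h1 : X ^ (l + 1) * (X * derivative u * w - C ((l : Ω) + 1) * u * w -
        X * u * derivative w) = X ^ (l + 1) * (C γ * X ^ (l + 1) * w ^ 2) := by
      have h2 : derivative (X ^ (l + 1) * w) =
          C ((l : Ω) + 1) * X ^ l * w + X ^ (l + 1) * derivative w := by
        rw [derivative_mul, derivative_X_pow]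
        push_cast
        simp
      rw [h2] at h
      linear_combination h
    have h3 := mul_left_cancel₀ (pow_ne_zero (l + 1) X_ne_zero) h1
    have h4 := congrArg (eval 0) h3
    simp only [eval_mul, eval_sub, eval_X, zero_mul, eval_C, eval_pow, zero_sub, sub_zero,
      ne_eq, Nat.add_eq_zero_iff, one_ne_zero, and_false, not_false_eq_true, zero_pow,
      mul_zero] at h4
    have h5 : (l : Ω) + 1 ≠ 0 := Nat.cast_add_one_ne_zero l
    have h6 : eval 0 u = 0 := by
      have := neg_eq_zero.1 h4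
      rcases mul_eq_zero.1 this with h7 | h7
      · exact (mul_eq_zero.1 h7).resolve_left h5
      · exact absurd h7 hw
    obtain ⟨a, b, hab⟩ := huv
    have h8 := congrArg (eval 0) hab
    simp [h6] at h8

/-- Exactness for a torus coordinate. -/
theorem exactness_tor {Ω L : Type*} [Field Ω] [CharZero Ω] [Field L] [Algebra Ω L] (x ψ : L)
    (hx : Transcendental Ω x) (hL : Algebra.IsAlgebraic (IntermediateField.adjoin Ω {x}) L)
    (hψ : ψ ^ 2 = x ^ 2) (D : Derivation ℤ L L) (hD : ∀ a : Ω, D (algebraMap Ω L a) = 0)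
    (hDx : D x = ψ) (κ : L) (γ : Ω) (hκ : D κ = algebraMap Ω L γ) : γ = 0 := by
  have hchar : CharZero L := charZero_of_injective_algebraMap (algebraMap Ω L).injective
  have hx0 : x ≠ 0 := by
    rintro rfl
    exact hx (isAlgebraic_zero)
  have hpE : ∀ f : Polynomial Ω, aeval x f ∈ IntermediateField.adjoin Ω {x} := fun f => by
    rw [IntermediateField.mem_adjoin_simple_iff]
    exact ⟨f, 1, by rw [map_one, div_one]⟩
  obtain ⟨e, he, hψe⟩ : ∃ e : Ω, e ≠ 0 ∧ ψ = algebraMap Ω L e * x := by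
    rcases sq_eq_sq_iff_eq_or_eq_neg.1 hψ with h | h
    · exact ⟨1, one_ne_zero, by rw [h, map_one, one_mul]⟩
    · exact ⟨-1, neg_ne_zero.2 one_ne_zero, by rw [h, map_neg, map_one, neg_one_mul]⟩
  have hDM : ∀ z ∈ (IntermediateField.adjoin Ω {x}).toSubfield,
      D z ∈ (IntermediateField.adjoin Ω {x}).toSubfield := by
    intro z hz
    obtain ⟨u, v, _, _, hv, rfl⟩ := E7_frac x hx z hz
    rw [E7_div x ψ D hD hDx u v hv, hψe]
    have h1 := hpE X
    rw [aeval_X] at h1
    exact mul_mem (div_mem (hpE _) (pow_mem (hpE v) 2))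
      (mul_mem (IntermediateField.algebraMap_mem _ e) h1)
  obtain ⟨κ', hκ'M, hκ'⟩ := exists_antiderivative (IntermediateField.adjoin Ω {x}).toSubfield
    D hDM κ _ (hL.isAlgebraic κ) (IntermediateField.algebraMap_mem _ γ) hκ
  obtain ⟨u, v, hv0, huv, hv, rfl⟩ := E7_frac x hx κ' hκ'M
  rw [E7_div x ψ D hD hDx u v hv, hψe] at hκ'
  have hkey : aeval x (X * (derivative u * v - u * derivative v)) =
      aeval x (C (γ * e⁻¹) * v ^ 2) := by
    have he' : algebraMap Ω L e ≠ 0 := by
      rw [Ne, map_eq_zero]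
      exact he
    rw [map_mul, aeval_X, map_mul, aeval_C, map_pow, map_mul, map_inv₀, ← hκ']
    field_simp
  have hpoly := (transcendental_iff_injective.1 hx) hkey
  have h0 := no_rational_log u v hv0 huv _ hpoly
  rcases mul_eq_zero.1 h0 with h | h
  · exact h
  · exact absurd (inv_eq_zero.1 h) he

end Pool.Agent.Lib.MP_17a322_nt.VG
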