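import Pool.Agent.Lib.MP_17a322_nt.VN.F1

/-!
VG, part F: the choice of the indices `a`, `b i` along the ultrafilter.
-/

namespace Pool.Agent.Lib.MP_17a322_nt.VG

open Filter Topology
open Pool.Agent.Lib.MP_17a322_nt.VN

/-- A bounded sequence in a proper space is close to its limit along the ultrafilter. -/
theorem exists_near {X : Type*} [PseudoMetricSpace X] [ProperSpace X] (x : ℕ → X) (x₀ : X) (R : ℝ)
    (h : ∀ᶠ i in (hyperfilter ℕ : Filter ℕ), dist (x i) x₀ ≤ R) {δ : ℝ} (hδ : 0 < δ) :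
    ∃ y : X, ∀ᶠ i in (hyperfilter ℕ : Filter ℕ), dist (x i) y ≤ δ := by
  have hc : IsCompact (Metric.closedBall x₀ R) := isCompact_closedBall _ _
  obtain ⟨y, -, hy⟩ := hc.ultrafilter_le_nhds ((hyperfilter ℕ).map x) (by
    rw [le_principal_iff]
    exact h)
  refine ⟨y, ?_⟩
  have h1 : ∀ᶠ z in ((hyperfilter ℕ).map x : Filter X), dist z y ≤ δ :=
    hy (Metric.closedBall_mem_nhds y hδ)
  exact h1

/-- `x = 4 ^ k * g` with `1 ≤ g ≤ 4`. -/
theorem F1_floor {x : ℝ} (hx : 1 ≤ x) :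
    ∃ k : ℕ, 1 ≤ x / 4 ^ k ∧ x / 4 ^ k ≤ 4 := by
  have h4 : (1 : ℝ) < 4 := by norm_num
  obtain ⟨k, h1, h2⟩ := exists_nat_pow_near hx h4
  refine ⟨k, ?_, ?_⟩
  · rw [le_div_iff₀ (by positivity), one_mul]
    exact h1
  · rw [div_le_iff₀ (by positivity)]
    rw [pow_succ] at h2
    linarith

/-- The choice of the indices. -/
theorem FR (H : ℕ → ℝ) (hH : Tendsto H (hyperfilter ℕ : Filter ℕ) atTop) (h : ℕ → ℝ)
    (hh : oH H h) (S : ℕ → Prop) (hS : ∀ᶠ i in (hyperfilter ℕ : Filter ℕ), S i) (m R₀ : ℕ)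
    (C₀ η : ℝ) (hη : 0 < η) :
    ∃ (a : ℕ) (b : Fin m → ℕ) (j : Fin m → ℕ), S a ∧ (∀ i, S (b i)) ∧ C₀ ≤ H a ∧ 0 < H a ∧
      (∀ i, R₀ ≤ 4 ^ j i) ∧ (∀ i i', i < i' → R₀ * 4 ^ j i ≤ 4 ^ j i') ∧
      (∀ i, h (b i) ≤ 4 ^ j i) ∧ (∀ i, 4 ^ j i * H a ≤ 2 * H (b i)) ∧
      (∀ i, H (b i) ≤ 2 * (4 ^ j i * H a)) ∧
      (∀ i, |H (b i) - 4 ^ j i * H a| ≤ η * (4 ^ j i * H a)) := by
  classical
  -- the scale
  have hk : ∀ i, ∃ k : ℕ, 1 ≤ H i → 1 ≤ H i / 4 ^ k ∧ H i / 4 ^ k ≤ 4 := by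
    intro i
    by_cases hi : 1 ≤ H i
    · obtain ⟨k, h1, h2⟩ := F1_floor hi
      exact ⟨k, fun _ => ⟨h1, h2⟩⟩
    · exact ⟨0, fun h => absurd h hi⟩
  choose k hk using hk
  obtain ⟨δ, hδ0, hδη, hδ1⟩ : ∃ δ : ℝ, 0 < δ ∧ 4 * δ ≤ η ∧ 4 * δ ≤ 1 :=
    ⟨min (η / 4) (1 / 4), by positivity, by
      have := min_le_left (η / 4) (1 / 4 : ℝ); linarith, by
      have := min_le_right (η / 4) (1 / 4 : ℝ); linarith⟩
  obtain ⟨g, hg⟩ := exists_near (fun i => H i / 4 ^ k i) 0 4 (by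
    filter_upwards [hH.eventually_ge_atTop 1] with i hi
    rw [Real.dist_eq, sub_zero, abs_le]
    have := hk i hi
    constructor <;> linarith) (half_pos hδ0)
  obtain ⟨G, hG⟩ : ∃ G : ℕ → Prop, ∀ i, G i ↔ S i ∧ 1 ≤ H i ∧ dist (H i / 4 ^ k i) g ≤ δ / 2 :=
    ⟨_, fun _ => Iff.rfl⟩
  have hGev : ∀ᶠ i in (hyperfilter ℕ : Filter ℕ), G i := by
    filter_upwards [hS, hH.eventually_ge_atTop 1, hg] with i h1 h2 h3
    exact (hG i).mpr ⟨h1, h2, h3⟩
  -- two good indices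
  have key : ∀ a b, G a → G b → 4 * H a ≤ H b →
      ∃ j : ℕ, |H b - 4 ^ j * H a| ≤ η / 2 * H b ∧ |H b - 4 ^ j * H a| ≤ 1 / 2 * H b := by
    intro a b ha hb hab
    obtain ⟨-, ha1, ha2⟩ := (hG a).mp ha
    obtain ⟨-, hb1, hb2⟩ := (hG b).mp hb
    obtain ⟨ha3, ha4⟩ := hk a ha1
    obtain ⟨hb3, hb4⟩ := hk b hb1
    have pa : (0 : ℝ) < 4 ^ k a := by positivity
    have pb : (0 : ℝ) < 4 ^ k b := by positivity
    have hkk : k a ≤ k b := by
      by_contra hlt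
      push Not at hlt
      have h1 : (4 : ℝ) * 4 ^ k b ≤ 4 ^ k a := by
        calc (4 : ℝ) * 4 ^ k b = 4 ^ (k b + 1) := by rw [pow_succ]; ring
          _ ≤ 4 ^ k a := pow_le_pow_right₀ (by norm_num) hlt
      rw [div_le_iff₀ pb] at hb4
      rw [le_div_iff₀ pa, one_mul] at ha3
      linarith
    refine ⟨k b - k a, ?_⟩
    have hpow : (4 : ℝ) ^ (k b - k a) * 4 ^ k a = 4 ^ k b := by
      rw [← pow_add, Nat.sub_add_cancel hkk]
    have hHa : (4 : ℝ) ^ (k b - k a) * H a = 4 ^ k b * (H a / 4 ^ k a) := by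
      rw [← hpow]
      field_simp
    have hHb : H b = 4 ^ k b * (H b / 4 ^ k b) := by field_simp
    have hdist : |H b / 4 ^ k b - H a / 4 ^ k a| ≤ δ := by
      have h1 := dist_triangle_right (H b / 4 ^ k b) (H a / 4 ^ k a) g
      rw [Real.dist_eq] at h1
      linarith
    have hle : 4 ^ k b ≤ H b := by
      rw [le_div_iff₀ pb, one_mul] at hb3
      exact hb3
    have hmain : |H b - 4 ^ (k b - k a) * H a| ≤ δ * H b := by
      have h1 : H b - 4 ^ (k b - k a) * H a = 4 ^ k b * (H b / 4 ^ k b - H a / 4 ^ k a) := by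
        rw [mul_sub, ← hHa, ← hHb]
      rw [h1, abs_mul, abs_of_pos pb, mul_comm]
      exact mul_le_mul hdist hle pb.le hδ0.le
    have hb0 : 0 ≤ H b := by linarith
    constructor
    · refine hmain.trans (mul_le_mul_of_nonneg_right ?_ hb0)
      linarith
    · refine hmain.trans (mul_le_mul_of_nonneg_right ?_ hb0)
      linarith
  -- the first index
  obtain ⟨a, haG, haC⟩ := (hGev.and (hH.eventually_ge_atTop C₀)).exists
  have ha1 : 1 ≤ H a := ((hG a).mp haG).2.1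
  -- the other indices
  obtain ⟨M, hM1, hM2⟩ : ∃ M : ℝ, 4 ≤ M ∧ 4 * (R₀ : ℝ) ≤ M :=
    ⟨max 4 (4 * R₀), le_max_left _ _, le_max_right _ _⟩
  have hnext : ∀ x : ℝ, ∃ b, G b ∧ M * x ≤ H b ∧ h b ≤ 1 / (2 * H a) * H b := fun x =>
    (hGev.and ((hH.eventually_ge_atTop (M * x)).and (hh (1 / (2 * H a)) (by positivity)))).exists
  choose nx hnxG hnxM hnxh using hnext
  obtain ⟨β, hβ0, hβS⟩ : ∃ β : ℕ → ℕ, β 0 = nx (H a) ∧ ∀ i, β (i + 1) = nx (H (β i)) :=
    ⟨fun i => Nat.rec (nx (H a)) (fun _ b => nx (H b)) i, rfl, fun _ => rfl⟩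
  have hβG : ∀ i, G (β i) := by
    intro i
    cases i with
    | zero => rw [hβ0]; exact hnxG _
    | succ i => rw [hβS]; exact hnxG _
  have hβh : ∀ i, h (β i) ≤ 1 / (2 * H a) * H (β i) := by
    intro i
    cases i with
    | zero => rw [hβ0]; exact hnxh _
    | succ i => rw [hβS]; exact hnxh _
  have hβ1 : ∀ i, 1 ≤ H (β i) := fun i => ((hG _).mp (hβG i)).2.1
  have hβM : ∀ i, M * H (β i) ≤ H (β (i + 1)) := by
    intro i
    rw [hβS]
    exact hnxM _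
  have hβa : ∀ i, M * H a ≤ H (β i) := by
    intro i
    induction i with
    | zero => rw [hβ0]; exact hnxM _
    | succ i ih =>
      have h1 := hβM i
      have h2 := hβ1 i
      nlinarith
  have hβmono : ∀ i i', i < i' → M * H (β i) ≤ H (β i') := by
    intro i i' hii
    induction i', hii using Nat.le_induction with
    | base => exact hβM i
    | succ i' hi' ih =>
      have h1 := hβM i'
      have h2 := hβ1 i'
      nlinarith
  have hj : ∀ i, ∃ j : ℕ, |H (β i) - 4 ^ j * H a| ≤ η / 2 * H (β i) ∧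
      |H (β i) - 4 ^ j * H a| ≤ 1 / 2 * H (β i) := by
    intro i
    refine key a (β i) haG (hβG i) ?_
    have h1 := hβa i
    nlinarith
  choose j hj1 hj2 using hj
  have hle : ∀ i, H (β i) ≤ 2 * (4 ^ j i * H a) ∧ 4 ^ j i * H a ≤ 2 * H (β i) := by
    intro i
    have h1 := abs_le.mp (hj2 i)
    have h2 := hβ1 i
    constructor <;> linarith [h1.1, h1.2]
  refine ⟨a, fun i => β i, fun i => j i, ((hG a).mp haG).1, fun i => ((hG _).mp (hβG i)).1, haC,
    by linarith, ?_, ?_, ?_, fun i => (hle i).2, fun i => (hle i).1, ?_⟩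
  · intro i
    have h1 := hβa i
    have h2 := (hle i).1
    have h3 : (R₀ : ℝ) ≤ 4 ^ j i := by
      have h4 : 4 * (R₀ : ℝ) * H a ≤ 2 * (4 ^ j i * H a) := by
        have := mul_le_mul_of_nonneg_right hM2 (show 0 ≤ H a by linarith)
        linarith
      have h5 : (2 * (R₀ : ℝ)) * H a ≤ 4 ^ j i * H a := by linarith
      have h6 := le_of_mul_le_mul_right h5 (by linarith)
      have h7 : (0 : ℝ) ≤ R₀ := Nat.cast_nonneg _
      linarith
    exact_mod_cast h3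
  · intro i i' hii
    have h1 := hβmono i i' hii
    have h2 := (hle i').1
    have h3 := (hle i).2
    have h3' : (4 : ℝ) ^ j i * H a ≤ 2 * H (β i) := h3
    have h4 : (R₀ : ℝ) * 4 ^ j i ≤ 4 ^ j i' := by
      have h5 : 4 * (R₀ : ℝ) * H (β i) ≤ 2 * (4 ^ j i' * H a) := by
        have := mul_le_mul_of_nonneg_right hM2 (show 0 ≤ H (β i) by linarith [hβ1 i])
        linarith
      have h6 : (R₀ : ℝ) * (4 ^ j i * H a) ≤ R₀ * (2 * H (β i)) :=
        mul_le_mul_of_nonneg_left h3' (Nat.cast_nonneg _)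
      have h7 : ((R₀ : ℝ) * 4 ^ j i) * H a ≤ 4 ^ j i' * H a := by linarith
      exact le_of_mul_le_mul_right h7 (by linarith)
    exact_mod_cast h4
  · intro i
    have h1 := hβh i
    have h2 := (hle i).1
    have h3 : 1 / (2 * H a) * H (β i) ≤ 1 / (2 * H a) * (2 * (4 ^ j i * H a)) :=
      mul_le_mul_of_nonneg_left h2 (by positivity)
    refine h1.trans (h3.trans (le_of_eq ?_))
    field_simp
  · intro i
    refine (hj1 i).trans ?_
    have h2 := (hle i).1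
    have h3 : η / 2 * H (β i) ≤ η / 2 * (2 * (4 ^ j i * H a)) :=
      mul_le_mul_of_nonneg_left h2 (by positivity)
    linarith

end Pool.Agent.Lib.MP_17a322_nt.VG
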