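import Pool.Agent.Lib.MP_17a322_nt.VG.F1
import Pool.Agent.Lib.MP_17a322_nt.VJ.K3
import Pool.Agent.Lib.MP_17a322_nt.VJ.MW4

/-!
VG, part F: the cone property for one elliptic coordinate.
-/

universe u

namespace Pool.Agent.Lib.MP_17a322_nt.VG

open Filter Topology Height
open Pool.Agent.Lib.MP_17a322_nt.VJ
open Pool.Agent.Lib.MP_17a322_nt.VN

/-- If `b` and `a` are in a suitable large set and `H b` is close to `4 ^ j * H a`, then
`P b - 2 ^ j P a` has small height. -/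
theorem cone_ell {K : Type u} [Field K] [NumberField K] [DecidableEq K] (W : WeierstrassCurve K)
    [W.IsElliptic] (P : ℕ → W.toAffine.Point) (H : ℕ → ℝ)
    (hH : Tendsto H (hyperfilter ℕ : Filter ℕ) atTop) (hle : ∀ i, logHeight (P i).xRep ≤ H i)
    {η : ℝ} (hη : 0 < η) :
    ∃ (η' : ℝ) (A : ℕ → Prop), 0 < η' ∧ (∀ᶠ i in (hyperfilter ℕ : Filter ℕ), A i) ∧
      ∀ (a b j : ℕ), A a → A b → |H b - 4 ^ j * H a| ≤ η' * H b →
        logHeight (P b - 2 ^ j • P a).xRep ≤ η * H b := by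
  obtain ⟨C, hC⟩ := RO.parallelogram W
  obtain ⟨q, C', hqC, hq0, hpar⟩ := RO.exists_quadratic
    (fun Q : W.toAffine.Point => logHeight Q.xRep) ⟨0, fun Q => logHeight_nonneg _⟩ C hC
  have hFG : AddGroup.FG W.toAffine.Point := mordell_weil W
  obtain ⟨r, φ, hφ⟩ := exists_euclid q hq0 hpar
  have hq : ∀ x, q x = ‖φ x‖ ^ 2 := by
    intro x
    have := hφ x 0 0
    simpa using this
  have hC'0 : 0 ≤ C' := (abs_nonneg _).trans (hqC 0)
  obtain ⟨δ, hδ0, hδ1, hδη⟩ : ∃ δ : ℝ, 0 < δ ∧ δ ≤ 1 ∧ 32 * δ ≤ η :=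
    ⟨min 1 (η / 32), by positivity, min_le_left _ _, by
      have := min_le_right 1 (η / 32); linarith⟩
  obtain ⟨x, hx⟩ : ∃ x : ℕ → EuclideanSpace ℝ (Fin r), ∀ i, x i = (√(H i))⁻¹ • φ (P i) :=
    ⟨_, fun _ => rfl⟩
  have hbig : ∀ᶠ i in (hyperfilter ℕ : Filter ℕ), max 1 (max C' (2 * C' / η)) ≤ H i :=
    hH.eventually_ge_atTop _
  have hnorm : ∀ i, max 1 (max C' (2 * C' / η)) ≤ H i → ‖x i‖ ≤ 2 := by
    intro i hi
    have h1 : 1 ≤ H i := (le_max_left _ _).trans hi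
    have h2 : C' ≤ H i := ((le_max_left _ _).trans (le_max_right _ _)).trans hi
    have h3 := abs_le.mp (hqC (P i))
    have h4 : ‖φ (P i)‖ ^ 2 ≤ 2 * H i := by
      rw [← hq]
      have := hle i
      linarith [h3.2]
    have hs : 0 < √(H i) := Real.sqrt_pos.mpr (by linarith)
    rw [hx, norm_smul, norm_inv, Real.norm_eq_abs, abs_of_pos hs, inv_mul_le_iff₀ hs]
    have h5 : √(H i) ^ 2 = H i := Real.sq_sqrt (by linarith)
    have h6 : ‖φ (P i)‖ ^ 2 ≤ (√(H i) * 2) ^ 2 := by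
      rw [mul_pow, h5]
      linarith
    exact (pow_le_pow_iff_left₀ (norm_nonneg _) (by positivity) two_ne_zero).mp h6
  obtain ⟨y, hy⟩ := exists_near x 0 2 (by
    filter_upwards [hbig] with i hi
    rw [dist_zero_right]
    exact hnorm i hi) (half_pos hδ0)
  refine ⟨δ, fun i => dist (x i) y ≤ δ / 2 ∧ max 1 (max C' (2 * C' / η)) ≤ H i, hδ0,
    hy.and hbig, ?_⟩
  rintro a b j ⟨ha1, ha2⟩ ⟨hb1, hb2⟩ hab
  have hHa : 1 ≤ H a := (le_max_left _ _).trans ha2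
  have hHb : 1 ≤ H b := (le_max_left _ _).trans hb2
  have hHbC : 2 * C' / η ≤ H b := ((le_max_right _ _).trans (le_max_right _ _)).trans hb2
  have hsa : 0 < √(H a) := Real.sqrt_pos.mpr (by linarith)
  have hsb : 0 < √(H b) := Real.sqrt_pos.mpr (by linarith)
  have hsa2 : √(H a) ^ 2 = H a := Real.sq_sqrt (by linarith)
  have hsb2 : √(H b) ^ 2 = H b := Real.sq_sqrt (by linarith)
  have hφa : φ (P a) = √(H a) • x a := by
    rw [hx, smul_smul, mul_inv_cancel₀ hsa.ne', one_smul]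
  have hφb : φ (P b) = √(H b) • x b := by
    rw [hx, smul_smul, mul_inv_cancel₀ hsb.ne', one_smul]
  have hdist : ‖x b - x a‖ ≤ δ := by
    have h1 := dist_triangle_right (x b) (x a) y
    rw [dist_eq_norm] at h1
    linarith
  have hroot : |√(H b) - 2 ^ j * √(H a)| ≤ δ * √(H b) := by
    have h1 : (√(H b) - 2 ^ j * √(H a)) * (√(H b) + 2 ^ j * √(H a)) = H b - 4 ^ j * H a := by
      have h2 : (2 : ℝ) ^ j * 2 ^ j = 4 ^ j := by
        rw [← mul_pow]
        norm_num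
      calc (√(H b) - 2 ^ j * √(H a)) * (√(H b) + 2 ^ j * √(H a)) =
          √(H b) ^ 2 - 2 ^ j * 2 ^ j * √(H a) ^ 2 := by ring
        _ = _ := by rw [hsa2, hsb2, h2]
    have h3 : |√(H b) - 2 ^ j * √(H a)| * √(H b) ≤ δ * H b := by
      calc |√(H b) - 2 ^ j * √(H a)| * √(H b) ≤
          |√(H b) - 2 ^ j * √(H a)| * (√(H b) + 2 ^ j * √(H a)) :=
            mul_le_mul_of_nonneg_left (le_add_of_nonneg_right (by positivity)) (abs_nonneg _)
        _ = |H b - 4 ^ j * H a| := by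
            rw [← h1, abs_mul, abs_of_pos (show 0 < √(H b) + 2 ^ j * √(H a) by positivity)]
        _ ≤ _ := hab
    have h4 : δ * H b = δ * √(H b) * √(H b) := by
      rw [mul_assoc, ← sq, hsb2]
    rw [h4] at h3
    exact le_of_mul_le_mul_right h3 hsb
  have hq1 : q (P b - 2 ^ j • P a) ≤ 16 * δ ^ 2 * H b := by
    have h1 := hφ (P b) (P a) ((2 ^ j : ℕ) : ℤ)
    rw [natCast_zsmul] at h1
    rw [h1]
    have h2 : φ (P b) - (((2 ^ j : ℕ) : ℤ) : ℝ) • φ (P a) =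
        √(H b) • (x b - x a) + (√(H b) - 2 ^ j * √(H a)) • x a := by
      rw [hφa, hφb, smul_smul, smul_sub, sub_smul]
      push_cast
      abel
    have h3 : ‖φ (P b) - (((2 ^ j : ℕ) : ℤ) : ℝ) • φ (P a)‖ ≤ 4 * δ * √(H b) := by
      rw [h2]
      refine (norm_add_le _ _).trans ?_
      rw [norm_smul, norm_smul, Real.norm_eq_abs, Real.norm_eq_abs, abs_of_pos hsb]
      have h4 : √(H b) * ‖x b - x a‖ ≤ √(H b) * δ := mul_le_mul_of_nonneg_left hdist hsb.le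
      have h5 : |√(H b) - 2 ^ j * √(H a)| * ‖x a‖ ≤ δ * √(H b) * 2 :=
        mul_le_mul hroot (hnorm a ha2) (norm_nonneg _) (by positivity)
      have h6 : 0 ≤ δ * √(H b) := by positivity
      linarith
    calc ‖φ (P b) - (((2 ^ j : ℕ) : ℤ) : ℝ) • φ (P a)‖ ^ 2 ≤ (4 * δ * √(H b)) ^ 2 :=
          pow_le_pow_left₀ (norm_nonneg _) h3 2
      _ = 16 * δ ^ 2 * √(H b) ^ 2 := by ring
      _ = _ := by rw [hsb2]
  have h7 := abs_le.mp (hqC (P b - 2 ^ j • P a))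
  have h8 : C' ≤ η / 2 * H b := by
    rw [div_le_iff₀ hη] at hHbC
    linarith
  have h9 : 16 * δ ^ 2 * H b ≤ η / 2 * H b := by
    apply mul_le_mul_of_nonneg_right _ (by linarith)
    nlinarith
  have h10 : logHeight (P b - 2 ^ j • P a).xRep ≤ q (P b - 2 ^ j • P a) + C' := by
    linarith [h7.1]
  linarith

end Pool.Agent.Lib.MP_17a322_nt.VG
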