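import Pool.Agent.Lib.MP_17a322_nt.VG.F1
import Pool.Agent.Lib.MP_17a322_nt.VN.F1

/-!
VG, part F: the cone property for one torus coordinate.
-/

universe u

namespace Pool.Agent.Lib.MP_17a322_nt.VG

open Filter Topology Height NumberField
open Pool.Agent.Lib.MP_17a322_nt.VN

section

variable {K : Type u} [Field K] [NumberField K]

theorem F3_supp {x : K} (hx : x ≠ 0) :
    (Function.support fun v : FinitePlace K => |Real.log (v x)|).Finite := by
  refine (FinitePlace.hasFiniteMulSupport hx).subset fun v hv => ?_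
  rw [Function.mem_mulSupport]
  intro h1
  have h2 : v x = 1 := h1
  exact hv (by simp only [h2, Real.log_one, abs_zero])

theorem F3_supp' {x : K} (hx : x ≠ 0) :
    (Function.support fun v : FinitePlace K => Real.posLog (v x)).Finite := by
  refine (FinitePlace.hasFiniteMulSupport hx).subset fun v hv => ?_
  rw [Function.mem_mulSupport]
  intro h1
  have h2 : v x = 1 := h1
  exact hv (by simp only [h2, Real.posLog_one])

theorem F3_posLog_le (t : ℝ) : Real.posLog t ≤ |Real.log t| := by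
  rw [Real.posLog_apply]
  exact max_le (abs_nonneg _) (le_abs_self _)

theorem abs_log_inf_le (w : InfinitePlace K) (x : K) :
    |Real.log (w x)| ≤ logHeight₁ x := by
  have key : ∀ x : K, Real.log (w x) ≤ logHeight₁ x := by
    intro x
    rw [NumberField.logHeight₁_eq]
    have h1 : (w.mult : ℝ) * Real.posLog (w x) ≤
        ∑ v : InfinitePlace K, (v.mult : ℝ) * Real.posLog (v x) :=
      Finset.single_le_sum (f := fun v : InfinitePlace K => (v.mult : ℝ) * Real.posLog (v x))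
        (fun v _ => mul_nonneg (Nat.cast_nonneg _) Real.posLog_nonneg) (Finset.mem_univ w)
    have h2 : 0 ≤ ∑ᶠ v : FinitePlace K, Real.posLog (v x) :=
      finsum_nonneg fun v => Real.posLog_nonneg
    have h3 : (1 : ℝ) ≤ w.mult := by exact_mod_cast w.mult_pos
    have h4 : 0 ≤ Real.posLog (w x) := Real.posLog_nonneg
    have h5 : Real.log (w x) ≤ Real.posLog (w x) := by
      rw [Real.posLog_apply]
      exact le_max_right _ _
    nlinarith
  rw [abs_le]
  refine ⟨?_, key x⟩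
  have h1 := key x⁻¹
  rw [logHeight₁_inv, map_inv₀, Real.log_inv] at h1
  linarith

theorem abs_log_fin_le (w : FinitePlace K) {x : K} (hx : x ≠ 0) :
    |Real.log (w x)| ≤ logHeight₁ x := by
  have key : ∀ x : K, x ≠ 0 → Real.log (w x) ≤ logHeight₁ x := by
    intro x hx
    rw [NumberField.logHeight₁_eq]
    have h1 : Real.posLog (w x) ≤ ∑ᶠ v : FinitePlace K, Real.posLog (v x) :=
      single_le_finsum w (F3_supp' hx) fun v => Real.posLog_nonneg
    have h2 : 0 ≤ ∑ v : InfinitePlace K, (v.mult : ℝ) * Real.posLog (v x) :=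
      Finset.sum_nonneg fun v _ => mul_nonneg (Nat.cast_nonneg _) Real.posLog_nonneg
    have h5 : Real.log (w x) ≤ Real.posLog (w x) := by
      rw [Real.posLog_apply]
      exact le_max_right _ _
    linarith
  rw [abs_le]
  refine ⟨?_, key x hx⟩
  have h1 := key x⁻¹ (inv_ne_zero hx)
  rw [logHeight₁_inv, map_inv₀, Real.log_inv] at h1
  linarith

theorem finsum_split (S : Finset (FinitePlace K)) (f : FinitePlace K → ℝ)
    (hf : (Function.support f).Finite) :
    ∑ᶠ v, f v = ∑ v ∈ S, f v + ∑ᶠ v : {v // v ∉ S}, f v.1 := by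
  have h1 := finsum_mem_inter_add_sdiff' (f := f) (s := Set.univ) (S : Set (FinitePlace K))
    (by rw [Set.univ_inter]; exact hf)
  have e1 : (Set.univ ∩ (S : Set (FinitePlace K))) = S := Set.univ_inter _
  have e2 : (Set.univ \ (S : Set (FinitePlace K))) = {v | v ∉ S} := by
    ext v
    simp
  rw [e1, e2, finsum_mem_univ, finsum_mem_coe_finset] at h1
  rw [← h1]
  congr 1
  exact (finsum_subtype_eq_finsum_cond (f := f) (fun v => v ∉ S)).symm

theorem logHeight₁_le_abs (S : Finset (FinitePlace K)) {z : K} (hz : z ≠ 0) :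
    logHeight₁ z ≤ ∑ w : InfinitePlace K, (w.mult : ℝ) * |Real.log (w z)| +
      (∑ v ∈ S, |Real.log (v z)| + ∑ᶠ v : {v // v ∉ S}, |Real.log (v.1 z)|) := by
  rw [NumberField.logHeight₁_eq, ← finsum_split S (fun v => |Real.log (v z)|) (F3_supp hz)]
  refine add_le_add ?_ ?_
  · exact Finset.sum_le_sum fun v _ => mul_le_mul_of_nonneg_left (F3_posLog_le _)
      (Nat.cast_nonneg _)
  · exact finsum_le_finsum' (F3_supp' hz) (F3_supp hz) fun v => F3_posLog_le _

/-- The cone property for one torus coordinate. -/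
theorem cone_tor (S : Finset (FinitePlace K)) (u : ℕ → K) (hu : ∀ i, u i ≠ 0) (H : ℕ → ℝ)
    (hH : Tendsto H (hyperfilter ℕ : Filter ℕ) atTop) (hle : ∀ i, logHeight₁ (u i) ≤ H i)
    (hS : oH H fun i => ∑ᶠ v : {v // v ∉ S}, |Real.log (v.1 (u i))|) {η : ℝ} (hη : 0 < η) :
    ∃ (η' : ℝ) (A : ℕ → Prop), 0 < η' ∧ (∀ᶠ i in (hyperfilter ℕ : Filter ℕ), A i) ∧
      ∀ (a b j : ℕ), A a → A b → |H b - 4 ^ j * H a| ≤ η' * H b →
        logHeight₁ (u b / u a ^ 4 ^ j) ≤ η * H b := by
  classical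
  obtain ⟨M, hM⟩ : ∃ M : ℝ, M = ∑ w : InfinitePlace K, (w.mult : ℝ) + S.card := ⟨_, rfl⟩
  have hM0 : 0 ≤ M := by rw [hM]; positivity
  obtain ⟨δ, hδ0, hδ1, hδη⟩ : ∃ δ : ℝ, 0 < δ ∧ δ ≤ 1 ∧ (2 * M + 3) * δ ≤ η :=
    ⟨min 1 (η / (2 * M + 3)), by positivity, min_le_left _ _, by
      have h1 := min_le_right 1 (η / (2 * M + 3))
      have h2 : (0 : ℝ) < 2 * M + 3 := by linarith
      calc (2 * M + 3) * min 1 (η / (2 * M + 3)) ≤ (2 * M + 3) * (η / (2 * M + 3)) :=
            mul_le_mul_of_nonneg_left h1 h2.le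
        _ = η := by field_simp⟩
  obtain ⟨lam, hlam⟩ : ∃ lam : ℕ → (InfinitePlace K ⊕ S) → ℝ, ∀ i, lam i =
      Sum.elim (fun w => Real.log (w (u i))) (fun v => Real.log (v.1 (u i))) := ⟨_, fun _ => rfl⟩
  obtain ⟨x, hx⟩ : ∃ x : ℕ → (InfinitePlace K ⊕ S) → ℝ, ∀ i, x i = (H i)⁻¹ • lam i :=
    ⟨_, fun _ => rfl⟩
  have hlamle : ∀ i p, |lam i p| ≤ H i := by
    intro i p
    rw [hlam]
    cases p with
    | inl w => exact (abs_log_inf_le w (u i)).trans (hle i)
    | inr v => exact (abs_log_fin_le v.1 (hu i)).trans (hle i)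
  have hxle : ∀ i, 1 ≤ H i → ∀ p, |x i p| ≤ 1 := by
    intro i hi p
    rw [hx, Pi.smul_apply, smul_eq_mul, abs_mul, abs_inv, abs_of_pos (by linarith : 0 < H i),
      inv_mul_le_iff₀ (by linarith), mul_one]
    exact hlamle i p
  obtain ⟨y, hy⟩ := exists_near x 0 1 (by
    filter_upwards [hH.eventually_ge_atTop 1] with i hi
    rw [dist_zero_right]
    rw [pi_norm_le_iff_of_nonneg zero_le_one]
    intro p
    rw [Real.norm_eq_abs]
    exact hxle i hi p) (half_pos hδ0)
  refine ⟨δ, fun i => dist (x i) y ≤ δ / 2 ∧ 1 ≤ H i ∧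
    ∑ᶠ v : {v // v ∉ S}, |Real.log (v.1 (u i))| ≤ δ * H i, hδ0,
    hy.and ((hH.eventually_ge_atTop 1).and (hS δ hδ0)), ?_⟩
  rintro a b j ⟨ha1, ha2, ha3⟩ ⟨hb1, hb2, hb3⟩ hab
  have hz : u b / u a ^ 4 ^ j ≠ 0 := div_ne_zero (hu b) (pow_ne_zero _ (hu a))
  have h4 : (((4 ^ j : ℕ) : ℕ) : ℝ) = 4 ^ j := by push_cast; rfl
  have hdist : ∀ p, |x b p - x a p| ≤ δ := by
    intro p
    have h1 := dist_triangle_right (x b) (x a) y
    have h2 := dist_le_pi_dist (x b) (x a) p
    rw [Real.dist_eq] at h2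
    linarith
  have hlz : ∀ p, |lam b p - 4 ^ j * lam a p| ≤ 2 * δ * H b := by
    intro p
    have e1 : lam b p = H b * x b p := by
      rw [hx, Pi.smul_apply, smul_eq_mul, mul_inv_cancel_left₀ (by linarith : H b ≠ 0)]
    have e2 : lam a p = H a * x a p := by
      rw [hx, Pi.smul_apply, smul_eq_mul, mul_inv_cancel_left₀ (by linarith : H a ≠ 0)]
    have e3 : lam b p - 4 ^ j * lam a p =
        H b * (x b p - x a p) + (H b - 4 ^ j * H a) * x a p := by
      rw [e1, e2]
      ring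
    rw [e3]
    refine (abs_add_le _ _).trans ?_
    rw [abs_mul, abs_mul, abs_of_pos (by linarith : 0 < H b)]
    have h1 : H b * |x b p - x a p| ≤ H b * δ := mul_le_mul_of_nonneg_left (hdist p) (by linarith)
    have h2 : |H b - 4 ^ j * H a| * |x a p| ≤ δ * H b * 1 :=
      mul_le_mul hab (hxle a ha2 p) (abs_nonneg _) (by positivity)
    linarith
  have hinf : ∀ w : InfinitePlace K, |Real.log (w (u b / u a ^ 4 ^ j))| ≤ 2 * δ * H b := by
    intro w
    have h1 := hlz (Sum.inl w)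
    rw [hlam, hlam] at h1
    have h2 : Real.log (w (u b / u a ^ 4 ^ j)) =
        Real.log (w (u b)) - 4 ^ j * Real.log (w (u a)) := by
      rw [map_div₀, map_pow, Real.log_div ((map_ne_zero w).mpr (hu b))
        (pow_ne_zero _ ((map_ne_zero w).mpr (hu a))), Real.log_pow, h4]
    rw [h2]
    exact h1
  have hfin0 : ∀ v : FinitePlace K, Real.log (v (u b / u a ^ 4 ^ j)) =
      Real.log (v (u b)) - 4 ^ j * Real.log (v (u a)) := by
    intro v
    rw [map_div₀, map_pow, Real.log_div ((map_ne_zero v).mpr (hu b))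
      (pow_ne_zero _ ((map_ne_zero v).mpr (hu a))), Real.log_pow, h4]
  have hfin : ∀ v ∈ S, |Real.log (v (u b / u a ^ 4 ^ j))| ≤ 2 * δ * H b := by
    intro v hv
    have h1 := hlz (Sum.inr ⟨v, hv⟩)
    rw [hlam, hlam] at h1
    rw [hfin0]
    exact h1
  have hout : ∑ᶠ v : {v // v ∉ S}, |Real.log (v.1 (u b / u a ^ 4 ^ j))| ≤ 3 * δ * H b := by
    have hsub : ∀ {z : K}, z ≠ 0 → (Function.support fun v : {v : FinitePlace K // v ∉ S} =>
        |Real.log (v.1 z)|).Finite := by
      intro z hz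
      refine Set.Finite.preimage (f := fun v : {v : FinitePlace K // v ∉ S} => v.1)
        Subtype.val_injective.injOn (F3_supp hz)
    have h1 : ∑ᶠ v : {v // v ∉ S}, |Real.log (v.1 (u b / u a ^ 4 ^ j))| ≤
        ∑ᶠ v : {v // v ∉ S}, (|Real.log (v.1 (u b))| + 4 ^ j * |Real.log (v.1 (u a))|) := by
      refine finsum_le_finsum' (hsub hz) ?_ fun v => ?_
      · refine ((hsub (hu b)).union (hsub (hu a))).subset fun v hv => ?_
        by_contra hc
        rw [Set.mem_union, not_or] at hc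
        obtain ⟨hc1, hc2⟩ := hc
        rw [Function.notMem_support] at hc1 hc2
        exact hv (by
          show |Real.log (v.1 (u b))| + 4 ^ j * |Real.log (v.1 (u a))| = 0
          rw [hc1, hc2, mul_zero, add_zero])
      · show |Real.log (v.1 (u b / u a ^ 4 ^ j))| ≤ _
        rw [hfin0]
        refine (abs_sub _ _).trans ?_
        rw [abs_mul, abs_of_nonneg (by positivity : (0 : ℝ) ≤ 4 ^ j)]
    have h2 : ∑ᶠ v : {v // v ∉ S}, (|Real.log (v.1 (u b))| + 4 ^ j * |Real.log (v.1 (u a))|) =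
        ∑ᶠ v : {v // v ∉ S}, |Real.log (v.1 (u b))| +
          4 ^ j * ∑ᶠ v : {v // v ∉ S}, |Real.log (v.1 (u a))| := by
      rw [finsum_add_distrib (hsub (hu b)), ← smul_eq_mul, smul_finsum]
      · rfl
      · refine (hsub (hu a)).subset fun v hv => ?_
        rw [Function.mem_support] at hv ⊢
        intro h0
        exact hv (by rw [h0, mul_zero])
    have h3 : (4 : ℝ) ^ j * H a ≤ 2 * H b := by
      have h5 := (abs_le.mp hab).1
      nlinarith
    have h6 : (4 : ℝ) ^ j * ∑ᶠ v : {v // v ∉ S}, |Real.log (v.1 (u a))| ≤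
        4 ^ j * (δ * H a) := mul_le_mul_of_nonneg_left ha3 (by positivity)
    have h7 : (4 : ℝ) ^ j * (δ * H a) = δ * (4 ^ j * H a) := by ring
    have h8 : δ * ((4 : ℝ) ^ j * H a) ≤ δ * (2 * H b) := mul_le_mul_of_nonneg_left h3 hδ0.le
    linarith
  have h10 := logHeight₁_le_abs S hz
  have h11 : ∑ w : InfinitePlace K, (w.mult : ℝ) * |Real.log (w (u b / u a ^ 4 ^ j))| ≤
      (∑ w : InfinitePlace K, (w.mult : ℝ)) * (2 * δ * H b) := by
    rw [Finset.sum_mul]
    exact Finset.sum_le_sum fun w _ => mul_le_mul_of_nonneg_left (hinf w) (Nat.cast_nonneg _)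
  have h12 : ∑ v ∈ S, |Real.log (v (u b / u a ^ 4 ^ j))| ≤ S.card * (2 * δ * H b) := by
    have := Finset.sum_le_card_nsmul S (fun v => |Real.log (v (u b / u a ^ 4 ^ j))|) _ hfin
    rwa [nsmul_eq_mul] at this
  have h13 : (2 * M + 3) * δ * H b ≤ η * H b := mul_le_mul_of_nonneg_right hδη (by linarith)
  have h14 : (2 * M + 3) * δ * H b = (∑ w : InfinitePlace K, (w.mult : ℝ)) * (2 * δ * H b) +
      (S.card * (2 * δ * H b) + 3 * δ * H b) := by
    rw [hM]
    ring
  linarith

end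

end Pool.Agent.Lib.MP_17a322_nt.VG
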