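import Pool.Agent.Lib.MP_17a322_nt.VG.F2
import Pool.Agent.Lib.MP_17a322_nt.VG.F3
import Pool.Agent.Lib.MP_17a322_nt.VG.Defs

/-!
VG, part F: the cone property for one coordinate and the choice of the points of the main argument.
-/

universe u

namespace Pool.Agent.Lib.MP_17a322_nt.VG

open Filter Topology Height NumberField
open Pool.Agent.Lib.MP_17a322_nt.VN

section

variable {K : Type u} [Field K] [NumberField K]

theorem HN_nonneg {n : ℕ} {W : Fin n → CT K} (P : ∀ t, (W t).Pt) : 0 ≤ HN P :=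
  Finset.sum_nonneg fun _ _ => logHeight_nonneg _

theorem le_HN {n : ℕ} {W : Fin n → CT K} (P : ∀ t, (W t).Pt) (t : Fin n) :
    logHeight ((W t).xr (P t)) ≤ HN P :=
  Finset.single_le_sum (f := fun t => logHeight ((W t).xr (P t)))
    (fun _ _ => logHeight_nonneg _) (Finset.mem_univ t)

omit [NumberField K] in
theorem F4_tor (p q : Additive Kˣ) (j : ℕ) :
    (![((Additive.toMul (p - 4 ^ j • q) : Kˣ) : K), 1] : Fin 2 → K) =
      ![((Additive.toMul p : Kˣ) : K) / ((Additive.toMul q : Kˣ) : K) ^ 4 ^ j, 1] := by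
  rw [toMul_sub, toMul_nsmul, Units.val_div_eq_div_val, Units.val_pow_eq_pow_val]

/-- The cone property for one coordinate. -/
theorem cone_CT [DecidableEq K] (T : CT K) (hT : T.IsE) (S : Finset (FinitePlace K))
    (P : ℕ → T.Pt) (H : ℕ → ℝ)
    (hH : Tendsto H (hyperfilter ℕ : Filter ℕ) atTop) (hle : ∀ i, logHeight (T.xr (P i)) ≤ H i)
    (hS : T.isTor → oH H fun i => ∑ᶠ v : {v // v ∉ S}, |Real.log (v.1 (T.xr (P i) 0))|)
    {η : ℝ} (hη : 0 < η) :
    ∃ (η' : ℝ) (A : ℕ → Prop), 0 < η' ∧ (∀ᶠ i in (hyperfilter ℕ : Filter ℕ), A i) ∧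
      ∀ (a b j : ℕ), A a → A b → |H b - 4 ^ j * H a| ≤ η' * H b →
        logHeight (T.xr (P b - T.ml j (P a))) ≤ η * H b := by
  cases T with
  | ell W =>
    have hW : W.IsElliptic := hT
    obtain ⟨η', A, h1, h2, h3⟩ := cone_ell W P H hH hle hη
    exact ⟨η', A, h1, h2, h3⟩
  | tor =>
    obtain ⟨u, hu⟩ : ∃ u : ℕ → Kˣ, ∀ i, u i = Additive.toMul (P i : Additive Kˣ) :=
      ⟨_, fun _ => rfl⟩
    have hx : ∀ i, (CT.tor : CT K).xr (P i) = ![(u i : K), 1] := by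
      intro i
      rw [hu]
      rfl
    have hle' : ∀ i, logHeight₁ ((u i : Kˣ) : K) ≤ H i := by
      intro i
      rw [logHeight₁_eq_logHeight, ← hx]
      exact hle i
    have hS' : oH H fun i => ∑ᶠ v : {v // v ∉ S}, |Real.log (v.1 ((u i : Kˣ) : K))| := by
      have h := hS rfl
      have e : (fun i => ∑ᶠ v : {v // v ∉ S}, |Real.log (v.1 ((CT.tor : CT K).xr (P i) 0))|) =
          fun i => ∑ᶠ v : {v // v ∉ S}, |Real.log (v.1 ((u i : Kˣ) : K))| := by
        funext i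
        rw [hx]
        rfl
      rwa [e] at h
    obtain ⟨η', A, h1, h2, h3⟩ := cone_tor S (fun i => ((u i : Kˣ) : K)) (fun i => (u i).ne_zero)
      H hH hle' hS' hη
    refine ⟨η', A, h1, h2, fun a b j ha hb hab => ?_⟩
    have h4 := h3 a b j ha hb hab
    have e : (CT.tor : CT K).xr (P b - (CT.tor : CT K).ml j (P a)) =
        ![((u b : Kˣ) : K) / ((u a : Kˣ) : K) ^ 4 ^ j, 1] := by
      rw [hu, hu]
      exact F4_tor (P b) (P a) j
    rw [e, ← logHeight₁_eq_logHeight]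
    exact h4

/-- The choice of the points: `a` is the index of `P₀`, `b i` that of `P_i`. -/
theorem FRAME [DecidableEq K] {n : ℕ} (W : Fin n → CT K) (hW : ∀ t, (W t).IsE)
    (S : Finset (FinitePlace K)) (P : ℕ → ∀ t, (W t).Pt)
    (hH : Tendsto (fun i => HN (P i)) (hyperfilter ℕ : Filter ℕ) atTop)
    (hS : ∀ t, (W t).isTor → oH (fun i => HN (P i))
      fun i => ∑ᶠ v : {v // v ∉ S}, |Real.log (v.1 ((W t).xr (P i t) 0))|)
    (h : ℕ → ℝ) (hh : oH (fun i => HN (P i)) h) (S' : ℕ → Prop)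
    (hS' : ∀ᶠ i in (hyperfilter ℕ : Filter ℕ), S' i) (m R₀ : ℕ) (C₀ η : ℝ) (hη : 0 < η) :
    ∃ (a : ℕ) (b : Fin m → ℕ) (j : Fin m → ℕ), S' a ∧ (∀ i, S' (b i)) ∧ C₀ ≤ HN (P a) ∧
      0 < HN (P a) ∧
      (∀ i, R₀ ≤ 4 ^ j i) ∧ (∀ i i', i < i' → R₀ * 4 ^ j i ≤ 4 ^ j i') ∧
      (∀ i, h (b i) ≤ 4 ^ j i) ∧ (∀ i, 4 ^ j i * HN (P a) ≤ 2 * HN (P (b i))) ∧
      (∀ i t, logHeight ((W t).xr (P (b i) t - (W t).ml (j i) (P a t))) ≤
        η * (4 ^ j i * HN (P a))) ∧
      (∀ i, |HN (P (b i)) - 4 ^ j i * HN (P a)| ≤ η * (4 ^ j i * HN (P a))) := by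
  classical
  have hcone := fun t => cone_CT (W t) (hW t) S (fun i => P i t) (fun i => HN (P i)) hH
    (fun i => le_HN (P i) t) (hS t) (half_pos hη)
  choose η' A hη' hA hAc using hcone
  -- the minimum of the `η' t`
  obtain ⟨μ, hμ0, hμ⟩ : ∃ μ : ℝ, 0 < μ ∧ ∀ t, 2 * μ ≤ η' t := by
    have h1 : ∀ s : Finset (Fin n), ∃ μ : ℝ, 0 < μ ∧ ∀ t ∈ s, 2 * μ ≤ η' t := by
      intro s
      induction s using Finset.induction_on with
      | empty => exact ⟨1, one_pos, fun t ht => absurd ht (Finset.notMem_empty t)⟩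
      | insert a s ha ih =>
        obtain ⟨μ, h1, h2⟩ := ih
        refine ⟨min μ (η' a / 2), lt_min h1 (half_pos (hη' a)), fun t ht => ?_⟩
        rcases Finset.mem_insert.mp ht with rfl | h3
        · have := min_le_right μ (η' t / 2)
          linarith
        · have := min_le_left μ (η' a / 2)
          linarith [h2 t h3]
    obtain ⟨μ, h2, h3⟩ := h1 Finset.univ
    exact ⟨μ, h2, fun t => h3 t (Finset.mem_univ t)⟩
  have hAall : ∀ᶠ i in (hyperfilter ℕ : Filter ℕ), ∀ t, A t i := by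
    rw [eventually_all]
    exact hA
  obtain ⟨a, b, j, h1, h2, h3, h4, h5, h6, h7, h8, h9, h10⟩ := FR (fun i => HN (P i)) hH h hh
    (fun i => S' i ∧ ∀ t, A t i) (hS'.and hAall) m R₀ C₀ (min η μ) (lt_min hη hμ0)
  refine ⟨a, b, j, h1.1, fun i => (h2 i).1, h3, h4, h5, h6, h7, h8, fun i t => ?_, fun i => ?_⟩
  · have e1 : (0 : ℝ) ≤ 4 ^ j i * HN (P a) := by positivity
    have e2 : |HN (P (b i)) - 4 ^ j i * HN (P a)| ≤ η' t * HN (P (b i)) := by
      refine (h10 i).trans ?_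
      have e3 : min η μ * (4 ^ j i * HN (P a)) ≤ μ * (4 ^ j i * HN (P a)) :=
        mul_le_mul_of_nonneg_right (min_le_right _ _) e1
      have e4 : μ * (4 ^ j i * HN (P a)) ≤ μ * (2 * HN (P (b i))) :=
        mul_le_mul_of_nonneg_left (h8 i) hμ0.le
      have e5 : 2 * μ * HN (P (b i)) ≤ η' t * HN (P (b i)) :=
        mul_le_mul_of_nonneg_right (hμ t) (HN_nonneg _)
      linarith
    have e6 := hAc t a (b i) (j i) (h1.2 t) ((h2 i).2 t) e2
    refine e6.trans ?_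
    have e7 : η / 2 * HN (P (b i)) ≤ η / 2 * (2 * (4 ^ j i * HN (P a))) :=
      mul_le_mul_of_nonneg_left (h9 i) (by positivity)
    linarith
  · refine (h10 i).trans ?_
    exact mul_le_mul_of_nonneg_right (min_le_left _ _) (by positivity)

end

end Pool.Agent.Lib.MP_17a322_nt.VG
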