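import Pool.Agent.Lib.MP_17a322_nt.VG.F4
import Pool.Agent.Lib.MP_17a322_nt.VG.Z7a
import Pool.Agent.Lib.MP_17a322_nt.VN.F6d

/-!
VG, part F: charts, comparison of heights and gains, the centre data.
-/

universe u

namespace Pool.Agent.Lib.MP_17a322_nt.VG

open MvPolynomial Height Filter
open Pool.Agent.Lib.MP_17a322_nt.RO
open Pool.Agent.Lib.MP_17a322_nt.VJ
open Pool.Agent.Lib.MP_17a322_nt.VN

section

variable {K : Type u} [Field K]

/-- The chart coordinate of a unit. -/
theorem CH_tor {T : CT K} (hT : T.isTor = true) {χ : Bool} {P : T.Pt} {s : K} (h : CH χ P s) :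
    s ≠ 0 ∧ (T.xr P 0 = s ∨ T.xr P 0 = s⁻¹) := by
  obtain ⟨c, hc, h⟩ := h
  cases T with
  | ell W => simp [CT.isTor] at hT
  | tor =>
    have hu : ((Additive.toMul P : Kˣ) : K) ≠ 0 := Units.ne_zero _
    have e0 : (CT.tor : CT K).xr P 0 = ((Additive.toMul P : Kˣ) : K) := rfl
    have e1 : (CT.tor : CT K).xr P 1 = 1 := rfl
    have h0 := congrFun h 0
    have h1 := congrFun h 1
    rw [Pi.smul_apply, smul_eq_mul] at h0 h1
    rw [e1] at h1
    cases χ with
    | false =>
      have e2 : vc false s 0 = s := rfl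
      have e3 : vc false s 1 = 1 := rfl
      rw [e3, mul_one] at h1
      rw [e2, ← h1, one_mul] at h0
      refine ⟨?_, Or.inl h0⟩
      intro hs
      rw [hs, e0] at h0
      exact hu h0
    | true =>
      have e2 : vc true s 0 = 1 := rfl
      have e3 : vc true s 1 = s := rfl
      rw [e3] at h1
      rw [e2, mul_one] at h0
      have hs : s ≠ 0 := by
        intro hs
        rw [hs, mul_zero] at h1
        exact one_ne_zero h1
      refine ⟨hs, Or.inr ?_⟩
      rw [h0]
      exact eq_inv_of_mul_eq_one_left h1.symm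

theorem CH_tor_log [NumberField K] {T : CT K} (hT : T.isTor = true) {χ : Bool} {P : T.Pt} {s : K}
    (h : CH χ P s) (v : NumberField.FinitePlace K) :
    |Real.log (v (T.xr P 0))| = |Real.log (v s)| := by
  rcases (CH_tor hT h).2 with h1 | h1
  · rw [h1]
  · rw [h1, map_inv₀, Real.log_inv, abs_neg]

theorem CH_height [AdmissibleAbsValues K] {T : CT K} {χ : Bool} {P : T.Pt} {s : K}
    (h : CH χ P s) : logHeight (T.xr P) = logHeight₁ s := by
  obtain ⟨c, hc, h1⟩ := h
  rw [h1, logHeight_smul_eq_logHeight _ hc]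
  cases χ
  · show logHeight (vc false s) = _
    rw [logHeight₁_eq_logHeight]
    rfl
  · show logHeight (vc true s) = _
    rw [logHeight₁_eq_logHeight, logHeight_swap]
    rfl

theorem HN_le_of_embedding [AdmissibleAbsValues K] {n k : ℕ}
    {W : Fin n → CT K} (P : ∀ t, (W t).Pt) (J : Fin k ↪ Fin n) :
    HN (T := fun t => W (J t)) (fun t => P (J t)) ≤ HN P := by
  unfold HN
  rw [← Finset.sum_map Finset.univ J fun t => logHeight ((W t).xr (P t))]
  exact Finset.sum_le_sum_of_subset_of_nonneg (Finset.subset_univ _)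
    fun _ _ _ => logHeight_nonneg _

/-- Fewer coordinates: larger gain. -/
theorem gN_mono_coord [AdmissibleAbsValues K] {n k : ℕ} (W : Fin n → CT K) (J : Fin k ↪ Fin n)
    {N : ℝ} (hN : 0 ≤ N) (s : Fin n → K) (a b : K) :
    gN W N s a b ≤ gN (fun t => W (J t)) N (fun t => s (J t)) a b := by
  rw [gN_eq, gN_eq]
  refine gs_le (FS_gNl _ _ _ _ _) (FS_gNl _ _ _ _ _) fun v _ => ?_
  by_cases h : ∀ t, v (s t) ≤ 1
  · unfold gNl
    rw [if_pos h, if_pos fun t => h (J t)]
    refine max_le_max le_rfl ?_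
    have h1 : ls (fun t => W (J t)) (fun t => s (J t)) v ≤ ls W s v := by
      unfold ls
      rw [← Finset.sum_map Finset.univ J fun t => if (W t).isTor then - Real.log (v (s t)) else 0]
      refine Finset.sum_le_sum_of_subset_of_nonneg (Finset.subset_univ _) fun t _ _ => ?_
      split_ifs
      · have := Real.log_nonpos (v.nonneg (s t)) (h t)
        linarith
      · exact le_rfl
    have h2 := mul_le_mul_of_nonneg_left h1 hN
    linarith
  · have h3 : gNl W N s a b v = 0 := by
      unfold gNl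
      rw [if_neg h]
    rw [h3]
    exact gNl_nonneg _ _ _ _ _ _

end

/-- `y` does not vanish where `s` is transcendental over `k0`, elliptic coordinate. -/
theorem y_ne_zero_ell {K : Type u} [Field K] [NumberField K] {H : ℕ → ℝ}
    {hH : Tendsto H (hyperfilter ℕ : Filter ℕ) atTop} (W : WeierstrassCurve K) (χ : Bool)
    (s y : ℕ → K) (hy : ∀ i, y i ^ 2 = VJ.ph W (vc χ (s i)))
    (h : Transcendental (k0 K H hH) (gm s)) :
    ∀ᶠ i in (hyperfilter ℕ : Filter ℕ), y i ≠ 0 := by
  by_contra hcon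
  rw [not_eventually_iff] at hcon
  push Not at hcon
  obtain ⟨Q, hQ0, hQ⟩ : ∃ Q : Polynomial K, Q ≠ 0 ∧
      ∀ x : K, Q.eval x = VJ.ph W (vc χ x) := by
    cases hχ : χ
    · refine ⟨Polynomial.C 4 * Polynomial.X ^ 3 + Polynomial.C W.b₂ * Polynomial.X ^ 2 +
        Polynomial.C (2 * W.b₄) * Polynomial.X + Polynomial.C W.b₆, ?_, ?_⟩
      · intro h0
        have h1 := congrArg (fun p => Polynomial.coeff p 3) h0
        simp only [Polynomial.coeff_add, Polynomial.coeff_C_mul, Polynomial.coeff_X_pow,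
          Polynomial.coeff_X, Polynomial.coeff_C, Polynomial.coeff_zero] at h1
        norm_num at h1
      · intro x
        simp only [Polynomial.eval_add, Polynomial.eval_mul, Polynomial.eval_C,
          Polynomial.eval_pow, Polynomial.eval_X, VJ.ph, vc, Algebra.algebraMap_self,
          RingHom.id_apply]
        simp
    · refine ⟨Polynomial.C W.b₆ * Polynomial.X ^ 4 +
        Polynomial.C (2 * W.b₄) * Polynomial.X ^ 3 +
        Polynomial.C W.b₂ * Polynomial.X ^ 2 + Polynomial.C 4 * Polynomial.X, ?_, ?_⟩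
      · intro h0
        have h1 := congrArg (fun p => Polynomial.coeff p 1) h0
        simp only [Polynomial.coeff_add, Polynomial.coeff_C_mul, Polynomial.coeff_X_pow,
          Polynomial.coeff_X, Polynomial.coeff_zero] at h1
        norm_num at h1
      · intro x
        simp [VJ.ph, vc]
        ring
  apply h
  have h1 : IsAlgebraic K (gm s) := by
    refine ⟨Q, hQ0, ?_⟩
    have h2 : Polynomial.aeval (gm s) Q = gm fun i => Q.eval (s i) := by
      rw [Polynomial.aeval_def, Polynomial.eval₂_eq_sum_range]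
      have h3 : (fun i => Q.eval (s i)) =
          fun i => ∑ j ∈ Finset.range (Q.natDegree + 1), Q.coeff j * s i ^ j := by
        funext i
        rw [Polynomial.eval_eq_sum_range]
      rw [h3, gm_sum]
      rfl
    rw [h2, gm_eq_zero_iff]
    filter_upwards [hcon] with i hi
    rw [hQ, ← hy i, hi]
    ring
  exact h1.extendScalars (algebraMap K (k0 K H hH)).injective

/-- `y` does not vanish where `s` is transcendental over `k0`. -/
theorem y_ne_zero_CT {K : Type u} [Field K] [NumberField K] {H : ℕ → ℝ}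
    {hH : Tendsto H (hyperfilter ℕ : Filter ℕ) atTop} (T : CT K) (χ : Bool) (P : ℕ → T.Pt)
    (s y : ℕ → K) (hs : ∀ i, CH χ (P i) (s i)) (hy : ∀ i, y i ^ 2 = ph T (vc χ (s i)))
    (h : Transcendental (k0 K H hH) (gm s)) :
    ∀ᶠ i in (hyperfilter ℕ : Filter ℕ), y i ≠ 0 := by
  cases T with
  | ell W => exact y_ne_zero_ell W χ s y hy h
  | tor =>
    refine Eventually.of_forall fun i hi => ?_
    have h1 := (CH_tor rfl (hs i)).1
    have h2 := hy i
    have h3 : ph (CT.tor : CT K) (vc χ (s i)) = (vc χ (s i) 0 * vc χ (s i) 1) ^ 2 := rfl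
    have h4 : vc χ (s i) 0 * vc χ (s i) 1 = s i := by
      cases χ
      · exact mul_one _
      · exact one_mul _
    rw [hi, h3, h4] at h2
    have h5 : s i ^ 2 = 0 := by rw [← h2]; ring
    exact h1 (pow_eq_zero_iff two_ne_zero |>.mp h5)

/-- The datum of `REPEX` over `k0` gives centre data over `K` of small height which carry the gain. -/
theorem CENTRE {K : Type u} [Field K] [NumberField K] {H : ℕ → ℝ}
    {hH : Tendsto H (hyperfilter ℕ : Filter ℕ) atTop} {n k : ℕ} (W : Fin n → CT K)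
    (s : ℕ → Fin n → K) (hs0 : ∀ i t, (W t).isTor = true → s i t ≠ 0)
    (J : Fin (k + 2) ↪ Fin n) (f g : MvPolynomial (Fin (k + 2)) (k0 K H hH))
    (hfg : IsRelPrime f g) (a b : ℕ → K)
    (ha : gm a = aeval (fun t => gm fun i => s i (J t)) f)
    (hb : gm b = aeval (fun t => gm fun i => s i (J t)) g) (ε : ℝ) (hε : 0 < ε)
    (hnz : ∀ z z' : MvPolynomial (Fin (k + 2)) (k0 K H hH), IsRelPrime z z' →
      aeval (fun t => gm fun i => s i (J t)) z ≠ 0 ∨
        aeval (fun t => gm fun i => s i (J t)) z' ≠ 0) :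
    ∃ (e D : ℕ) (h : ℕ → ℝ), oH H h ∧ ∀ N : ℝ, 0 ≤ N →
      (∀ᶠ i in (hyperfilter ℕ : Filter ℕ), ε * H i ≤ gN W N (s i) (a i) (b i)) →
      ∀ᶠ i in (hyperfilter ℕ : Filter ℕ),
      ∃ ρ : REP K (k + 2) e, ρ.Deg D ∧ ρ.ht ≤ h i ∧
        (eval (fun t => s i (J t)) (ρ.z 0) ≠ 0 ∨ eval (fun t => s i (J t)) (ρ.z 1) ≠ 0) ∧
        ε / 2 * H i ≤ gN (fun t => W (J t)) N (fun t => s i (J t))
          (eval (fun t => s i (J t)) (ρ.z 0)) (eval (fun t => s i (J t)) (ρ.z 1)) := by
  classical
  obtain ⟨e, ρ, hz0, hz1, hrel⟩ := REPEX f g hfg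
  obtain ⟨A, B, hAB⟩ := Ideal.mem_span_pair.mp hz0
  obtain ⟨A', B', hAB'⟩ := Ideal.mem_span_pair.mp hz1
  obtain ⟨D, h, hh, hρ⟩ := REP_transfer ρ
  refine ⟨e, D, h, hh, fun N hN hgain => ?_⟩
  have key : ∀ z A B : MvPolynomial (Fin (k + 2)) (k0 K H hH), A * f + B * g = z →
      gm (fun i => eval (fun t => s i (J t)) (pr z i)) =
        aeval (fun t => gm fun i => s i (J t)) A * gm a +
          aeval (fun t => gm fun i => s i (J t)) B * gm b := by
    intro z A B hz
    rw [gm_eval_pr z fun i t => s i (J t), ha, hb, ← hz, map_add, map_mul, map_mul]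
  have hz' : aeval (fun t => gm fun i => s i (J t)) (ρ.z 0) ≠ 0 ∨
      aeval (fun t => gm fun i => s i (J t)) (ρ.z 1) ≠ 0 := hnz _ _ hrel
  have hz : ∀ᶠ i in (hyperfilter ℕ : Filter ℕ),
      eval (fun t => s i (J t)) (pr (ρ.z 0) i) ≠ 0 ∨
        eval (fun t => s i (J t)) (pr (ρ.z 1) i) ≠ 0 := by
    rcases hz' with h1 | h1
    · rw [← gm_eval_pr (ρ.z 0) fun i t => s i (J t), gm_ne_zero_iff] at h1
      exact h1.mono fun i hi => Or.inl hi
    · rw [← gm_eval_pr (ρ.z 1) fun i t => s i (J t), gm_ne_zero_iff] at h1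
      exact h1.mono fun i hi => Or.inr hi
  have hcomb := gN_comb' (fun t => W (J t)) H hH (fun i t => s i (J t))
    (fun i t ht => hs0 i (J t) ht) N 0 a b
    (fun i => eval (fun t => s i (J t)) (pr (ρ.z 0) i))
    (fun i => eval (fun t => s i (J t)) (pr (ρ.z 1) i)) A B A' B'
    (by rw [pow_zero, one_mul]; exact key _ _ _ hAB)
    (by rw [pow_zero, one_mul]; exact key _ _ _ hAB')
    (by
      rw [gm_eval_pr (ρ.z 0) fun i t => s i (J t), gm_eval_pr (ρ.z 1) fun i t => s i (J t)]
      exact hz') (ε / 2) (by positivity)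
  filter_upwards [hρ, hz, hcomb, hgain] with i h1 h4 h5 h6
  obtain ⟨ρ', g1, g2, g3⟩ := h1
  refine ⟨ρ', g2, g3, ?_, ?_⟩
  · rw [g1, g1]
    exact h4
  · rw [g1, g1]
    have g5 := gN_mono_coord W J hN (s i) (a i) (b i)
    have e0 : N + ((0 : ℕ) : ℝ) = N := by simp
    rw [e0] at h5
    have g6 : ε * H i = ε / 2 * H i + ε / 2 * H i := by ring
    linarith

end Pool.Agent.Lib.MP_17a322_nt.VG
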