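import Pool.Agent.Lib.MP_17a322_nt.VG.L1l
import Pool.Agent.Lib.MP_17a322_nt.VN.L1m

/-!
The chain of local estimates (coordinates of both types); `ga i` is the net gain of the block `i`.
-/

universe u

namespace Pool.Agent.Lib.MP_17a322_nt.VG

open MvPolynomial Height
open Pool.Agent.Lib.MP_17a322_nt.RO
open Pool.Agent.Lib.MP_17a322_nt.VJ
open Pool.Agent.Lib.MP_17a322_nt.VN

private theorem ub_apply {m n : ℕ} (e : Fin m × Fin n →₀ ℕ) (i : Fin m) (μ : Fin n → ℕ)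
    (p : Fin m × Fin n) : ub e i μ p = if p.1 = i then μ p.2 else e p := rfl

private theorem ub_same {m n : ℕ} (e : Fin m × Fin n →₀ ℕ) (i : Fin m) (μ : Fin n → ℕ)
    (t : Fin n) : ub e i μ (i, t) = μ t := by
  rw [ub_apply, if_pos rfl]

private theorem ub_other {m n : ℕ} (e : Fin m × Fin n →₀ ℕ) {i i' : Fin m} (h : i' ≠ i)
    (μ : Fin n → ℕ) (t : Fin n) : ub e i μ (i', t) = e (i', t) := by
  rw [ub_apply, if_neg h]

private theorem ub_comm {m n : ℕ} (e : Fin m × Fin n →₀ ℕ) {i i' : Fin m} (h : i' ≠ i)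
    (μ μ' : Fin n → ℕ) : ub (ub e i' μ) i μ' = ub (ub e i μ') i' μ := by
  refine Finsupp.ext fun p => ?_
  rw [ub_apply, ub_apply, ub_apply, ub_apply]
  by_cases h1 : p.1 = i
  · have h2 : p.1 ≠ i' := fun h3 => h (h3.symm.trans h1)
    rw [if_pos h1, if_neg h2, if_pos h1]
  · rw [if_neg h1, if_neg h1]

private theorem coeff_step {A : Type*} [CommRing A] {m n : ℕ} (ξ : Fin m × Fin n → PowerSeries A)
    (i : Fin m) (d : Fin n) (F F' : MvPolynomial (Fin m × Fin n) A) {g gi : A}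
    (hg : g * gi = 1) (s : ℕ) (hF : C (g ^ s) * F' = PowerSeries.coeff s (sb ξ i d F))
    (e : Fin m × Fin n →₀ ℕ) :
    coeff e F' = gi ^ s * coeff e (PowerSeries.coeff s (sb ξ i d F)) := by
  rw [← hF, coeff_C_mul, ← mul_assoc, ← mul_pow, mul_comm gi g, hg, one_pow, one_mul]

theorem step_ORD {K L : Type*} [Field K] [Field L] [Algebra K L] {k e m : ℕ}
    (ρ : Fin m → REP K (k + 2) e) (W : Fin (k + 2) → CT K)
    (χ : Fin (k + 2) → Bool) (j T : Fin m → ℕ) (x0 : Fin (k + 2) → L)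
    (ξ : Fin m × Fin (k + 2) → P2 L) (i : Fin m) (d : Fin (k + 2))
    (F F' : MvPolynomial (Fin m × Fin (k + 2)) (PowerSeries L)) {g gi : PowerSeries L}
    (hg : g * gi = 1) (s : ℕ) (hF : C (g ^ s) * F' = PowerSeries.coeff s (sb ξ i d F))
    (b : Fin m → ℕ) (hi : ∀ t, F.degreeOf (i, t) ≤ b i) (i' : Fin m) (hii : i' ≠ i)
    (h : ∀ e', ORD (ρ i') W χ (j i') (b i') (T i') (fun μ => coeff (ub e' i' μ) F) x0)
    (e' : Fin m × Fin (k + 2) →₀ ℕ) :
    ORD (ρ i') W χ (j i') (b i') (T i') (fun μ => coeff (ub e' i' μ) F') x0 := by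
  classical
  intro c ε l β hβ
  have hcf : ∀ ν : Fin (k + 2) → ℕ, coeff (ub e' i' ν) F' = gi ^ s *
      (if ∀ t, e' (i, t) = 0 then ∑ μ ∈ box (fun _ : Fin (k + 2) => b i + 1),
        coeff (ub (ub e' i μ) i' ν) F *
          PowerSeries.coeff s (∏ t, (if t = d then ξ (i, t)
            else PowerSeries.C (PowerSeries.constantCoeff (ξ (i, t)))) ^ μ t) else 0) := by
    intro ν
    rw [coeff_step ξ i d F F' hg s hF, sb_coeff ξ i d F hi]
    have h1 : ∀ t, (ub e' i' ν) (i, t) = e' (i, t) := fun t => ub_other _ (Ne.symm hii) ν t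
    simp only [h1]
    congr 1
    refine if_congr Iff.rfl (Finset.sum_congr rfl fun μ _ => ?_) rfl
    rw [ub_comm e' hii]
  simp only [hcf]
  by_cases h0 : ∀ t, e' (i, t) = 0
  · simp only [if_pos h0]
    have h2 : ∀ ν : Fin (k + 2) → ℕ,
        gi ^ s * (∑ μ ∈ box (fun _ : Fin (k + 2) => b i + 1), coeff (ub (ub e' i μ) i' ν) F *
          PowerSeries.coeff s (∏ t, (if t = d then ξ (i, t)
            else PowerSeries.C (PowerSeries.constantCoeff (ξ (i, t)))) ^ μ t)) *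
          algebraMap L (PowerSeries L)
            (coeff β (spx x0 (GG (ρ i') (UU W χ (j i') (b i') c ε ν) l))) =
        ∑ μ ∈ box (fun _ : Fin (k + 2) => b i + 1), (gi ^ s *
          PowerSeries.coeff s (∏ t, (if t = d then ξ (i, t)
            else PowerSeries.C (PowerSeries.constantCoeff (ξ (i, t)))) ^ μ t)) *
          (coeff (ub (ub e' i μ) i' ν) F * algebraMap L (PowerSeries L)
            (coeff β (spx x0 (GG (ρ i') (UU W χ (j i') (b i') c ε ν) l)))) := by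
      intro ν
      rw [Finset.mul_sum, Finset.sum_mul]
      exact Finset.sum_congr rfl fun μ _ => by ring
    rw [Finset.sum_congr rfl fun ν _ => h2 ν, Finset.sum_comm]
    refine Finset.sum_eq_zero fun μ _ => ?_
    rw [← Finset.mul_sum, h (ub e' i μ) c ε l β hβ, mul_zero]
  · simp only [if_neg h0, mul_zero, zero_mul, Finset.sum_const_zero]

/-- The factor of the block `i` in the estimates. -/
noncomputable def KF {K L : Type*} [Field K] [Field L] [Algebra K L] (v : AbsoluteValue L ℝ)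
    {k e : ℕ} (ρ : REP K (k + 2) e) (D : ℕ) (W : Fin (k + 2) → CT K)
    (j b : ℕ) (x0 q : Fin (k + 2) → L) (ga G : ℝ) (s : ℕ) : ℝ :=
  (∏ t, kc (W t) v) ^ (CF k D * (b * 4 ^ j)) *
    (cst v (e + 1) * (ρ.map (algebraMap K L)).RB v) ^ (2 * (CE k D * b)) *
    (∏ t, max 1 (v (x0 t))) ^ (2 * 4 ^ j) * (∏ t, qq (W t) v (q t)) ^ b *
    ((∏ t, kc (W t) v) ^ 200 * ∏ t, max 1 (v (q t))) ^ s * ga * G ^ s

private theorem KF_nonneg {K L : Type*} [Field K] [Field L] [Algebra K L]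
    (v : AbsoluteValue L ℝ) {k e : ℕ} (ρ : REP K (k + 2) e) (D : ℕ)
    (W : Fin (k + 2) → CT K) (j b : ℕ) (x0 q : Fin (k + 2) → L) {ga G : ℝ}
    (hga : 0 ≤ ga) (hG : 0 ≤ G) (s : ℕ) : 0 ≤ KF v ρ D W j b x0 q ga G s := by
  have h1 : ∀ t, 0 ≤ kc (W t) v := fun t =>
    mul_nonneg (zero_le_one.trans (one_le_lc _ _)) (zero_le_one.trans (le_max_left _ _))
  have h2 : 0 ≤ ∏ t, kc (W t) v := Finset.prod_nonneg fun t _ => h1 t
  have h3 : 0 ≤ ∏ t, max 1 (v (x0 t)) :=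
    Finset.prod_nonneg fun t _ => zero_le_one.trans (le_max_left _ _)
  have h4 : 0 ≤ ∏ t, max 1 (v (q t)) :=
    Finset.prod_nonneg fun t _ => zero_le_one.trans (le_max_left _ _)
  have h7 : 0 ≤ ∏ t, qq (W t) v (q t) :=
    Finset.prod_nonneg fun t _ => zero_le_one.trans (one_le_qq (W t) v (q t))
  have h5 : 0 ≤ cst v (e + 1) := zero_le_one.trans (one_le_cst v (Nat.succ_le_succ (Nat.zero_le e)))
  have h6 : 0 ≤ (ρ.map (algebraMap K L)).RB v := zero_le_one.trans (one_le_RB _ v)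
  unfold KF
  positivity

theorem step_size {K L : Type*} [Field K] [Field L] [Algebra K L] (v : AbsoluteValue L ℝ)
    {k e m : ℕ} (ρ : REP K (k + 2) e) {D : ℕ} (hD : ρ.Deg D)
    (W : Fin (k + 2) → CT K) (hW : ∀ t, (W t).IsE) (χ : Fin (k + 2) → Bool)
    {j b T : ℕ} (hb : 1 ≤ b) (x0 σ q : Fin (k + 2) → L) (u : Fin (k + 2) → P2 L)
    (ξ : Fin m × Fin (k + 2) → P2 L) {rho : ℝ}
    (hrho : 0 ≤ rho) (hM0 : ∀ t, mu (W t) j ![x0 t, 1] ≠ 0) (hcu : ∀ t, cc2 (u t) = σ t)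
    (i : Fin m)
    (hP : ∀ t, PKG (W t) v (χ t) (mu (W t) j ![x0 t, 1]) (σ t) (q t) (u t) (ξ (i, t)) rho)
    (F F' : MvPolynomial (Fin m × Fin (k + 2)) (PowerSeries L)) {g gi : PowerSeries L}
    (hg : g * gi = 1) (s : ℕ) (dir : Fin (k + 2))
    (hF : C (g ^ s) * F' = PowerSeries.coeff s (sb (fun p => Ex j (ξ p)) i dir F))
    (hi : ∀ t, F.degreeOf (i, t) ≤ b)
    (hO : ∀ e', ORD ρ W χ j b T (fun μ => coeff (ub e' i μ) F) x0) {r : ℝ} (hr0 : 0 ≤ r) (N : ℕ)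
    {M G : ℝ} (hM : ∀ e', PN v r N (coeff e' F) ≤ M) (hG : PN v r N gi ≤ G)
    {dl ga : ℝ} (hdl0 : 0 < dl) (hdl1 : dl ≤ 1)
    (hga : (dl = 1 ∧ ga = 1) ∨ (s ≤ T ∧ (∀ t, v (σ t) ≤ 1) ∧ v (aeval σ (ρ.z 0)) ≤ dl ∧
      v (aeval σ (ρ.z 1)) ≤ dl ∧ (∏ t, sg (W t) v (σ t)) ^ b * dl ^ (T - s) ≤ ga))
    (hr : r ^ (4 ^ j) * ((∏ t, kc (W t) v) ^ 200 * ∏ t, max 1 (v (q t))) ≤ dl * rho)
    (e' : Fin m × Fin (k + 2) →₀ ℕ) :
    PN v r N (coeff e' F') ≤ M * KF v ρ D W j b x0 q ga G s := by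
  classical
  have hga0 : 0 ≤ ga := by
    rcases hga with h | h
    · rw [h.2]
      exact zero_le_one
    · refine (mul_nonneg (pow_nonneg (Finset.prod_nonneg fun t _ => ?_) _)
        (pow_nonneg hdl0.le _)).trans h.2.2.2.2
      exact zero_le_one.trans (one_le_sg (W t) v (σ t))
  have hSN : SN v (fun f : PowerSeries L => PN v r N f) := SN_PN v hr0 N
  have hM0' : 0 ≤ M := (hSN.nonneg _).trans (hM 0)
  have hG0 : 0 ≤ G := (hSN.nonneg _).trans hG
  rw [coeff_step (fun p => Ex j (ξ p)) i dir F F' hg s hF e', sb_coeff _ i dir F hi e' s]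
  by_cases h0 : ∀ t, e' (i, t) = 0
  · rw [if_pos h0]
    have h1 : (∑ μ ∈ box (fun _ : Fin (k + 2) => b + 1), coeff (ub e' i μ) F *
          PowerSeries.coeff s (∏ t, (if t = dir then Ex j (ξ (i, t))
            else PowerSeries.C (PowerSeries.constantCoeff (Ex j (ξ (i, t))))) ^ μ t)) =
        PowerSeries.coeff s (∑ μ ∈ box (fun _ : Fin (k + 2) => b + 1),
          PowerSeries.C (coeff (ub e' i μ) F) * ∏ t, dr t dir (Ex j (ξ (i, t))) ^ μ t) := by
      rw [map_sum]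
      refine Finset.sum_congr rfl fun μ _ => ?_
      rw [PowerSeries.coeff_C_mul]
      rfl
    rw [h1]
    have h2 := block_local v ρ hD W hW χ hb x0 σ q u (fun t => ξ (i, t)) hrho hM0 hcu hP
      (fun μ => coeff (ub e' i μ) F) (hO e') hr0 N (Bd := M) (fun μ _ => hM _) hdl0 hdl1 hr
      dir s hga
    have h3 : PN v r N (gi ^ s) ≤ G ^ s :=
      (hSN.pow_le gi s).trans (pow_le_pow_left₀ (hSN.nonneg gi) hG s)
    refine (hSN.mul _ _).trans ((mul_le_mul h3 h2 (hSN.nonneg _) (pow_nonneg hG0 s)).trans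
      (le_of_eq ?_))
    unfold KF
    ring
  · rw [if_neg h0, mul_zero]
    exact hSN.zero.le.trans (mul_nonneg hM0' (KF_nonneg v ρ D W j b x0 q hga0 hG0 s))

private theorem sb_congr {A : Type*} [CommRing A] {m n : ℕ} (ξ ξ' : Fin m × Fin n → PowerSeries A)
    (i : Fin m) (h : ∀ t, ξ (i, t) = ξ' (i, t)) (d : Fin n) : sb ξ i d = sb ξ' i d := by
  unfold sb
  congr 1
  funext p
  obtain ⟨i', t⟩ := p
  by_cases h1 : i' = i
  · subst h1
    simp only [if_true, h t]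
  · simp only [if_neg h1]

/-- The chain of estimates. -/
theorem chain_estimate {K L : Type*} [Field K] [Field L] [Algebra K L] (v : AbsoluteValue L ℝ)
    {k e m : ℕ} (ρ : Fin m → REP K (k + 2) e) {D : ℕ} (hD : ∀ i, (ρ i).Deg D)
    (W : Fin (k + 2) → CT K) (hW : ∀ t, (W t).IsE) (χ : Fin (k + 2) → Bool)
    (j b T : Fin m → ℕ) (hb : ∀ i, 1 ≤ b i) (x0 : Fin (k + 2) → L)
    (σ q : Fin m × Fin (k + 2) → L) (u ξ : Fin m × Fin (k + 2) → P2 L) (rho : Fin m → ℝ)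
    (hrho : ∀ i, 0 ≤ rho i) (hM0 : ∀ i t, mu (W t) (j i) ![x0 t, 1] ≠ 0)
    (hcu : ∀ p, cc2 (u p) = σ p)
    (hP : ∀ i t, PKG (W t) v (χ t) (mu (W t) (j i) ![x0 t, 1]) (σ (i, t)) (q (i, t)) (u (i, t))
      (ξ (i, t)) (rho i))
    (F : Fin (m + 1) → MvPolynomial (Fin m × Fin (k + 2)) (PowerSeries L))
    (g gi : Fin m → PowerSeries L) (hg : ∀ i, g i * gi i = 1) (s : Fin m → ℕ)
    (dir : Fin m → Fin (k + 2))
    (hF : ∀ i : Fin m, C (g i ^ s i) * F i.succ =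
      PowerSeries.coeff (s i) (sb (fun p => Ex (j p.1) (ξ p)) i (dir i) (F i.castSucc)))
    (hdeg : ∀ i t, (F 0).degreeOf (i, t) ≤ b i)
    (hO : ∀ i e', ORD (ρ i) W χ (j i) (b i) (T i) (fun μ => coeff (ub e' i μ) (F 0)) x0)
    {r : ℝ} (hr0 : 0 ≤ r) (N : ℕ) {M : ℝ} (hM : ∀ e', PN v r N (coeff e' (F 0)) ≤ M)
    (G : Fin m → ℝ) (hG : ∀ i, PN v r N (gi i) ≤ G i)
    (dl ga : Fin m → ℝ) (hdl0 : ∀ i, 0 < dl i) (hdl1 : ∀ i, dl i ≤ 1)
    (hga : ∀ i, (dl i = 1 ∧ ga i = 1) ∨ (s i ≤ T i ∧ (∀ t, v (σ (i, t)) ≤ 1) ∧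
      v (aeval (fun t => σ (i, t)) ((ρ i).z 0)) ≤ dl i ∧
      v (aeval (fun t => σ (i, t)) ((ρ i).z 1)) ≤ dl i ∧
      (∏ t, sg (W t) v (σ (i, t))) ^ (b i) * dl i ^ (T i - s i) ≤ ga i))
    (hr : ∀ i, r ^ (4 ^ j i) * ((∏ t, kc (W t) v) ^ 200 * ∏ t, max 1 (v (q (i, t)))) ≤
      dl i * rho i)
    (e' : Fin m × Fin (k + 2) →₀ ℕ) :
    PN v r N (coeff e' (F (Fin.last m))) ≤
      M * ∏ i, KF v (ρ i) D W (j i) (b i) x0 (fun t => q (i, t)) (ga i) (G i) (s i) := by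
  classical
  have hSN : SN v (fun f : PowerSeries L => PN v r N f) := SN_PN v hr0 N
  set Kf : Fin m → ℝ := fun i =>
    KF v (ρ i) D W (j i) (b i) x0 (fun t => q (i, t)) (ga i) (G i) (s i) with hKf
  have hF' : ∀ i : Fin m, C (g i ^ s i) * F i.succ =
      PowerSeries.coeff (s i) (sb (fun p => Ex (j i) (ξ p)) i (dir i) (F i.castSucc)) := by
    intro i
    rw [hF i, sb_congr (fun p => Ex (j p.1) (ξ p)) (fun p => Ex (j i) (ξ p)) i
      (fun t => rfl) (dir i)]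
  have main : ∀ (l : ℕ) (hl : l < m + 1),
      (∀ i : Fin m, l ≤ (i : ℕ) → ∀ t, (F ⟨l, hl⟩).degreeOf (i, t) ≤ b i) ∧
      (∀ i : Fin m, l ≤ (i : ℕ) → ∀ e', ORD (ρ i) W χ (j i) (b i) (T i)
        (fun μ => coeff (ub e' i μ) (F ⟨l, hl⟩)) x0) ∧
      ∀ e', PN v r N (coeff e' (F ⟨l, hl⟩)) ≤
        M * ∏ i : Fin m, (if (i : ℕ) < l then Kf i else 1) := by
    intro l
    induction l with
    | zero =>
      intro hl
      refine ⟨fun i _ t => hdeg i t, fun i _ e' => hO i e', fun e' => ?_⟩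
      have h1 : ∏ i : Fin m, (if (i : ℕ) < 0 then Kf i else 1) = 1 :=
        Finset.prod_eq_one fun i _ => if_neg (Nat.not_lt_zero _)
      rw [h1, mul_one]
      exact hM e'
    | succ l ih =>
      intro hl
      have hlm : l < m := Nat.lt_of_succ_lt_succ hl
      obtain ⟨ih1, ih2, ih3⟩ := ih (Nat.lt_of_succ_lt hl)
      set i0 : Fin m := ⟨l, hlm⟩ with hi0
      have hstep : C (g i0 ^ s i0) * F ⟨l + 1, hl⟩ = PowerSeries.coeff (s i0)
          (sb (fun p => Ex (j i0) (ξ p)) i0 (dir i0) (F ⟨l, Nat.lt_of_succ_lt hl⟩)) := hF' i0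
      refine ⟨fun i hi t => ?_, fun i hi e' => ?_, fun e' => ?_⟩
      · exact step_deg _ i0 (dir i0) _ _ (hg i0) (s i0) hstep b (fun t => ih1 i0 le_rfl t) i
          (fun t => ih1 i (Nat.le_of_succ_le hi) t) t
      · have hne : i ≠ i0 := by
          intro h1
          rw [h1] at hi
          exact Nat.not_succ_le_self l hi
        exact step_ORD ρ W χ j T x0 _ i0 (dir i0) _ _ (hg i0) (s i0) hstep b
          (fun t => ih1 i0 le_rfl t) i hne (fun e'' => ih2 i (Nat.le_of_succ_le hi) e'') e'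
      · have h1 := step_size v (ρ i0) (hD i0) W hW χ (hb i0) x0 (fun t => σ (i0, t))
          (fun t => q (i0, t)) (fun t => u (i0, t)) ξ (hrho i0) (hM0 i0) (fun t => hcu (i0, t))
          i0 (hP i0) (F ⟨l, Nat.lt_of_succ_lt hl⟩) (F ⟨l + 1, hl⟩) (hg i0) (s i0) (dir i0) hstep
          (fun t => ih1 i0 le_rfl t) (fun e'' => ih2 i0 le_rfl e'') hr0 N ih3 (hG i0)
          (hdl0 i0) (hdl1 i0) (hga i0) (hr i0) e'
        have h2 : ∏ i : Fin m, (if (i : ℕ) < l + 1 then Kf i else 1) =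
            (∏ i : Fin m, (if (i : ℕ) < l then Kf i else 1)) * Kf i0 := by
          have h3 : ∀ i : Fin m, (if (i : ℕ) < l + 1 then Kf i else 1) =
              (if (i : ℕ) < l then Kf i else 1) * (if i = i0 then Kf i else 1) := by
            intro i
            by_cases h4 : (i : ℕ) < l
            · rw [if_pos (Nat.lt_succ_of_lt h4), if_pos h4, if_neg, mul_one]
              intro h5
              rw [h5] at h4
              exact lt_irrefl _ h4
            · by_cases h5 : i = i0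
              · rw [if_neg h4, if_pos h5, one_mul, if_pos]
                rw [h5]
                exact Nat.lt_succ_self l
              · rw [if_neg h4, if_neg h5, one_mul, if_neg]
                intro h6
                exact h5 (Fin.ext (le_antisymm (Nat.le_of_lt_succ h6) (not_lt.1 h4)))
          rw [Finset.prod_congr rfl fun i _ => h3 i, Finset.prod_mul_distrib]
          congr 1
          rw [Finset.prod_ite_eq' Finset.univ i0 Kf, if_pos (Finset.mem_univ i0)]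
        rw [h2, ← mul_assoc]
        exact h1
  have hend := (main m (Nat.lt_succ_self m)).2.2 e'
  have h3 : ∏ i : Fin m, (if (i : ℕ) < m then Kf i else 1) = ∏ i, Kf i :=
    Finset.prod_congr rfl fun i _ => if_pos i.2
  rw [h3] at hend
  exact hend

end Pool.Agent.Lib.MP_17a322_nt.VG
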