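import Pool.Agent.Lib.MP_17a322_nt.VG.LP
import Pool.Agent.Lib.MP_17a322_nt.VG.L1o
import Pool.Agent.Lib.MP_17a322_nt.VN.L1n

/-!
The package for one coordinate of one point (coordinates of both types).
-/

universe u

namespace Pool.Agent.Lib.MP_17a322_nt.VG

open MvPolynomial Height
open Pool.Agent.Lib.MP_17a322_nt.RO
open Pool.Agent.Lib.MP_17a322_nt.VJ
open Pool.Agent.Lib.MP_17a322_nt.VN

theorem xr_tor_ne {L : Type u} [Field L] (P : (CT.tor : CT L).Pt) : (CT.tor : CT L).xr P 0 ≠ 0 :=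
  Units.ne_zero (Additive.toMul P : Lˣ)

theorem CH_tor_eq {L : Type u} [Field L] {c : Bool} {P : (CT.tor : CT L).Pt} {s : L}
    (h : CH c P s) : s ≠ 0 ∧ (CT.tor : CT L).xr P 0 = if c then s⁻¹ else s := by
  obtain ⟨a, ha, h1⟩ := h
  have h0 : (CT.tor : CT L).xr P 0 = a * vc c s 0 := congrFun h1 0
  have h2 : (1 : L) = a * vc c s 1 := congrFun h1 1
  have hp := xr_tor_ne P
  cases c
  · have e0 : vc false s 0 = s := rfl
    have e1 : vc false s 1 = 1 := rfl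
    rw [e1, mul_one] at h2
    rw [e0, ← h2, one_mul] at h0
    refine ⟨?_, ?_⟩
    · rw [← h0]
      exact hp
    · rw [h0]
      rfl
  · have e0 : vc true s 0 = 1 := rfl
    have e1 : vc true s 1 = s := rfl
    rw [e1] at h2
    rw [e0, mul_one] at h0
    have hs : s ≠ 0 := by
      intro hs
      rw [hs, mul_zero] at h2
      exact one_ne_zero h2
    refine ⟨hs, ?_⟩
    rw [h0]
    exact eq_inv_of_mul_eq_one_left h2.symm

theorem xr_sub_ml_tor {L : Type u} [Field L] [DecidableEq L] (P Q : (CT.tor : CT L).Pt) (j : ℕ) :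
    (CT.tor : CT L).xr (P - (CT.tor : CT L).ml j Q) 0 =
      (CT.tor : CT L).xr P 0 / (CT.tor : CT L).xr Q 0 ^ 4 ^ j := by
  have h0 : P - (CT.tor : CT L).ml j Q = P + -(4 ^ j • Q) := sub_eq_add_neg _ _
  rw [h0, xr_add_tor, div_eq_mul_inv, ← xr_nsmul_tor, ← xr_neg_tor]
  rfl

/-- The package for one coordinate of one point. -/
theorem pack {K : Type u} [Field K] (W : CT K) (hW : W.IsE) {L : Type u}
    [Field L] [CharZero L] [DecidableEq L] [Algebra K L] (V : CT L)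
    (hV : W.mp L = V) (j : ℕ) (Q P : V.Pt) (χ : Bool) (σ β : L)
    (hch : CH χ P σ) (hβ : β ^ 2 = ph W (vc χ σ)) (hβ0 : β ≠ 0) (h1 : V.Aff (P - V.ml j Q))
    (h2 : V.Aff (V.ml (j + 1) Q)) (U : PowerSeries L) (hU : PowerSeries.constantCoeff U = 0)
    (r₁ : AbsoluteValue L ℝ → ℝ) (hr₁ : ∀ v, 0 ≤ r₁ v) (hUr : ∀ v n, PN v (r₁ v) n U ≤ 1) :
    ∃ (u ξ : P2 L) (Y : PowerSeries L), mu W j ![V.xr Q 0, 1] ≠ 0 ∧
      PowerSeries.constantCoeff u = PowerSeries.C σ + U ∧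
      PowerSeries.coeff 1 u = (if χ then Y else -Y) ∧
      Y ^ 2 = ph W (vc χ (PowerSeries.C σ + U)) ∧ PowerSeries.constantCoeff Y = β ∧
      S3 W (M2 (mu W j ![V.xr Q 0, 1])) (vc χ u) ![ξ, 1] = 0 ∧
      cc2 ξ = V.xr (P - V.ml j Q) 0 ∧ cc2 u = σ ∧
      ∀ (v : AbsoluteValue L ℝ) (rho : ℝ), 0 ≤ rho →
        rho * (kc W v ^ 40 * vn v (vc χ σ) ^ 4) ≤ r₁ v * v β ^ 2 →
        PKG W v χ (mu W j ![V.xr Q 0, 1]) σ (V.xr (P - V.ml j Q) 0) u ξ rho ∧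
        (∀ n, PN v rho n (PowerSeries.constantCoeff u) ≤ cst v 2 * max 1 (v σ)) ∧
        ∀ n, PN v rho n Y ≤ cst v 2 * v β := by
  cases W with
  | ell W =>
    obtain rfl : V = CT.ell (W.map (algebraMap K L)) := hV.symm
    have hWE : W.IsElliptic := hW
    obtain ⟨u, ξ, Y, a1, a2, a3, a4, a5, a6, a7, a8, a9⟩ := VN.pack W (W.map (algebraMap K L)) rfl
      j Q P χ σ β hch hβ hβ0 h1 h2 U hU r₁ hr₁ hUr
    refine ⟨u, ξ, Y, a1, a2, a3, a4, a5, a6, a7, a8, fun v rho h0 h3 => ?_⟩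
    obtain ⟨b1, b2, b3⟩ := a9 v rho h0 h3
    exact ⟨PKG_ell W v χ _ σ _ u ξ rho b1, b2, b3⟩
  | tor =>
    obtain rfl : V = (CT.tor : CT L) := hV.symm
    obtain ⟨hσ0, hp⟩ := CH_tor_eq hch
    have hph : ph (CT.tor : CT K) (vc χ σ) = σ ^ 2 := by
      cases χ
      · change (σ * 1) ^ 2 = σ ^ 2
        rw [mul_one]
      · change (1 * σ) ^ 2 = σ ^ 2
        rw [one_mul]
    rw [hph] at hβ
    obtain ⟨u, ξ, Y, a2, a3, a4, a5, a6, a7, a8, a9⟩ := pack_tor (K := K) j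
      ((CT.tor : CT L).xr Q 0) ((CT.tor : CT L).xr P 0) σ β (xr_tor_ne Q) χ hσ0 hβ hp U hU r₁
      hr₁ hUr
    rw [xr_sub_ml_tor]
    refine ⟨u, ξ, Y, ?_, a2, a3, a4, a5, a6, a7, a8, a9⟩
    intro h
    have h3 : mu (CT.tor : CT K) j ![(CT.tor : CT L).xr Q 0, 1] 1 = 0 := by rw [h]; rfl
    have h4 : mu (CT.tor : CT K) j ![(CT.tor : CT L).xr Q 0, 1] 1 = (1 : L) ^ 4 ^ j := rfl
    rw [h4, one_pow] at h3
    exact one_ne_zero h3

end Pool.Agent.Lib.MP_17a322_nt.VG
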