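import Pool.Agent.Lib.MP_17a322_nt.VG.L1m
import Pool.Agent.Lib.MP_17a322_nt.VG.L1t
import Pool.Agent.Lib.MP_17a322_nt.VG.L1s
import Pool.Agent.Lib.MP_17a322_nt.VG.C09
import Pool.Agent.Lib.MP_17a322_nt.VN.L1p

/-!
The product formula for the chain of estimates (coordinates of both types). The gain of a block is
`gB`: the sum of the positive parts of the local gains diminished by the losses at the boundary.
-/

universe u

namespace Pool.Agent.Lib.MP_17a322_nt.VG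

open MvPolynomial Height
open Pool.Agent.Lib.MP_17a322_nt.RO
open Pool.Agent.Lib.MP_17a322_nt.VJ
open Pool.Agent.Lib.MP_17a322_nt.VN

/-- The integrand of `gB`. -/
private noncomputable def IB {L : Type*} [Field L] {n : ℕ} (τ : Fin n → Bool) (N : ℝ)
    (s : Fin n → L) (a b : L) (v : AbsoluteValue L ℝ) : ℝ :=
  open Classical in
  if ∀ t, v (s t) ≤ 1 then
    max 0 (- Real.log (min 1 (max (v a) (v b))) -
      N * ∑ t, if τ t then - Real.log (v (s t)) else 0) else 0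

private theorem IB_nonneg {L : Type*} [Field L] {n : ℕ} (τ : Fin n → Bool) (N : ℝ)
    (s : Fin n → L) (a b : L) (v : AbsoluteValue L ℝ) : 0 ≤ IB τ N s a b v := by
  unfold IB
  split_ifs
  · exact le_max_left _ _
  · exact le_rfl

private theorem loss_nonneg {L : Type*} [Field L] {n : ℕ} (τ : Fin n → Bool)
    (s : Fin n → L) (v : AbsoluteValue L ℝ) (h : ∀ t, v (s t) ≤ 1) :
    0 ≤ ∑ t, if τ t then - Real.log (v (s t)) else 0 := by
  refine Finset.sum_nonneg fun t _ => ?_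
  split_ifs
  · have := Real.log_nonpos (v.nonneg _) (h t)
    linarith
  · exact le_rfl

private theorem FS_IB {L : Type*} [Field L] [NumberField L] {n : ℕ} (τ : Fin n → Bool)
    {N : ℝ} (hN : 0 ≤ N) (s : Fin n → L) (a b : L) : FS (IB τ N s a b) := by
  classical
  have h := BC_FS_gn s a b
  refine Set.Finite.subset h fun v hv => ?_
  intro h0
  apply hv
  unfold IB
  by_cases h2 : ∀ t, v.val (s t) ≤ 1
  · have h1 := h0
    beta_reduce at h1
    rw [if_pos h2] at h1 ⊢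
    rw [h1]
    have h3 := mul_nonneg hN (loss_nonneg τ s v.val h2)
    exact max_eq_left (by linarith)
  · rw [if_neg h2]

private theorem gs_IB {L : Type*} [Field L] [NumberField L] {n : ℕ} (τ : Fin n → Bool)
    (N : ℝ) (s : Fin n → L) (a b : L) : gs (IB τ N s a b) = gB τ N s a b := rfl

private theorem log_sg {K : Type u} [Field K] {L : Type*} [Field L] {n : ℕ} (W : Fin n → CT K)
    (v : AbsoluteValue L ℝ) (s : Fin n → L) (hs : ∀ t, (W t).isTor = true → s t ≠ 0)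
    (h : ∀ t, v (s t) ≤ 1) :
    Real.log (∏ t, sg (W t) v (s t)) =
      2 * ∑ t, if (W t).isTor then - Real.log (v (s t)) else 0 := by
  rw [Real.log_prod fun t _ => (zero_lt_one.trans_le (one_le_sg (W t) v (s t))).ne',
    Finset.mul_sum]
  refine Finset.sum_congr rfl fun t _ => ?_
  have h1 := hs t
  have h2 := h t
  cases hW : W t with
  | ell W' =>
    change Real.log 1 = 2 * (if false = true then _ else 0)
    rw [Real.log_one, if_neg Bool.false_ne_true, mul_zero]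
  | tor =>
    rw [hW] at h1
    have h3 : s t ≠ 0 := h1 rfl
    have h4 : 0 < v (s t) := v.pos h3
    change Real.log (max 1 (v (s t))⁻¹ ^ 2) = 2 * (if true = true then _ else 0)
    rw [max_eq_right ((one_le_inv₀ h4).2 h2), Real.log_pow, if_pos rfl, Real.log_inv]
    push_cast
    ring

/-- The choice of the gain at one place. -/
private theorem gain_choice {K : Type u} [Field K] {L : Type*} [Field L] {n : ℕ}
    (W : Fin n → CT K) (v : AbsoluteValue L ℝ) (s : Fin n → L)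
    (hs : ∀ t, (W t).isTor = true → s t ≠ 0) {a b : L} (hab : a ≠ 0 ∨ b ≠ 0) (N T S : ℕ) :
    ∃ dl : ℝ, 0 < dl ∧ dl ≤ 1 ∧ dlv v s a b ≤ dl ∧
      ((dl = 1 ∧ Real.exp (-((if 2 * S ≤ T then (T : ℝ) / 2 else 0) *
          IB (fun t => (W t).isTor) (4 * N) s a b v)) = 1) ∨
        (S ≤ T ∧ (∀ t, v (s t) ≤ 1) ∧ v a ≤ dl ∧ v b ≤ dl ∧
          (∏ t, sg (W t) v (s t)) ^ (N * T) * dl ^ (T - S) ≤
            Real.exp (-((if 2 * S ≤ T then (T : ℝ) / 2 else 0) *
              IB (fun t => (W t).isTor) (4 * N) s a b v)))) := by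
  classical
  obtain ⟨hd0, hd1⟩ := dlv_pos v s hab
  by_cases hc : 2 * S ≤ T ∧ 0 < IB (fun t => (W t).isTor) (4 * N) s a b v
  swap
  · refine ⟨1, one_pos, le_rfl, hd1, Or.inl ⟨rfl, ?_⟩⟩
    have h0 : (if 2 * S ≤ T then (T : ℝ) / 2 else 0) *
        IB (fun t => (W t).isTor) (4 * N) s a b v = 0 := by
      by_cases h1 : 2 * S ≤ T
      · have h2 : IB (fun t => (W t).isTor) (4 * N) s a b v = 0 :=
          le_antisymm (not_lt.1 fun h => hc ⟨h1, h⟩) (IB_nonneg _ _ _ _ _ _)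
        rw [h2, mul_zero]
      · rw [if_neg h1, zero_mul]
    rw [h0, neg_zero, Real.exp_zero]
  obtain ⟨hST, hI⟩ := hc
  have hσ : ∀ t, v (s t) ≤ 1 := by
    by_contra h
    unfold IB at hI
    rw [if_neg h] at hI
    exact lt_irrefl _ hI
  set ls : ℝ := ∑ t, if (W t).isTor then - Real.log (v (s t)) else 0 with hls
  have hls0 : 0 ≤ ls := loss_nonneg (fun t => (W t).isTor) s v hσ
  have hdv : dlv v s a b = min 1 (max (v a) (v b)) := by
    unfold dlv
    rw [if_pos hσ]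
  have hIe : IB (fun t => (W t).isTor) (4 * N) s a b v =
      - Real.log (dlv v s a b) - 4 * N * ls := by
    rw [hdv]
    unfold IB at hI ⊢
    rw [if_pos hσ] at hI ⊢
    rcases le_total (- Real.log (min 1 (max (v a) (v b))) - 4 * N * ls) 0 with h | h
    · rw [max_eq_left h] at hI
      exact absurd hI (lt_irrefl _)
    · rw [max_eq_right h]
  have hne : dlv v s a b ≠ 1 := by
    intro h
    rw [hIe, h, Real.log_one] at hI
    have h2 : 0 ≤ 4 * (N : ℝ) * ls := by positivity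
    linarith
  rcases dlv_cases v s a b with h | ⟨_, ha, hb⟩
  · exact absurd h hne
  refine ⟨dlv v s a b, hd0, hd1, le_rfl, Or.inr ⟨by omega, hσ, ha, hb, ?_⟩⟩
  have hsg : 0 < ∏ t, sg (W t) v (s t) :=
    Finset.prod_pos fun t _ => zero_lt_one.trans_le (one_le_sg (W t) v (s t))
  rw [← Real.log_le_iff_le_exp (mul_pos (pow_pos hsg _) (pow_pos hd0 _)),
    Real.log_mul (pow_pos hsg _).ne' (pow_pos hd0 _).ne', Real.log_pow, Real.log_pow,
    log_sg W v s hs hσ, if_pos hST, hIe]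
  have h1 : Real.log (dlv v s a b) ≤ 0 := Real.log_nonpos hd0.le hd1
  have h2 : (T : ℝ) / 2 ≤ ((T - S : ℕ) : ℝ) := by
    rw [Nat.cast_sub (by omega)]
    have h3 : (2 : ℝ) * S ≤ T := by exact_mod_cast hST
    linarith
  have h3 := mul_le_mul_of_nonpos_right h2 h1
  push_cast
  change (N : ℝ) * T * (2 * ls) + _ ≤ _
  nlinarith

private theorem L1p_FS_congr {L : Type*} [Field L] [AdmissibleAbsValues L]
    {f g : AbsoluteValue L ℝ → ℝ} (h : ∀ v, Pl v → f v = g v) (hf : FS f) : FS g := by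
  refine hf.subset fun v hv => ?_
  intro h0
  apply hv
  rw [← h v.val (Or.inr v.property)]
  exact h0

/-- Finite support and upper bound of the sum. -/
private def L1p_Gl {L : Type*} [Field L] [AdmissibleAbsValues L] (f : AbsoluteValue L ℝ → ℝ) (c : ℝ) :
    Prop := FS f ∧ gs f ≤ c

private theorem L1p_Gl_add {L : Type*} [Field L] [AdmissibleAbsValues L]
    {f g : AbsoluteValue L ℝ → ℝ} {c d : ℝ} (hf : L1p_Gl f c) (hg : L1p_Gl g d) :
    L1p_Gl (fun v => f v + g v) (c + d) :=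
  ⟨FS_add hf.1 hg.1, by
    rw [gs_add hf.1 hg.1]
    exact add_le_add hf.2 hg.2⟩

private theorem L1p_Gl_mul {L : Type*} [Field L] [AdmissibleAbsValues L]
    {f : AbsoluteValue L ℝ → ℝ} {c : ℝ} (n : ℕ) (hf : L1p_Gl f c) :
    L1p_Gl (fun v => (n : ℝ) * f v) (n * c) :=
  ⟨FS_const_mul _ hf.1, by
    rw [gs_const_mul]
    exact mul_le_mul_of_nonneg_left hf.2 (Nat.cast_nonneg n)⟩

private theorem L1p_Gl_sum {L : Type*} [Field L] [AdmissibleAbsValues L] {ι : Type*} (s : Finset ι)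
    {f : ι → AbsoluteValue L ℝ → ℝ} {c : ι → ℝ} (hf : ∀ i ∈ s, L1p_Gl (f i) (c i)) :
    L1p_Gl (fun v => ∑ i ∈ s, f i v) (∑ i ∈ s, c i) :=
  ⟨FS_sum s fun i hi => (hf i hi).1, by
    rw [gs_sum s fun i hi => (hf i hi).1]
    exact Finset.sum_le_sum fun i hi => (hf i hi).2⟩

/-- The logarithm of a product of powers. -/
private theorem L1p_log {A B C D E E' F G : ℝ} (hA : 0 < A) (hB : 0 < B) (hC : 0 < C) (hD : 0 < D)
    (hE : 0 < E) (hE' : 0 < E') (hF : 0 < F) (hG : 0 < G) (a b c d s : ℕ) :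
    Real.log (A ^ a * (B * C) ^ b * D ^ c * E' ^ d * (A ^ 200 * E) ^ s * F * G ^ s) =
      (a : ℝ) * Real.log A + (b : ℝ) * (Real.log B + Real.log C) + (c : ℝ) * Real.log D +
        (d : ℝ) * Real.log E' + (s : ℝ) * (((200 : ℕ) : ℝ) * Real.log A + Real.log E) +
        Real.log F + (s : ℝ) * Real.log G := by
  have h1 := (pow_pos hA a).ne'
  have h2 := (pow_pos (mul_pos hB hC) b).ne'
  have h3 := (pow_pos hD c).ne'
  have h4 := (pow_pos hE' d).ne'
  have h5 := (pow_pos (mul_pos (pow_pos hA 200) hE) s).ne'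
  have h6 := hF.ne'
  have h7 := (pow_pos hG s).ne'
  rw [Real.log_mul (mul_ne_zero (mul_ne_zero (mul_ne_zero (mul_ne_zero (mul_ne_zero h1 h2) h3) h4) h5) h6) h7,
    Real.log_mul (mul_ne_zero (mul_ne_zero (mul_ne_zero (mul_ne_zero h1 h2) h3) h4) h5) h6,
    Real.log_mul (mul_ne_zero (mul_ne_zero (mul_ne_zero h1 h2) h3) h4) h5,
    Real.log_mul (mul_ne_zero (mul_ne_zero h1 h2) h3) h4, Real.log_mul (mul_ne_zero h1 h2) h3,
    Real.log_mul h1 h2, Real.log_pow, Real.log_pow, Real.log_pow, Real.log_pow, Real.log_pow,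
    Real.log_pow, Real.log_mul hB.ne' hC.ne', Real.log_mul (pow_pos hA 200).ne' hE.ne',
    Real.log_pow]

private theorem L1p_prod_pos {ι : Type*} [Fintype ι] (f : ι → ℝ) : 0 < ∏ t, max 1 (f t) :=
  Finset.prod_pos fun _ _ => lt_max_of_lt_left one_pos

/-- The logarithm of the factor of the block. -/
private theorem L1p_log_KF {K L : Type*} [Field K] [Field L] [Algebra K L] (v : AbsoluteValue L ℝ)
    {k e : ℕ} (ρ : REP K (k + 2) e) (D : ℕ) (W : Fin (k + 2) → CT K)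
    (j b : ℕ) (x0 q : Fin (k + 2) → L) {ga G : ℝ} (hga : 0 < ga) (hG : 0 < G) (s : ℕ) :
    0 < KF v ρ D W j b x0 q ga G s ∧
    Real.log (KF v ρ D W j b x0 q ga G s) =
      ((CF k D * (b * 4 ^ j) : ℕ) : ℝ) * (∑ t, Real.log (kc (W t) v)) +
      ((2 * (CE k D * b) : ℕ) : ℝ) * (Real.log (cst v (e + 1)) +
        Real.log ((ρ.map (algebraMap K L)).RB v)) +
      ((2 * 4 ^ j : ℕ) : ℝ) * (∑ t, Real.log (max 1 (v (x0 t)))) +
      (b : ℝ) * (∑ t, Real.log (qq (W t) v (q t))) +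
      (s : ℝ) * (((200 : ℕ) : ℝ) * (∑ t, Real.log (kc (W t) v)) + ∑ t, Real.log (max 1 (v (q t)))) +
      Real.log ga + (s : ℝ) * Real.log G := by
  have hk : ∀ t, 0 < kc (W t) v := fun t => zero_lt_one.trans_le (one_le_kc (W t) v)
  have hq : ∀ t, 0 < qq (W t) v (q t) := fun t =>
    zero_lt_one.trans_le (one_le_qq (W t) v (q t))
  have hA : 0 < ∏ t, kc (W t) v := Finset.prod_pos fun t _ => hk t
  have hB : 0 < cst v (e + 1) := zero_lt_one.trans_le (one_le_cst v (Nat.succ_le_succ (Nat.zero_le e)))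
  have hC : 0 < (ρ.map (algebraMap K L)).RB v := zero_lt_one.trans_le (one_le_RB _ v)
  have hD := L1p_prod_pos fun t => v (x0 t)
  have hE := L1p_prod_pos fun t => v (q t)
  have hE' : 0 < ∏ t, qq (W t) v (q t) := Finset.prod_pos fun t _ => hq t
  constructor
  · unfold KF
    positivity
  · unfold KF
    rw [L1p_log hA hB hC hD hE hE' hga hG, Real.log_prod fun t _ => (hk t).ne',
      Real.log_prod fun t _ => (lt_max_of_lt_left one_pos).ne',
      Real.log_prod fun t _ => (hq t).ne',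
      Real.log_prod fun t _ => (lt_max_of_lt_left one_pos).ne']

/-- The inequality from the chain of estimates and the product formula. -/
theorem core_ineq {K L : Type u} [Field K] [NumberField K] [Field L] [NumberField L]
    [Algebra K L] {k e m : ℕ} (ρ : Fin m → REP K (k + 2) e) {D : ℕ} (hD : ∀ i, (ρ i).Deg D)
    (W : Fin (k + 2) → CT K) (hW : ∀ t, (W t).IsE) (χ : Fin (k + 2) → Bool)
    (j : Fin m → ℕ) (N J : ℕ) (hN : 1 ≤ N) (hJ : ∀ i, j i ≤ J) (x0 : Fin (k + 2) → L)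
    (σ q : Fin m × Fin (k + 2) → L) (u ξ : Fin m × Fin (k + 2) → P2 L)
    (rho : Fin m → AbsoluteValue L ℝ → ℝ) (hrho : ∀ i v, 0 ≤ rho i v)
    (hM0 : ∀ i t, mu (W t) (j i) ![x0 t, 1] ≠ 0) (hcu : ∀ p, cc2 (u p) = σ p)
    (hP : ∀ v : AbsoluteValue L ℝ, Pl v → ∀ i t, PKG (W t) v (χ t)
      (mu (W t) (j i) ![x0 t, 1]) (σ (i, t)) (q (i, t)) (u (i, t)) (ξ (i, t)) (rho i v))
    (F₀ : (Fin (k + 2) → ℕ) → (Fin m → Fin (k + 2) → ℕ) → K) (hne : ∃ a ν, F₀ a ν ≠ 0)
    (hsupp : ∀ a ν, F₀ a ν ≠ 0 → a ∈ box (fun _ : Fin (k + 2) => N * 4 ^ J + 1) ∧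
      ν ∈ BB (fun i : Fin m => N * 4 ^ (J - j i) + 1)) (hCC : CC ρ W χ N J j F₀)
    (F : Fin (m + 1) → MvPolynomial (Fin m × Fin (k + 2)) (PowerSeries L))
    (hF0 : ∀ e', coeff e' (F 0) =
      PowerSeries.C (∑ a ∈ box (fun _ : Fin (k + 2) => N * 4 ^ J + 1),
        (∏ t, x0 t ^ a t) * algebraMap K L (F₀ a fun i t => e' (i, t))))
    (gd gi : Fin m → Fin (k + 2) → PowerSeries L) (s : Fin m → ℕ)
    (dir : AbsoluteValue L ℝ → Fin m → Fin (k + 2))
    (hg : ∀ v i, gd i (dir v i) * gi i (dir v i) = 1)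
    (hF : ∀ v i, C (gd i (dir v i) ^ s i) * F i.succ =
      PowerSeries.coeff (s i)
        (sb (fun p => Ex (j p.1) (ξ p)) i (dir v i) (F i.castSucc)))
    (G rr : Fin m → AbsoluteValue L ℝ → ℝ)
    (hG : ∀ v, Pl v → ∀ i (r : ℝ), 0 ≤ r → r ^ (4 ^ j i) ≤ rr i v → ∀ N',
      PN v r N' (gi i (dir v i)) ≤ G i v)
    (hGp : ∀ v, Pl v → ∀ i, 0 < G i v) (hGF : ∀ i, FS fun v => Real.log (G i v))
    (hrr0 : ∀ v, Pl v → ∀ i, 0 < rr i v ∧ rr i v ≤ 1) (hrrF : ∀ i, FS fun v => Real.log (rr i v))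
    (hnz : ∀ i, aeval (fun t => σ (i, t)) ((ρ i).z 0) ≠ 0 ∨
      aeval (fun t => σ (i, t)) ((ρ i).z 1) ≠ 0)
    (hσ : ∀ i t, (W t).isTor = true → σ (i, t) ≠ 0)
    (hrr : ∀ v, Pl v → ∀ i, rr i v * ((∏ t, kc (W t) v) ^ 200 * ∏ t, max 1 (v (q (i, t)))) ≤
      dlv v (fun t => σ (i, t)) (aeval (fun t => σ (i, t)) ((ρ i).z 0))
        (aeval (fun t => σ (i, t)) ((ρ i).z 1)) * rho i v)
    (a : ℕ) (g : PowerSeries L) (hdvd : F (Fin.last m) ∣ C g) (ha : PowerSeries.coeff a g ≠ 0) :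
    0 ≤ Module.finrank K L * logHeight (fun p : (box (fun _ : Fin (k + 2) => N * 4 ^ J + 1)) ×
          (BB (fun i : Fin m => N * 4 ^ (J - j i) + 1) : Finset (Fin m → Fin (k + 2) → ℕ)) =>
            F₀ p.1 p.2) +
      Module.finrank ℚ L * ((k + 2) * (N * 4 ^ J)) + N * 4 ^ J * ∑ t, logHeight₁ (x0 t) +
      ∑ i, (CF k D * (N * 4 ^ J) * ∑ t, gs (fun v : AbsoluteValue L ℝ => Real.log (kc (W t) v)) +
        2 * (CE k D * (N * 4 ^ (J - j i))) *
          (Module.finrank ℚ L * Real.log (e + 1) + Module.finrank K L * (ρ i).ht) +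
        2 * 4 ^ j i * ∑ t, logHeight₁ (x0 t) +
        N * 4 ^ (J - j i) * (2 * ∑ t, logHeight₁ (q (i, t))) +
        s i * (200 * ∑ t, gs (fun v : AbsoluteValue L ℝ => Real.log (kc (W t) v)) +
          ∑ t, logHeight₁ (q (i, t))) -
        tw J (j i) (s i) * gB (fun t => (W t).isTor) (4 * N) (fun t => σ (i, t))
          (aeval (fun t => σ (i, t)) ((ρ i).z 0)) (aeval (fun t => σ (i, t)) ((ρ i).z 1)) +
        s i * gs (fun v => Real.log (G i v))) +
      a * ∑ i, (4 ^ j i : ℝ)⁻¹ * (- gs (fun v => Real.log (rr i v))) := by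
  classical
  -- the integers
  obtain ⟨M1, hM1⟩ : ∃ M1 : ℕ, M1 = N * 4 ^ J := ⟨_, rfl⟩
  -- the bound for the coefficients of `F 0`
  obtain ⟨Y, hY⟩ : ∃ Y : (box (fun _ : Fin (k + 2) => N * 4 ^ J + 1)) ×
      (BB (fun i : Fin m => N * 4 ^ (J - j i) + 1) : Finset (Fin m → Fin (k + 2) → ℕ)) → L,
      Y = fun p => algebraMap K L (F₀ p.1 p.2) := ⟨_, rfl⟩
  have hYne : Y ≠ 0 := by
    obtain ⟨a', ν, h1⟩ := hne
    obtain ⟨h2, h3⟩ := hsupp a' ν h1
    intro h4
    have h5 := congrFun h4 (⟨a', h2⟩, ⟨ν, h3⟩)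
    rw [hY] at h5
    exact h1 ((map_eq_zero (algebraMap K L)).1 h5)
  have hYpos : ∀ v : AbsoluteValue L ℝ, 0 < ⨆ p, v (Y p) := by
    intro v
    obtain ⟨p, hp⟩ := Function.ne_iff.mp hYne
    exact (v.pos hp).trans_le (Finite.le_ciSup_of_le p le_rfl)
  obtain ⟨M₀, hM₀⟩ : ∃ M₀ : AbsoluteValue L ℝ → ℝ, M₀ = fun v =>
      cst v ((N * 4 ^ J + 1) ^ (k + 2)) * ((⨆ p, v (Y p)) *
        (∏ t, max 1 (v (x0 t))) ^ (N * 4 ^ J)) := ⟨_, rfl⟩
  have hcpos : ∀ v : AbsoluteValue L ℝ, 0 < cst v ((N * 4 ^ J + 1) ^ (k + 2)) := fun v =>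
    zero_lt_one.trans_le (one_le_cst v (Nat.one_le_pow _ _ (Nat.succ_pos _)))
  have hM₀pos : ∀ v : AbsoluteValue L ℝ, 0 < M₀ v := by
    intro v
    rw [hM₀]
    exact mul_pos (hcpos v) (mul_pos (hYpos v) (pow_pos (L1p_prod_pos fun t => v (x0 t)) _))
  have hM : ∀ (v : AbsoluteValue L ℝ) (r : ℝ) (N' : ℕ) (e' : Fin m × Fin (k + 2) →₀ ℕ),
      PN v r N' (coeff e' (F 0)) ≤ M₀ v := by
    intro v r N' e'
    rw [hF0 e', PN_C, hM₀]
    have h1 := (SN_self v).sum_le (box (fun _ : Fin (k + 2) => N * 4 ^ J + 1))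
      (fun a => (∏ t, x0 t ^ a t) * algebraMap K L (F₀ a fun i t => e' (i, t)))
      (B := (⨆ p, v (Y p)) * (∏ t, max 1 (v (x0 t))) ^ (N * 4 ^ J))
      (mul_pos (hYpos v) (pow_pos (L1p_prod_pos fun t => v (x0 t)) _)).le (by
        intro a ha
        show v ((∏ t, x0 t ^ a t) * algebraMap K L (F₀ a fun i t => e' (i, t))) ≤ _
        rw [map_mul, mul_comm]
        refine mul_le_mul ?_ ?_ (v.nonneg _) (hYpos v).le
        · by_cases h2 : F₀ a (fun i t => e' (i, t)) = 0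
          · rw [h2, map_zero, map_zero]
            exact (hYpos v).le
          · have h3 := (hsupp a _ h2).2
            refine Finite.le_ciSup_of_le (f := fun p => v (Y p)) (⟨a, ha⟩, ⟨_, h3⟩) ?_
            rw [hY]
        · rw [map_prod, ← Finset.prod_pow]
          refine Finset.prod_le_prod (fun _ _ => v.nonneg _) fun t _ => ?_
          rw [map_pow]
          refine (pow_le_pow_left₀ (v.nonneg _) (le_max_right 1 _) _).trans ?_
          refine pow_le_pow_right₀ (le_max_left _ _) ?_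
          have h2 := (mem_box _ _).1 ha t
          exact Nat.lt_succ_iff.1 h2)
    rw [C08_card] at h1
    exact h1
  -- degrees
  have hdeg : ∀ i t, (F 0).degreeOf (i, t) ≤ N * 4 ^ (J - j i) := by
    intro i t
    rw [degreeOf_le_iff]
    intro e' he'
    rw [mem_support_iff, hF0 e'] at he'
    have h1 : ∃ a, F₀ a (fun i t => e' (i, t)) ≠ 0 := by
      by_contra h2
      push Not at h2
      apply he'
      rw [Finset.sum_eq_zero fun a _ => by rw [h2, map_zero, mul_zero], map_zero]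
    obtain ⟨a, ha⟩ := h1
    have h3 := (hsupp a _ ha).2
    unfold BB at h3
    rw [Fintype.mem_piFinset] at h3
    have h4 := (mem_box _ _).1 (h3 i) t
    exact Nat.lt_succ_iff.1 h4
  have hO : ∀ i e', ORD (ρ i) W χ (j i) (N * 4 ^ (J - j i)) (4 ^ (J - j i))
      (fun μ => coeff (ub e' i μ) (F 0)) x0 := by
    intro i e'
    have h1 := ORD_of_CC (A := PowerSeries L) ρ W χ N J j F₀ hCC x0 i ({()} : Finset Unit)
      (fun _ => 1) (fun _ i t => e' (i, t))
    have h2 : (fun μ : Fin (k + 2) → ℕ => ∑ p ∈ ({()} : Finset Unit), (1 : PowerSeries L) *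
        algebraMap L (PowerSeries L) (∑ a ∈ box (fun _ : Fin (k + 2) => N * 4 ^ J + 1),
        (∏ t, x0 t ^ a t) * algebraMap K L (F₀ a (Function.update
          (fun i t => e' (i, t)) i μ)))) = fun μ => coeff (ub e' i μ) (F 0) := by
      funext μ
      rw [Finset.sum_singleton, one_mul, hF0]
      show PowerSeries.C _ = PowerSeries.C _
      congr 1
      refine Finset.sum_congr rfl fun a _ => ?_
      congr 3
      funext i' t
      by_cases hi : i' = i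
      · subst hi
        rw [Function.update_self]
        show μ t = if i' = i' then μ t else e' (i', t)
        rw [if_pos rfl]
      · rw [Function.update_of_ne hi]
        show e' (i', t) = if i' = i then μ t else e' (i', t)
        rw [if_neg hi]
    rw [h2] at h1
    exact h1
  -- the radius
  obtain ⟨rv, hrv⟩ : ∃ rv : AbsoluteValue L ℝ → ℝ, rv = fun v =>
      ∏ i, (rr i v) ^ (((4 : ℝ) ^ j i)⁻¹) := ⟨_, rfl⟩
  have hexp : ∀ i, 0 ≤ ((4 : ℝ) ^ j i)⁻¹ := fun i => inv_nonneg.2 (pow_nonneg (by norm_num) _)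
  have hrv1 : ∀ v, Pl v → 0 < rv v ∧ rv v ≤ 1 := by
    intro v hv
    rw [hrv]
    refine ⟨Finset.prod_pos fun i _ => Real.rpow_pos_of_pos (hrr0 v hv i).1 _, ?_⟩
    exact Finset.prod_le_one (fun i _ => (Real.rpow_pos_of_pos (hrr0 v hv i).1 _).le)
      fun i _ => Real.rpow_le_one (hrr0 v hv i).1.le (hrr0 v hv i).2 (hexp i)
  have hrv2 : ∀ v, Pl v → ∀ i, rv v ^ (4 ^ j i) ≤ rr i v := by
    intro v hv i
    have h1 : rv v ≤ (rr i v) ^ (((4 : ℝ) ^ j i)⁻¹) := by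
      rw [hrv]
      show ∏ i, (rr i v) ^ (((4 : ℝ) ^ j i)⁻¹) ≤ _
      rw [← Finset.mul_prod_erase _ _ (Finset.mem_univ i)]
      refine mul_le_of_le_one_right (Real.rpow_pos_of_pos (hrr0 v hv i).1 _).le ?_
      exact Finset.prod_le_one (fun i _ => (Real.rpow_pos_of_pos (hrr0 v hv i).1 _).le)
        fun i _ => Real.rpow_le_one (hrr0 v hv i).1.le (hrr0 v hv i).2 (hexp i)
    refine (pow_le_pow_left₀ (hrv1 v hv).1.le h1 _).trans (le_of_eq ?_)
    have h2 := Real.rpow_inv_natCast_pow (hrr0 v hv i).1.le (pow_ne_zero (j i) (four_ne_zero (α := ℕ)))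
    push_cast at h2
    exact h2
  have hrv3 : ∀ v, Pl v → ∑ i, ((4 : ℝ) ^ j i)⁻¹ * Real.log (rr i v) = Real.log (rv v) := by
    intro v hv
    rw [hrv]
    show _ = Real.log (∏ i, (rr i v) ^ (((4 : ℝ) ^ j i)⁻¹))
    rw [Real.log_prod fun i _ => (Real.rpow_pos_of_pos (hrr0 v hv i).1 _).ne']
    refine Finset.sum_congr rfl fun i _ => ?_
    rw [Real.log_rpow (hrr0 v hv i).1]
  have hrvF : FS fun v => Real.log (rv v) :=
    L1p_FS_congr hrv3 (FS_sum _ fun i _ => FS_const_mul _ (hrrF i))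
  have hrvg : gs (fun v => Real.log (rv v)) =
      ∑ i, ((4 : ℝ) ^ j i)⁻¹ * gs (fun v => Real.log (rr i v)) := by
    have h1 : gs (fun v => ∑ i, ((4 : ℝ) ^ j i)⁻¹ * Real.log (rr i v)) =
        ∑ i, ((4 : ℝ) ^ j i)⁻¹ * gs (fun v => Real.log (rr i v)) := by
      rw [gs_sum _ fun i _ => FS_const_mul _ (hrrF i)]
      exact Finset.sum_congr rfl fun i _ => gs_const_mul _
    rw [← h1]
    refine le_antisymm ?_ ?_
    · exact gs_le hrvF (FS_sum _ fun i _ => FS_const_mul _ (hrrF i)) fun v hv => (hrv3 v hv).ge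
    · exact gs_le (FS_sum _ fun i _ => FS_const_mul _ (hrrF i)) hrvF fun v hv => (hrv3 v hv).le
  -- the local gain
  obtain ⟨cg, hcg⟩ : ∃ cg : Fin m → ℝ, cg = fun i => tw J (j i) (s i) := ⟨_, rfl⟩
  obtain ⟨Iv, hIv⟩ : ∃ Iv : Fin m → AbsoluteValue L ℝ → ℝ, Iv = fun i v =>
      IB (fun t => (W t).isTor) (4 * N) (fun t => σ (i, t))
        (aeval (fun t => σ (i, t)) ((ρ i).z 0)) (aeval (fun t => σ (i, t)) ((ρ i).z 1)) v :=
    ⟨_, rfl⟩
  have hch : ∀ (v : AbsoluteValue L ℝ) (i : Fin m), ∃ dl : ℝ, 0 < dl ∧ dl ≤ 1 ∧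
      dlv v (fun t => σ (i, t)) (aeval (fun t => σ (i, t)) ((ρ i).z 0))
        (aeval (fun t => σ (i, t)) ((ρ i).z 1)) ≤ dl ∧
      ((dl = 1 ∧ Real.exp (-(cg i * Iv i v)) = 1) ∨ (s i ≤ 4 ^ (J - j i) ∧
        (∀ t, v (σ (i, t)) ≤ 1) ∧ v (aeval (fun t => σ (i, t)) ((ρ i).z 0)) ≤ dl ∧
        v (aeval (fun t => σ (i, t)) ((ρ i).z 1)) ≤ dl ∧
        (∏ t, sg (W t) v (σ (i, t))) ^ (N * 4 ^ (J - j i)) * dl ^ (4 ^ (J - j i) - s i) ≤
          Real.exp (-(cg i * Iv i v)))) := by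
    intro v i
    have h1 := gain_choice W v (fun t => σ (i, t)) (hσ i) (hnz i) N (4 ^ (J - j i)) (s i)
    rw [hcg, hIv]
    unfold tw
    push_cast at h1
    exact h1
  choose dv hdv0 hdv1 hdv2 hdv3 using hch
  -- the local estimate
  obtain ⟨Bv, hBv⟩ : ∃ Bv : AbsoluteValue L ℝ → ℝ, Bv = fun v => M₀ v *
      ∏ i, KF v (ρ i) D W (j i) (N * 4 ^ (J - j i)) x0 (fun t => q (i, t))
        (Real.exp (-(cg i * Iv i v))) (G i v) (s i) := ⟨_, rfl⟩
  have hloc : ∀ v, Pl v → PN v (rv v) a (coeff 0 (F (Fin.last m))) ≤ Bv v := by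
    intro v hv
    rw [hBv]
    refine chain_estimate v ρ hD W hW χ j (fun i => N * 4 ^ (J - j i)) (fun i => 4 ^ (J - j i))
      (fun i => Nat.one_le_iff_ne_zero.2 (Nat.mul_ne_zero (by omega) (pow_ne_zero _ four_ne_zero)))
      x0 σ q u ξ (fun i => rho i v) (fun i => hrho i v) hM0 hcu (hP v hv) F
      (fun i => gd i (dir v i)) (fun i => gi i (dir v i)) (hg v) s (dir v) (hF v) hdeg hO
      (hrv1 v hv).1.le a (hM v _ _) (fun i => G i v)
      (fun i => hG v hv i _ (hrv1 v hv).1.le (hrv2 v hv i) a) (fun i => dv v i)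
      (fun i => Real.exp (-(cg i * Iv i v)))
      (fun i => hdv0 v i) (fun i => hdv1 v i) (fun i => hdv3 v i) (fun i => ?_) 0
    have h1 : 0 ≤ (∏ t, kc (W t) v) ^ 200 * ∏ t, max 1 (v (q (i, t))) :=
      mul_nonneg (pow_nonneg (Finset.prod_nonneg fun t _ =>
        zero_le_one.trans (one_le_kc (W t) v)) _) (L1p_prod_pos fun t => v (q (i, t))).le
    refine (mul_le_mul_of_nonneg_right (hrv2 v hv i) h1).trans ?_
    exact (hrr v hv i).trans (mul_le_mul_of_nonneg_right (hdv2 v i) (hrho i v))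
  -- the divisibility
  have hdiv : coeff 0 (F (Fin.last m)) ∣ g := by
    have h1 := map_dvd (constantCoeff : MvPolynomial (Fin m × Fin (k + 2)) (PowerSeries L) →+* _) hdvd
    rw [constantCoeff_C, constantCoeff_eq] at h1
    exact h1
  -- logarithms
  obtain ⟨E, hE⟩ : ∃ E : AbsoluteValue L ℝ → ℝ, E = fun v =>
      (Real.log (cst v ((N * 4 ^ J + 1) ^ (k + 2))) + (Real.log (⨆ p, v (Y p)) +
        ((N * 4 ^ J : ℕ) : ℝ) * ∑ t, Real.log (max 1 (v (x0 t))))) +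
      ∑ i, (((CF k D * (N * 4 ^ (J - j i) * 4 ^ j i) : ℕ) : ℝ) * (∑ t, Real.log (kc (W t) v)) +
      ((2 * (CE k D * (N * 4 ^ (J - j i))) : ℕ) : ℝ) * (Real.log (cst v (e + 1)) +
        Real.log (((ρ i).map (algebraMap K L)).RB v)) +
      ((2 * 4 ^ j i : ℕ) : ℝ) * (∑ t, Real.log (max 1 (v (x0 t)))) +
      ((N * 4 ^ (J - j i) : ℕ) : ℝ) * (∑ t, Real.log (qq (W t) v (q (i, t)))) +
      (s i : ℝ) * (((200 : ℕ) : ℝ) * (∑ t, Real.log (kc (W t) v)) +
        ∑ t, Real.log (max 1 (v (q (i, t))))) +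
      (-cg i) * Iv i v + (s i : ℝ) * Real.log (G i v)) :=
    ⟨_, rfl⟩
  have hEB : ∀ v, Pl v → E v = Real.log (Bv v) := by
    intro v hv
    have h1 : ∀ i, 0 < KF v (ρ i) D W (j i) (N * 4 ^ (J - j i)) x0
        (fun t => q (i, t)) (Real.exp (-(cg i * Iv i v))) (G i v) (s i) := fun i =>
      (L1p_log_KF v (ρ i) D W _ _ x0 _ (Real.exp_pos _) (hGp v hv i) _).1
    rw [hBv, hE]
    beta_reduce
    rw [Real.log_mul (hM₀pos v).ne' (Finset.prod_pos fun i _ => h1 i).ne',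
      Real.log_prod fun i _ => (h1 i).ne']
    congr 1
    · rw [hM₀]
      beta_reduce
      have h2 := L1p_prod_pos fun t => v (x0 t)
      rw [Real.log_mul (hcpos v).ne' (mul_pos (hYpos v) (pow_pos h2 _)).ne',
        Real.log_mul (hYpos v).ne' (pow_pos h2 _).ne', Real.log_pow,
        Real.log_prod fun t _ => (lt_max_of_lt_left one_pos).ne']
    · refine Finset.sum_congr rfl fun i _ => ?_
      have h2 := (L1p_log_KF v (ρ i) D W (j i) (N * 4 ^ (J - j i)) x0 (fun t => q (i, t))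
        (Real.exp_pos (-(cg i * Iv i v))) (hGp v hv i) (s i)).2
      rw [Real.log_exp] at h2
      rw [neg_mul]
      exact h2.symm
  -- the global estimate
  have gK : L1p_Gl (fun v : AbsoluteValue L ℝ => ∑ t, Real.log (kc (W t) v))
      (∑ t, gs (fun v : AbsoluteValue L ℝ => Real.log (kc (W t) v))) :=
    L1p_Gl_sum _ fun t _ => ⟨FS_log_kc (W t), le_rfl⟩
  have gX : L1p_Gl (fun v : AbsoluteValue L ℝ => ∑ t, Real.log (max 1 (v (x0 t))))
      (∑ t, logHeight₁ (x0 t)) :=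
    L1p_Gl_sum _ fun t _ => ⟨FS_log_max _, (gs_log_max _).le⟩
  have gQ : ∀ i, L1p_Gl (fun v : AbsoluteValue L ℝ => ∑ t, Real.log (max 1 (v (q (i, t)))))
      (∑ t, logHeight₁ (q (i, t))) := fun i =>
    L1p_Gl_sum _ fun t _ => ⟨FS_log_max _, (gs_log_max _).le⟩
  have gQ' : ∀ i, L1p_Gl (fun v : AbsoluteValue L ℝ => ∑ t, Real.log (qq (W t) v (q (i, t))))
      (2 * ∑ t, logHeight₁ (q (i, t))) := fun i => by
    rw [Finset.mul_sum]
    exact L1p_Gl_sum _ fun t _ => gs_log_qq (W t) (q (i, t))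
  have gE : L1p_Gl (fun v : AbsoluteValue L ℝ => Real.log (cst v (e + 1)))
      (Module.finrank ℚ L * Real.log (e + 1)) := by
    refine ⟨FS_log_cst _, ?_⟩
    have h1 := gs_log_cst (L := L) (n := e + 1) (Nat.succ_le_succ (Nat.zero_le e))
    rw [NumberField.totalWeight_eq_finrank] at h1
    push_cast at h1
    exact h1
  have gR : ∀ i, L1p_Gl (fun v : AbsoluteValue L ℝ =>
      Real.log (((ρ i).map (algebraMap K L)).RB v)) (Module.finrank K L * (ρ i).ht) := fun i =>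
    ⟨FS_log_RB _, (ht_map (L := L) (ρ i)).le⟩
  have gD : ∀ i, L1p_Gl (fun v : AbsoluteValue L ℝ => (-cg i) * Iv i v)
      ((-cg i) * gB (fun t => (W t).isTor) (4 * N) (fun t => σ (i, t))
        (aeval (fun t => σ (i, t)) ((ρ i).z 0)) (aeval (fun t => σ (i, t)) ((ρ i).z 1))) :=
    fun i => by
    have h1 : FS (Iv i) := by
      rw [hIv]
      exact FS_IB _ (by positivity) _ _ _
    refine ⟨FS_const_mul _ h1, ?_⟩
    rw [gs_const_mul, hIv]
    exact le_rfl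
  have gG : ∀ i, L1p_Gl (fun v : AbsoluteValue L ℝ => Real.log (G i v))
      (gs fun v => Real.log (G i v)) := fun i => ⟨hGF i, le_rfl⟩
  have gC : L1p_Gl (fun v : AbsoluteValue L ℝ => Real.log (cst v ((N * 4 ^ J + 1) ^ (k + 2))))
      (Module.finrank ℚ L * ((k + 2) * (N * 4 ^ J))) := by
    refine ⟨FS_log_cst _, ?_⟩
    have h1 := gs_log_cst (L := L) (n := (N * 4 ^ J + 1) ^ (k + 2))
      (Nat.one_le_pow _ _ (Nat.succ_pos _))
    rw [NumberField.totalWeight_eq_finrank] at h1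
    refine h1.trans (mul_le_mul_of_nonneg_left ?_ (Nat.cast_nonneg _))
    push_cast
    rw [Real.log_pow]
    push_cast
    refine mul_le_mul_of_nonneg_left ?_ (by positivity)
    have h2 : (0 : ℝ) < (N : ℝ) * 4 ^ J + 1 := by positivity
    have h3 := Real.log_le_sub_one_of_pos h2
    linarith
  have gY : L1p_Gl (fun v : AbsoluteValue L ℝ => Real.log (⨆ p, v (Y p)))
      (Module.finrank K L * logHeight (fun p : (box (fun _ : Fin (k + 2) => N * 4 ^ J + 1)) ×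
          (BB (fun i : Fin m => N * 4 ^ (J - j i) + 1) : Finset (Fin m → Fin (k + 2) → ℕ)) =>
            F₀ p.1 p.2)) := by
    refine ⟨FS_log_iSup hYne, ?_⟩
    rw [gs_log_iSup hYne, hY, ← RV.logHeight_algebraMap]
  have gE' := L1p_Gl_add (L1p_Gl_add gC (L1p_Gl_add gY (L1p_Gl_mul (N * 4 ^ J) gX)))
    (L1p_Gl_sum Finset.univ fun i _ =>
      L1p_Gl_add (L1p_Gl_add (L1p_Gl_add (L1p_Gl_add (L1p_Gl_add (L1p_Gl_add
        (L1p_Gl_mul (CF k D * (N * 4 ^ (J - j i) * 4 ^ j i)) gK)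
        (L1p_Gl_mul (2 * (CE k D * (N * 4 ^ (J - j i)))) (L1p_Gl_add gE (gR i))))
        (L1p_Gl_mul (2 * 4 ^ j i) gX))
        (L1p_Gl_mul (N * 4 ^ (J - j i)) (gQ' i)))
        (L1p_Gl_mul (s i) (L1p_Gl_add (L1p_Gl_mul 200 gK) (gQ i))))
        (gD i))
        (L1p_Gl_mul (s i) (gG i)))
  rw [← hE] at gE'
  have hBF : FS fun v => Real.log (Bv v) := L1p_FS_congr hEB gE'.1
  have hfin := final_product a _ g hdiv ha rv Bv hrv1 hrvF hBF hloc
  have hBE : gs (fun v => Real.log (Bv v)) ≤ gs E := gs_le hBF gE'.1 fun v hv => (hEB v hv).ge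
  have hfin2 := hfin.trans (sub_le_sub_right (hBE.trans gE'.2) _)
  rw [hrvg] at hfin2
  refine hfin2.trans (le_of_eq ?_)
  have h4 : ∀ i, (4 : ℝ) ^ (J - j i) * 4 ^ j i = 4 ^ J := by
    intro i
    rw [← pow_add, Nat.sub_add_cancel (hJ i)]
  have hsum : ∑ i, ((4 : ℝ) ^ j i)⁻¹ * -gs (fun v => Real.log (rr i v)) =
      -∑ i, ((4 : ℝ) ^ j i)⁻¹ * gs (fun v => Real.log (rr i v)) := by
    rw [← Finset.sum_neg_distrib]
    exact Finset.sum_congr rfl fun i _ => by ring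
  rw [hsum]
  have hcomb : ∀ i, ((CF k D * (N * 4 ^ (J - j i) * 4 ^ j i) : ℕ) : ℝ) = CF k D * (N * 4 ^ J) := by
    intro i
    push_cast
    rw [mul_assoc (N : ℝ), h4 i]
  simp only [hcomb, hcg]
  push_cast
  ring_nf

end Pool.Agent.Lib.MP_17a322_nt.VG
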