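import Pool.Agent.Lib.MP_17a322_nt.VG.L1u0
import Pool.Agent.Lib.MP_17a322_nt.VG.L1g
import Pool.Agent.Lib.MP_17a322_nt.VG.L1p
import Pool.Agent.Lib.MP_17a322_nt.VG.L1s
import Pool.Agent.Lib.MP_17a322_nt.VG.LInt
import Pool.Agent.Lib.MP_17a322_nt.VN.L1v

/-!
The inequality of stage 2 (coordinates of both types).
-/

universe u

namespace Pool.Agent.Lib.MP_17a322_nt.VG

open MvPolynomial Height
open Pool.Agent.Lib.MP_17a322_nt.RO
open Pool.Agent.Lib.MP_17a322_nt.VJ
open Pool.Agent.Lib.MP_17a322_nt.VN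

theorem ph_tor_zero {K : Type u} [Field K] {W : CT K} (h : W.isTor = true) {L : Type*} [Field L]
    [Algebra K L] (c : Bool) : ph W (vc c (0 : L)) = 0 := by
  cases W with
  | ell W => exact absurd h (by simp [CT.isTor])
  | tor =>
    change ((vc c (0 : L)) 0 * (vc c (0 : L)) 1) ^ 2 = 0
    cases c
    · change ((0 : L) * 1) ^ 2 = 0
      ring
    · change ((1 : L) * 0) ^ 2 = 0
      ring

/-- The factors of the radius in stage 2. -/
theorem rad_two {K L : Type u} [Field K] [NumberField K] [Field L] [NumberField L] [Algebra K L]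
    {n : ℕ} (W : Fin n → CT K) (χ : Fin n → Bool) {g : MvPolynomial (Fin n) K}
    (hg : g ≠ 0) (D : ℕ) (hD : ∀ t, g.degreeOf t ≤ D) (σ β : Fin n → L)
    (hβ : ∀ t, β t ^ 2 = ph (W t) (vc (χ t) (σ t))) (h0 : ∀ t, β t ≠ 0) (r l : Fin n)
    (hr : aeval σ (pderiv r g) ≠ 0) :
    (∀ v : AbsoluteValue L ℝ, (0 < r1 v g D σ r * ro W v σ β * g2 W v g D σ β r l ∧
      r1 v g D σ r * ro W v σ β * g2 W v g D σ β r l ≤ 1) ∧
      r1 v g D σ r * ro W v σ β * g2 W v g D σ β r l ≤ r1 v g D σ r * ro W v σ β ∧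
      0 ≤ r1 v g D σ r * ro W v σ β) ∧
    (FS fun v : AbsoluteValue L ℝ =>
      Real.log (r1 v g D σ r * ro W v σ β * g2 W v g D σ β r l)) ∧
    - gs (fun v : AbsoluteValue L ℝ =>
      Real.log (r1 v g D σ r * ro W v σ β * g2 W v g D σ β r l)) ≤
      Module.finrank ℚ L * (3 * D * (n + 1) + 2) + 3 * (Module.finrank K L * nh g) +
        (3 * D + 6) * ∑ t, logHeight₁ (σ t) +
        48 * ∑ t, gs (fun v : AbsoluteValue L ℝ => Real.log (kc (W t) v)) := by
  have s1 := fun v : AbsoluteValue L ℝ => r1_spec v hg D hD σ r hr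
  have s2 := fun v : AbsoluteValue L ℝ => ro_pos W v σ β h0
  have s3 := fun v : AbsoluteValue L ℝ => ro_le W χ v σ β hβ
  have s4 := fun v : AbsoluteValue L ℝ => g2_spec W χ v hg D hD σ β hβ h0 r l hr
  obtain ⟨f1, e1⟩ := gs_log_r1 hg D σ r hr
  obtain ⟨f2, e2⟩ := gs_log_ro W σ β h0
  obtain ⟨f3, e3⟩ := gs_log_g2 W hg D σ β h0 r l hr
  have hlog : (fun v : AbsoluteValue L ℝ =>
      Real.log (r1 v g D σ r * ro W v σ β * g2 W v g D σ β r l)) =
      fun v : AbsoluteValue L ℝ => Real.log (r1 v g D σ r) + Real.log (ro W v σ β) +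
        Real.log (g2 W v g D σ β r l) := by
    funext v
    rw [Real.log_mul (mul_pos (s1 v).1 (s2 v)).ne' (s4 v).1.ne',
      Real.log_mul (s1 v).1.ne' (s2 v).ne']
  refine ⟨fun v => ⟨⟨mul_pos (mul_pos (s1 v).1 (s2 v)) (s4 v).1, ?_⟩, ?_, ?_⟩, ?_, ?_⟩
  · exact mul_le_one₀ (mul_le_one₀ (s1 v).2.1 (s2 v).le (s3 v).1) (s4 v).1.le (s4 v).2
  · exact mul_le_of_le_one_right (mul_pos (s1 v).1 (s2 v)).le (s4 v).2
  · exact (mul_pos (s1 v).1 (s2 v)).le
  · rw [hlog]
    exact FS_add (FS_add f1 f2) f3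
  · rw [hlog, gs_add (FS_add f1 f2) f3, gs_add f1 f2]
    have e4 : - gs (fun v : AbsoluteValue L ℝ => Real.log (ro W v σ β)) ≤ _ := e2.le
    refine le_trans (le_of_eq (by ring)) ((add_le_add (add_le_add e1 e4) e3).trans
      (le_of_eq (by ring)))

theorem ineq_two {K : Type u} [Field K] [NumberField K] [DecidableEq K] {k : ℕ}
    (W : Fin (k + 2) → CT K) (hW : ∀ t, (W t).IsE) (χ : Fin (k + 2) → Bool)
    (r l : Fin (k + 2)) (hrl : l ≠ r) (e D m N : ℕ) (hN : 1 ≤ N) :
    ∃ C : ℝ, 0 ≤ C ∧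
      ∀ (P₀ : ∀ t, (W t).Pt) (P : Fin m → ∀ t, (W t).Pt) (j : Fin m → ℕ)
        (s y : Fin m → Fin (k + 2) → K) (ρ : Fin m → REP K (k + 2) e)
        (g : Fin m → MvPolynomial (Fin (k + 2)) K) (J : ℕ)
        (F₀ : (Fin (k + 2) → ℕ) → (Fin m → Fin (k + 2) → ℕ) → K)
        (NN : Fin (m + 1) → MvPolynomial (VL m (k + 2)) K)
        (NN' : Fin m → MvPolynomial (VL m (k + 2)) K) (R : Fin m → ℕ) (a : ℕ)
        (c : MvPolynomial (Fin (k + 2) ⊕ (Fin m × Fin (k + 2))) K),
      (∀ i, j i ≤ J) → (∀ i t, (W t).Aff (P i t)) → (∀ i t, CH (χ t) (P i t) (s i t)) →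
      (∀ i t, y i t ^ 2 = ph (W t) (vc (χ t) (s i t))) → (∀ i t, y i t ≠ 0) →
      (∀ i, (ρ i).Deg D) → (∀ i, (ρ i).ht ≤ 4 ^ j i) →
      (∀ i, eval (s i) ((ρ i).z 0) ≠ 0 ∨ eval (s i) ((ρ i).z 1) ≠ 0) →
      (∀ i t, (g i).degreeOf t ≤ D) → (∀ i, nh (g i) ≤ 4 ^ j i) → (∀ i, eval (s i) (g i) = 0) →
      (∀ i, eval (s i) (pderiv r (g i)) ≠ 0) →
      (∃ a ν, F₀ a ν ≠ 0) →
      (∀ a ν, F₀ a ν ≠ 0 → a ∈ box (fun _ : Fin (k + 2) => N * 4 ^ J + 1) ∧
        ν ∈ BB (fun i : Fin m => N * 4 ^ (J - j i) + 1)) →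
      CC ρ W χ N J j F₀ →
      NN 0 = NF (box (fun _ : Fin (k + 2) => N * 4 ^ J + 1))
        (BB (fun i : Fin m => N * 4 ^ (J - j i) + 1)) F₀ →
      (∀ p, (NN (Fin.last m)).degreeOf (vZ p) = 0) →
      (∀ (i i' : Fin m) (t : Fin (k + 2)), i ≤ i' → (NN i.castSucc).degreeOf (vS (i', t)) = 0) →
      (∀ (i i' : Fin m) (t : Fin (k + 2)), i' ≤ i → (NN' i).degreeOf (vZ (i', t)) = 0) →
      (∀ (i i' : Fin m) (t : Fin (k + 2)), i' ≤ i → (NN i.succ).degreeOf (vZ (i', t)) = 0) →
      (∀ (i : Fin m) (A : Type u) [CommRing A] [Algebra K A] (x : VL m (k + 2) → A),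
        (∀ t, aeval x (al W χ j (i, t)) = 0) →
          aeval x (NN i.castSucc) ∣ aeval x (gS g i) ^ R i * aeval x (NN' i)) →
      (∀ (i : Fin m) (A : Type u) [CommRing A] [Algebra K A] (x : VL m (k + 2) → A),
        aeval x (gS g i) = 0 → aeval x (NN' i) ∣ aeval x (NN i.succ)) →
      c ≠ 0 →
      (∀ (L : Type u) [Field L] [Algebra K L] (x : Fin (k + 2) → L)
        (ζ : Fin m × Fin (k + 2) → L) (S : Fin m × Fin (k + 2) → PowerSeries L),
        (∀ p, p.2 ≠ r → S p = PowerSeries.C (algebraMap K L (s p.1 p.2)) +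
          PowerSeries.C (ζ p) * PowerSeries.X ^ (4 ^ j p.1)) →
        PowerSeries.coeff a (aeval (Sum.elim (fun t => PowerSeries.C (x t))
          (Sum.elim S fun _ => 0) : VL m (k + 2) → PowerSeries L) (NN (Fin.last m))) =
            aeval (Sum.elim x ζ) c) →
      ∃ s' : Fin m → ℕ, (∀ i, s' i ≤ R i) ∧
        INEQ C (logHeight (fun p : (box (fun _ : Fin (k + 2) => N * 4 ^ J + 1)) ×
          (BB (fun i : Fin m => N * 4 ^ (J - j i) + 1) : Finset (Fin m → Fin (k + 2) → ℕ)) =>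
            F₀ p.1 p.2)) (HN P₀) N J j s'
        (fun i => ∑ t, logHeight ((W t).xr (P i t - (W t).ml (j i) (P₀ t))))
        (fun i => gN W (4 * N) (s i) (eval (s i) ((ρ i).z 0)) (eval (s i) ((ρ i).z 1)))
        (fun i => logHeight ![eval (s i) (pderiv l (g i)) * y i l,
          eval (s i) (pderiv r (g i)) * y i r])
        (fun i => HN (P i)) a := by
  obtain ⟨Ck, Ch, hCk, hCh, hpack⟩ := const_pack W hW
  obtain ⟨C, hC, hconv⟩ := conv_ineq m k N (CF k D) (CE k D) (Module.finrank ℚ K)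
    (Real.log (e + 1)) Ck Ch (248 * Ck + Ch + Module.finrank ℚ K * (3 * D * (k + 3) + 2) +
      4 * D + 6) (Nat.cast_nonneg _)
    (Real.log_nonneg (by linarith [(Nat.cast_nonneg e : (0 : ℝ) ≤ e)])) hCk hCh
    (by positivity)
  refine ⟨C, hC, ?_⟩
  intro P₀ P j s y ρ g J F₀ NN NN' R a c hJ hP0 hch hy hy0 hD hht hz01 hgD hgn hg0 hgr hne hsupp
    hCC hNN0 hlast hS hZ' hZ hN' hN'' hc hc'
  obtain ⟨L, iF, iN, iD, iA, V, f, z, ζ, hV, hf, hz, h0, h1, h2, hζ, hcL⟩ :=
    choose_L W hW P₀ P j c hc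
  obtain ⟨hk, hh⟩ := hpack L V f z hV hf hz
  obtain ⟨hh0, hh1⟩ := hh P₀ h0
  have hinj : Function.Injective (algebraMap K L) := (algebraMap K L).injective
  -- the coordinates
  set σ : Fin m × Fin (k + 2) → L := fun p => algebraMap K L (s p.1 p.2) with hσ
  set β : Fin m × Fin (k + 2) → L := fun p => algebraMap K L (y p.1 p.2) with hβdef
  set x0 : Fin (k + 2) → L := fun t => (V t).xr (f t (P₀ t) + z t) 0 with hx0
  set q : Fin m × Fin (k + 2) → L := fun p =>
    (V p.2).xr (f p.2 (P p.1 p.2) - (V p.2).ml (j p.1) (f p.2 (P₀ p.2) + z p.2)) 0 with hq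
  have haev : ∀ i (p : MvPolynomial (Fin (k + 2)) K), aeval (fun t => σ (i, t)) p =
      algebraMap K L (eval (s i) p) := by
    intro i p
    have := aeval_algebraMap_apply L (s i) p
    rw [show (fun t => σ (i, t)) = algebraMap K L ∘ s i from rfl, this]
    rfl
  have hβ : ∀ i t, β (i, t) ^ 2 = ph (W t) (vc (χ t) (σ (i, t))) := by
    intro i t
    have e1 : (fun l => (Algebra.ofId K L) (vc (χ t) (s i t) l)) = vc (χ t) (σ (i, t)) := by
      funext l
      unfold vc
      cases χ t <;> fin_cases l <;> simp [hσ, Algebra.ofId_apply]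
    have e2 := map_ph (W t) (Algebra.ofId K L) (vc (χ t) (s i t))
    rw [e1] at e2
    rw [← e2, ← hy i t, map_pow]
    rfl
  have hβ0 : ∀ p, β p ≠ 0 := fun p =>
    (map_ne_zero_iff _ hinj).2 (hy0 p.1 p.2)
  -- the equations of the hypersurfaces
  have hgne : ∀ i, g i ≠ 0 := by
    intro i h
    apply hgr i
    rw [h, map_zero, map_zero]
  have hgL0 : ∀ i, aeval (fun t => σ (i, t)) (g i) = 0 := by
    intro i
    rw [haev, hg0 i, map_zero]
  have hgLr : ∀ i, aeval (fun t => σ (i, t)) (pderiv r (g i)) ≠ 0 := by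
    intro i
    rw [haev, map_ne_zero_iff _ hinj]
    exact hgr i
  have himp := fun i => implicit_path (g i) D (hgD i) r (fun t => σ (i, t)) (fun t => ζ (i, t))
    (fun t => hζ (i, t)) (hgL0 i) (hgLr i)
  choose Ur hUr0 hUre hUrs using himp
  set U : Fin m × Fin (k + 2) → PowerSeries L := fun p =>
    if p.2 = r then Ur p.1 else PowerSeries.C (ζ p) * PowerSeries.X with hU
  obtain ⟨u, ξ, Y, hM0, hu0, hu1, hY0, hrel, hcu, hpk⟩ := pack_all W hW V hV χ j
    (fun t => f t (P₀ t) + z t) (fun i t => f t (P i t)) σ β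
    (fun i t => CH_map (hf t) (hch i t)) hβ hβ0 h1 h2 U
    (fun p => by
      show PowerSeries.constantCoeff (if p.2 = r then Ur p.1 else _) = 0
      split_ifs
      · exact hUr0 p.1
      · rw [map_mul, PowerSeries.constantCoeff_X, mul_zero])
    (fun i v => r1 v (g i) D (fun t => σ (i, t)) r)
    (fun i v => (r1_spec v (hgne i) D (hgD i) (fun t => σ (i, t)) r (hgLr i)).1.le)
    (fun i t v n' => by
      obtain ⟨e1, e2, e3⟩ := r1_spec v (hgne i) D (hgD i) (fun t => σ (i, t)) r (hgLr i)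
      show PN v _ n' (if t = r then Ur i else _) ≤ 1
      split_ifs
      · exact hUrs i v _ e1.le e3 n'
      · exact (PN_mono_radius v e1.le e2 n' _).trans (explicit_size v (ζ (i, t)) (hζ (i, t)) n'))
  have hinjP : (0 : ℝ) < Module.finrank K L := by exact_mod_cast Module.finrank_pos
  set S : Fin m × Fin (k + 2) → PowerSeries L := fun p =>
    Ex1 L (j p.1) (PowerSeries.constantCoeff (u p)) with hSdef
  have hcS : (fun p : Fin m × Fin (k + 2) => PowerSeries.constantCoeff (Ex (j p.1) (u p))) = S := by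
    funext p
    exact constantCoeff_Ex (j p.1) (u p)
  have hSe : ∀ p, p.2 ≠ r → S p = PowerSeries.C (algebraMap K L (s p.1 p.2)) +
      PowerSeries.C (ζ p) * PowerSeries.X ^ (4 ^ j p.1) := by
    intro p hp
    rw [hSdef]
    show Ex1 L (j p.1) (PowerSeries.constantCoeff (u p)) = _
    have e1 : U p = PowerSeries.C (ζ p) * PowerSeries.X := if_neg hp
    rw [hu0 p, e1, map_add, map_mul, Ex1_C, Ex1_C, Ex1_X]
  have hSg : ∀ i, aeval (fun t => S (i, t)) (g i) = 0 := by
    intro i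
    have e1 := Ex1_aeval (K := K) (j i) (fun t => PowerSeries.constantCoeff (u (i, t))) (g i)
    have e2 : (fun t => PowerSeries.constantCoeff (u (i, t))) = fun t =>
        if t = r then PowerSeries.C (σ (i, r)) + Ur i
        else PowerSeries.C (σ (i, t)) + PowerSeries.C (ζ (i, t)) * PowerSeries.X := by
      funext t
      rw [hu0]
      show PowerSeries.C (σ (i, t)) + (if t = r then Ur i else _) = _
      split_ifs with ht
      · rw [ht]
      · rfl
    rw [e2, hUre i, map_zero] at e1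
    exact e1.symm
  -- the derivatives
  set gd : Fin m → Fin (k + 2) → PowerSeries L := fun i t =>
    aeval (fun t => PowerSeries.constantCoeff (Ex (j i) (u (i, t)))) (pderiv t (g i)) *
      PowerSeries.coeff 1 (Ex (j i) (u (i, t))) with hgddef
  have hgd1 : ∀ i t, gd i t = Ex1 L (j i)
      (aeval (fun t => PowerSeries.constantCoeff (u (i, t))) (pderiv t (g i)) *
        (if χ t then Y (i, t) else -Y (i, t))) := by
    intro i t
    rw [map_mul, Ex1_aeval, ← hu1 (i, t), ← coeff_Ex]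
    show aeval (fun t => PowerSeries.constantCoeff (Ex (j i) (u (i, t)))) (pderiv t (g i)) * _ = _
    have e1 : (fun t => PowerSeries.constantCoeff (Ex (j i) (u (i, t)))) =
        fun t => Ex1 L (j i) (PowerSeries.constantCoeff (u (i, t))) :=
      funext fun t => constantCoeff_Ex _ _
    rw [e1]
  have hcu' : ∀ i, (fun t => PowerSeries.constantCoeff (PowerSeries.constantCoeff (u (i, t)))) =
      fun t => σ (i, t) := fun i => funext fun t => hcu (i, t)
  have hgdc : ∀ i t, aeval (fun t => σ (i, t)) (pderiv t (g i)) * β (i, t) ≠ 0 →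
      PowerSeries.constantCoeff (gd i t) ≠ 0 := by
    intro i t h
    rw [hgd1, constantCoeff_Ex1, map_mul, constantCoeff_aeval, hcu' i]
    cases χ t
    · simp only [Bool.false_eq_true, if_false]
      rw [map_neg, hY0, mul_neg, neg_ne_zero]
      exact h
    · simp only [if_true]
      rw [hY0]
      exact h
  have hgdr : ∀ i, aeval (fun t => σ (i, t)) (pderiv r (g i)) * β (i, r) ≠ 0 := fun i =>
    mul_ne_zero (hgLr i) (hβ0 _)
  -- the chain
  obtain ⟨F, s', hF0, hFl, hsR, hFs⟩ := chain_two W χ j r l hrl g NN NN' R hS hZ' hZ hN' hN''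
    (fun t => (PowerSeries.C (x0 t) : PowerSeries L)) (fun p => Ex (j p.1) (u p))
    (fun p => Ex (j p.1) (ξ p))
    (fun p => rel_two (W p.2) (χ p.2) (j p.1) (j p.1) (x0 p.2) (u p) (ξ p) (hrel p))
    (fun i => by
      have e1 : (fun t => PowerSeries.constantCoeff (Ex (j i) (u (i, t)))) =
          fun t => S (i, t) := funext fun t => constantCoeff_Ex _ _
      show aeval (fun t => PowerSeries.constantCoeff (Ex (j i) (u (i, t)))) (g i) = 0
      rw [e1]
      exact hSg i) gd (fun i t => rfl)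
    (fun i => by
      rw [PowerSeries.isUnit_iff_constantCoeff, isUnit_iff_ne_zero]
      exact hgdc i r (hgdr i))
    (by
      rw [hcS, pS_const _ _ _ hlast]
      intro h
      apply hcL
      have e1 := C_eq_zero.mp h
      have e2 := hc' L x0 ζ S hSe
      rw [e1, map_zero] at e2
      exact e2.symm)
  rw [hcS] at hF0 hFl
  rw [pS_const _ _ _ hlast] at hFl
  refine ⟨s', hsR, ?_⟩
  -- the radii
  have hz01L : ∀ i, aeval (fun t => σ (i, t)) ((ρ i).z 0) ≠ 0 ∨
      aeval (fun t => σ (i, t)) ((ρ i).z 1) ≠ 0 := by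
    intro i
    rw [haev, haev, map_ne_zero_iff _ hinj, map_ne_zero_iff _ hinj]
    exact hz01 i
  have hrad := fun i => rad_two W χ (hgne i) D (hgD i) (fun t => σ (i, t)) (fun t => β (i, t))
    (fun t => hβ i t) (fun t => hβ0 (i, t)) r l (hgLr i)
  set RA : Fin m → AbsoluteValue L ℝ → ℝ := fun i v =>
    r1 v (g i) D (fun t => σ (i, t)) r * ro W v (fun t => σ (i, t)) (fun t => β (i, t)) *
      g2 W v (g i) D (fun t => σ (i, t)) (fun t => β (i, t)) r l with hRA
  set RR : Fin m → AbsoluteValue L ℝ → ℝ := fun i v =>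
    dlv v (fun t => σ (i, t)) (aeval (fun t => σ (i, t)) ((ρ i).z 0))
        (aeval (fun t => σ (i, t)) ((ρ i).z 1)) * RA i v /
        ((∏ t, kc (W t) v) ^ 200 * ∏ t, max 1 (v (q (i, t)))) with hRR
  have hrr := fun i => rr_spec W (fun t => σ (i, t)) (fun t => q (i, t)) (hz01L i)
    (RA i) (fun v => ((hrad i).1 v).1) (hrad i).2.1
  have hddc : ∀ (v : AbsoluteValue L ℝ) (i : Fin m), PowerSeries.constantCoeff
      (gd i (dd v (g i) (fun t => σ (i, t)) (fun t => β (i, t)) r l)) ≠ 0 := by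
    intro v i
    apply hgdc
    have e1 := (dd_spec v (g i) (fun t => σ (i, t)) (fun t => β (i, t)) r l).2
    intro h0
    rw [h0, map_zero] at e1
    have e2 := v.pos (hgdr i)
    have e3 := le_max_right (v (aeval (fun t => σ (i, t)) (pderiv l (g i)) * β (i, l)))
      (v (aeval (fun t => σ (i, t)) (pderiv r (g i)) * β (i, r)))
    rw [← e1] at e3
    linarith
  have key := core_ineq ρ hD W hW χ j N J hN hJ x0 σ q u ξ
    (fun i v => r1 v (g i) D (fun t => σ (i, t)) r *
      ro W v (fun t => σ (i, t)) (fun t => β (i, t)))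
    (fun i v => ((hrad i).1 v).2.2) hM0 hcu (fun v _ i t => (hpk i v).1 t) F₀ hne hsupp hCC F
    (fun e' => by
      rw [hF0, hNN0]
      exact NF_aeval _ _ F₀ hsupp x0 S e') gd (fun i t => (gd i t)⁻¹) s'
    (fun v i => dd v (g i) (fun t => σ (i, t)) (fun t => β (i, t)) r l)
    (fun v i => PowerSeries.mul_inv_cancel _ (hddc v i))
    (fun v i => hFs i _ (dd_spec v (g i) (fun t => σ (i, t)) (fun t => β (i, t)) r l).1)
    (fun i v => cst v 2 / max (v (aeval (fun t => σ (i, t)) (pderiv l (g i)) * β (i, l)))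
      (v (aeval (fun t => σ (i, t)) (pderiv r (g i)) * β (i, r))))
    RR
    (fun v hv i x hx hx1 N' => by
      refine g2_inv W χ v (hgne i) D (hgD i) (fun t => σ (i, t)) (fun t => β (i, t))
        (fun t => hβ i t) (fun t => hβ0 (i, t)) r l (hgLr i)
        (fun t => PowerSeries.constantCoeff (u (i, t))) (fun t => Y (i, t))
        (fun t => hcu (i, t)) (fun t => hY0 (i, t)) ((hrad i).1 v).2.2
        (fun t n' => (hpk i v).2.1 t n') (fun t n' => (hpk i v).2.2 t n') (j i) _ ?_ x hx ?_ N'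
      · rw [← hgd1 i]
        exact PowerSeries.mul_inv_cancel _ (hddc v i)
      · refine hx1.trans (((hrr i).1 v).2.1.trans (le_of_eq ?_))
        exact mul_comm _ _)
    (fun v _ i => div_pos (lt_of_lt_of_le one_pos (one_le_cst v (by norm_num)))
      (lt_of_lt_of_le (v.pos (hgdr i)) (le_max_right _ _)))
    (fun i => (gs_log_max_two (hgdr i)).1)
    (fun v _ i => ⟨((hrr i).1 v).1, ((hrr i).1 v).2.1.trans ((hrad i).1 v).1.2⟩)
    (fun i => (hrr i).2.1) hz01L
    (fun i t ht h0 => hβ0 (i, t) (by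
      have e1 := hβ i t
      rw [h0, ph_tor_zero ht] at e1
      exact pow_eq_zero_iff two_ne_zero |>.1 e1))
    (fun v _ i => by
      refine (((hrr i).1 v).2.2).le.trans ?_
      exact mul_le_mul_of_nonneg_left ((hrad i).1 v).2.1 (dlv_pos v _ (hz01L i)).1.le) a
    (aeval (Sum.elim (fun t => PowerSeries.C (x0 t)) (Sum.elim S fun _ => 0) :
      VL m (k + 2) → PowerSeries L) (NN (Fin.last m))) hFl
    (by
      rw [hc' L x0 ζ S hSe]
      exact hcL)
  -- conversion to `K`
  have hL : (Module.finrank ℚ L : ℝ) = Module.finrank K L * Module.finrank ℚ K := finrank_eq_mul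
  have hlF : 0 ≤ logHeight (fun p : (box (fun _ : Fin (k + 2) => N * 4 ^ J + 1)) ×
          (BB (fun i : Fin m => N * 4 ^ (J - j i) + 1) : Finset (Fin m → Fin (k + 2) → ℕ)) =>
            F₀ p.1 p.2) := logHeight_nonneg _
  have hHN : ∀ P : ∀ t, (W t).Pt, 0 ≤ HN P := fun P =>
    Finset.sum_nonneg fun t _ => logHeight_nonneg _
  have hsig : ∀ i, ∑ t, logHeight₁ (σ (i, t)) = Module.finrank K L * HN (P i) := by
    intro i
    unfold HN
    rw [Finset.mul_sum]
    refine Finset.sum_congr rfl fun t _ => ?_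
    rw [L_CH_height (hch i t)]
    exact logHeight₁_algebraMap (s i t)
  have hgL : ∀ i, gn (fun t => σ (i, t)) (aeval (fun t => σ (i, t)) ((ρ i).z 0))
      (aeval (fun t => σ (i, t)) ((ρ i).z 1)) =
      Module.finrank K L * gn (s i) (eval (s i) ((ρ i).z 0)) (eval (s i) ((ρ i).z 1)) := by
    intro i
    rw [haev, haev]
    exact gn_map (s i) _ _
  have hgB : ∀ i, gB (fun t => (W t).isTor) (4 * N) (fun t => σ (i, t))
      (aeval (fun t => σ (i, t)) ((ρ i).z 0)) (aeval (fun t => σ (i, t)) ((ρ i).z 1)) =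
      Module.finrank K L *
        gN W (4 * N) (s i) (eval (s i) ((ρ i).z 0)) (eval (s i) ((ρ i).z 1)) := by
    intro i
    rw [haev, haev]
    exact gB_map W _ (s i) _ _
  have hslope : ∀ i, logHeight ![aeval (fun t => σ (i, t)) (pderiv l (g i)) * β (i, l),
      aeval (fun t => σ (i, t)) (pderiv r (g i)) * β (i, r)] =
      Module.finrank K L * logHeight ![eval (s i) (pderiv l (g i)) * y i l,
        eval (s i) (pderiv r (g i)) * y i r] := by
    intro i
    rw [← RV.logHeight_algebraMap]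
    congr 1
    funext t
    fin_cases t
    · show aeval (fun t => σ (i, t)) (pderiv l (g i)) * β (i, l) =
        algebraMap K L (eval (s i) (pderiv l (g i)) * y i l)
      rw [haev, map_mul]
    · show aeval (fun t => σ (i, t)) (pderiv r (g i)) * β (i, r) =
        algebraMap K L (eval (s i) (pderiv r (g i)) * y i r)
      rw [haev, map_mul]
  rw [hL] at key
  refine hconv (Module.finrank K L) _ (HN P₀) (∑ t, logHeight₁ (x0 t))
    (∑ t, gs (fun v : AbsoluteValue L ℝ => Real.log (kc (W t) v))) J j s'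
    _ _ _ _ (fun i => (ρ i).ht) (fun i => ∑ t, logHeight₁ (q (i, t)))
    (fun i => gB (fun t => (W t).isTor) (4 * N) (fun t => σ (i, t))
      (aeval (fun t => σ (i, t)) ((ρ i).z 0)) (aeval (fun t => σ (i, t)) ((ρ i).z 1)))
    (fun i => gs (fun v : AbsoluteValue L ℝ => Real.log (cst v 2 /
      max (v (aeval (fun t => σ (i, t)) (pderiv l (g i)) * β (i, l)))
      (v (aeval (fun t => σ (i, t)) (pderiv r (g i)) * β (i, r))))))
    (fun i => - gs (fun v => Real.log (RR i v))) a hinjP hlF (hHN P₀)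
    (fun i => Finset.sum_nonneg fun t _ => logHeight_nonneg _) (fun i => hHN (P i)) hJ hht
    hh0 hk (fun i => hh1 (P i) (j i) (h1 i)) hgB
    (fun i => by
      have e1 := (gs_log_max_two (a := aeval (fun t => σ (i, t)) (pderiv l (g i)) * β (i, l))
        (hgdr i)).2
      rw [hslope i, hL] at e1
      exact e1) ?_ key
  intro i
  have e1 : - gs (fun v => Real.log (RR i v)) = _ := (hrr i).2.2
  have e2 := (hrad i).2.2
  rw [hsig i, hL] at e2
  have e3 := hh1 (P i) (j i) (h1 i)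
  have e4 := gn_bound (ρ i) (hD i) (s i) (hz01 i)
  have e5 : ∑ t, logHeight₁ (s i t) = HN (P i) := by
    unfold HN
    exact Finset.sum_congr rfl fun t _ => (L_CH_height (hch i t)).symm
  rw [e5] at e4
  have e6 : (1 : ℝ) ≤ 4 ^ j i := one_le_pow₀ (by norm_num)
  have e7 := hht i
  have e8 := hHN (P i)
  rw [hgL i] at e1
  have e9 : (Module.finrank K L : ℝ) *
      gn (s i) (eval (s i) ((ρ i).z 0)) (eval (s i) ((ρ i).z 1)) ≤
      Module.finrank K L * (4 ^ j i + D * HN (P i)) :=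
    mul_le_mul_of_nonneg_left (by linarith) hinjP.le
  have e10 : 248 * ∑ t, gs (fun v : AbsoluteValue L ℝ => Real.log (kc (W t) v)) ≤
      Module.finrank K L * (248 * Ck * 4 ^ j i) := by
    have : Ck ≤ Ck * 4 ^ j i := le_mul_of_one_le_right hCk e6
    nlinarith [mul_le_mul_of_nonneg_left this hinjP.le]
  have e11 : (Module.finrank K L : ℝ) * Module.finrank ℚ K *
      (3 * D * (((k + 2 : ℕ) : ℝ) + 1) + 2) ≤
      Module.finrank K L * (Module.finrank ℚ K * (3 * D * (k + 3) + 2) * 4 ^ j i) := by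
    have e12 : (((k + 2 : ℕ) : ℝ) + 1) = k + 3 := by push_cast; ring
    rw [e12, mul_assoc]
    refine mul_le_mul_of_nonneg_left ?_ hinjP.le
    exact le_mul_of_one_le_right (by positivity) e6
  have e13 : 3 * ((Module.finrank K L : ℝ) * nh (g i)) ≤ 3 * (Module.finrank K L * 4 ^ j i) :=
    mul_le_mul_of_nonneg_left (mul_le_mul_of_nonneg_left (hgn i) hinjP.le) (by norm_num)
  have e14 : 0 ≤ (Module.finrank K L : ℝ) * ((248 * Ck + Ch +
      Module.finrank ℚ K * (3 * D * (k + 3) + 2)) * HN (P i) + (4 * D + 2 : ℝ) * 4 ^ j i) := by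
    positivity
  show - gs (fun v => Real.log (RR i v)) ≤ _
  rw [e1]
  have e15 : (Module.finrank K L : ℝ) * (4 ^ j i + D * HN (P i)) +
      (Module.finrank K L * (Module.finrank ℚ K * (3 * D * (k + 3) + 2) * 4 ^ j i) +
        3 * (Module.finrank K L * 4 ^ j i) + (3 * D + 6) * (Module.finrank K L * HN (P i))) +
      Module.finrank K L * (248 * Ck * 4 ^ j i) +
      Module.finrank K L * (2 * ∑ t, logHeight ((W t).xr (P i t - (W t).ml (j i) (P₀ t))) + Ch * 4 ^ j i) +
      Module.finrank K L * ((248 * Ck + Ch + Module.finrank ℚ K * (3 * D * (k + 3) + 2)) *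
        HN (P i) + (4 * D + 2 : ℝ) * 4 ^ j i) =
      Module.finrank K L * ((248 * Ck + Ch + Module.finrank ℚ K * (3 * D * (k + 3) + 2) +
        4 * D + 6) * (4 ^ j i + HN (P i)) +
        2 * ∑ t, logHeight ((W t).xr (P i t - (W t).ml (j i) (P₀ t)))) := by
    ring
  linarith

end Pool.Agent.Lib.MP_17a322_nt.VG
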