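import Pool.Agent.Lib.MP_17a322_nt.VG.L0
import Pool.Agent.Lib.MP_17a322_nt.VN.L2A0

/-!
Part L-II of VG: the relations `alv` and the elimination `BE`.
-/

universe u

namespace Pool.Agent.Lib.MP_17a322_nt.VG

open MvPolynomial Height
open Pool.Agent.Lib.MP_17a322_nt.RO
open Pool.Agent.Lib.MP_17a322_nt.VJ
open Pool.Agent.Lib.MP_17a322_nt.VN

/-- The relation attached to the variable `ξ_p`; `0` for the other variables. -/
noncomputable def alv {K : Type u} [Field K] {m n : ℕ} (W : Fin n → CT K)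
    (χ : Fin n → Bool) (j : Fin m → ℕ) : VL m n → MvPolynomial (VL m n) K :=
  Sum.elim (fun _ => 0) (Sum.elim (fun _ => 0) (al W χ j))

/-- Elimination of the variables `ξ_(i, t)`, all `t`. -/
noncomputable def BE {K : Type u} [Field K] {m n : ℕ} (W : Fin n → CT K)
    (χ : Fin n → Bool) (j : Fin m → ℕ) (i : Fin m) (N : MvPolynomial (VL m n) K) :
    MvPolynomial (VL m n) K :=
  ELL (alv W χ j) ((List.finRange n).map fun t => (vZ (i, t) : VL m n)) N

theorem alv_vX {K : Type u} [Field K] {m n : ℕ} (W : Fin n → CT K)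
    (χ : Fin n → Bool) (j : Fin m → ℕ) (t : Fin n) : alv W χ j (vX t) = 0 := rfl

theorem alv_vS {K : Type u} [Field K] {m n : ℕ} (W : Fin n → CT K)
    (χ : Fin n → Bool) (j : Fin m → ℕ) (p : Fin m × Fin n) : alv W χ j (vS p) = 0 := rfl

theorem alv_vZ {K : Type u} [Field K] {m n : ℕ} (W : Fin n → CT K)
    (χ : Fin n → Bool) (j : Fin m → ℕ) (p : Fin m × Fin n) : alv W χ j (vZ p) = al W χ j p := rfl

end Pool.Agent.Lib.MP_17a322_nt.VG
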