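import Pool.Agent.Lib.MP_17a322_nt.VG.L0
import Pool.Agent.Lib.MP_17a322_nt.VN.L2A1

/-!
Part L-II of VG: the relations `al`: values, degrees, heights.
-/

universe u

namespace Pool.Agent.Lib.MP_17a322_nt.VG

open MvPolynomial Height
open Pool.Agent.Lib.MP_17a322_nt.RO
open Pool.Agent.Lib.MP_17a322_nt.VJ
open Pool.Agent.Lib.MP_17a322_nt.VN

theorem map_S3 {K : Type u} [Field K] (W : CT K) {A A' : Type*} [CommRing A]
    [Algebra K A] [CommRing A'] [Algebra K A'] (f : A →ₐ[K] A') (R Q Z : Fin 2 → A) :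
    f (S3 W R Q Z) = S3 W (fun j => f (R j)) (fun j => f (Q j)) (fun j => f (Z j)) := by
  cases W with
  | ell W => exact VJ.map_S3 W f R Q Z
  | tor => simp [S3]

/-- Value of `al`. -/
theorem aeval_al {K : Type u} [Field K] {m n : ℕ} (W : Fin n → CT K)
    (χ : Fin n → Bool) (j : Fin m → ℕ) (p : Fin m × Fin n) {A : Type*} [CommRing A] [Algebra K A]
    (s : VL m n → A) : aeval s (al W χ j p) =
      S3 (W p.2) (mu (W p.2) (j p.1) ![s (vX p.2), 1]) (vc (χ p.2) (s (vS p)))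
        ![s (vZ p), 1] := by
  unfold al
  rw [map_S3]
  congr 1
  · funext i
    rw [map_mu]
    congr 1
    funext k
    fin_cases k
    · simp
    · simp
  · funext k
    cases χ p.2
    · fin_cases k
      · simp [vc]
      · simp [vc]
    · fin_cases k
      · simp [vc]
      · simp [vc]
  · funext k
    fin_cases k
    · simp
    · simp

theorem al_ell {K : Type u} [Field K] {m n : ℕ} (W : Fin n → CT K)
    (χ : Fin n → Bool) (j : Fin m → ℕ) (p : Fin m × Fin n) (W₀ : WeierstrassCurve K)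
    (h : W p.2 = CT.ell W₀) : al W χ j p = VN.al (fun _ => W₀) χ j p := by
  unfold al VN.al
  rw [h]
  rfl

/-- The linear form for a torus coordinate. -/
private noncomputable def L2A1_b {K : Type u} [Field K] {m n : ℕ} (c : Bool) (l : ℕ)
    (p : Fin m × Fin n) : MvPolynomial (VL m n) K :=
  X (vZ p) * (vc c (X (vS p)) 1 * X (vX p.2) ^ l) - vc c (X (vS p)) 0

private theorem L2A1_tor {K : Type u} [Field K] {m n : ℕ} (W : Fin n → CT K)
    (χ : Fin n → Bool) (j : Fin m → ℕ) (p : Fin m × Fin n)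
    (h : W p.2 = CT.tor) : al W χ j p = L2A1_b (χ p.2) (4 ^ j p.1) p ^ 2 := by
  unfold al L2A1_b
  rw [h]
  simp [S3, mu]

private theorem L2A1_tor_le {K : Type u} [Field K] {m n : ℕ} (c : Bool) (l : ℕ)
    (p : Fin m × Fin n) (y : VL m n) :
    (L2A1_b c l p ^ 2 : MvPolynomial (VL m n) K).degreeOf y ≤
      2 * ((if y = vX p.2 then l else 0) + (if y = vS p then 1 else 0) +
        (if y = vZ p then 1 else 0)) := by
  have hX : degreeOf y (X (vX p.2) ^ l : MvPolynomial (VL m n) K) ≤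
      if y = vX p.2 then l else 0 := by
    refine (E8_pow l (E8_X (K := K) (vX p.2) y)).trans ?_
    split_ifs <;> simp
  have hZ : degreeOf y (X (vZ p) : MvPolynomial (VL m n) K) ≤ if y = vZ p then 1 else 0 :=
    E8_X (K := K) (vZ p) y
  have hS : ∀ i, degreeOf y (vc c (X (vS p) : MvPolynomial (VL m n) K) i) ≤
      if y = vS p then 1 else 0 := fun i => E8_vc (K := K) c (vS p) y i
  refine E8_pow 2 ?_
  unfold L2A1_b
  refine E8_sub ?_ ?_
  · refine (E8_mul hZ (E8_mul (hS 1) hX)).trans ?_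
    omega
  · refine (hS 0).trans ?_
    omega

private theorem L2A1_Z {K : Type u} [Field K] {m n : ℕ} (c : Bool) (l : ℕ)
    (p : Fin m × Fin n) :
    (L2A1_b c l p ^ 2 : MvPolynomial (VL m n) K).degreeOf (vZ p) = 2 := by
  have hX : degreeOf (vZ p) (X (vX p.2) ^ l : MvPolynomial (VL m n) K) ≤ 0 := by
    refine (E8_pow l (E8_X (K := K) (vX p.2) (vZ p))).trans ?_
    simp
  have hS : ∀ i, degreeOf (vZ p) (vc c (X (vS p) : MvPolynomial (VL m n) K) i) ≤ 0 := fun i => by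
    refine (E8_vc (K := K) c (vS p) (vZ p) i).trans ?_
    simp
  have ha : (vc c (X (vS p)) 1 * X (vX p.2) ^ l : MvPolynomial (VL m n) K) ≠ 0 := by
    refine mul_ne_zero ?_ (pow_ne_zero _ (X_ne_zero _))
    cases c
    · simp [vc]
    · simp [vc, X_ne_zero]
  refine (J1a_quad (vZ p) (vc c (X (vS p)) 0 ^ 2)
    (-(2 : MvPolynomial (VL m n) K) * ((vc c (X (vS p)) 1 * X (vX p.2) ^ l) * vc c (X (vS p)) 0))
    ((vc c (X (vS p)) 1 * X (vX p.2) ^ l) ^ 2) ?_ ?_ ?_ (pow_ne_zero _ ha) _ ?_).1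
  · exact E8_pow 2 (hS 0)
  · have h2 : degreeOf (vZ p) (-(2 : MvPolynomial (VL m n) K)) ≤ 0 := by
      have : (-(2 : MvPolynomial (VL m n) K)) = C (-2) := by rw [map_neg, map_ofNat]
      rw [this, degreeOf_C]
    exact E8_mul h2 (E8_mul (E8_mul (hS 1) hX) (hS 0))
  · exact E8_pow 2 (E8_mul (hS 1) hX)
  · unfold L2A1_b
    ring

private theorem L2A1_S {K : Type u} [Field K] {m n : ℕ} (c : Bool) (l : ℕ)
    (p : Fin m × Fin n) :
    (L2A1_b c l p ^ 2 : MvPolynomial (VL m n) K).degreeOf (vS p) = 2 := by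
  have hX : degreeOf (vS p) (X (vX p.2) ^ l : MvPolynomial (VL m n) K) ≤ 0 := by
    refine (E8_pow l (E8_X (K := K) (vX p.2) (vS p))).trans ?_
    simp
  have hZ : degreeOf (vS p) (X (vZ p) : MvPolynomial (VL m n) K) ≤ 0 := by
    refine (E8_X (K := K) (vZ p) (vS p)).trans ?_
    simp
  have hZX : degreeOf (vS p) (X (vZ p) * X (vX p.2) ^ l : MvPolynomial (VL m n) K) ≤ 0 :=
    E8_mul hZ hX
  have h1 : degreeOf (vS p) (1 : MvPolynomial (VL m n) K) ≤ 0 := by
    rw [← C_1, degreeOf_C]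
  have h2 : degreeOf (vS p) (-(2 : MvPolynomial (VL m n) K)) ≤ 0 := by
    have : (-(2 : MvPolynomial (VL m n) K)) = C (-2) := by rw [map_neg, map_ofNat]
    rw [this, degreeOf_C]
  cases c
  · refine (J1a_quad (vS p) ((X (vZ p) * X (vX p.2) ^ l) ^ 2)
      (-(2 : MvPolynomial (VL m n) K) * (X (vZ p) * X (vX p.2) ^ l)) 1 ?_ ?_ h1 one_ne_zero
      _ ?_).1
    · exact E8_pow 2 hZX
    · exact E8_mul h2 hZX
    · simp only [L2A1_b, vc, Bool.false_eq_true, if_false, Matrix.cons_val_zero,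
        Matrix.cons_val_one]
      ring
  · refine (J1a_quad (vS p) 1
      (-(2 : MvPolynomial (VL m n) K) * (X (vZ p) * X (vX p.2) ^ l))
      ((X (vZ p) * X (vX p.2) ^ l) ^ 2) h1 ?_ ?_
      (pow_ne_zero _ (mul_ne_zero (X_ne_zero _) (pow_ne_zero _ (X_ne_zero _)))) _ ?_).1
    · exact E8_mul h2 hZX
    · exact E8_pow 2 hZX
    · simp only [L2A1_b, vc, if_true, Matrix.cons_val_zero, Matrix.cons_val_one]
      ring

private theorem L2A1_NV {K : Type u} [Field K] (v : AbsoluteValue K ℝ) {m n : ℕ} (c : Bool)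
    (l : ℕ) (p : Fin m × Fin n) :
    NV v (L2A1_b c l p ^ 2 : MvPolynomial (VL m n) K) ≤ cst v 2 ^ 2 := by
  have h := SN_NV v (σ := VL m n) (L := K)
  have h1 : NV v (1 : MvPolynomial (VL m n) K) ≤ 1 := by
    rw [← C_1, NV_C, v.map_one]
  have hS : ∀ i, NV v (vc c (X (vS p) : MvPolynomial (VL m n) K) i) ≤ 1 := by
    intro i
    cases c
    · fin_cases i
      · exact (NV_X v (vS p)).le
      · exact h1
    · fin_cases i
      · exact h1
      · exact (NV_X v (vS p)).le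
  have hX : ∀ k : ℕ, NV v (X (vX p.2) ^ k : MvPolynomial (VL m n) K) ≤ 1 := by
    intro k
    induction k with
    | zero => rw [pow_zero]; exact h1
    | succ k ih =>
      rw [pow_succ]
      have h3 := E2_mul h ih (NV_X v (vX p.2)).le
      simpa using h3
  have h2 : NV v (X (vZ p) * (vc c (X (vS p)) 1 * X (vX p.2) ^ l) :
      MvPolynomial (VL m n) K) ≤ 1 := by
    have h3 := E2_mul h (NV_X v (vZ p)).le (E2_mul h (hS 1) (hX l))
    simpa using h3
  have h4 : NV v (L2A1_b c l p : MvPolynomial (VL m n) K) ≤ cst v 2 := by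
    have h5 := h.sub_le_cst h2 (hS 0)
    simpa [L2A1_b] using h5
  rw [pow_two, pow_two]
  exact E2_mul h h4 h4

theorem degreeOf_al_Z {K : Type u} [Field K] {m n : ℕ} (W : Fin n → CT K)
    (χ : Fin n → Bool) (j : Fin m → ℕ) (p : Fin m × Fin n) :
    (al W χ j p).degreeOf (vZ p) = 2 := by
  cases h : W p.2 with
  | ell W₀ => rw [al_ell W χ j p W₀ h, VN.degreeOf_al_Z]
  | tor => rw [L2A1_tor W χ j p h, L2A1_Z]

theorem degreeOf_al_S {K : Type u} [Field K] {m n : ℕ} (W : Fin n → CT K)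
    (χ : Fin n → Bool) (j : Fin m → ℕ) (p : Fin m × Fin n) :
    (al W χ j p).degreeOf (vS p) = 2 := by
  cases h : W p.2 with
  | ell W₀ => rw [al_ell W χ j p W₀ h, VN.degreeOf_al_S]
  | tor => rw [L2A1_tor W χ j p h, L2A1_S]

theorem al_ne_zero {K : Type u} [Field K] {m n : ℕ} (W : Fin n → CT K)
    (χ : Fin n → Bool) (j : Fin m → ℕ) (p : Fin m × Fin n) : al W χ j p ≠ 0 := by
  intro h
  have h1 := degreeOf_al_Z W χ j p
  rw [h, degreeOf_zero] at h1
  exact absurd h1 (by norm_num)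

theorem degreeOf_al_X_le {K : Type u} [Field K] {m n : ℕ} (W : Fin n → CT K)
    (χ : Fin n → Bool) (j : Fin m → ℕ) (p : Fin m × Fin n) :
    (al W χ j p).degreeOf (vX p.2) ≤ 2 * 4 ^ j p.1 := by
  cases h : W p.2 with
  | ell W₀ =>
    rw [al_ell W χ j p W₀ h]
    exact VN.degreeOf_al_X_le (fun _ => W₀) χ j p
  | tor =>
    rw [L2A1_tor W χ j p h]
    refine (L2A1_tor_le _ _ p _).trans ?_
    simp

theorem degreeOf_al_eq_zero {K : Type u} [Field K] {m n : ℕ} (W : Fin n → CT K)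
    (χ : Fin n → Bool) (j : Fin m → ℕ) (p : Fin m × Fin n) (y : VL m n) (hX : y ≠ vX p.2)
    (hS : y ≠ vS p) (hZ : y ≠ vZ p) : (al W χ j p).degreeOf y = 0 := by
  cases h : W p.2 with
  | ell W₀ =>
    rw [al_ell W χ j p W₀ h]
    exact VN.degreeOf_al_eq_zero (fun _ => W₀) χ j p y hX hS hZ
  | tor =>
    rw [L2A1_tor W χ j p h]
    refine Nat.le_zero.1 ((L2A1_tor_le _ _ p _).trans ?_)
    simp [hX, hS, hZ]

theorem nh_al_le {K : Type u} [Field K] [NumberField K] {n : ℕ} (W : Fin n → CT K)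
    (χ : Fin n → Bool) (m : ℕ) :
    ∃ C : ℝ, 0 ≤ C ∧ ∀ (j : Fin m → ℕ) (p : Fin m × Fin n),
      nh (al W χ j p) ≤ C * 4 ^ j p.1 := by
  have h1 : ∀ t : Fin n, ∃ C : ℝ, 0 ≤ C ∧ ∀ (j : Fin m → ℕ) (p : Fin m × Fin n), p.2 = t →
      nh (al W χ j p) ≤ C * 4 ^ j p.1 := by
    intro t
    cases h : W t with
    | ell W₀ =>
      obtain ⟨C, hC0, hC⟩ := VN.nh_al_le (fun _ : Fin n => W₀) χ m
      refine ⟨C, hC0, fun j p hp => ?_⟩
      rw [al_ell W χ j p W₀ (by rw [hp, h])]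
      exact hC j p
    | tor =>
      have h0 : 0 ≤ gs fun v : AbsoluteValue K ℝ => 2 * Real.log (cst v 2) :=
        gs_nonneg fun v _ => mul_nonneg zero_le_two
          (Real.log_nonneg (one_le_cst v (by norm_num)))
      refine ⟨gs fun v : AbsoluteValue K ℝ => 2 * Real.log (cst v 2), h0, fun j p hp => ?_⟩
      have h2 := L2A1_tor W χ j p (by rw [hp, h])
      have h3 : nh (al W χ j p) ≤ gs fun v : AbsoluteValue K ℝ => 2 * Real.log (cst v 2) := by
        refine gs_le (FS_log_NV (al_ne_zero W χ j p)) (FS_const_mul 2 (FS_log_cst 2))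
          fun v _ => ?_
        have h4 : Real.log (cst v 2 ^ 2) = 2 * Real.log (cst v 2) := by
          rw [Real.log_pow]
          norm_num
        rw [← h4]
        refine Real.log_le_log (NV_pos v (al_ne_zero W χ j p)) ?_
        rw [h2]
        exact L2A1_NV v _ _ p
      exact h3.trans (le_mul_of_one_le_right h0 (one_le_pow₀ (by norm_num)))
  choose C hC0 hC using h1
  refine ⟨∑ t, C t, Finset.sum_nonneg fun t _ => hC0 t, fun j p => ?_⟩
  refine (hC p.2 j p rfl).trans ?_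
  exact mul_le_mul_of_nonneg_right
    (Finset.single_le_sum (fun t _ => hC0 t) (Finset.mem_univ p.2)) (by positivity)

end Pool.Agent.Lib.MP_17a322_nt.VG
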