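import Pool.Agent.Lib.MP_17a322_nt.VG.L2A1
import Pool.Agent.Lib.MP_17a322_nt.VN.L2A2

/-!
Part L-II of VG: the eliminant of `ξ_p` from the relation and `N` is not zero.
-/

universe u

namespace Pool.Agent.Lib.MP_17a322_nt.VG

open MvPolynomial Height
open Pool.Agent.Lib.MP_17a322_nt.RO
open Pool.Agent.Lib.MP_17a322_nt.VJ
open Pool.Agent.Lib.MP_17a322_nt.VN

theorem El_al_ne_zero {K : Type u} [Field K] {m n : ℕ} (W : Fin n → CT K)
    (hW : ∀ t, (W t).IsE) (χ : Fin n → Bool) (j : Fin m → ℕ) (p : Fin m × Fin n)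
    (N : MvPolynomial (VL m n) K) (hN : N ≠ 0) (hS : N.degreeOf (vS p) = 0) :
    El (vZ p) (al W χ j p) N ≠ 0 := by
  cases hWp : W p.2 with
  | ell W₀ =>
    have hE : W₀.IsElliptic := by
      have h := hW p.2
      rw [hWp] at h
      exact h
    rw [al_ell W χ j p W₀ hWp]
    exact VN.El_al_ne_zero (fun _ => W₀) χ j p N hN hS
  | tor =>
  obtain ⟨Ω, _, _, _, s, hs⟩ := L2A2_generic K (VL m n)
  intro h0
  have hinj : ∀ F : MvPolynomial (VL m n) K, aeval s F = 0 → F = 0 := fun F hF =>
    (injective_iff_map_eq_zero (aeval s : MvPolynomial (VL m n) K →ₐ[K] Ω)).1 hs F hF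
  have hl : aeval s (lcv (vZ p) (al W χ j p)) ≠ 0 := fun h =>
    J1c_lcv_ne_zero (vZ p) (al_ne_zero W χ j p) (hinj _ h)
  have hE : aeval s (El (vZ p) (al W χ j p) N) = 0 := by
    rw [h0, map_zero]
  obtain ⟨ρ, hρ1, hρ2⟩ := exists_root_of_El (vZ p) (al W χ j p) N
    (by rw [degreeOf_al_Z]; norm_num) s hl hE
  have hSZ : (vS p : VL m n) ≠ vZ p := by
    intro h
    cases h
  have hXZ : (vX p.2 : VL m n) ≠ vZ p := by
    intro h
    cases h
  have hXS : (vX p.2 : VL m n) ≠ vS p := by
    intro h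
    cases h
  -- the relation
  rw [aeval_al, Function.update_of_ne hXZ, Function.update_of_ne hSZ, Function.update_self,
    hWp] at hρ1
  -- the new point
  have hvS : Function.update (Function.update s (vZ p) ρ) (vS p) (s (vZ p)) (vS p) = s (vZ p) :=
    Function.update_self _ _ _
  have hvZ : Function.update (Function.update s (vZ p) ρ) (vS p) (s (vZ p)) (vZ p) = ρ := by
    rw [Function.update_of_ne hSZ.symm, Function.update_self]
  have hvX : Function.update (Function.update s (vZ p) ρ) (vS p) (s (vZ p)) (vX p.2) =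
      s (vX p.2) := by
    rw [Function.update_of_ne hXS, Function.update_of_ne hXZ]
  have hvb : ∀ b, b ≠ vZ p → b ≠ vS p →
      Function.update (Function.update s (vZ p) ρ) (vS p) (s (vZ p)) b = s b := by
    intro b hb1 hb2
    rw [Function.update_of_ne hb2, Function.update_of_ne hb1]
  generalize hv : Function.update (Function.update s (vZ p) ρ) (vS p) (s (vZ p)) = v
    at hvS hvZ hvX hvb
  have hmem : ∀ b, v b ∈ IntermediateField.adjoin K (Set.range v) := fun b =>
    IntermediateField.subset_adjoin K _ (Set.mem_range_self b)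
  have hmemalg : ∀ y, y ∈ IntermediateField.adjoin K (Set.range v) →
      IsAlgebraic (IntermediateField.adjoin K (Set.range v)) y := fun y hy =>
    isAlgebraic_algebraMap (⟨y, hy⟩ : IntermediateField.adjoin K (Set.range v))
  have hx : s (vX p.2) ∈ IntermediateField.adjoin K (Set.range v) := hvX ▸ hmem (vX p.2)
  have hr : ρ ∈ IntermediateField.adjoin K (Set.range v) := hvZ ▸ hmem (vZ p)
  have hSmem : s (vS p) ∈ IntermediateField.adjoin K (Set.range v) := by
    have h1 : (ρ * (vc (χ p.2) (s (vS p)) 1 * (s (vX p.2)) ^ 4 ^ j p.1) -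
        1 * (vc (χ p.2) (s (vS p)) 0 * 1 ^ 4 ^ j p.1)) ^ 2 = 0 := hρ1
    have h2 := pow_eq_zero_iff (n := 2) (by norm_num) |>.1 h1
    rw [one_pow, mul_one, one_mul, sub_eq_zero] at h2
    cases hc : χ p.2 with
    | false =>
      rw [hc] at h2
      have h3 : ρ * (1 * s (vX p.2) ^ 4 ^ j p.1) = s (vS p) := h2
      rw [← h3, one_mul]
      exact mul_mem hr (pow_mem hx _)
    | true =>
      rw [hc] at h2
      have h3 : ρ * (s (vS p) * s (vX p.2) ^ 4 ^ j p.1) = 1 := h2
      have h4 : s (vS p) * (ρ * s (vX p.2) ^ 4 ^ j p.1) = 1 := by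
        rw [← h3]
        ring
      rw [eq_inv_of_mul_eq_one_left h4]
      exact inv_mem (mul_mem hr (pow_mem hx _))
  have hind : AlgebraicIndependent K v := by
    refine RV.indep_of_algebraic s v hs fun b => ?_
    by_cases hb1 : b = vZ p
    · rw [hb1, ← hvS]
      exact hmemalg _ (hmem _)
    · by_cases hb2 : b = vS p
      · rw [hb2]
        exact hmemalg _ hSmem
      · rw [← hvb b hb1 hb2]
        exact hmemalg _ (hmem _)
  have hvN : aeval v N = 0 := by
    rw [← hv, aeval_update_of_degreeOf_eq_zero (vS p) _ _ hS]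
    exact hρ2
  exact hN ((injective_iff_map_eq_zero (aeval v : MvPolynomial (VL m n) K →ₐ[K] Ω)).1 hind N hvN)

end Pool.Agent.Lib.MP_17a322_nt.VG
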