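import Pool.Agent.Lib.MP_17a322_nt.VG.L0
import Pool.Agent.Lib.MP_17a322_nt.VN.L1n

/-!
The package for one coordinate of one point: torus coordinates.
-/

universe u

namespace Pool.Agent.Lib.MP_17a322_nt.VG

open MvPolynomial Height
open Pool.Agent.Lib.MP_17a322_nt.RO Pool.Agent.Lib.MP_17a322_nt.VJ
open Pool.Agent.Lib.MP_17a322_nt.VN

section

variable {L : Type*} [Field L]

/-- The series `1 + a z`. -/
noncomputable def lw (a : L) : P2 L :=
  1 + PowerSeries.C (PowerSeries.C a) * PowerSeries.X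

theorem nu2_CC (v : AbsoluteValue L ℝ) {r : ℝ} (hr : 0 ≤ r) (κ : ℝ) (n n' : ℕ) (a : L) :
    nu2 v r κ n n' (PowerSeries.C (PowerSeries.C a)) = v a := by
  unfold nu2
  rw [PA_C (SN_PN v hr n), PN_C]

theorem nu2_C (v : AbsoluteValue L ℝ) {r : ℝ} (hr : 0 ≤ r) (κ : ℝ) (n n' : ℕ)
    (S : PowerSeries L) : nu2 v r κ n n' (PowerSeries.C S) = PN v r n S := by
  unfold nu2
  rw [PA_C (SN_PN v hr n)]

theorem lw_size (v : AbsoluteValue L ℝ) {a : L} (ha : v a = 1) {r κ : ℝ} (hr : 0 ≤ r)
    (hκ : 0 ≤ κ) (hκ1 : κ ≤ 1) (n n' : ℕ) : nu2 v r κ n n' (lw a) ≤ cst v 2 := by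
  have h := SN_nu2 v hr hκ n n'
  have h1 : nu2 v r κ n n' (1 : P2 L) ≤ 1 := h.one_le
  have h2 : nu2 v r κ n n' (PowerSeries.C (PowerSeries.C a) * PowerSeries.X : P2 L) ≤ 1 := by
    refine (h.mul _ _).trans ?_
    rw [nu2_CC v hr, ha, one_mul]
    exact (PA_X_le (SN_PN v hr n) hκ n').trans hκ1
  have h3 := h.add_le_cst h1 h2
  rw [mul_one] at h3
  exact h3

theorem u_size (v : AbsoluteValue L ℝ) {a : L} (ha : v a = 1) {S : PowerSeries L} {rho b : ℝ}
    (hS : ∀ n, PN v rho n S ≤ cst v 2 * b) {r κ : ℝ} (hr : 0 ≤ r)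
    (hr1 : r ≤ rho) (hκ : 0 ≤ κ) (hκ1 : κ ≤ 1) (n n' : ℕ) :
    nu2 v r κ n n' (PowerSeries.C S * lw a) ≤ cst v 2 ^ 2 * b := by
  have h := SN_nu2 v hr hκ n n'
  have h1 : nu2 v r κ n n' (PowerSeries.C S) ≤ cst v 2 * b := by
    rw [nu2_C v hr]
    exact (PN_mono_radius v hr hr1 n S).trans (hS n)
  have h2 := lw_size v ha hr hκ hκ1 n n'
  have h3 := E2_mul h h1 h2
  calc nu2 v r κ n n' (PowerSeries.C S * lw a) ≤ cst v 2 * b * cst v 2 := h3
    _ = cst v 2 ^ 2 * b := by ring

theorem exists_inv (a : L) {S : PowerSeries L} {σ : L} (hσ : PowerSeries.constantCoeff S = σ)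
    (h0 : σ ≠ 0) : ∃ g : P2 L, PowerSeries.C S * lw a * g = 1 ∧ cc2 g = σ⁻¹ := by
  have h1 : IsUnit (PowerSeries.C S * lw a : P2 L) := by
    rw [PowerSeries.isUnit_iff_constantCoeff, PowerSeries.isUnit_iff_constantCoeff]
    unfold lw
    simp only [map_mul, map_add, map_one, PowerSeries.constantCoeff_C,
      PowerSeries.constantCoeff_X, mul_zero, add_zero, mul_one]
    rw [hσ]
    exact isUnit_iff_ne_zero.2 h0
  obtain ⟨g, hg⟩ := h1.exists_right_inv
  refine ⟨g, hg, ?_⟩
  have h2 : cc2 (PowerSeries.C S * lw a * g) = cc2 (1 : P2 L) := by rw [hg]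
  unfold cc2 lw at h2
  simp only [map_mul, map_add, map_one, PowerSeries.constantCoeff_C,
      PowerSeries.constantCoeff_X, mul_zero, add_zero, mul_one] at h2
  rw [hσ] at h2
  unfold cc2
  exact eq_inv_of_mul_eq_one_right h2

theorem inv_size (v : AbsoluteValue L ℝ) {a : L} (ha : v a = 1) {S : PowerSeries L} {rho : ℝ}
    {σ : L} (hσ : PowerSeries.constantCoeff S = σ)
    (hrho : 0 ≤ rho) (hS : ∀ n, PN v rho n S ≤ cst v 2 * v σ) {g : P2 L}
    (hg : PowerSeries.C S * lw a * g = 1) {l : ℝ} (hl : 0 ≤ l) (hl1 : l * cst v 2 ^ 3 ≤ 1)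
    (n n' : ℕ) : nu2 v (l * rho) l n n' g ≤ cst v 2 / v σ := by
  have hc : (1 : ℝ) ≤ cst v 2 := one_le_cst v (by norm_num)
  have hl2 : l ≤ 1 := (le_mul_of_one_le_right hl (one_le_pow₀ hc)).trans hl1
  have h1 := PA2_inv v (r := rho) (κ := 1) (lam := l) (B := cst v 2 ^ 2 * v σ) hrho zero_le_one
    hl hl2 (PowerSeries.C S * lw a) g hg
    (fun n n' => u_size v ha hS hrho le_rfl zero_le_one le_rfl n n')
  have h2 : PowerSeries.constantCoeff (PowerSeries.constantCoeff (PowerSeries.C S * lw a : P2 L)) =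
      σ := by
    unfold lw
    simp only [map_mul, map_add, map_one, PowerSeries.constantCoeff_C,
      PowerSeries.constantCoeff_X, mul_zero, add_zero, mul_one]
    exact hσ
  rw [h2, mul_one] at h1
  refine h1 ?_ n n'
  calc l * (cst v 2 * (cst v 2 ^ 2 * v σ)) = l * cst v 2 ^ 3 * v σ := by ring
    _ ≤ 1 * v σ := mul_le_mul_of_nonneg_right hl1 (v.nonneg _)
    _ = v σ := one_mul _

end

/-- `max a 1 ^ 2 / a` is the larger of `a`, `1 / a`. -/
private theorem LP_max {a : ℝ} (ha : 0 < a) : a⁻¹ * max a 1 ^ 2 ≤ max a a⁻¹ := by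
  rcases le_total a 1 with h | h
  · rw [max_eq_right h, one_pow, mul_one]
    exact le_max_right _ _
  · rw [max_eq_left h, pow_two, ← mul_assoc, inv_mul_cancel₀ ha.ne', one_mul]
    exact le_max_left _ _

/-- The package for one torus coordinate of one point. -/
theorem pack_tor {K : Type u} [Field K] {L : Type*} [Field L] [Algebra K L] (j : ℕ)
    (x p σ β : L) (hx : x ≠ 0) (χ : Bool) (hσ0 : σ ≠ 0) (hβ : β ^ 2 = σ ^ 2)
    (hp : p = if χ then σ⁻¹ else σ) (U : PowerSeries L) (hU : PowerSeries.constantCoeff U = 0)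
    (r₁ : AbsoluteValue L ℝ → ℝ) (hr₁ : ∀ v, 0 ≤ r₁ v) (hUr : ∀ v n, PN v (r₁ v) n U ≤ 1) :
    ∃ (u ξ : P2 L) (Y : PowerSeries L),
      PowerSeries.constantCoeff u = PowerSeries.C σ + U ∧
      PowerSeries.coeff 1 u = (if χ then Y else -Y) ∧
      Y ^ 2 = ph (CT.tor : CT K) (vc χ (PowerSeries.C σ + U)) ∧
      PowerSeries.constantCoeff Y = β ∧
      S3 (CT.tor : CT K) (M2 (mu (CT.tor : CT K) j ![x, 1])) (vc χ u) ![ξ, 1] = 0 ∧
      cc2 ξ = p / x ^ 4 ^ j ∧ cc2 u = σ ∧
      ∀ (v : AbsoluteValue L ℝ) (rho : ℝ), 0 ≤ rho →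
        rho * (kc (CT.tor : CT K) v ^ 40 * vn v (vc χ σ) ^ 4) ≤ r₁ v * v β ^ 2 →
        PKG (CT.tor : CT K) v χ (mu (CT.tor : CT K) j ![x, 1]) σ (p / x ^ 4 ^ j) u ξ rho ∧
        (∀ n, PN v rho n (PowerSeries.constantCoeff u) ≤ cst v 2 * max 1 (v σ)) ∧
        ∀ n, PN v rho n Y ≤ cst v 2 * v β := by
  classical
  have hX0 : x ^ 4 ^ j ≠ 0 := pow_ne_zero _ hx
  have hβ0 : β ≠ 0 := by
    intro h
    rw [h, zero_pow two_ne_zero] at hβ
    exact hσ0 (pow_eq_zero_iff two_ne_zero |>.1 hβ.symm)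
  set S : PowerSeries L := PowerSeries.C σ + U with hSdef
  have hS0 : PowerSeries.constantCoeff S = σ := by
    rw [hSdef, map_add, PowerSeries.constantCoeff_C, hU, add_zero]
  set a : L := (if χ then β / σ else -(β / σ)) with hadef
  have hsq : (β / σ) ^ 2 = 1 := by
    rw [div_pow, hβ, div_self (pow_ne_zero 2 hσ0)]
  have ha2 : a ^ 2 = 1 := by
    rw [hadef]
    split_ifs
    · exact hsq
    · rw [neg_sq]
      exact hsq
  have hva : ∀ v : AbsoluteValue L ℝ, v a = 1 := by
    intro v
    have h1 : v a ^ 2 = 1 := by rw [← map_pow, ha2, map_one]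
    exact (pow_eq_one_iff_of_nonneg (v.nonneg a) two_ne_zero).1 h1
  have hvb : ∀ v : AbsoluteValue L ℝ, v (β / σ) = 1 := by
    intro v
    have h1 : v (β / σ) ^ 2 = 1 := by rw [← map_pow, hsq, map_one]
    exact (pow_eq_one_iff_of_nonneg (v.nonneg _) two_ne_zero).1 h1
  obtain ⟨g, hg, hgc⟩ := exists_inv a hS0 hσ0
  set f : P2 L := PowerSeries.C S * lw a with hfdef
  set Y : PowerSeries L := PowerSeries.C (β / σ) * S with hYdef
  set ξ : P2 L := PowerSeries.C (PowerSeries.C (x ^ 4 ^ j)⁻¹) * (if χ then g else f) with hξdef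
  have hXX : (PowerSeries.C (PowerSeries.C (x ^ 4 ^ j)⁻¹) : P2 L) *
      PowerSeries.C (PowerSeries.C (x ^ 4 ^ j)) = 1 := by
    rw [← map_mul, ← map_mul, inv_mul_cancel₀ hX0, map_one, map_one]
  have hMu : mu (CT.tor : CT K) j ![x, 1] = ![x ^ 4 ^ j, 1] := by
    funext i
    fin_cases i
    · rfl
    · exact one_pow _
  have hM0 : M2 (mu (CT.tor : CT K) j ![x, 1]) 0 = PowerSeries.C (PowerSeries.C (x ^ 4 ^ j)) := by
    rw [hMu]
    rfl
  have hM1 : M2 (mu (CT.tor : CT K) j ![x, 1]) 1 = 1 := by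
    rw [hMu]
    change PowerSeries.C (PowerSeries.C (1 : L)) = (1 : P2 L)
    rw [map_one, map_one]
  refine ⟨f, ξ, Y, ?_, ?_, ?_, ?_, ?_, ?_, ?_, ?_⟩
  · rw [hfdef]
    unfold lw
    simp only [map_mul, map_add, map_one, PowerSeries.constantCoeff_C,
      PowerSeries.constantCoeff_X, mul_zero, add_zero, mul_one]
  · rw [hfdef]
    unfold lw
    rw [mul_add, mul_one, map_add, PowerSeries.coeff_C, if_neg one_ne_zero, zero_add,
      ← mul_assoc, ← map_mul, PowerSeries.coeff_C_mul, PowerSeries.coeff_one_X, mul_one, hYdef,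
      hadef]
    cases χ
    · simp only [Bool.false_eq_true, if_false, map_neg]
      ring
    · simp only [if_true]
      ring
  · rw [hYdef, mul_pow, ← map_pow, hsq, map_one, one_mul]
    cases χ
    · change S ^ 2 = (S * 1) ^ 2
      rw [mul_one]
    · change S ^ 2 = (1 * S) ^ 2
      rw [one_mul]
  · rw [hYdef, map_mul, PowerSeries.constantCoeff_C, hS0, div_mul_cancel₀ _ hσ0]
  · cases χ
    · change (ξ * (1 * M2 (mu (CT.tor : CT K) j ![x, 1]) 0) -
        1 * (f * M2 (mu (CT.tor : CT K) j ![x, 1]) 1)) ^ 2 = 0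
      rw [hM0, hM1, hξdef]
      simp only [Bool.false_eq_true, if_false]
      have e : PowerSeries.C (PowerSeries.C (x ^ 4 ^ j)⁻¹) * f *
          (1 * PowerSeries.C (PowerSeries.C (x ^ 4 ^ j))) - 1 * (f * 1) =
          f * (PowerSeries.C (PowerSeries.C (x ^ 4 ^ j)⁻¹) *
            PowerSeries.C (PowerSeries.C (x ^ 4 ^ j)) - 1) := by ring
      rw [e, hXX, sub_self, mul_zero, zero_pow two_ne_zero]
    · change (ξ * (f * M2 (mu (CT.tor : CT K) j ![x, 1]) 0) -
        1 * (1 * M2 (mu (CT.tor : CT K) j ![x, 1]) 1)) ^ 2 = 0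
      rw [hM0, hM1, hξdef]
      simp only [if_true]
      have e : PowerSeries.C (PowerSeries.C (x ^ 4 ^ j)⁻¹) * g *
          (f * PowerSeries.C (PowerSeries.C (x ^ 4 ^ j))) - 1 * (1 * 1) =
          f * g * (PowerSeries.C (PowerSeries.C (x ^ 4 ^ j)⁻¹) *
            PowerSeries.C (PowerSeries.C (x ^ 4 ^ j))) - 1 := by ring
      rw [e, hXX, hg, one_mul, sub_self, zero_pow two_ne_zero]
  · have hff : cc2 f = σ := by
      rw [hfdef]
      unfold cc2 lw
      simp only [map_mul, map_add, map_one, PowerSeries.constantCoeff_C,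
        PowerSeries.constantCoeff_X, mul_zero, add_zero, mul_one]
      exact hS0
    rw [hξdef, hp]
    cases χ
    · simp only [Bool.false_eq_true, if_false]
      change cc2 (PowerSeries.C (PowerSeries.C (x ^ 4 ^ j)⁻¹) * f) = _
      unfold cc2 at hff ⊢
      rw [map_mul, map_mul, hff, PowerSeries.constantCoeff_C, PowerSeries.constantCoeff_C,
        div_eq_mul_inv, mul_comm]
    · simp only [if_true]
      change cc2 (PowerSeries.C (PowerSeries.C (x ^ 4 ^ j)⁻¹) * g) = _
      unfold cc2 at hgc ⊢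
      rw [map_mul, map_mul, hgc, PowerSeries.constantCoeff_C, PowerSeries.constantCoeff_C,
        div_eq_mul_inv, mul_comm]
  · rw [hfdef]
    unfold cc2 lw
    simp only [map_mul, map_add, map_one, PowerSeries.constantCoeff_C,
      PowerSeries.constantCoeff_X, mul_zero, add_zero, mul_one]
    exact hS0
  · intro v rho hrho hle
    have hfc : PowerSeries.constantCoeff f = S := by
      rw [hfdef]
      unfold lw
      simp only [map_mul, map_add, map_one, PowerSeries.constantCoeff_C,
        PowerSeries.constantCoeff_X, mul_zero, add_zero, mul_one]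
    set k : ℝ := kc (CT.tor : CT K) v with hk
    have hk1 : 1 ≤ k := one_le_kc _ v
    have hk0 : 0 < k := zero_lt_one.trans_le hk1
    have hc1 : (1 : ℝ) ≤ cst v 2 := one_le_cst v (by norm_num)
    have hck : cst v 2 ≤ k := cst_two_le_kc _ v
    have hσv : 0 < v σ := v.pos hσ0
    have hβv : v β = v σ := by
      have h1 := hvb v
      rw [map_div₀, div_eq_one_iff_eq hσv.ne'] at h1
      exact h1
    have hvn : vn v (vc χ σ) = max 1 (v σ) := by
      unfold vn
      cases χ
      · change max (v σ) (v 1) = _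
        rw [map_one, max_comm]
      · change max (v 1) (v σ) = _
        rw [map_one]
    -- the size of `S`
    have hUs : ∀ n, PN v rho n U ≤ v σ := by
      intro n
      rw [hvn, hβv] at hle
      have hm1 : 1 ≤ max 1 (v σ) := le_max_left _ _
      have hm : v σ ≤ max 1 (v σ) := le_max_right _ _
      have hden : 0 < k ^ 40 * max 1 (v σ) ^ 4 := by positivity
      set l : ℝ := v σ ^ 2 / (k ^ 40 * max 1 (v σ) ^ 4) with hl
      have hl0 : 0 ≤ l := by positivity
      have h4 : max 1 (v σ) ^ 2 ≤ k ^ 40 * max 1 (v σ) ^ 4 := by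
        have h5 : max 1 (v σ) ^ 2 ≤ max 1 (v σ) ^ 4 := pow_le_pow_right₀ hm1 (by norm_num)
        exact h5.trans (le_mul_of_one_le_left (by positivity) (one_le_pow₀ hk1))
      have hl1 : l ≤ 1 := by
        rw [hl, div_le_one hden]
        exact (pow_le_pow_left₀ hσv.le hm 2).trans h4
      have hlσ : l ≤ v σ := by
        rw [hl, div_le_iff₀ hden, pow_two]
        refine mul_le_mul_of_nonneg_left ?_ hσv.le
        have h5 : max 1 (v σ) ≤ max 1 (v σ) ^ 2 := le_self_pow₀ hm1 two_ne_zero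
        exact hm.trans (h5.trans h4)
      have hrl : rho ≤ l * r₁ v := by
        rw [hl, div_mul_eq_mul_div, le_div_iff₀ hden]
        linarith
      calc PN v rho n U ≤ PN v (l * r₁ v) n U := PN_mono_radius v hrho hrl n U
        _ ≤ l * PN v (r₁ v) n U := PN_scale v (hr₁ v) hl0 hl1 n U hU
        _ ≤ l * 1 := mul_le_mul_of_nonneg_left (hUr v n) hl0
        _ = l := mul_one l
        _ ≤ v σ := hlσ
    have hSs : ∀ n, PN v rho n S ≤ cst v 2 * v σ := by
      intro n
      have h := SN_PN v hrho n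
      rw [hSdef]
      exact h.add_le_cst (by rw [PN_C]) (hUs n)
    have hpow : ∀ n : ℕ, (1 : ℝ) ≤ k ^ n := fun n => one_le_pow₀ hk1
    have hc2k : cst v 2 ^ 2 ≤ k ^ 200 :=
      (pow_le_pow_left₀ (zero_le_one.trans hc1) hck 2).trans (pow_le_pow_right₀ hk1 (by norm_num))
    have hc1k : cst v 2 ≤ k ^ 200 := hck.trans (le_self_pow₀ hk1 (by norm_num))
    have hXv : 0 < v (x ^ 4 ^ j) := v.pos hX0
    have hqv : v (p / x ^ 4 ^ j) = v p / v (x ^ 4 ^ j) := map_div₀ v _ _
    refine ⟨⟨?_, ?_⟩, ?_, ?_⟩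
    · intro hσ1 r κ hr hr1 hκ hκ1 n n'
      have h1 : r ≤ rho := (le_mul_of_one_le_right hr (hpow 200)).trans hr1
      have h2 : κ ≤ 1 := (le_mul_of_one_le_right hκ (hpow 200)).trans hκ1
      refine (u_size v (hva v) hSs hr h1 hκ h2 n n').trans ?_
      exact (mul_le_of_le_one_right (by positivity) hσ1).trans hc2k
    · intro lam' h0 h1
      have hq1 : 1 ≤ max 1 (v (p / x ^ 4 ^ j)) := le_max_left _ _
      have h2 : lam' * k ^ 200 ≤ 1 := by
        refine le_trans ?_ h1
        exact mul_le_mul_of_nonneg_left (le_mul_of_one_le_right (by positivity) hq1) h0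
      have h3 : lam' ≤ 1 := (le_mul_of_one_le_right h0 (hpow 200)).trans h2
      have h4 : lam' * cst v 2 ^ 3 ≤ 1 := by
        refine le_trans (mul_le_mul_of_nonneg_left ?_ h0) h2
        exact (pow_le_pow_left₀ (zero_le_one.trans hc1) hck 3).trans
          (pow_le_pow_right₀ hk1 (by norm_num))
      have hr' : 0 ≤ lam' * rho := mul_nonneg h0 hrho
      have hr1 : lam' * rho ≤ rho := mul_le_of_le_one_left hrho h3
      have hf : ∀ n n', nu2 v (lam' * rho) lam' n n' f ≤ cst v 2 ^ 2 * v σ :=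
        fun n n' => u_size v (hva v) hSs hr' hr1 h0 h3 n n'
      have hgs : ∀ n n', nu2 v (lam' * rho) lam' n n' g ≤ cst v 2 / v σ :=
        fun n n' => inv_size v (hva v) hS0 hrho hSs hg h0 h4 n n'
      have hCC : ∀ (n n' : ℕ) (c : L), nu2 v (lam' * rho) lam' n n'
          (PowerSeries.C (PowerSeries.C c)) = v c := fun n n' c => nu2_CC v hr' lam' n n' c
      have hN : ∀ n n', SN v (fun f : P2 L => nu2 v (lam' * rho) lam' n n' f) :=
        fun n n' => SN_nu2 v hr' h0 n n'
      refine ⟨?_, ?_⟩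
      · intro n n'
        refine ((hN n n').mul _ _).trans ?_
        rw [hCC]
        cases χ
        · simp only [Bool.false_eq_true, if_false] at hp ⊢
          have e : v (x ^ 4 ^ j)⁻¹ * (cst v 2 ^ 2 * v σ) =
              cst v 2 ^ 2 * v (p / x ^ 4 ^ j) := by
            rw [hqv, hp, map_inv₀]
            ring
          refine (mul_le_mul_of_nonneg_left (hf n n') (v.nonneg _)).trans ?_
          rw [e]
          exact mul_le_mul hc2k (le_max_right _ _) (v.nonneg _) (by positivity)
        · simp only [if_true] at hp ⊢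
          have e : v (x ^ 4 ^ j)⁻¹ * (cst v 2 / v σ) = cst v 2 * v (p / x ^ 4 ^ j) := by
            rw [hqv, hp, map_inv₀, map_inv₀]
            ring
          refine (mul_le_mul_of_nonneg_left (hgs n n') (v.nonneg _)).trans ?_
          rw [e]
          exact mul_le_mul hc1k (le_max_right _ _) (v.nonneg _) (by positivity)
      · intro hσ1
        have hB : ∀ n n', nu2 v (lam' * rho) lam' n n'
            (PowerSeries.C (PowerSeries.C (x ^ 4 ^ j)) * f) ≤
            k ^ 200 * vn v (mu (CT.tor : CT K) j ![x, 1]) ^ 2 := by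
          intro n n'
          refine ((hN n n').mul _ _).trans ?_
          rw [hCC]
          have h5 : nu2 v (lam' * rho) lam' n n' f ≤ k ^ 200 :=
            (hf n n').trans ((mul_le_of_le_one_right (by positivity) hσ1).trans hc2k)
          have h6 : v (x ^ 4 ^ j) ≤ vn v (mu (CT.tor : CT K) j ![x, 1]) ^ 2 := by
            rw [hMu]
            change v (x ^ 4 ^ j) ≤ max (v (x ^ 4 ^ j)) (v 1) ^ 2
            rw [map_one]
            exact (le_max_left _ _).trans (le_self_pow₀ (le_max_right _ _) two_ne_zero)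
          rw [mul_comm (k ^ 200)]
          exact mul_le_mul h6 h5 ((hN n n').nonneg _) (by positivity)
        have hvM : vn v (mu (CT.tor : CT K) j ![x, 1]) = max (v (x ^ 4 ^ j)) 1 := by
          rw [hMu]
          change max (v (x ^ 4 ^ j)) (v 1) = _
          rw [map_one]
        have hvMp : 0 < vn v (mu (CT.tor : CT K) j ![x, 1]) ^ 2 := by
          rw [hvM]
          positivity
        have hσi : 1 ≤ (v σ)⁻¹ := (one_le_inv₀ hσv).2 hσ1
        have hsg : sg (CT.tor : CT K) v σ = (v σ)⁻¹ ^ 2 := by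
          change max 1 (v σ)⁻¹ ^ 2 = _
          rw [max_eq_right hσi]
        have hqq : qq (CT.tor : CT K) v (p / x ^ 4 ^ j) =
          max 1 (v (p / x ^ 4 ^ j)) * max 1 (v (p / x ^ 4 ^ j))⁻¹ := rfl
        cases χ
        · simp only [Bool.false_eq_true, if_false] at hp
          refine ⟨false, PowerSeries.C (PowerSeries.C (x ^ 4 ^ j)) * f,
            PowerSeries.C (PowerSeries.C (x ^ 4 ^ j)⁻¹), ?_, ?_, ?_, fun n n' => ⟨hB n n', ?_⟩⟩
          · change _ = (M2 (mu (CT.tor : CT K) j ![x, 1]) 0 *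
              M2 (mu (CT.tor : CT K) j ![x, 1]) 1) ^ 2 * (f * 1) ^ 2
            rw [hM0, hM1]
            ring
          · change 1 * M2 (mu (CT.tor : CT K) j ![x, 1]) 0 * _ = 1
            rw [hM0, one_mul, mul_comm]
            exact hXX
          · change f * M2 (mu (CT.tor : CT K) j ![x, 1]) 1 * _ = ξ
            rw [hM1, mul_one, mul_comm]
            rfl
          · rw [hCC, le_div_iff₀ hvMp, hvM, hsg, hqq, map_inv₀]
            refine (LP_max hXv).trans (max_le ?_ ?_)
            · have e : v (x ^ 4 ^ j) = v σ * (v (p / x ^ 4 ^ j))⁻¹ := by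
                rw [hqv, hp]
                field_simp
              rw [e]
              have h7 : v σ * (v (p / x ^ 4 ^ j))⁻¹ ≤ 1 * max 1 (v (p / x ^ 4 ^ j))⁻¹ :=
                mul_le_mul hσ1 (le_max_right _ _) (by positivity) zero_le_one
              refine h7.trans ?_
              rw [one_mul]
              have h8 : max 1 (v (p / x ^ 4 ^ j))⁻¹ ≤
                  max 1 (v (p / x ^ 4 ^ j)) * max 1 (v (p / x ^ 4 ^ j))⁻¹ :=
                le_mul_of_one_le_left (by positivity) hq1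
              have h9 : (1 : ℝ) ≤ (v σ)⁻¹ ^ 2 := one_le_pow₀ hσi
              refine h8.trans ((le_mul_of_one_le_right (by positivity) h9).trans ?_)
              exact le_mul_of_one_le_left (by positivity) (hpow 200)
            · have e : (v (x ^ 4 ^ j))⁻¹ = v (p / x ^ 4 ^ j) * (v σ)⁻¹ := by
                rw [hqv, hp]
                field_simp
              rw [e]
              have h7 : v (p / x ^ 4 ^ j) ≤
                  max 1 (v (p / x ^ 4 ^ j)) * max 1 (v (p / x ^ 4 ^ j))⁻¹ :=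
                (le_max_right _ _).trans (le_mul_of_one_le_right (by positivity)
                  (le_max_left _ _))
              have h8 : (v σ)⁻¹ ≤ (v σ)⁻¹ ^ 2 := le_self_pow₀ hσi two_ne_zero
              refine (mul_le_mul h7 h8 (by positivity) (by positivity)).trans ?_
              exact le_mul_of_one_le_left (by positivity) (hpow 200)
        · simp only [if_true] at hp
          refine ⟨false, PowerSeries.C (PowerSeries.C (x ^ 4 ^ j)) * f,
            PowerSeries.C (PowerSeries.C (x ^ 4 ^ j)⁻¹) * g, ?_, ?_, ?_,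
            fun n n' => ⟨hB n n', ?_⟩⟩
          · change _ = (M2 (mu (CT.tor : CT K) j ![x, 1]) 0 *
              M2 (mu (CT.tor : CT K) j ![x, 1]) 1) ^ 2 * (1 * f) ^ 2
            rw [hM0, hM1]
            ring
          · change f * M2 (mu (CT.tor : CT K) j ![x, 1]) 0 * _ = 1
            rw [hM0]
            have e : f * PowerSeries.C (PowerSeries.C (x ^ 4 ^ j)) *
                (PowerSeries.C (PowerSeries.C (x ^ 4 ^ j)⁻¹) * g) =
                f * g * (PowerSeries.C (PowerSeries.C (x ^ 4 ^ j)⁻¹) *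
                  PowerSeries.C (PowerSeries.C (x ^ 4 ^ j))) := by ring
            rw [e, hXX, hg, one_mul]
          · change 1 * M2 (mu (CT.tor : CT K) j ![x, 1]) 1 * _ = ξ
            rw [hM1, one_mul, one_mul]
            rfl
          · have h5 : nu2 v (lam' * rho) lam' n n'
                (PowerSeries.C (PowerSeries.C (x ^ 4 ^ j)⁻¹) * g) ≤
                cst v 2 * v (p / x ^ 4 ^ j) := by
              refine ((hN n n').mul _ _).trans ?_
              rw [hCC]
              refine (mul_le_mul_of_nonneg_left (hgs n n') (v.nonneg _)).trans (le_of_eq ?_)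
              rw [hqv, hp, map_inv₀, map_inv₀]
              ring
            refine h5.trans ?_
            rw [le_div_iff₀ hvMp, hvM, hsg, hqq]
            have hq0 : 0 < v (p / x ^ 4 ^ j) := by
              rw [hp]
              exact v.pos (div_ne_zero (inv_ne_zero hσ0) hX0)
            have e : v (x ^ 4 ^ j) = (v σ)⁻¹ * (v (p / x ^ 4 ^ j))⁻¹ := by
              rw [hqv, hp, map_inv₀]
              field_simp
            have h6 : v (p / x ^ 4 ^ j) * max (v (x ^ 4 ^ j)) 1 ^ 2 ≤
                max 1 (v (p / x ^ 4 ^ j)) * max 1 (v (p / x ^ 4 ^ j))⁻¹ * (v σ)⁻¹ ^ 2 := by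
              rcases le_total (v (x ^ 4 ^ j)) 1 with h7 | h7
              · rw [max_eq_right h7, one_pow, mul_one]
                have h8 : v (p / x ^ 4 ^ j) ≤
                    max 1 (v (p / x ^ 4 ^ j)) * max 1 (v (p / x ^ 4 ^ j))⁻¹ :=
                  (le_max_right _ _).trans (le_mul_of_one_le_right (by positivity)
                    (le_max_left _ _))
                exact h8.trans (le_mul_of_one_le_right (by positivity) (one_le_pow₀ hσi))
              · rw [max_eq_left h7, e]
                have e2 : v (p / x ^ 4 ^ j) * ((v σ)⁻¹ * (v (p / x ^ 4 ^ j))⁻¹) ^ 2 =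
                    (v (p / x ^ 4 ^ j))⁻¹ * (v σ)⁻¹ ^ 2 := by
                  field_simp
                rw [e2]
                refine mul_le_mul_of_nonneg_right ?_ (by positivity)
                exact (le_max_right _ _).trans (le_mul_of_one_le_left (by positivity) hq1)
            calc cst v 2 * v (p / x ^ 4 ^ j) * max (v (x ^ 4 ^ j)) 1 ^ 2 =
                cst v 2 * (v (p / x ^ 4 ^ j) * max (v (x ^ 4 ^ j)) 1 ^ 2) := by ring
              _ ≤ _ := mul_le_mul hc1k h6 (by positivity) (by positivity)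
    · intro n
      rw [hfc]
      exact (hSs n).trans (mul_le_mul_of_nonneg_left (le_max_right _ _)
        (zero_le_one.trans hc1))
    · intro n
      have h := SN_PN v hrho n
      rw [hYdef, hβv]
      refine (h.mul _ _).trans ?_
      rw [PN_C, hvb v, one_mul]
      exact hSs n

end Pool.Agent.Lib.MP_17a322_nt.VG
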